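import Mathlib

/-!
# Gauss reduction of the forms `(q p + t r)² + (X r)²`
-/

set_option autoImplicit false

namespace Pool.Agent.L0h45.DH

/-- the form -/
def psi (q t X p r : ℤ) : ℤ := (q * p + t * r) ^ 2 + (X * r) ^ 2

/-- its polar form -/
def bil (q t X p r p' r' : ℤ) : ℤ := (q * p + t * r) * (q * p' + t * r') + (X * r) * (X * r')

theorem psi_nonneg (q t X p r : ℤ) : 0 ≤ psi q t X p r := by unfold psi; positivity

theorem psi_pos {q t X p r : ℤ} (hq : 0 < q) (hX : 0 < X) (h : ¬ (p = 0 ∧ r = 0)) :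
    0 < psi q t X p r := by
  rcases eq_or_ne r 0 with hr | hr
  · have hp : p ≠ 0 := fun hp => h ⟨hp, hr⟩
    unfold psi
    rw [hr]
    have : q * p ≠ 0 := mul_ne_zero hq.ne' hp
    have h1 : 0 < (q * p) ^ 2 := by positivity
    simpa using h1
  · unfold psi
    have : X * r ≠ 0 := mul_ne_zero hX.ne' hr
    have h1 : 0 < (X * r) ^ 2 := by positivity
    have h2 : 0 ≤ (q * p + t * r) ^ 2 := by positivity
    linarith

theorem psi_add (q t X p r p' r' k : ℤ) : psi q t X (p' + k * p) (r' + k * r) =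
    psi q t X p' r' + 2 * k * bil q t X p r p' r' + k ^ 2 * psi q t X p r := by
  unfold psi bil; ring

theorem bil_add (q t X p r p' r' k : ℤ) : bil q t X p r (p' + k * p) (r' + k * r) =
    bil q t X p r p' r' + k * psi q t X p r := by
  unfold psi bil; ring

theorem gram (q t X p r p' r' : ℤ) : psi q t X p r * psi q t X p' r' - bil q t X p r p' r' ^ 2 =
    (q * X) ^ 2 * (p * r' - p' * r) ^ 2 := by
  unfold psi bil; ring

theorem gauss (q t X : ℤ) (hq : 0 < q) (hX : 0 < X) : ∃ p r p' r' : ℤ, p * r' - p' * r = 1 ∧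
    0 < psi q t X p r ∧ psi q t X p r ≤ psi q t X p' r' ∧
    |2 * bil q t X p r p' r'| ≤ psi q t X p r := by
  classical
  have hex : ∃ n : ℕ, ∃ p r : ℤ, ¬ (p = 0 ∧ r = 0) ∧ psi q t X p r = n :=
    ⟨(psi q t X 1 0).toNat, 1, 0, by simp, (Int.toNat_of_nonneg (psi_nonneg q t X 1 0)).symm⟩
  obtain ⟨p, r, h0, hA⟩ := Nat.find_spec hex
  have hmin : ∀ p' r' : ℤ, ¬ (p' = 0 ∧ r' = 0) → psi q t X p r ≤ psi q t X p' r' := by
    intro p' r' h
    by_contra hcon
    push Not at hcon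
    rw [hA] at hcon
    have h1 : (psi q t X p' r').toNat < Nat.find hex := by
      have := Int.toNat_of_nonneg (psi_nonneg q t X p' r')
      omega
    exact Nat.find_min hex h1 ⟨p', r', h, (Int.toNat_of_nonneg (psi_nonneg q t X p' r')).symm⟩
  have hpos := psi_pos (t := t) hq hX h0
  have hcop : IsCoprime p r := by
    rw [Int.isCoprime_iff_gcd_eq_one]
    by_contra hg
    have hg0 : Int.gcd p r ≠ 0 := by
      intro h
      rw [Int.gcd_eq_zero_iff] at h
      exact h0 h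
    obtain ⟨g, hgd⟩ : ∃ g : ℕ, g = Int.gcd p r := ⟨_, rfl⟩
    have hg2 : 2 ≤ g := by omega
    obtain ⟨p1, hp1⟩ := Int.gcd_dvd_left (a := p) (b := r)
    obtain ⟨r1, hr1⟩ := Int.gcd_dvd_right (a := p) (b := r)
    rw [← hgd] at hp1 hr1
    have h1 : ¬ (p1 = 0 ∧ r1 = 0) := by
      rintro ⟨h2, h3⟩
      exact h0 ⟨by rw [hp1, h2, mul_zero], by rw [hr1, h3, mul_zero]⟩
    have h2 := hmin p1 r1 h1
    have h3 := psi_pos (t := t) hq hX h1
    have h4 : psi q t X p r = (g : ℤ) ^ 2 * psi q t X p1 r1 := by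
      unfold psi
      rw [hp1, hr1]
      ring
    have h5 : (4 : ℤ) ≤ (g : ℤ) ^ 2 := by
      have : (2 : ℤ) ≤ g := by exact_mod_cast hg2
      nlinarith
    nlinarith
  obtain ⟨u, v, huv⟩ := hcop
  obtain ⟨A, hAd⟩ : ∃ A, A = psi q t X p r := ⟨_, rfl⟩
  obtain ⟨B, hBd⟩ : ∃ B, B = bil q t X p r (-v) u := ⟨_, rfl⟩
  have hApos : 0 < A := hAd ▸ hpos
  obtain ⟨k, hk⟩ : ∃ k : ℤ, k = -((2 * B + A) / (2 * A)) := ⟨_, rfl⟩
  refine ⟨p, r, -v + k * p, u + k * r, by linear_combination huv, hpos, ?_, ?_⟩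
  · apply hmin
    rintro ⟨h1, h2⟩
    have : p * (u + k * r) - (-v + k * p) * r = 1 := by linear_combination huv
    rw [h1, h2] at this
    simp at this
  · rw [bil_add, ← hAd, ← hBd]
    have h1 := Int.emod_nonneg (2 * B + A) (by linarith : 2 * A ≠ 0)
    have h2 := Int.emod_lt_of_pos (2 * B + A) (by linarith : 0 < 2 * A)
    have h3 : (2 * B + A) % (2 * A) = 2 * B + A + 2 * A * k := by
      rw [Int.emod_def, hk]; ring
    rw [h3] at h1 h2
    rw [abs_le]
    constructor <;> nlinarith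

/-- the product of the two values -/
theorem gauss_prod {q t X p r p' r' : ℤ} (h1 : p * r' - p' * r = 1)
    (h3 : psi q t X p r ≤ psi q t X p' r')
    (h4 : |2 * bil q t X p r p' r'| ≤ psi q t X p r) :
    3 * (psi q t X p r * psi q t X p' r') ≤ 4 * (q * X) ^ 2 := by
  have hg := gram q t X p r p' r'
  rw [h1] at hg
  have h0 := psi_nonneg q t X p r
  obtain ⟨A, hA⟩ : ∃ A, A = psi q t X p r := ⟨_, rfl⟩
  obtain ⟨C, hC⟩ : ∃ C, C = psi q t X p' r' := ⟨_, rfl⟩
  obtain ⟨B, hB⟩ : ∃ B, B = bil q t X p r p' r' := ⟨_, rfl⟩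
  rw [← hA] at h3 h4 hg h0 ⊢
  rw [← hC] at h3 hg ⊢
  rw [← hB] at h4 hg
  have h5 : (2 * B) ^ 2 ≤ A ^ 2 := by
    rw [← sq_abs (2 * B)]
    have := abs_nonneg (2 * B)
    nlinarith
  have h6 : A ^ 2 ≤ A * C := by nlinarith
  nlinarith

end Pool.Agent.L0h45.DH
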