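import Mathlib
import Pool.Agent.L0h45.DH.Red

/-!
# Binary cubic forms with leading coefficient `q` attached to `q² ∣ x³ - y²`
-/

set_option autoImplicit false

namespace Pool.Agent.L0h45.DH

section alg
variable {A : Type*} [CommRing A]

/-- the polar form of `w³ - 3 x w r² + 2 y r³` -/
def F1 (x y w r w' r' : A) : A :=
  w ^ 2 * w' - x * (2 * w * r * r' + w' * r ^ 2) + 2 * y * r ^ 2 * r'

/-- the polar form of the form `(q, 3t, 3a, b)` -/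
def g1 (q t a b p r p' r' : A) : A :=
  q * p ^ 2 * p' + t * (p ^ 2 * r' + 2 * p * p' * r) + a * (r ^ 2 * p' + 2 * p * r * r') +
    b * r ^ 2 * r'

/-- the Hessian at `(v, -u)` -/
def Hs (c0 c1 c2 c3 u v : A) : A :=
  (c1 ^ 2 - c0 * c2) * v ^ 2 - (c1 * c2 - c0 * c3) * v * u + (c2 ^ 2 - c1 * c3) * u ^ 2

/-- the cubic covariant at `(v, -u)` -/
def Js (c0 c1 c2 c3 u v : A) : A :=
  (c0 ^ 2 * c3 - 3 * c0 * c1 * c2 + 2 * c1 ^ 3) * v ^ 3
    - 3 * (c0 * c1 * c3 - 2 * c0 * c2 ^ 2 + c1 ^ 2 * c2) * v ^ 2 * u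
    + 3 * (-c0 * c2 * c3 + 2 * c1 ^ 2 * c3 - c1 * c2 ^ 2) * v * u ^ 2
    + (c0 * c3 ^ 2 - 3 * c1 * c2 * c3 + 2 * c2 ^ 3) * u ^ 3

theorem Hs_g (q t a b p r p' r' : A) :
    Hs (g1 q t a b p r p r) (g1 q t a b p r p' r') (g1 q t a b p' r' p r) (g1 q t a b p' r' p' r')
      r r' = (t ^ 2 - q * a) * (p * r' - p' * r) ^ 4 := by
  unfold Hs g1; ring

theorem Js_g (q t a b p r p' r' : A) :
    Js (g1 q t a b p r p r) (g1 q t a b p r p' r') (g1 q t a b p' r' p r) (g1 q t a b p' r' p' r')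
      r r' = (q ^ 2 * b - 3 * q * t * a + 2 * t ^ 3) * (p * r' - p' * r) ^ 6 := by
  unfold Js g1; ring

theorem F1_g (x y q t a b p r p' r' : A) (ha : q * a = t ^ 2 - x)
    (hb : q ^ 2 * b = t ^ 3 - 3 * x * t + 2 * y) :
    q ^ 2 * g1 q t a b p r p' r' = F1 x y (q * p + t * r) r (q * p' + t * r') r' := by
  unfold g1 F1
  linear_combination (q * (r ^ 2 * p' + 2 * p * r * r')) * ha + (r ^ 2 * r') * hb

end alg

/-- the residue class `t` modulo `q²` with `x = t²`, `y = t³` -/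
theorem exists_tab (x y q : ℤ) (hcop : IsCoprime q x) (hd : q ^ 2 ∣ x ^ 3 - y ^ 2) :
    ∃ t a b : ℤ, q * a = t ^ 2 - x ∧ q ^ 2 * b = t ^ 3 - 3 * x * t + 2 * y := by
  have h2 : IsCoprime (q ^ 2) x := hcop.pow_left
  obtain ⟨u, v, huv⟩ := h2
  obtain ⟨c, hc⟩ := hd
  have h3 : IsCoprime (q ^ 2) (x ^ 2) := IsCoprime.pow_right (⟨u, v, huv⟩ : IsCoprime (q ^ 2) x)
  have h4 : q ^ 2 ∣ ((y * v) ^ 2 - x) * x ^ 2 := by
    refine ⟨-c - 2 * y ^ 2 * u + y ^ 2 * u ^ 2 * q ^ 2, ?_⟩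
    have hvx : v * x = 1 - u * q ^ 2 := by linear_combination huv
    have e1 : ((y * v) ^ 2 - x) * x ^ 2 = y ^ 2 * (v * x) ^ 2 - x ^ 3 := by ring
    rw [e1, hvx]
    linear_combination -hc
  have h5 : q ^ 2 ∣ (y * v) ^ 2 - x := h3.dvd_of_dvd_mul_right h4
  obtain ⟨w, hw⟩ := h5
  refine ⟨y * v, q * w, 3 * (y * v) * w - 2 * (y * v * w - u * y), by linear_combination -hw, ?_⟩
  have hvx : v * x = 1 - u * q ^ 2 := by linear_combination huv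
  have e1 : (y * v) ^ 3 = y - y * u * q ^ 2 + q ^ 2 * w * (y * v) := by
    have : (y * v) ^ 3 = (y * v) * ((y * v) ^ 2 - x) + y * (v * x) := by ring
    rw [this, hw, hvx]; ring
  have e2 : 3 * x * (y * v) = 3 * y * (v * x) := by ring
  rw [e1, e2, hvx]
  ring

/-- the size of the polar form -/
theorem F1_bound {x y w r w' r' X α β : ℝ} (hα : 0 ≤ α) (hβ : 0 ≤ β)
    (hx : |x| ≤ X ^ 2) (hy : |y| ≤ X ^ 3) (h1 : |w| ≤ α) (h2 : X * |r| ≤ α) (h3 : |w'| ≤ β)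
    (h4 : X * |r'| ≤ β) (hX : 0 < X) : |F1 x y w r w' r'| ≤ 6 * α ^ 2 * β := by
  have e1 : |x * (r * r')| ≤ α * β := by
    rw [abs_mul, abs_mul]
    calc |x| * (|r| * |r'|) ≤ X ^ 2 * (|r| * |r'|) := by gcongr
      _ = (X * |r|) * (X * |r'|) := by ring
      _ ≤ α * β := by gcongr
  have e2 : |x * r ^ 2| ≤ α ^ 2 := by
    rw [abs_mul, abs_pow]
    calc |x| * |r| ^ 2 ≤ X ^ 2 * |r| ^ 2 := by gcongr
      _ = (X * |r|) ^ 2 := by ring
      _ ≤ α ^ 2 := by gcongr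
  have e3 : |y * (r ^ 2 * r')| ≤ α ^ 2 * β := by
    rw [abs_mul, abs_mul, abs_pow]
    calc |y| * (|r| ^ 2 * |r'|) ≤ X ^ 3 * (|r| ^ 2 * |r'|) := by gcongr
      _ = (X * |r|) ^ 2 * (X * |r'|) := by ring
      _ ≤ α ^ 2 * β := by gcongr
  have e4 : |w ^ 2 * w'| ≤ α ^ 2 * β := by
    rw [abs_mul, abs_pow]; gcongr
  have e5 : |x * (r * r') * w| ≤ α * β * α := by
    rw [abs_mul]; gcongr
  have e6 : |x * r ^ 2 * w'| ≤ α ^ 2 * β := by
    rw [abs_mul]; gcongr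
  have e : F1 x y w r w' r' = w ^ 2 * w' - 2 * (x * (r * r') * w) - x * r ^ 2 * w' +
      2 * (y * (r ^ 2 * r')) := by unfold F1; ring
  rw [e]
  obtain ⟨a1, a2⟩ := abs_le.mp e4
  obtain ⟨b1, b2⟩ := abs_le.mp e5
  obtain ⟨c1, c2⟩ := abs_le.mp e6
  obtain ⟨d1, d2⟩ := abs_le.mp e3
  rw [abs_le]
  constructor <;> nlinarith

theorem F1_cast (x y w r w' r' : ℤ) :
    ((F1 x y w r w' r' : ℤ) : ℝ) = F1 (x : ℝ) y w r w' r' := by
  unfold F1; push_cast; ring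

/-- a vanishing value gives an integral root -/
theorem root_of_zero {x y w r : ℤ} (hr : r ≠ 0) (h : F1 x y w r w r = 0) :
    ∃ z : ℤ, z ^ 3 - 3 * x * z + 2 * y = 0 := by
  have hrq : (r : ℚ) ≠ 0 := by exact_mod_cast hr
  obtain ⟨ξ, hξ⟩ : ∃ ξ : ℚ, ξ = (w : ℚ) / r := ⟨_, rfl⟩
  have h1 : ξ ^ 3 - 3 * (x : ℚ) * ξ + 2 * (y : ℚ) = 0 := by
    have h2 : ((F1 x y w r w r : ℤ) : ℚ) = 0 := by exact_mod_cast h
    unfold F1 at h2
    push_cast at h2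
    rw [hξ]
    field_simp
    linear_combination h2
  have h2 : (Polynomial.X ^ 3 - Polynomial.C (3 * x) * Polynomial.X + Polynomial.C (2 * y) :
      Polynomial ℤ).Monic := by
    monicity!
  have h3 : Polynomial.aeval ξ (Polynomial.X ^ 3 - Polynomial.C (3 * x) * Polynomial.X +
      Polynomial.C (2 * y) : Polynomial ℤ) = 0 := by
    simp only [map_add, map_sub, map_mul, map_pow, Polynomial.aeval_X, Polynomial.aeval_C]
    simp
    linear_combination h1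
  obtain ⟨z, hz⟩ := isInteger_of_is_root_of_monic h2 h3
  refine ⟨z, ?_⟩
  have h4 : (z : ℚ) = ξ := by simpa using hz
  rw [← h4] at h1
  exact_mod_cast h1

end Pool.Agent.L0h45.DH
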