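import Mathlib
import Pool.Agent.L0h45.DH.Cub

/-!
# Reduced forms: the sizes of the coefficients
-/

set_option autoImplicit false

namespace Pool.Agent.L0h45.DH

/-- a point `(x, y)` with `q² ∣ x³ - y²`, the form attached to it and a reduced basis -/
structure Pt (X : ℕ) (Q : ℝ) (e : ℤ × ℤ) (q t a b p r p' r' : ℤ) : Prop where
  hx : |(e.1 : ℝ)| ≤ (X : ℝ) ^ 2
  hy : |(e.2 : ℝ)| ≤ (X : ℝ) ^ 3
  q1 : Q ≤ q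
  q2 : (q : ℝ) ≤ 2 * Q
  ha : q * a = t ^ 2 - e.1
  hb : q ^ 2 * b = t ^ 3 - 3 * e.1 * t + 2 * e.2
  det : p * r' - p' * r = 1
  pos : 0 < psi q t X p r
  le : psi q t X p r ≤ psi q t X p' r'
  bl : |2 * bil q t X p r p' r'| ≤ psi q t X p r

theorem exists_pt {X : ℕ} (hX : 1 ≤ X) {Q : ℝ} (hQ : 1 ≤ Q) {e : ℤ × ℤ}
    (hx : |(e.1 : ℝ)| ≤ (X : ℝ) ^ 2) (hy : |(e.2 : ℝ)| ≤ (X : ℝ) ^ 3) {q : ℕ} (q1 : Q ≤ q)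
    (q2 : (q : ℝ) ≤ 2 * Q) (hcop : IsCoprime (q : ℤ) e.1) (hd : (q : ℤ) ^ 2 ∣ e.1 ^ 3 - e.2 ^ 2) :
    ∃ q t a b p r p' r' : ℤ, Pt X Q e q t a b p r p' r' := by
  obtain ⟨t, a, b, ha, hb⟩ := exists_tab e.1 e.2 q hcop hd
  have hq0 : (0 : ℤ) < q := by
    have : (0 : ℝ) < q := by linarith
    exact_mod_cast this
  have hX0 : (0 : ℤ) < (X : ℤ) := by exact_mod_cast hX
  obtain ⟨p, r, p', r', h1, h2, h3, h4⟩ := gauss q t X hq0 hX0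
  exact ⟨q, t, a, b, p, r, p', r', hx, hy, by exact_mod_cast q1, by exact_mod_cast q2, ha, hb, h1,
    h2, h3, h4⟩

section
variable {X : ℕ} {Q : ℝ} {e : ℤ × ℤ} {q t a b p r p' r' : ℤ} {j : ℕ}

theorem sq_le_abs {u v : ℝ} (hv : 0 ≤ v) (h : u ^ 2 ≤ v ^ 2) : |u| ≤ v := abs_le_of_sq_le_sq h hv

theorem psi_cast (q t : ℤ) (X : ℕ) (p r : ℤ) : ((psi q t X p r : ℤ) : ℝ) =
    ((q * p + t * r : ℤ) : ℝ) ^ 2 + ((X : ℝ) * r) ^ 2 := by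
  unfold psi; push_cast; ring

theorem Pt.prod (h : Pt X Q e q t a b p r p' r') (hQ : 1 ≤ Q) :
    ((psi q t X p r : ℤ) : ℝ) * ((psi q t X p' r' : ℤ) : ℝ) ≤ (2.4 * (Q * X)) ^ 2 := by
  have h1 := gauss_prod h.det h.le h.bl
  have h2 : (3 : ℝ) * (((psi q t X p r : ℤ) : ℝ) * ((psi q t X p' r' : ℤ) : ℝ)) ≤
      4 * ((q : ℝ) * X) ^ 2 := by exact_mod_cast h1
  have h3 : (q : ℝ) * X ≤ 2 * Q * X := mul_le_mul_of_nonneg_right h.q2 (Nat.cast_nonneg _)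
  have h4 : (0 : ℝ) ≤ (q : ℝ) * X := by
    have : (0 : ℝ) ≤ q := by linarith [h.q1]
    positivity
  have h5 : ((q : ℝ) * X) ^ 2 ≤ (2 * Q * X) ^ 2 := pow_le_pow_left₀ h4 h3 2
  have h6 : 0 ≤ (Q * X) ^ 2 := sq_nonneg _
  nlinarith

/-- the sizes at the scale `4 ^ j` -/
theorem Pt.sizes (h : Pt X Q e q t a b p r p' r') (hX : 1 ≤ X) (hQ : 1 ≤ Q)
    (h1 : (4 : ℝ) ^ j ≤ ((psi q t X p r : ℤ) : ℝ)) (h2 : ((psi q t X p r : ℤ) : ℝ) < 4 ^ (j + 1)) :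
    |((q * p + t * r : ℤ) : ℝ)| ≤ 2 ^ (j + 1) ∧ (X : ℝ) * |(r : ℝ)| ≤ 2 ^ (j + 1) ∧
    |((q * p' + t * r' : ℤ) : ℝ)| ≤ 2.4 * (Q * X) / 2 ^ j ∧
    (X : ℝ) * |(r' : ℝ)| ≤ 2.4 * (Q * X) / 2 ^ j ∧
    (2 : ℝ) ^ (j + 1) ≤ 2 * (2.4 * (Q * X) / 2 ^ j) ∧ (4 : ℝ) ^ j ≤ 2.4 * (Q * X) := by
  have hX0 : (0 : ℝ) < X := by exact_mod_cast hX
  have hQ0 : 0 < Q := by linarith
  have hP := h.prod hQ
  have hle : ((psi q t X p r : ℤ) : ℝ) ≤ ((psi q t X p' r' : ℤ) : ℝ) := by exact_mod_cast h.le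
  obtain ⟨A, hA⟩ : ∃ A : ℝ, A = ((psi q t X p r : ℤ) : ℝ) := ⟨_, rfl⟩
  obtain ⟨C, hC⟩ : ∃ C : ℝ, C = ((psi q t X p' r' : ℤ) : ℝ) := ⟨_, rfl⟩
  have eA := psi_cast q t X p r
  have eC := psi_cast q t X p' r'
  rw [← hA] at h1 h2 hP hle eA
  rw [← hC] at hP hle eC
  have h4j : (0 : ℝ) < 4 ^ j := by positivity
  have e4 : ((2 : ℝ) ^ j) ^ 2 = 4 ^ j := by rw [← pow_mul, mul_comm, pow_mul]; norm_num
  have e4' : ((2 : ℝ) ^ (j + 1)) ^ 2 = 4 ^ (j + 1) := by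
    rw [← pow_mul, mul_comm, pow_mul]; norm_num
  have hβ0 : 0 ≤ 2.4 * (Q * X) / (2 : ℝ) ^ j := by positivity
  have hβ : C ≤ (2.4 * (Q * X) / (2 : ℝ) ^ j) ^ 2 := by
    rw [div_pow, e4, le_div_iff₀ h4j]
    have hC0 : 0 ≤ C := by rw [eC]; positivity
    nlinarith
  have h5 : (4 : ℝ) ^ j ≤ 2.4 * (Q * X) := by
    by_contra hcon
    push Not at hcon
    have h6 : (0 : ℝ) ≤ 2.4 * (Q * X) := by positivity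
    have h7 : (2.4 * (Q * X)) ^ 2 < (4 ^ j) ^ 2 := by gcongr
    have h8 : ((4 : ℝ) ^ j) ^ 2 ≤ A * C := by
      calc ((4 : ℝ) ^ j) ^ 2 = 4 ^ j * 4 ^ j := by ring
        _ ≤ A * C := mul_le_mul h1 (h1.trans hle) h4j.le (h4j.le.trans h1)
    linarith
  refine ⟨?_, ?_, ?_, ?_, ?_, h5⟩
  · apply sq_le_abs (by positivity)
    rw [e4']
    have : 0 ≤ ((X : ℝ) * r) ^ 2 := by positivity
    linarith
  · rw [show (X : ℝ) * |(r : ℝ)| = |(X : ℝ) * r| by rw [abs_mul, abs_of_pos hX0]]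
    apply sq_le_abs (by positivity)
    rw [e4']
    have : 0 ≤ ((q * p + t * r : ℤ) : ℝ) ^ 2 := by positivity
    linarith
  · apply sq_le_abs hβ0
    have : 0 ≤ ((X : ℝ) * r') ^ 2 := by positivity
    linarith
  · rw [show (X : ℝ) * |(r' : ℝ)| = |(X : ℝ) * r'| by rw [abs_mul, abs_of_pos hX0]]
    apply sq_le_abs hβ0
    have : 0 ≤ ((q * p' + t * r' : ℤ) : ℝ) ^ 2 := by positivity
    linarith
  · have h2j : (0 : ℝ) < 2 ^ j := by positivity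
    rw [pow_succ, mul_comm, mul_le_mul_iff_of_pos_left (by norm_num : (0 : ℝ) < 2),
      le_div_iff₀ h2j, ← pow_two, e4]
    exact h5

/-- the sizes of the coefficients -/
theorem Pt.coef (h : Pt X Q e q t a b p r p' r') (hX : 1 ≤ X) (hQ : 1 ≤ Q)
    (h1 : (4 : ℝ) ^ j ≤ ((psi q t X p r : ℤ) : ℝ)) (h2 : ((psi q t X p r : ℤ) : ℝ) < 4 ^ (j + 1))
    {α β : ℝ} (hα : α = 2 ^ (j + 1)) (hβ : β = 2.4 * (Q * X) / 2 ^ j) :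
    |((g1 q t a b p r p r : ℤ) : ℝ)| ≤ 6 * α ^ 2 * α / Q ^ 2 ∧
    |((g1 q t a b p r p' r' : ℤ) : ℝ)| ≤ 6 * α ^ 2 * β / Q ^ 2 ∧
    |((g1 q t a b p' r' p r : ℤ) : ℝ)| ≤ 6 * β ^ 2 * α / Q ^ 2 ∧
    |((g1 q t a b p' r' p' r' : ℤ) : ℝ)| ≤ 6 * β ^ 2 * β / Q ^ 2 := by
  obtain ⟨s1, s2, s3, s4, -, -⟩ := h.sizes hX hQ h1 h2
  rw [← hα] at s1 s2
  rw [← hβ] at s3 s4
  have hX0 : (0 : ℝ) < X := by exact_mod_cast hX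
  have hQ0 : 0 < Q := by linarith
  have hα0 : 0 ≤ α := by rw [hα]; positivity
  have hβ0 : 0 ≤ β := by rw [hβ]; positivity
  have key : ∀ (P R P' R' : ℤ) (α' β' : ℝ), 0 ≤ α' → 0 ≤ β' → |((q * P + t * R : ℤ) : ℝ)| ≤ α' →
      (X : ℝ) * |(R : ℝ)| ≤ α' → |((q * P' + t * R' : ℤ) : ℝ)| ≤ β' → (X : ℝ) * |(R' : ℝ)| ≤ β' →
      |((g1 q t a b P R P' R' : ℤ) : ℝ)| ≤ 6 * α' ^ 2 * β' / Q ^ 2 := by
    intro P R P' R' α' β' ha' hb' k1 k2 k3 k4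
    have k5 := F1_bound ha' hb' h.hx h.hy k1 k2 k3 k4 hX0
    rw [← F1_cast, ← F1_g e.1 e.2 q t a b P R P' R' h.ha h.hb] at k5
    push_cast at k5
    rw [abs_mul, abs_of_nonneg (by positivity : (0 : ℝ) ≤ (q : ℝ) ^ 2)] at k5
    rw [le_div_iff₀ (by positivity)]
    have k6 : Q ^ 2 ≤ (q : ℝ) ^ 2 := pow_le_pow_left₀ hQ0.le h.q1 2
    have k7 := abs_nonneg ((g1 q t a b P R P' R' : ℤ) : ℝ)
    nlinarith
  exact ⟨key _ _ _ _ _ _ hα0 hα0 s1 s2 s1 s2, key _ _ _ _ _ _ hα0 hβ0 s1 s2 s3 s4,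
    key _ _ _ _ _ _ hβ0 hα0 s3 s4 s1 s2, key _ _ _ _ _ _ hβ0 hβ0 s3 s4 s3 s4⟩

end

end Pool.Agent.L0h45.DH
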