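import Mathlib
import Pool.Agent.L0h45.DH.Pt

/-!
# Counting at one scale
-/

set_option autoImplicit false

namespace Pool.Agent.L0h45.DH

open Finset

theorem card_box {A : ℝ} (hA : 0 ≤ A) : ((Icc (-⌊A⌋) ⌊A⌋ : Finset ℤ).card : ℝ) ≤ 2 * A + 1 := by
  rw [Int.card_Icc]
  have h0 : 0 ≤ ⌊A⌋ := Int.floor_nonneg.mpr hA
  have h1 : (((⌊A⌋ + 1 - -⌊A⌋).toNat : ℕ) : ℤ) = 2 * ⌊A⌋ + 1 := by
    rw [Int.toNat_of_nonneg (by linarith)]; ring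
  have h2 : (((⌊A⌋ + 1 - -⌊A⌋).toNat : ℕ) : ℝ) = 2 * (⌊A⌋ : ℝ) + 1 := by exact_mod_cast h1
  rw [h2]
  linarith [Int.floor_le A]

theorem mem_box {A : ℝ} {z : ℤ} (h : |(z : ℝ)| ≤ A) : z ∈ (Icc (-⌊A⌋) ⌊A⌋ : Finset ℤ) := by
  obtain ⟨h1, h2⟩ := abs_le.mp h
  rw [mem_Icc]
  refine ⟨?_, Int.le_floor.mpr h2⟩
  have : -z ≤ ⌊A⌋ := Int.le_floor.mpr (by push_cast; linarith)
  linarith

theorem boxes {α β Q : ℝ} (hα : 0 < α) (hβ : 0 < β) (hQ : 0 < Q) (hαβ : α ≤ 2 * β)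
    (h0 : 1 ≤ 6 * α ^ 2 * α / Q ^ 2) :
    (2 * (6 * α ^ 2 * α / Q ^ 2) + 1) * ((2 * (6 * α ^ 2 * β / Q ^ 2) + 1) *
      ((2 * (6 * β ^ 2 * α / Q ^ 2) + 1) * (2 * (6 * β ^ 2 * β / Q ^ 2) + 1))) ≤
      933120 * (α * β) ^ 6 / Q ^ 8 := by
  obtain ⟨A0, hA0⟩ : ∃ A0, A0 = 6 * α ^ 2 * α / Q ^ 2 := ⟨_, rfl⟩
  obtain ⟨A1, hA1⟩ : ∃ A1, A1 = 6 * α ^ 2 * β / Q ^ 2 := ⟨_, rfl⟩
  obtain ⟨A2, hA2⟩ : ∃ A2, A2 = 6 * β ^ 2 * α / Q ^ 2 := ⟨_, rfl⟩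
  obtain ⟨A3, hA3⟩ : ∃ A3, A3 = 6 * β ^ 2 * β / Q ^ 2 := ⟨_, rfl⟩
  have hQ2 : 0 < Q ^ 2 := by positivity
  have h1 : A0 ≤ 2 * A1 := by
    rw [hA0, hA1, ← mul_div_assoc]
    apply div_le_div_of_nonneg_right _ hQ2.le
    have : 0 ≤ 6 * α ^ 2 := by positivity
    nlinarith
  have h2 : A1 ≤ 2 * A2 := by
    rw [hA1, hA2, ← mul_div_assoc]
    apply div_le_div_of_nonneg_right _ hQ2.le
    have : 0 ≤ 6 * α * β := by positivity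
    nlinarith
  have h3 : A2 ≤ 2 * A3 := by
    rw [hA2, hA3, ← mul_div_assoc]
    apply div_le_div_of_nonneg_right _ hQ2.le
    have : 0 ≤ 6 * β ^ 2 := by positivity
    nlinarith
  rw [← hA0, ← hA1, ← hA2, ← hA3]
  rw [← hA0] at h0
  have e : 933120 * (α * β) ^ 6 / Q ^ 8 = (3 * A0) * ((4 * A1) * ((6 * A2) * (10 * A3))) := by
    rw [hA0, hA1, hA2, hA3]
    field_simp
    ring
  rw [e]
  have k0 : 2 * A0 + 1 ≤ 3 * A0 := by linarith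
  have k1 : 2 * A1 + 1 ≤ 4 * A1 := by linarith
  have k2 : 2 * A2 + 1 ≤ 6 * A2 := by linarith
  have k3 : 2 * A3 + 1 ≤ 10 * A3 := by linarith
  have p0 : 0 ≤ A0 := by linarith
  have p1 : 0 ≤ A1 := by linarith
  have p2 : 0 ≤ A2 := by linarith
  have p3 : 0 ≤ A3 := by linarith
  gcongr

/-- the coordinates of the second vector -/
noncomputable def TT (X : ℕ) (α β : ℝ) : Finset (ℤ × ℤ) :=
  (Icc (-⌊α / X⌋) ⌊α / X⌋ ×ˢ Icc (-⌊β / X⌋) ⌊β / X⌋).filter fun u => u.1 = 0 → |u.2| = 1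

theorem TT_card {X : ℕ} (hX : 1 ≤ X) {α β : ℝ} (hα : 0 < α) (hβ : 0 < β) (hαβ : α ≤ 2 * β) :
    ((TT X α β).card : ℝ) ≤ 2 + 12 * (α * β) / X ^ 2 := by
  have hX0 : (0 : ℝ) < X := by exact_mod_cast hX
  have hX2 : (0 : ℝ) < (X : ℝ) ^ 2 := by positivity
  rcases lt_or_ge α X with h | h
  · have h1 : ⌊α / (X : ℝ)⌋ = 0 := by
      rw [Int.floor_eq_zero_iff]
      exact ⟨by positivity, (div_lt_one hX0).mpr h⟩
    have h2 : TT X α β ⊆ {((0 : ℤ), (1 : ℤ)), (0, -1)} := by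
      intro u hu
      unfold TT at hu
      rw [mem_filter, mem_product, h1, mem_Icc] at hu
      obtain ⟨⟨⟨h3, h4⟩, -⟩, h5⟩ := hu
      have h6 : u.1 = 0 := by simp at h3; omega
      have h7 := h5 h6
      rw [mem_insert, mem_singleton]
      rcases abs_eq (zero_le_one) |>.mp h7 with h8 | h8
      · left; exact Prod.ext h6 h8
      · right; exact Prod.ext h6 h8
    have h3 := card_le_card h2
    have h4 : ({((0 : ℤ), (1 : ℤ)), (0, -1)} : Finset (ℤ × ℤ)).card ≤ 2 := card_le_two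
    have h5 : ((TT X α β).card : ℝ) ≤ 2 := by exact_mod_cast h3.trans h4
    have h6 : 0 ≤ 12 * (α * β) / (X : ℝ) ^ 2 := by positivity
    linarith
  · have h1 : ((TT X α β).card : ℝ) ≤ (2 * (α / X) + 1) * (2 * (β / X) + 1) := by
      have h2 := card_filter_le (Icc (-⌊α / (X : ℝ)⌋) ⌊α / (X : ℝ)⌋ ×ˢ
        Icc (-⌊β / (X : ℝ)⌋) ⌊β / (X : ℝ)⌋) (fun u : ℤ × ℤ => u.1 = 0 → |u.2| = 1)
      rw [card_product] at h2
      have h3 : ((TT X α β).card : ℝ) ≤ ((Icc (-⌊α / (X : ℝ)⌋) ⌊α / (X : ℝ)⌋).card : ℝ) *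
          ((Icc (-⌊β / (X : ℝ)⌋) ⌊β / (X : ℝ)⌋).card : ℝ) := by exact_mod_cast h2
      refine h3.trans ?_
      have e1 := card_box (A := α / X) (by positivity)
      have e2 := card_box (A := β / X) (by positivity)
      gcongr
    have h2 : 1 ≤ α / X := (one_le_div hX0).mpr h
    have h3 : 1 ≤ 2 * (β / X) := by
      rw [← mul_div_assoc, one_le_div hX0]; linarith
    have e : 12 * (α * β) / (X : ℝ) ^ 2 = (3 * (α / X)) * (4 * (β / X)) := by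
      field_simp; ring
    rw [e]
    have h4 : (2 * (α / X) + 1) * (2 * (β / X) + 1) ≤ (3 * (α / X)) * (4 * (β / X)) := by
      gcongr <;> linarith
    linarith

theorem one_scale {X : ℕ} {Q : ℝ} (hX : 1 ≤ X) (hQ : 1 ≤ Q) (j : ℕ) (S : Finset (ℤ × ℤ))
    (q t a b p r p' r' : ℤ × ℤ → ℤ)
    (h : ∀ e ∈ S, Pt X Q e (q e) (t e) (a e) (b e) (p e) (r e) (p' e) (r' e))
    (hj : ∀ e ∈ S, (4 : ℝ) ^ j ≤ ((psi (q e) (t e) X (p e) (r e) : ℤ) : ℝ) ∧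
      ((psi (q e) (t e) X (p e) (r e) : ℤ) : ℝ) < 4 ^ (j + 1))
    (h0 : ∀ e ∈ S, g1 (q e) (t e) (a e) (b e) (p e) (r e) (p e) (r e) ≠ 0) :
    (S.card : ℝ) ≤ 10 ^ 12 * ((X : ℝ) ^ 6 / Q ^ 2) * (1 + Q / X) := by
  classical
  have hX0 : (0 : ℝ) < X := by exact_mod_cast hX
  have hQ0 : 0 < Q := by linarith
  rcases S.eq_empty_or_nonempty with hS | ⟨e0, he0⟩
  · rw [hS, card_empty, Nat.cast_zero]; positivity
  obtain ⟨α, hα⟩ : ∃ α : ℝ, α = 2 ^ (j + 1) := ⟨_, rfl⟩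
  obtain ⟨β, hβ⟩ : ∃ β : ℝ, β = 2.4 * (Q * X) / 2 ^ j := ⟨_, rfl⟩
  have hα0 : 0 < α := by rw [hα]; positivity
  have hβ0 : 0 < β := by rw [hβ]; positivity
  have hαβ : α ≤ 2 * β := by
    obtain ⟨-, -, -, -, s5, -⟩ := (h e0 he0).sizes hX hQ (hj e0 he0).1 (hj e0 he0).2
    rw [hα, hβ]; exact s5
  have hprod : α * β = 4.8 * (Q * X) := by
    rw [hα, hβ, pow_succ]
    field_simp
    norm_num
  have hcoef := fun e he => (h e he).coef hX hQ (hj e he).1 (hj e he).2 hα hβ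
  have h01 : 1 ≤ 6 * α ^ 2 * α / Q ^ 2 := by
    refine le_trans ?_ (hcoef e0 he0).1
    have : (1 : ℤ) ≤ |g1 (q e0) (t e0) (a e0) (b e0) (p e0) (r e0) (p e0) (r e0)| :=
      Int.one_le_abs (h0 e0 he0)
    exact_mod_cast this
  obtain ⟨A0, hA0⟩ : ∃ A0, A0 = 6 * α ^ 2 * α / Q ^ 2 := ⟨_, rfl⟩
  obtain ⟨A1, hA1⟩ : ∃ A1, A1 = 6 * α ^ 2 * β / Q ^ 2 := ⟨_, rfl⟩
  obtain ⟨A2, hA2⟩ : ∃ A2, A2 = 6 * β ^ 2 * α / Q ^ 2 := ⟨_, rfl⟩
  obtain ⟨A3, hA3⟩ : ∃ A3, A3 = 6 * β ^ 2 * β / Q ^ 2 := ⟨_, rfl⟩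
  have p0 : 0 ≤ A0 := by rw [hA0]; positivity
  have p1 : 0 ≤ A1 := by rw [hA1]; positivity
  have p2 : 0 ≤ A2 := by rw [hA2]; positivity
  have p3 : 0 ≤ A3 := by rw [hA3]; positivity
  set κ : ℤ × ℤ → (ℤ × ℤ × ℤ × ℤ) × (ℤ × ℤ) := fun e =>
    ((g1 (q e) (t e) (a e) (b e) (p e) (r e) (p e) (r e),
      g1 (q e) (t e) (a e) (b e) (p e) (r e) (p' e) (r' e),
      g1 (q e) (t e) (a e) (b e) (p' e) (r' e) (p e) (r e),
      g1 (q e) (t e) (a e) (b e) (p' e) (r' e) (p' e) (r' e)), (r e, r' e)) with hκ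
  have hinj : Set.InjOn κ S := by
    intro e he f hf hef
    have he := h e he
    have hf := h f hf
    simp only [hκ, Prod.mk.injEq] at hef
    obtain ⟨⟨h1, h2, h3, h4⟩, h5, h6⟩ := hef
    have x1 := Hs_g (q e) (t e) (a e) (b e) (p e) (r e) (p' e) (r' e)
    have x2 := Hs_g (q f) (t f) (a f) (b f) (p f) (r f) (p' f) (r' f)
    have y1 := Js_g (q e) (t e) (a e) (b e) (p e) (r e) (p' e) (r' e)
    have y2 := Js_g (q f) (t f) (a f) (b f) (p f) (r f) (p' f) (r' f)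
    rw [he.det, h1, h2, h3, h4, h5, h6] at x1 y1
    rw [hf.det] at x2 y2
    rw [x1] at x2
    rw [y1] at y2
    have X1 : e.1 = f.1 := by
      have a1 := he.ha
      have a2 := hf.ha
      linear_combination x2 + a1 - a2
    have Y1 : (2 : ℤ) * e.2 = 2 * f.2 := by
      have a1 := he.ha
      have a2 := hf.ha
      have b1 := he.hb
      have b2 := hf.hb
      linear_combination y2 - b1 + b2 + 3 * t e * a1 - 3 * t f * a2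
    exact Prod.ext X1 (by linarith)
  have hsub : S.image κ ⊆ ((Icc (-⌊A0⌋) ⌊A0⌋) ×ˢ ((Icc (-⌊A1⌋) ⌊A1⌋) ×ˢ ((Icc (-⌊A2⌋) ⌊A2⌋) ×ˢ
      (Icc (-⌊A3⌋) ⌊A3⌋)))) ×ˢ TT X α β := by
    intro u hu
    obtain ⟨e, he, rfl⟩ := mem_image.mp hu
    obtain ⟨d0, d1, d2, d3⟩ := hcoef e he
    rw [← hA0] at d0
    rw [← hA1] at d1
    rw [← hA2] at d2
    rw [← hA3] at d3
    obtain ⟨s1, s2, s3, s4, s5, s6⟩ := (h e he).sizes hX hQ (hj e he).1 (hj e he).2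
    rw [← hα] at s2
    rw [← hβ] at s4
    simp only [mem_product, hκ]
    refine ⟨⟨mem_box d0, mem_box d1, mem_box d2, mem_box d3⟩, ?_⟩
    unfold TT
    rw [mem_filter, mem_product]
    refine ⟨⟨mem_box ?_, mem_box ?_⟩, ?_⟩
    · rw [le_div_iff₀ hX0]; linarith
    · rw [le_div_iff₀ hX0]; linarith
    · intro hr0
      have hd := (h e he).det
      simp only at hr0
      rw [hr0, mul_zero, sub_zero] at hd
      have h7 : IsUnit (r' e) := isUnit_of_dvd_one ⟨p e, by linarith⟩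
      exact Int.isUnit_iff_abs_eq.mp h7
  have h1 := card_le_card hsub
  rw [card_image_of_injOn hinj, card_product, card_product, card_product, card_product] at h1
  have h2 : (S.card : ℝ) ≤ (((Icc (-⌊A0⌋) ⌊A0⌋).card : ℝ) * (((Icc (-⌊A1⌋) ⌊A1⌋).card : ℝ) *
      (((Icc (-⌊A2⌋) ⌊A2⌋).card : ℝ) * ((Icc (-⌊A3⌋) ⌊A3⌋).card : ℝ)))) *
      ((TT X α β).card : ℝ) := by exact_mod_cast h1
  refine h2.trans ?_
  have c0 := card_box p0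
  have c1 := card_box p1
  have c2 := card_box p2
  have c3 := card_box p3
  have c4 := TT_card hX hα0 hβ0 hαβ
  have hb := boxes hα0 hβ0 hQ0 hαβ h01
  rw [← hA0, ← hA1, ← hA2, ← hA3, hprod] at hb
  rw [hprod] at c4
  calc (((Icc (-⌊A0⌋) ⌊A0⌋).card : ℝ) * (((Icc (-⌊A1⌋) ⌊A1⌋).card : ℝ) *
      (((Icc (-⌊A2⌋) ⌊A2⌋).card : ℝ) * ((Icc (-⌊A3⌋) ⌊A3⌋).card : ℝ)))) *
      ((TT X α β).card : ℝ) ≤ ((2 * A0 + 1) * ((2 * A1 + 1) * ((2 * A2 + 1) * (2 * A3 + 1)))) *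
      (2 + 12 * (4.8 * (Q * X)) / X ^ 2) := by gcongr
    _ ≤ (933120 * (4.8 * (Q * X)) ^ 6 / Q ^ 8) * (58 * (1 + Q / X)) := by
        have e1 : 2 + 12 * (4.8 * (Q * X)) / (X : ℝ) ^ 2 ≤ 58 * (1 + Q / X) := by
          have : 12 * (4.8 * (Q * X)) / (X : ℝ) ^ 2 = 57.6 * (Q / X) := by
            field_simp; norm_num
          rw [this]
          have : 0 ≤ Q / X := by positivity
          linarith
        gcongr
    _ = (933120 * 4.8 ^ 6 * 58) * ((X : ℝ) ^ 6 / Q ^ 2) * (1 + Q / X) := by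
        field_simp
    _ ≤ 10 ^ 12 * ((X : ℝ) ^ 6 / Q ^ 2) * (1 + Q / X) := by
        gcongr
        norm_num

end Pool.Agent.L0h45.DH
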