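import Mathlib
import Pool.Agent.H328R2.ABC.Roots
import Pool.Agent.L0h45.DH.Cnt

/-!
# The number of the points with a given divisor of `x³ - y²`
-/

set_option autoImplicit false

namespace Pool.Agent.L0h45.DH

open Finset

/-- integers in a class modulo `d` with mutual distances at most `L` -/
theorem ap_count (d : ℕ) (hd : 1 ≤ d) (L : ℝ) (hL : 0 ≤ L) (T : Finset ℤ)
    (h : ∀ a ∈ T, ∀ b ∈ T, ((a : ℤ) : ZMod d) = b ∧ |(a : ℝ) - b| ≤ L) :
    (T.card : ℝ) ≤ L / d + 1 := by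
  classical
  rcases T.eq_empty_or_nonempty with rfl | hne
  · simp only [card_empty, Nat.cast_zero]
    positivity
  have hd0 : (0 : ℝ) < d := by exact_mod_cast hd
  obtain ⟨m, hm, hmin⟩ := T.exists_min_image id hne
  simp only [id] at hmin
  have hk : ∀ a ∈ T, ∃ k : ℕ, a = m + d * k ∧ (k : ℝ) ≤ L / d := by
    intro a ha
    obtain ⟨h1, h2⟩ := h a ha m hm
    have h3 : (d : ℤ) ∣ a - m := by
      rw [← ZMod.intCast_eq_intCast_iff_dvd_sub]
      exact h1.symm
    obtain ⟨k, hk⟩ := h3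
    have h4 : 0 ≤ k := by
      by_contra hcon
      push Not at hcon
      have h5 : (d : ℤ) * k < 0 := mul_neg_of_pos_of_neg (by exact_mod_cast hd) hcon
      have h6 := hmin a ha
      omega
    lift k to ℕ using h4
    refine ⟨k, by linarith, ?_⟩
    rw [le_div_iff₀ hd0]
    have h5 : (a : ℝ) - m = d * k := by exact_mod_cast hk
    rw [h5, abs_of_nonneg (by positivity)] at h2
    linarith
  have hsub : T ⊆ (range (⌊L / d⌋₊ + 1)).image (fun k : ℕ => m + d * (k : ℤ)) := by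
    intro a ha
    obtain ⟨k, h1, h2⟩ := hk a ha
    rw [mem_image]
    refine ⟨k, ?_, h1.symm⟩
    rw [mem_range]
    have := Nat.le_floor h2
    omega
  have h1 := (card_le_card hsub).trans card_image_le
  rw [card_range] at h1
  calc (T.card : ℝ) ≤ ((⌊L / d⌋₊ + 1 : ℕ) : ℝ) := by exact_mod_cast h1
    _ ≤ L / d + 1 := by
      push_cast
      have := Nat.floor_le (show 0 ≤ L / d by positivity)
      linarith

/-- two solutions with the same `x` and the same sign are close -/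
theorem close {X Y a b x : ℝ} (hX : 0 < X) (hab : 0 ≤ a * b)
    (hh : X ^ 6 / 64 < |x| ^ 3 ∨ (X ^ 6 / 64 < a ^ 2 ∧ X ^ 6 / 64 < b ^ 2))
    (ha : |x ^ 3 - a ^ 2| ≤ Y) (hb : |x ^ 3 - b ^ 2| ≤ Y) : |a - b| ≤ 128 * Y / X ^ 3 := by
  have hX3 : 0 < X ^ 3 := by positivity
  have hY : 0 ≤ Y := (abs_nonneg _).trans ha
  have h1 : |a - b| * (|a| + |b|) ≤ 2 * Y := by
    have h2 : |a| + |b| = |a + b| := by
      rcases le_total 0 a with h | h <;> rcases le_total 0 b with h' | h'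
      · rw [abs_of_nonneg h, abs_of_nonneg h', abs_of_nonneg (by linarith)]
      · rcases h.eq_or_lt with h0 | h0
        · rw [← h0]; simp
        · have : b = 0 := by
            by_contra hb0
            have : a * b < 0 := mul_neg_of_pos_of_neg h0 (lt_of_le_of_ne h' hb0)
            linarith
          rw [this]; simp
      · rcases h'.eq_or_lt with h0 | h0
        · rw [← h0]; simp
        · have : a = 0 := by
            by_contra hb0
            have : a * b < 0 := mul_neg_of_neg_of_pos (lt_of_le_of_ne h hb0) h0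
            linarith
          rw [this]; simp
      · rw [abs_of_nonpos h, abs_of_nonpos h', abs_of_nonpos (by linarith)]
        ring
    rw [h2, ← abs_mul]
    have h3 : (a - b) * (a + b) = (x ^ 3 - b ^ 2) - (x ^ 3 - a ^ 2) := by ring
    rw [h3]
    have := abs_sub (x ^ 3 - b ^ 2) (x ^ 3 - a ^ 2)
    linarith
  rw [le_div_iff₀ hX3]
  rcases le_or_gt (X ^ 3 / 64) (|a| + |b|) with h | h
  · have h2 : |a - b| * (X ^ 3 / 64) ≤ |a - b| * (|a| + |b|) :=
      mul_le_mul_of_nonneg_left h (abs_nonneg _)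
    linarith
  · have ha' : |a| < X ^ 3 / 64 := by linarith [abs_nonneg b]
    have ha2 : a ^ 2 < X ^ 6 / 4096 := by
      rw [← sq_abs]
      calc |a| ^ 2 < (X ^ 3 / 64) ^ 2 := by gcongr
        _ = X ^ 6 / 4096 := by ring
    have hX6 : 0 < X ^ 6 := by positivity
    have hx : X ^ 6 / 64 < |x| ^ 3 := by
      rcases hh with hh | hh
      · exact hh
      · exfalso
        linarith [hh.1]
    have hY2 : X ^ 6 / 128 ≤ Y := by
      have h3 : |x| ^ 3 ≤ Y + a ^ 2 := by
        rw [← abs_pow]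
        have h4 : x ^ 3 = (x ^ 3 - a ^ 2) + a ^ 2 := by ring
        rw [h4]
        refine (abs_add_le _ _).trans ?_
        rw [abs_of_nonneg (sq_nonneg a)]
        linarith
      linarith
    have h5 : |a - b| ≤ |a| + |b| := abs_sub _ _
    calc |a - b| * X ^ 3 ≤ (X ^ 3 / 64) * X ^ 3 := by
          gcongr
          linarith
      _ = X ^ 6 / 64 := by ring
      _ ≤ 128 * Y := by linarith

/-- the points with `d ∣ x³ - y²`, near the curve `x³ = y²` -/
theorem mod_count (ε : ℝ) (hε : 0 < ε) : ∃ C : ℝ, 0 < C ∧ ∀ (X Y : ℝ) (d : ℕ), 1 ≤ X → 0 ≤ Y →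
    1 ≤ d → ∀ S : Finset (ℤ × ℤ),
    (∀ e ∈ S, |(e.1 : ℝ)| ≤ X ^ 2 ∧ (X ^ 6 / 64 < |(e.1 : ℝ)| ^ 3 ∨ X ^ 6 / 64 < (e.2 : ℝ) ^ 2) ∧
      |(e.1 : ℝ) ^ 3 - (e.2 : ℝ) ^ 2| ≤ Y ∧ IsCoprime (d : ℤ) e.1 ∧
      (d : ℤ) ∣ e.1 ^ 3 - e.2 ^ 2) →
    (S.card : ℝ) ≤ C * (d : ℝ) ^ ε * (Y / (X * d) + X ^ 2) := by
  classical
  obtain ⟨C₁, hC₁, hr⟩ := Pool.Agent.H328R2.ABC.roots 2 (by norm_num) ε hε
  refine ⟨6 * C₁ * 256, by positivity, ?_⟩
  intro X Y d hX hY hd S hS
  have hd0 : (0 : ℝ) < d := by exact_mod_cast hd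
  have hX0 : 0 < X := by linarith
  have hX3 : 0 < X ^ 3 := by positivity
  have : NeZero d := ⟨by omega⟩
  set L : ℝ := 128 * Y / X ^ 3 with hL
  have hL0 : 0 ≤ L := by positivity
  -- split by `x` large or `y` large
  have key : ∀ x : ℤ, ((S.filter (fun e => e.1 = x)).card : ℝ) ≤
      4 * C₁ * (d : ℝ) ^ ε * (L / d + 1) := by
    intro x
    rcases (S.filter (fun e => e.1 = x)).eq_empty_or_nonempty with h0 | ⟨e₀, he₀⟩
    · rw [h0]
      simp only [card_empty, Nat.cast_zero]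
      positivity
    have hcop : IsCoprime (d : ℤ) x := by
      rw [mem_filter] at he₀
      have := (hS e₀ he₀.1).2.2.2.1
      rwa [he₀.2] at this
    have hu : IsUnit ((x : ZMod d) ^ 3) := by
      refine IsUnit.pow 3 ?_
      have h1 : IsCoprime (x : ℤ) (d : ℤ) := hcop.symm
      obtain ⟨u, v, huv⟩ := h1
      refine IsUnit.of_mul_eq_one (u : ZMod d) ?_
      have h2 : ((u * x + v * d : ℤ) : ZMod d) = 1 := by rw [huv]; simp
      push_cast at h2
      rw [ZMod.natCast_self, mul_zero, add_zero] at h2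
      rw [mul_comm]
      exact h2
    set R : Set (ZMod d) := {t : ZMod d | t ^ 2 = (x : ZMod d) ^ 3} with hR
    have hRfin : R.Finite := Set.toFinite R
    have hRc : ((hRfin.toFinset.card : ℕ) : ℝ) ≤ C₁ * (d : ℝ) ^ ε := by
      rw [← Set.ncard_eq_toFinset_card R hRfin]
      exact hr d hd _ hu
    -- the four types
    let f : ℤ × ℤ → ZMod d × (Bool × Bool) := fun e =>
      ((e.2 : ZMod d), (decide (0 ≤ e.2), decide (X ^ 6 / 64 < (e.2 : ℝ) ^ 2)))
    have hmaps : ∀ e ∈ S.filter (fun e => e.1 = x), f e ∈ hRfin.toFinset ×ˢ (univ : Finset (Bool × Bool)) := by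
      intro e he
      rw [mem_filter] at he
      rw [mem_product]
      refine ⟨?_, mem_univ _⟩
      rw [Set.Finite.mem_toFinset]
      show ((e.2 : ℤ) : ZMod d) ^ 2 = (x : ZMod d) ^ 3
      have h1 := (hS e he.1).2.2.2.2
      rw [he.2] at h1
      have h2 : ((x ^ 3 - e.2 ^ 2 : ℤ) : ZMod d) = 0 := by
        rw [ZMod.intCast_zmod_eq_zero_iff_dvd]
        exact_mod_cast h1
      push_cast at h2
      exact (sub_eq_zero.mp h2).symm
    have hfib : ∀ u ∈ hRfin.toFinset ×ˢ (univ : Finset (Bool × Bool)),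
        (((S.filter (fun e => e.1 = x)).filter (fun e => f e = u)).card : ℝ) ≤ L / d + 1 := by
      intro u hu
      have hinj : Set.InjOn (fun e : ℤ × ℤ => e.2)
          ((S.filter (fun e => e.1 = x)).filter (fun e => f e = u)) := by
        intro e he e' he' hee
        simp only [coe_filter, mem_filter, Set.mem_ofPred_eq] at he he'
        exact Prod.ext (by rw [he.1.2, he'.1.2]) hee
      rw [← card_image_of_injOn hinj]
      refine ap_count d hd L hL0 _ ?_
      intro a ha b hb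
      rw [mem_image] at ha hb
      obtain ⟨e, he, rfl⟩ := ha
      obtain ⟨e', he', rfl⟩ := hb
      rw [mem_filter, mem_filter] at he he'
      obtain ⟨⟨h1, h2⟩, h3⟩ := he
      obtain ⟨⟨h1', h2'⟩, h3'⟩ := he'
      have h4 : f e = f e' := h3.trans h3'.symm
      simp only [f, Prod.mk.injEq, decide_eq_decide] at h4
      obtain ⟨h5, h6, h7⟩ := h4
      refine ⟨h5, ?_⟩
      obtain ⟨-, b2, b3, -, -⟩ := hS e h1
      obtain ⟨-, b2', b3', -, -⟩ := hS e' h1'
      rw [h2] at b2 b3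
      rw [h2'] at b2' b3'
      refine close (x := (x : ℝ)) hX0 ?_ ?_ b3 b3'
      · rcases le_or_gt 0 e.2 with h | h
        · have h' := h6.mp h
          have h8 : (0 : ℝ) ≤ e.2 := by exact_mod_cast h
          have h9 : (0 : ℝ) ≤ e'.2 := by exact_mod_cast h'
          positivity
        · have h' : e'.2 < 0 := by
            by_contra hcon
            push Not at hcon
            exact absurd (h6.mpr hcon) (not_le.mpr h)
          have h8 : (e.2 : ℝ) < 0 := by exact_mod_cast h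
          have h9 : (e'.2 : ℝ) < 0 := by exact_mod_cast h'
          exact (mul_pos_of_neg_of_neg h8 h9).le
      · rcases b2 with b2 | b2
        · exact Or.inl b2
        · exact Or.inr ⟨b2, h7.mp b2⟩
    have h1 := card_eq_sum_card_fiberwise hmaps
    calc ((S.filter (fun e => e.1 = x)).card : ℝ)
        = ∑ u ∈ hRfin.toFinset ×ˢ (univ : Finset (Bool × Bool)),
          (((S.filter (fun e => e.1 = x)).filter (fun e => f e = u)).card : ℝ) := by
          exact_mod_cast h1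
      _ ≤ ∑ u ∈ hRfin.toFinset ×ˢ (univ : Finset (Bool × Bool)), (L / d + 1) := sum_le_sum hfib
      _ = (hRfin.toFinset.card : ℝ) * 4 * (L / d + 1) := by
          rw [sum_const, card_product, nsmul_eq_mul]
          simp
      _ ≤ (C₁ * (d : ℝ) ^ ε) * 4 * (L / d + 1) := by gcongr
      _ = 4 * C₁ * (d : ℝ) ^ ε * (L / d + 1) := by ring
  have hmaps : ∀ e ∈ S, e.1 ∈ Icc (-⌊X ^ 2⌋) ⌊X ^ 2⌋ := fun e he => mem_box (hS e he).1
  have h1 := card_eq_sum_card_fiberwise hmaps
  have hbox : ((Icc (-⌊X ^ 2⌋) ⌊X ^ 2⌋).card : ℝ) ≤ 3 * X ^ 2 := by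
    have := card_box (A := X ^ 2) (by positivity)
    have h2 : (1 : ℝ) ≤ X ^ 2 := one_le_pow₀ hX
    linarith
  calc (S.card : ℝ) = ∑ x ∈ Icc (-⌊X ^ 2⌋) ⌊X ^ 2⌋, ((S.filter (fun e => e.1 = x)).card : ℝ) := by
        exact_mod_cast h1
    _ ≤ ∑ x ∈ Icc (-⌊X ^ 2⌋) ⌊X ^ 2⌋, 4 * C₁ * (d : ℝ) ^ ε * (L / d + 1) :=
        sum_le_sum fun x _ => key x
    _ = ((Icc (-⌊X ^ 2⌋) ⌊X ^ 2⌋).card : ℝ) * (4 * C₁ * (d : ℝ) ^ ε * (L / d + 1)) := by
        rw [sum_const, nsmul_eq_mul]
    _ ≤ (3 * X ^ 2) * (4 * C₁ * (d : ℝ) ^ ε * (L / d + 1)) := by gcongr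
    _ = 12 * C₁ * (d : ℝ) ^ ε * (128 * (Y / (X * d)) + X ^ 2) := by
        rw [hL]
        field_simp
        ring
    _ ≤ 6 * C₁ * 256 * (d : ℝ) ^ ε * (Y / (X * d) + X ^ 2) := by
        have h2 : 0 ≤ Y / (X * d) := by positivity
        have h3 : 0 ≤ X ^ 2 := by positivity
        have h4 : 0 ≤ C₁ * (d : ℝ) ^ ε := by positivity
        have h5 : 12 * (128 * (Y / (X * d)) + X ^ 2) ≤ 6 * 256 * (Y / (X * d) + X ^ 2) := by
          linarith
        calc 12 * C₁ * (d : ℝ) ^ ε * (128 * (Y / (X * d)) + X ^ 2)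
            = (C₁ * (d : ℝ) ^ ε) * (12 * (128 * (Y / (X * d)) + X ^ 2)) := by ring
          _ ≤ (C₁ * (d : ℝ) ^ ε) * (6 * 256 * (Y / (X * d) + X ^ 2)) :=
            mul_le_mul_of_nonneg_left h5 h4
          _ = _ := by ring

end Pool.Agent.L0h45.DH
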