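import Mathlib
import Pool.Agent.L0h45.DH.Cnt

/-!
# The number of the points with a large square divisor of `x³ - y²`
-/

set_option autoImplicit false

namespace Pool.Agent.L0h45.DH

open Finset

/-- the points with an integral root -/
theorem root_count {X : ℕ} (hX : 1 ≤ X) (S : Finset (ℤ × ℤ))
    (h : ∀ e ∈ S, |(e.1 : ℝ)| ≤ (X : ℝ) ^ 2 ∧ |(e.2 : ℝ)| ≤ (X : ℝ) ^ 3 ∧
      ∃ z : ℤ, z ^ 3 - 3 * e.1 * z + 2 * e.2 = 0) : (S.card : ℝ) ≤ 15 * (X : ℝ) ^ 3 := by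
  classical
  have hX0 : (0 : ℝ) < X := by exact_mod_cast hX
  have hX1 : (1 : ℝ) ≤ X := by exact_mod_cast hX
  have h' : ∀ e : ℤ × ℤ, ∃ z : ℤ, e ∈ S → z ^ 3 - 3 * e.1 * z + 2 * e.2 = 0 := by
    intro e
    by_cases he : e ∈ S
    · obtain ⟨-, -, z, hz⟩ := h e he
      exact ⟨z, fun _ => hz⟩
    · exact ⟨0, fun h => absurd h he⟩
  choose z hz using h'
  have hinj : Set.InjOn (fun e : ℤ × ℤ => (e.1, z e)) S := by
    intro e he f hf hef
    simp only [Prod.mk.injEq] at hef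
    obtain ⟨h1, h2⟩ := hef
    have a1 := hz e he
    have a2 := hz f hf
    rw [h1, h2] at a1
    exact Prod.ext h1 (by linarith)
  have hsub : S.image (fun e : ℤ × ℤ => (e.1, z e)) ⊆
      Icc (-⌊(X : ℝ) ^ 2⌋) ⌊(X : ℝ) ^ 2⌋ ×ˢ Icc (-⌊2 * (X : ℝ)⌋) ⌊2 * (X : ℝ)⌋ := by
    intro u hu
    obtain ⟨e, he, rfl⟩ := mem_image.mp hu
    obtain ⟨h1, h2, -⟩ := h e he
    rw [mem_product]
    refine ⟨mem_box h1, mem_box ?_⟩
    have h3 : ((z e : ℤ) : ℝ) ^ 3 - 3 * (e.1 : ℝ) * (z e : ℤ) + 2 * (e.2 : ℝ) = 0 := by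
      exact_mod_cast hz e he
    obtain ⟨Z, hZ⟩ : ∃ Z : ℝ, Z = ((z e : ℤ) : ℝ) := ⟨_, rfl⟩
    rw [← hZ] at h3 ⊢
    by_contra hcon
    push Not at hcon
    have h4 : |Z| ^ 3 ≤ 3 * (X : ℝ) ^ 2 * |Z| + 2 * (X : ℝ) ^ 3 := by
      rw [← abs_pow]
      have h5 : Z ^ 3 = 3 * ((e.1 : ℝ) * Z) - 2 * (e.2 : ℝ) := by linear_combination h3
      rw [h5]
      have h6 := abs_sub (3 * ((e.1 : ℝ) * Z)) (2 * (e.2 : ℝ))
      have h7 : |3 * ((e.1 : ℝ) * Z)| ≤ 3 * ((X : ℝ) ^ 2 * |Z|) := by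
        rw [abs_mul, abs_mul, abs_of_pos (by norm_num : (0 : ℝ) < 3)]
        gcongr
      have h8 : |2 * (e.2 : ℝ)| ≤ 2 * (X : ℝ) ^ 3 := by
        rw [abs_mul, abs_of_pos (by norm_num : (0 : ℝ) < 2)]
        gcongr
      linarith
    have h5 : 0 < |Z| := lt_trans (by positivity) hcon
    have h6 : (2 * (X : ℝ)) ^ 2 * |Z| < |Z| ^ 3 := by
      have : (2 * (X : ℝ)) ^ 2 < |Z| ^ 2 := by gcongr
      calc (2 * (X : ℝ)) ^ 2 * |Z| < |Z| ^ 2 * |Z| := by gcongr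
        _ = |Z| ^ 3 := by ring
    have h7 : 2 * (X : ℝ) ^ 3 < (X : ℝ) ^ 2 * |Z| := by
      calc 2 * (X : ℝ) ^ 3 = (X : ℝ) ^ 2 * (2 * X) := by ring
        _ < (X : ℝ) ^ 2 * |Z| := by gcongr
    nlinarith
  have h1 := card_le_card hsub
  rw [card_image_of_injOn hinj, card_product] at h1
  have h2 : (S.card : ℝ) ≤ ((Icc (-⌊(X : ℝ) ^ 2⌋) ⌊(X : ℝ) ^ 2⌋).card : ℝ) *
      ((Icc (-⌊2 * (X : ℝ)⌋) ⌊2 * (X : ℝ)⌋).card : ℝ) := by exact_mod_cast h1
  refine h2.trans ?_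
  have c1 := card_box (A := (X : ℝ) ^ 2) (by positivity)
  have c2 := card_box (A := 2 * (X : ℝ)) (by positivity)
  calc ((Icc (-⌊(X : ℝ) ^ 2⌋) ⌊(X : ℝ) ^ 2⌋).card : ℝ) *
      ((Icc (-⌊2 * (X : ℝ)⌋) ⌊2 * (X : ℝ)⌋).card : ℝ) ≤
      (2 * (X : ℝ) ^ 2 + 1) * (2 * (2 * X) + 1) := by gcongr
    _ ≤ (3 * (X : ℝ) ^ 2) * (5 * X) := by
        have : 1 ≤ (X : ℝ) ^ 2 := one_le_pow₀ hX1
        gcongr <;> linarith
    _ = 15 * (X : ℝ) ^ 3 := by ring

theorem square_count : ∃ C : ℝ, 0 < C ∧ ∀ (X : ℕ) (Q : ℝ), 1 ≤ X → 1 ≤ Q → Q ≤ (X : ℝ) ^ 4 →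
    ∀ S : Finset (ℤ × ℤ), (∀ e ∈ S, |(e.1 : ℝ)| ≤ (X : ℝ) ^ 2 ∧ |(e.2 : ℝ)| ≤ (X : ℝ) ^ 3 ∧
      ∃ q : ℕ, Q ≤ q ∧ (q : ℝ) ≤ 2 * Q ∧ IsCoprime (q : ℤ) e.1 ∧
        (q : ℤ) ^ 2 ∣ e.1 ^ 3 - e.2 ^ 2) →
    (S.card : ℝ) ≤ C * (1 + Real.log X) * ((X : ℝ) ^ 6 / Q ^ 2 * (1 + Q / X) + (X : ℝ) ^ 3) := by
  classical
  refine ⟨6 * 10 ^ 12, by norm_num, ?_⟩
  intro X Q hX hQ hQX S hS
  have hX0 : (0 : ℝ) < X := by exact_mod_cast hX
  have hX1 : (1 : ℝ) ≤ X := by exact_mod_cast hX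
  have hQ0 : 0 < Q := by linarith
  have hdat : ∀ e : ℤ × ℤ, ∃ q t a b p r p' r' : ℤ, e ∈ S → Pt X Q e q t a b p r p' r' := by
    intro e
    by_cases he : e ∈ S
    · obtain ⟨h1, h2, q, h3, h4, h5, h6⟩ := hS e he
      obtain ⟨q', t, a, b, p, r, p', r', h⟩ := exists_pt hX hQ h1 h2 h3 h4 h5 h6
      exact ⟨q', t, a, b, p, r, p', r', fun _ => h⟩
    · exact ⟨0, 0, 0, 0, 0, 0, 0, 0, fun h => absurd h he⟩
  choose q t a b p r p' r' hP using hdat
  obtain ⟨S0, hS0⟩ : ∃ S0, S0 = S.filter fun e =>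
    g1 (q e) (t e) (a e) (b e) (p e) (r e) (p e) (r e) = 0 := ⟨_, rfl⟩
  obtain ⟨S1, hS1⟩ : ∃ S1, S1 = S.filter fun e =>
    ¬ g1 (q e) (t e) (a e) (b e) (p e) (r e) (p e) (r e) = 0 := ⟨_, rfl⟩
  have hsplit : S.card = S0.card + S1.card := by
    rw [hS0, hS1]
    exact (card_filter_add_card_filter_not _).symm
  have hc0 : (S0.card : ℝ) ≤ 15 * (X : ℝ) ^ 3 := by
    apply root_count hX
    intro e he
    rw [hS0, mem_filter] at he
    obtain ⟨h1, h2, -⟩ := hS e he.1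
    refine ⟨h1, h2, ?_⟩
    have h := hP e he.1
    have h3 := F1_g e.1 e.2 (q e) (t e) (a e) (b e) (p e) (r e) (p e) (r e) h.ha h.hb
    rw [he.2, mul_zero] at h3
    refine root_of_zero ?_ h3.symm
    intro hr
    rw [hr] at h3
    unfold F1 at h3
    have h4 : (q e * p e + t e * 0) ^ 3 = 0 := by linear_combination -h3
    have h5 : q e * p e + t e * 0 = 0 := pow_eq_zero_iff (three_ne_zero) |>.mp h4
    rw [mul_zero, add_zero] at h5
    have hq0 : q e ≠ 0 := by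
      intro h6
      have := h.q1
      rw [h6, Int.cast_zero] at this
      linarith
    have h6 := (mul_eq_zero.mp h5).resolve_left hq0
    have h7 := h.det
    rw [h6, hr] at h7
    simp at h7
  -- the scales
  obtain ⟨J, hJ⟩ : ∃ J : ℕ, J = ⌊Real.log (2.4 * (Q * X)) / Real.log 4⌋₊ + 1 := ⟨_, rfl⟩
  obtain ⟨js, hjs⟩ : ∃ js : ℤ × ℤ → ℕ, js = fun e =>
    Nat.log 4 (psi (q e) (t e) X (p e) (r e)).toNat := ⟨_, rfl⟩
  have hscale : ∀ e ∈ S, (4 : ℝ) ^ (js e) ≤ ((psi (q e) (t e) X (p e) (r e) : ℤ) : ℝ) ∧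
      ((psi (q e) (t e) X (p e) (r e) : ℤ) : ℝ) < 4 ^ (js e + 1) := by
    intro e he
    have hpos := (hP e he).pos
    obtain ⟨n, hn⟩ : ∃ n, n = (psi (q e) (t e) X (p e) (r e)).toNat := ⟨_, rfl⟩
    have hn1 : ((n : ℕ) : ℤ) = psi (q e) (t e) X (p e) (r e) := by
      rw [hn, Int.toNat_of_nonneg hpos.le]
    have hn0 : n ≠ 0 := by
      intro h
      rw [h] at hn1
      simp at hn1
      omega
    have h1 : 4 ^ (js e) ≤ n := by
      rw [hjs]
      simp only [← hn]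
      exact Nat.pow_log_le_self 4 hn0
    have h2 : n < 4 ^ (js e + 1) := by
      rw [hjs]
      simp only [← hn]
      exact Nat.lt_pow_succ_log_self (by norm_num) n
    rw [← hn1]
    exact ⟨by exact_mod_cast h1, by exact_mod_cast h2⟩
  have hjlt : ∀ e ∈ S, js e < J := by
    intro e he
    obtain ⟨-, -, -, -, -, h6⟩ := (hP e he).sizes hX hQ (hscale e he).1 (hscale e he).2
    have h7 : (js e : ℝ) * Real.log 4 ≤ Real.log (2.4 * (Q * X)) := by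
      rw [← Real.log_pow]
      exact Real.log_le_log (by positivity) h6
    have h8 : (js e : ℝ) ≤ Real.log (2.4 * (Q * X)) / Real.log 4 := by
      rw [le_div_iff₀ (Real.log_pos (by norm_num))]
      exact h7
    rw [hJ]
    have := Nat.le_floor h8
    omega
  have hc1 : (S1.card : ℝ) ≤ J * (10 ^ 12 * ((X : ℝ) ^ 6 / Q ^ 2) * (1 + Q / X)) := by
    have h1 : S1.card = ∑ j ∈ range J, (S1.filter fun e => js e = j).card := by
      apply card_eq_sum_card_fiberwise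
      intro e he
      have he' : e ∈ S := by
        have : e ∈ S1 := he
        rw [hS1, mem_filter] at this
        exact this.1
      exact mem_coe.mpr (mem_range.mpr (hjlt e he'))
    have h2 : (S1.card : ℝ) = ∑ j ∈ range J, ((S1.filter fun e => js e = j).card : ℝ) := by
      exact_mod_cast h1
    rw [h2]
    calc ∑ j ∈ range J, ((S1.filter fun e => js e = j).card : ℝ)
        ≤ ∑ _j ∈ range J, (10 ^ 12 * ((X : ℝ) ^ 6 / Q ^ 2) * (1 + Q / X)) := by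
          apply sum_le_sum
          intro j _
          apply one_scale hX hQ j _ q t a b p r p' r'
          · intro e he
            rw [mem_filter, hS1, mem_filter] at he
            exact hP e he.1.1
          · intro e he
            rw [mem_filter, hS1, mem_filter] at he
            have := hscale e he.1.1
            rw [he.2] at this
            exact this
          · intro e he
            rw [mem_filter, hS1, mem_filter] at he
            exact he.1.2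
      _ = J * (10 ^ 12 * ((X : ℝ) ^ 6 / Q ^ 2) * (1 + Q / X)) := by
          rw [sum_const, card_range, nsmul_eq_mul]
  have hJr : (J : ℝ) ≤ 6 * (1 + Real.log X) - 1 := by
    have hl4 : 1 < Real.log 4 := by
      have : Real.log 4 = 2 * Real.log 2 := by
        rw [show (4 : ℝ) = 2 ^ 2 by norm_num, Real.log_pow]; norm_num
      have := Real.log_two_gt_d9
      linarith
    have hlX : 0 ≤ Real.log X := Real.log_nonneg hX1
    have h24 : Real.log 2.4 ≤ 1.4 := by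
      have := Real.log_le_sub_one_of_pos (show (0 : ℝ) < 2.4 by norm_num)
      linarith
    have h1 : Real.log (2.4 * (Q * X)) ≤ 1.4 + 5 * Real.log X := by
      rw [Real.log_mul (by norm_num) (by positivity), Real.log_mul hQ0.ne' hX0.ne']
      have : Real.log Q ≤ 4 * Real.log X := by
        have h := Real.log_le_log hQ0 hQX
        rw [Real.log_pow] at h
        exact_mod_cast h
      linarith
    have h0 : 0 ≤ Real.log (2.4 * (Q * X)) := by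
      apply Real.log_nonneg
      nlinarith
    have h2 : Real.log (2.4 * (Q * X)) / Real.log 4 ≤ Real.log (2.4 * (Q * X)) :=
      div_le_self h0 hl4.le
    have h3 := Nat.floor_le (div_nonneg h0 (by linarith : (0 : ℝ) ≤ Real.log 4))
    rw [hJ]
    push_cast
    linarith
  have hlX : 0 ≤ Real.log X := Real.log_nonneg hX1
  have hB : 0 ≤ (X : ℝ) ^ 6 / Q ^ 2 * (1 + Q / X) := by positivity
  have hX3 : 0 < (X : ℝ) ^ 3 := by positivity
  have e1 : (S.card : ℝ) = S0.card + S1.card := by exact_mod_cast hsplit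
  rw [e1]
  obtain ⟨B, hBd⟩ : ∃ B, B = (X : ℝ) ^ 6 / Q ^ 2 * (1 + Q / X) := ⟨_, rfl⟩
  have e2 : 10 ^ 12 * ((X : ℝ) ^ 6 / Q ^ 2) * (1 + Q / X) = 10 ^ 12 * B := by rw [hBd]; ring
  rw [e2] at hc1
  rw [← hBd] at hB ⊢
  have h5 : (J : ℝ) * (10 ^ 12 * B) ≤ (6 * (1 + Real.log X)) * (10 ^ 12 * B) := by
    apply mul_le_mul_of_nonneg_right _ (by positivity)
    linarith
  have h6 : 15 * (X : ℝ) ^ 3 ≤ 6 * 10 ^ 12 * (1 + Real.log X) * (X : ℝ) ^ 3 := by
    apply mul_le_mul_of_nonneg_right _ hX3.le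
    nlinarith
  calc (S0.card : ℝ) + S1.card ≤ 15 * (X : ℝ) ^ 3 + (6 * (1 + Real.log X)) * (10 ^ 12 * B) := by
        linarith
    _ ≤ 6 * 10 ^ 12 * (1 + Real.log X) * (X : ℝ) ^ 3 +
        (6 * (1 + Real.log X)) * (10 ^ 12 * B) := by linarith
    _ = _ := by ring

end Pool.Agent.L0h45.DH
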