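import Mathlib
import Pool.Agent.L0h45.DH.Mod
import Pool.Agent.L0h45.DH.Sq
import Pool.Agent.H785R2.ABC.Basics
import Pool.Agent.H785R2.ABC.A345
import Pool.Agent.H785R2.ABC.A12

/-!
# The number of the points with a small radical of `(x³ - y²)/1728`
-/

set_option autoImplicit false

namespace Pool.Agent.L0h45.DH

open Finset
open Pool.Agent.H785R2.ABC (rad)

/-- `n = s d` with `d` the squarefull part -/
theorem dec (n : ℕ) (hn : 1 ≤ n) : ∃ s d : ℕ, 1 ≤ s ∧ 1 ≤ d ∧ s * d = n ∧ s * rad d = rad n ∧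
    rad d ^ 2 ∣ d := by
  have hB := Pool.Agent.H785R2.ABC.basics
  refine ⟨Pool.Agent.H785R2.ABC.part 1 n {0}, Pool.Agent.H785R2.ABC.part 1 n {1},
    hB.part_pos _ _ _, hB.part_pos _ _ _, ?_, ?_, ?_⟩
  · have h := hB.part_mul 1 n {0} hn
    have h2 : ({0} : Finset (Fin 2))ᶜ = {1} := by decide
    rw [h2] at h
    exact h
  · have h := hB.rd_mul 1 n {0}
    have h2 : ({0} : Finset (Fin 2))ᶜ = {1} := by decide
    rw [h2] at h
    rw [hB.rad_part 1 n {1} hn]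
    have h3 := hB.part_single 1 n 0 (by norm_num)
    rw [h3]
    simpa using h
  · rw [hB.rad_part 1 n {1} hn]
    refine Pool.Agent.H785R2.ABC.rd_pow_dvd_part ?_
    intro i hi
    rw [mem_singleton] at hi
    rw [hi]
    simp

/-- the conditions on a point -/
def Good (X Z : ℝ) (e : ℤ × ℤ) : Prop := ∃ D : ℤ, D ≠ 0 ∧ e.1 ^ 3 - e.2 ^ 2 = 1728 * D ∧
  IsCoprime e.1 D ∧ (rad D.natAbs : ℝ) ≤ Z ∧ |(e.1 : ℝ)| ≤ X ^ 2 ∧ |(e.2 : ℝ)| ≤ X ^ 3 ∧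
  (X ^ 6 / 64 < |(e.1 : ℝ)| ^ 3 ∨ X ^ 6 / 64 < (e.2 : ℝ) ^ 2)

theorem good_d {X Z : ℝ} (hX : 1 ≤ X) {e : ℤ × ℤ} (h : Good X Z e) : ∃ d : ℕ, 1 ≤ d ∧
    (d : ℤ) ∣ e.1 ^ 3 - e.2 ^ 2 ∧ IsCoprime (d : ℤ) e.1 ∧
    |(e.1 : ℝ) ^ 3 - (e.2 : ℝ) ^ 2| ≤ 1728 * Z * d / rad d ∧ rad d ^ 2 ∣ d ∧ (d : ℝ) ≤ X ^ 6 := by
  obtain ⟨D, hD0, hD, hcop, hZ, h1, h2, -⟩ := h
  obtain ⟨s, d, hs, hd, hsd, hsr, hsq⟩ := dec D.natAbs (Int.natAbs_pos.mpr hD0)
  have hdD : (d : ℤ) ∣ D := Int.natCast_dvd.mpr ⟨s, by rw [← hsd, mul_comm]⟩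
  have hrp : (0 : ℝ) < rad d := by exact_mod_cast Pool.Agent.H785R2.ABC.A345_rad_pos d
  have hs0 : (1 : ℝ) ≤ s := by exact_mod_cast hs
  have hd0 : (1 : ℝ) ≤ d := by exact_mod_cast hd
  have habs : |(D : ℝ)| = s * d := by
    have h3 : ((D.natAbs : ℕ) : ℝ) = |(D : ℝ)| := by
      rw [← Int.cast_abs, Int.abs_eq_natAbs]
      simp
    rw [← h3, ← hsd]
    push_cast
    ring
  have hreal : (e.1 : ℝ) ^ 3 - (e.2 : ℝ) ^ 2 = 1728 * (D : ℝ) := by exact_mod_cast hD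
  refine ⟨d, hd, ?_, (hcop.of_isCoprime_of_dvd_right hdD).symm, ?_, hsq, ?_⟩
  · rw [hD]
    exact hdD.mul_left _
  · rw [hreal, abs_mul, habs, abs_of_pos (by norm_num : (0 : ℝ) < 1728), le_div_iff₀ hrp]
    have h4 : (s : ℝ) * rad d ≤ Z := by
      refine le_trans (le_of_eq ?_) hZ
      exact_mod_cast hsr
    calc 1728 * ((s : ℝ) * d) * rad d = 1728 * ((s : ℝ) * rad d) * d := by ring
      _ ≤ 1728 * Z * d := by gcongr
  · have h5 : 1728 * |(D : ℝ)| ≤ 2 * X ^ 6 := by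
      have h6 : |1728 * (D : ℝ)| ≤ 2 * X ^ 6 := by
        rw [← hreal]
        have h7 := abs_sub ((e.1 : ℝ) ^ 3) ((e.2 : ℝ) ^ 2)
        rw [abs_pow, abs_pow] at h7
        have h8 : |(e.1 : ℝ)| ^ 3 ≤ (X ^ 2) ^ 3 := by gcongr
        have h9 : |(e.2 : ℝ)| ^ 2 ≤ (X ^ 3) ^ 2 := by gcongr
        have h10 : (X ^ 2) ^ 3 + (X ^ 3) ^ 2 = 2 * X ^ 6 := by ring
        linarith
      rwa [abs_mul, abs_of_pos (by norm_num : (0 : ℝ) < 1728)] at h6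
    rw [habs] at h5
    have h6 : (d : ℝ) ≤ s * d := by nlinarith
    have h7 : 0 ≤ X ^ 6 := by positivity
    nlinarith

/-- logarithms and small powers -/
theorem one_add_log_le {δ : ℝ} (hδ : 0 < δ) {X : ℝ} (hX : 1 ≤ X) :
    1 + Real.log X ≤ (1 + 1 / δ) * X ^ δ := by
  have h1 : Real.log X ≤ X ^ δ / δ := Real.log_le_rpow_div (by linarith) hδ
  have h2 : (1 : ℝ) ≤ X ^ δ := Real.one_le_rpow hX hδ.le
  calc 1 + Real.log X ≤ X ^ δ + X ^ δ / δ := add_le_add h2 h1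
    _ = (1 + 1 / δ) * X ^ δ := by ring

/-- the first case: the radical of the squarefull part is small -/
theorem case_one (ε : ℝ) (hε : 0 < ε) : ∃ C : ℝ, 0 < C ∧ ∀ X Z : ℝ, 1 ≤ X → 0 ≤ Z →
    ∀ S : Finset (ℤ × ℤ), ∀ dd : ℤ × ℤ → ℕ,
    (∀ e ∈ S, Good X Z e ∧ 1 ≤ dd e ∧
      (dd e : ℤ) ∣ e.1 ^ 3 - e.2 ^ 2 ∧ IsCoprime (dd e : ℤ) e.1 ∧
      |(e.1 : ℝ) ^ 3 - (e.2 : ℝ) ^ 2| ≤ 1728 * Z * dd e / rad (dd e) ∧ (dd e : ℝ) ≤ X ^ 6 ∧
      (rad (dd e) : ℝ) ≤ X ^ (3 / 2 : ℝ)) →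
    (S.card : ℝ) ≤ C * X ^ ε * (Z / X + X ^ (7 / 2 : ℝ)) := by
  classical
  set δ : ℝ := ε / 12 with hδ
  have hδ0 : 0 < δ := by positivity
  obtain ⟨C₁, hC₁, hmod⟩ := mod_count δ hδ0
  have h3 : Pool.Agent.H785R2.ABC.StmtA3 :=
    Pool.Agent.H785R2.ABC.stmtA3_of Pool.Agent.H785R2.ABC.stmtA2
  obtain ⟨D₁, hD₁, hA3⟩ := h3 δ hδ0
  obtain ⟨D₂, hD₂, hA4⟩ := Pool.Agent.H785R2.ABC.stmtA4_of h3 δ hδ0
  refine ⟨C₁ * (1728 * D₁ + D₂), by positivity, ?_⟩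
  intro X Z hX hZ S dd hS
  have hX0 : 0 < X := by linarith
  set M : ℕ := ⌊X ^ 6⌋₊ with hM
  have hM1 : 1 ≤ M := Nat.le_floor (by simpa using one_le_pow₀ hX)
  have hMX : (M : ℝ) ≤ X ^ 6 := Nat.floor_le (by positivity)
  have hM0 : (0 : ℝ) < M := by exact_mod_cast hM1
  set R : ℝ := X ^ (3 / 2 : ℝ) with hR
  have hR0 : 0 ≤ R := by positivity
  set T : Finset ℕ := (Icc 1 M).filter (fun d => (rad d : ℝ) ≤ R) with hT
  have hmaps : ∀ e ∈ S, dd e ∈ T := by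
    intro e he
    obtain ⟨-, h1, -, -, -, h5, h6⟩ := hS e he
    rw [hT, mem_filter, mem_Icc]
    exact ⟨⟨h1, Nat.le_floor h5⟩, h6⟩
  have hfib : ∀ d ∈ T, ((S.filter (fun e => dd e = d)).card : ℝ) ≤
      C₁ * (M : ℝ) ^ δ * (1728 * Z / X * ((1 : ℝ) / rad d) + X ^ 2) := by
    intro d hd
    rw [hT, mem_filter, mem_Icc] at hd
    have hd1 := hd.1.1
    have hd0 : (0 : ℝ) < d := by exact_mod_cast hd1
    have hr0 : (0 : ℝ) < rad d := by exact_mod_cast Pool.Agent.H785R2.ABC.A345_rad_pos d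
    have h1 := hmod X (1728 * Z * d / rad d) d hX (by positivity) hd1
      (S.filter (fun e => dd e = d)) ?_
    · refine h1.trans ?_
      have h2 : (d : ℝ) ^ δ ≤ (M : ℝ) ^ δ :=
        Real.rpow_le_rpow hd0.le (by exact_mod_cast hd.1.2) hδ0.le
      have h3 : 1728 * Z * d / rad d / (X * d) = 1728 * Z / X * ((1 : ℝ) / rad d) := by
        field_simp
      rw [h3]
      gcongr
    · intro e he
      rw [mem_filter] at he
      obtain ⟨he1, he2⟩ := he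
      obtain ⟨⟨D, hD0, hD, hcop, hZ', k1, k2, k3⟩, a1, a2, a3, a4, a5, a6⟩ := hS e he1
      rw [he2] at a1 a2 a3 a4 a5 a6
      exact ⟨k1, k3, a4, a3, a2⟩
  have h1 := card_eq_sum_card_fiberwise hmaps
  have hsum1 : ∑ d ∈ T, (1 : ℝ) / rad d ≤ D₁ * (M : ℝ) ^ δ := by
    have h2 := hA3 M hM1 1 le_rfl
    simp only [isUnit_one, IsUnit.dvd, Nat.cast_one, div_one] at h2
    rw [filter_true_of_mem (fun _ _ => trivial)] at h2
    refine le_trans ?_ h2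
    exact sum_le_sum_of_subset_of_nonneg (filter_subset _ _) fun _ _ _ => by positivity
  have hsum2 : (T.card : ℝ) ≤ D₂ * (M : ℝ) ^ δ * R := hA4 M hM1 R hR0
  have hMδ : (M : ℝ) ^ δ * (M : ℝ) ^ δ ≤ X ^ ε := by
    have h2 : (M : ℝ) ^ δ ≤ X ^ (6 * δ) := by
      calc (M : ℝ) ^ δ ≤ (X ^ 6) ^ δ := Real.rpow_le_rpow hM0.le hMX hδ0.le
        _ = X ^ (6 * δ) := by
          rw [← Real.rpow_natCast, ← Real.rpow_mul hX0.le]
          norm_num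
    calc (M : ℝ) ^ δ * (M : ℝ) ^ δ ≤ X ^ (6 * δ) * X ^ (6 * δ) := by gcongr
      _ = X ^ ε := by
        rw [← Real.rpow_add hX0]
        congr 1
        rw [hδ]
        ring
  have hX72 : X ^ 2 * R = X ^ (7 / 2 : ℝ) := by
    rw [hR, ← Real.rpow_natCast, ← Real.rpow_add hX0]
    norm_num
  calc (S.card : ℝ) = ∑ d ∈ T, ((S.filter (fun e => dd e = d)).card : ℝ) := by exact_mod_cast h1
    _ ≤ ∑ d ∈ T, C₁ * (M : ℝ) ^ δ * (1728 * Z / X * ((1 : ℝ) / rad d) + X ^ 2) := sum_le_sum hfib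
    _ = C₁ * (M : ℝ) ^ δ * (1728 * Z / X * (∑ d ∈ T, (1 : ℝ) / rad d) + T.card * X ^ 2) := by
        rw [← mul_sum, sum_add_distrib, mul_sum, sum_const, nsmul_eq_mul]
    _ ≤ C₁ * (M : ℝ) ^ δ * (1728 * Z / X * (D₁ * (M : ℝ) ^ δ) + (D₂ * (M : ℝ) ^ δ * R) * X ^ 2) := by
        gcongr
    _ = C₁ * ((M : ℝ) ^ δ * (M : ℝ) ^ δ) * (1728 * D₁ * (Z / X) + D₂ * (X ^ 2 * R)) := by
        ring
    _ ≤ C₁ * X ^ ε * (1728 * D₁ * (Z / X) + D₂ * (X ^ 2 * R)) := by gcongr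
    _ ≤ C₁ * X ^ ε * ((1728 * D₁ + D₂) * (Z / X + X ^ (7 / 2 : ℝ))) := by
        rw [hX72]
        have h2 : 0 ≤ Z / X := by positivity
        have h3 : 0 ≤ X ^ (7 / 2 : ℝ) := by positivity
        gcongr
        nlinarith [mul_nonneg hD₁.le h3, mul_nonneg hD₂.le h2]
    _ = C₁ * (1728 * D₁ + D₂) * X ^ ε * (Z / X + X ^ (7 / 2 : ℝ)) := by ring

/-- the second case: a large square divisor -/
theorem case_two (ε : ℝ) (hε : 0 < ε) : ∃ C : ℝ, 0 < C ∧ ∀ X : ℝ, 1 ≤ X →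
    ∀ S : Finset (ℤ × ℤ),
    (∀ e ∈ S, |(e.1 : ℝ)| ≤ X ^ 2 ∧ |(e.2 : ℝ)| ≤ X ^ 3 ∧ ∃ q : ℕ, IsCoprime (q : ℤ) e.1 ∧
      (q : ℤ) ^ 2 ∣ e.1 ^ 3 - e.2 ^ 2 ∧ X ^ (3 / 2 : ℝ) < q ∧ (q : ℝ) ≤ X ^ 3) →
    (S.card : ℝ) ≤ C * X ^ ε * X ^ (7 / 2 : ℝ) := by
  classical
  obtain ⟨C₁, hC₁, hsq⟩ := square_count
  set δ : ℝ := ε / 2 with hδ
  have hδ0 : 0 < δ := by positivity
  refine ⟨C₁ * (2 * (1 + 1 / δ)) * (104) * (4 * (1 + 1 / δ)), by positivity, ?_⟩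
  intro X hX S hS
  have hX0 : 0 < X := by linarith
  set R : ℝ := X ^ (3 / 2 : ℝ) with hR
  have hR1 : 1 ≤ R := Real.one_le_rpow hX (by norm_num)
  have hR0 : 0 < R := by linarith
  have hR2 : R ^ 2 = X ^ 3 := by
    rw [hR, ← Real.rpow_natCast, ← Real.rpow_mul hX0.le, ← Real.rpow_natCast]
    norm_num
  have hX72 : X ^ 2 * R = X ^ (7 / 2 : ℝ) := by
    rw [hR, ← Real.rpow_natCast, ← Real.rpow_add hX0]
    norm_num
  set X' : ℕ := ⌈X⌉₊ with hX'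
  have hXX' : X ≤ X' := Nat.le_ceil X
  have hX'2 : (X' : ℝ) ≤ 2 * X := by
    have := Nat.ceil_lt_add_one hX0.le
    rw [hX']
    linarith
  have hX'1 : 1 ≤ X' := by
    have : (1 : ℝ) ≤ X' := hX.trans hXX'
    exact_mod_cast this
  -- choose the dyadic index
  have hlog0 : 0 ≤ Real.log X := Real.log_nonneg hX
  set K : ℕ := ⌊3 * Real.log X⌋₊ + 1 with hK
  have hi : ∀ e : ℤ × ℤ, ∃ i : ℕ, e ∈ S → i < K ∧ 2 ^ i * R ≤ X ^ 3 ∧ ∃ q : ℕ, 2 ^ i * R ≤ q ∧ (q : ℝ) ≤ 2 * (2 ^ i * R) ∧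
      IsCoprime (q : ℤ) e.1 ∧ (q : ℤ) ^ 2 ∣ e.1 ^ 3 - e.2 ^ 2 := by
    intro e
    by_cases he : e ∈ S
    · obtain ⟨-, -, q, h1, h2, h3, h4⟩ := hS e he
      obtain ⟨i, hi1, hi2⟩ := exists_nat_pow_near (x := (q : ℝ) / R) (y := (2 : ℝ))
        (by rw [le_div_iff₀ hR0]; linarith) (by norm_num)
      rw [le_div_iff₀ hR0] at hi1
      rw [div_lt_iff₀ hR0] at hi2
      refine ⟨i, fun _ => ⟨?_, hi1.trans h4, q, hi1, by rw [pow_succ] at hi2; linarith, h1, h2⟩⟩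
      have h5 : (2 : ℝ) ^ i ≤ X ^ 2 := by
        have h6 : (2 : ℝ) ^ i * R ≤ X ^ 3 := hi1.trans h4
        rw [← hR2] at h6
        have h7 : (2 : ℝ) ^ i ≤ R := by
          by_contra hcon
          push Not at hcon
          nlinarith
        refine h7.trans ?_
        rw [hR, ← Real.rpow_natCast]
        exact Real.rpow_le_rpow_of_exponent_le hX (by norm_num)
      have h6 : (i : ℝ) * Real.log 2 ≤ 2 * Real.log X := by
        have := Real.log_le_log (by positivity) h5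
        rw [Real.log_pow, Real.log_pow] at this
        exact_mod_cast this
      have h7 : (i : ℝ) ≤ 3 * Real.log X := by
        have h8 : (2 / 3 : ℝ) < Real.log 2 := by
          have := Real.log_two_gt_d9
          linarith
        by_contra hcon
        push Not at hcon
        have h9 : (0 : ℝ) < i := lt_of_le_of_lt (by positivity) hcon
        nlinarith
      have := Nat.le_floor h7
      omega
    · exact ⟨0, fun h => absurd h he⟩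
  choose idx hidx using hi
  have hmaps : ∀ e ∈ S, idx e ∈ range K := fun e he => mem_range.mpr (hidx e he).1
  have h1 := card_eq_sum_card_fiberwise hmaps
  have hlogX' : 1 + Real.log X' ≤ 2 * (1 + 1 / δ) * X ^ δ := by
    have h2 : Real.log X' ≤ Real.log 2 + Real.log X := by
      rw [← Real.log_mul (by norm_num) hX0.ne']
      exact Real.log_le_log (by exact_mod_cast hX'1) hX'2
    have h3 : Real.log 2 < 1 := by
      have := Real.log_two_lt_d9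
      linarith
    have h4 := one_add_log_le hδ0 hX
    have h5 : 1 + Real.log X' ≤ 2 * (1 + Real.log X) := by linarith
    calc 1 + Real.log X' ≤ 2 * (1 + Real.log X) := h5
      _ ≤ 2 * ((1 + 1 / δ) * X ^ δ) := by linarith
      _ = _ := by ring
  have hlogX'0 : 0 ≤ 1 + Real.log X' := by
    have : 0 ≤ Real.log X' := Real.log_natCast_nonneg X'
    linarith
  have hKb : (K : ℝ) ≤ 4 * (1 + 1 / δ) * X ^ δ := by
    rw [hK]
    push_cast
    have h2 := Nat.floor_le (show 0 ≤ 3 * Real.log X by positivity)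
    have h4 := one_add_log_le hδ0 hX
    nlinarith
  have hfib : ∀ i ∈ range K, ((S.filter (fun e => idx e = i)).card : ℝ) ≤
      C₁ * (1 + Real.log X') * (104 * X ^ (7 / 2 : ℝ)) := by
    intro i hi
    rcases (S.filter (fun e => idx e = i)).eq_empty_or_nonempty with h0 | ⟨e₀, he₀⟩
    · rw [h0]
      simp only [card_empty, Nat.cast_zero]
      positivity
    set Q : ℝ := 2 ^ i * R with hQ
    have hQR : R ≤ Q := by
      rw [hQ]
      have : (1 : ℝ) ≤ 2 ^ i := one_le_pow₀ (by norm_num)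
      nlinarith
    have hQX : Q ≤ (X' : ℝ) ^ 4 := by
      rw [mem_filter] at he₀
      have h2 := (hidx e₀ he₀.1).2.1
      rw [he₀.2] at h2
      calc Q ≤ X ^ 3 := h2
        _ ≤ (X' : ℝ) ^ 3 := by gcongr
        _ ≤ (X' : ℝ) ^ 4 := pow_le_pow_right₀ (hX.trans hXX') (by norm_num)
    have h2 := hsq X' Q hX'1 (hR1.trans hQR) hQX (S.filter (fun e => idx e = i)) ?_
    · refine h2.trans ?_
      have h3 : (X' : ℝ) ^ 6 / Q ^ 2 * (1 + Q / X') + (X' : ℝ) ^ 3 ≤ 104 * X ^ (7 / 2 : ℝ) := by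
        have hX'0 : (0 : ℝ) < X' := by linarith
        have hQ0 : 0 < Q := by linarith
        have a1 : (X' : ℝ) ^ 6 / Q ^ 2 * (1 + Q / X') = (X' : ℝ) ^ 6 / Q ^ 2 + (X' : ℝ) ^ 5 / Q := by
          field_simp
        have a2 : (X' : ℝ) ^ 6 / Q ^ 2 ≤ 64 * X ^ 3 := by
          calc (X' : ℝ) ^ 6 / Q ^ 2 ≤ (2 * X) ^ 6 / R ^ 2 := by gcongr
            _ = 64 * X ^ 3 := by
              rw [hR2]
              field_simp
              ring
        have a3 : (X' : ℝ) ^ 5 / Q ≤ 32 * (X ^ 2 * R) := by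
          calc (X' : ℝ) ^ 5 / Q ≤ (2 * X) ^ 5 / R := by gcongr
            _ = 32 * (X ^ 2 * X ^ 3) / R := by ring
            _ = 32 * (X ^ 2 * R) := by
              rw [← hR2]
              field_simp
        have a4 : (X' : ℝ) ^ 3 ≤ 8 * X ^ 3 := by
          calc (X' : ℝ) ^ 3 ≤ (2 * X) ^ 3 := by gcongr
            _ = 8 * X ^ 3 := by ring
        have a5 : X ^ 3 ≤ X ^ (7 / 2 : ℝ) := by
          rw [← Real.rpow_natCast]
          exact Real.rpow_le_rpow_of_exponent_le hX (by norm_num)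
        rw [a1]
        rw [hX72] at a3
        linarith
      have h4 : 0 ≤ C₁ * (1 + Real.log X') := by positivity
      exact mul_le_mul_of_nonneg_left h3 h4
    · intro e he
      rw [mem_filter] at he
      obtain ⟨he1, he2⟩ := he
      obtain ⟨b1, b2, -⟩ := hS e he1
      obtain ⟨-, -, q, c1, c2, c3, c4⟩ := hidx e he1
      rw [he2] at c1 c2
      refine ⟨b1.trans (by gcongr), b2.trans (by gcongr), q, c1, c2, c3, c4⟩
  calc (S.card : ℝ) = ∑ i ∈ range K, ((S.filter (fun e => idx e = i)).card : ℝ) := by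
        exact_mod_cast h1
    _ ≤ ∑ i ∈ range K, C₁ * (1 + Real.log X') * (104 * X ^ (7 / 2 : ℝ)) := sum_le_sum hfib
    _ = (K : ℝ) * (C₁ * (1 + Real.log X') * (104 * X ^ (7 / 2 : ℝ))) := by
        rw [sum_const, card_range, nsmul_eq_mul]
    _ ≤ (4 * (1 + 1 / δ) * X ^ δ) * (C₁ * (2 * (1 + 1 / δ) * X ^ δ) * (104 * X ^ (7 / 2 : ℝ))) := by
        gcongr
    _ = C₁ * (2 * (1 + 1 / δ)) * (104) * (4 * (1 + 1 / δ)) * (X ^ δ * X ^ δ) * X ^ (7 / 2 : ℝ) := by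
        ring
    _ = _ := by
        rw [← Real.rpow_add hX0, hδ, add_halves]

end Pool.Agent.L0h45.DH
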