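import Mathlib
import Pool.Agent.L0h45.DH.Main

/-!
# Sums over the dyadic ranges of the height
-/

set_option autoImplicit false

namespace Pool.Agent.L0h45.DH

open Finset
open Pool.Agent.H785R2.ABC (rad)

/-- all points with `X⁶/64 < height ≤ X⁶` -/
theorem main_count (ε : ℝ) (hε : 0 < ε) : ∃ C : ℝ, 0 < C ∧ ∀ X Z : ℝ, 1 ≤ X → 0 ≤ Z →
    ∀ S : Finset (ℤ × ℤ), (∀ e ∈ S, Good X Z e) →
    (S.card : ℝ) ≤ C * X ^ ε * (Z / X + X ^ (7 / 2 : ℝ)) := by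
  classical
  obtain ⟨C₁, hC₁, h₁⟩ := case_one ε hε
  obtain ⟨C₂, hC₂, h₂⟩ := case_two ε hε
  refine ⟨C₁ + C₂, by positivity, ?_⟩
  intro X Z hX hZ S hS
  have hX0 : 0 < X := by linarith
  have hd : ∀ e : ℤ × ℤ, ∃ d : ℕ, e ∈ S → 1 ≤ d ∧
    (d : ℤ) ∣ e.1 ^ 3 - e.2 ^ 2 ∧ IsCoprime (d : ℤ) e.1 ∧
    |(e.1 : ℝ) ^ 3 - (e.2 : ℝ) ^ 2| ≤ 1728 * Z * d / rad d ∧ rad d ^ 2 ∣ d ∧ (d : ℝ) ≤ X ^ 6 := by
    intro e
    by_cases he : e ∈ S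
    · obtain ⟨d, hd⟩ := good_d hX (hS e he)
      exact ⟨d, fun _ => hd⟩
    · exact ⟨0, fun h => absurd h he⟩
  choose dd hdd using hd
  have hsplit := card_filter_add_card_filter_not (s := S)
    (fun e => (rad (dd e) : ℝ) ≤ X ^ (3 / 2 : ℝ))
  have a1 := h₁ X Z hX hZ (S.filter (fun e => (rad (dd e) : ℝ) ≤ X ^ (3 / 2 : ℝ))) dd (by
    intro e he
    rw [mem_filter] at he
    obtain ⟨b1, b2, b3, b4, b5, b6⟩ := hdd e he.1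
    exact ⟨hS e he.1, b1, b2, b3, b4, b6, he.2⟩)
  have a2 := h₂ X hX (S.filter (fun e => ¬ (rad (dd e) : ℝ) ≤ X ^ (3 / 2 : ℝ))) (by
    intro e he
    rw [mem_filter] at he
    obtain ⟨b1, b2, b3, b4, b5, b6⟩ := hdd e he.1
    obtain ⟨D, -, -, -, -, k1, k2, -⟩ := hS e he.1
    have hrd : ((rad (dd e) : ℕ) : ℤ) ∣ (dd e : ℤ) := by
      have h5 := (dvd_pow_self (rad (dd e)) two_ne_zero).trans b5
      exact_mod_cast h5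
    refine ⟨k1, k2, rad (dd e), ?_, ?_, lt_of_not_ge he.2, ?_⟩
    · exact b3.of_isCoprime_of_dvd_left hrd
    · refine dvd_trans ?_ b2
      exact_mod_cast b5
    · have h3 : (rad (dd e) : ℝ) ^ 2 ≤ X ^ 6 := by
        have h4 : rad (dd e) ^ 2 ≤ dd e := Nat.le_of_dvd b1 b5
        refine le_trans ?_ b6
        exact_mod_cast h4
      have h4 : X ^ 6 = (X ^ 3) ^ 2 := by ring
      rw [h4] at h3
      exact (pow_le_pow_iff_left₀ (by positivity) (by positivity) two_ne_zero).mp h3)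
  have h3 : (S.card : ℝ) = ((S.filter (fun e => (rad (dd e) : ℝ) ≤ X ^ (3 / 2 : ℝ))).card : ℝ) +
      ((S.filter (fun e => ¬ (rad (dd e) : ℝ) ≤ X ^ (3 / 2 : ℝ))).card : ℝ) := by
    exact_mod_cast hsplit.symm
  rw [h3]
  have h4 : 0 ≤ C₂ * X ^ ε * (Z / X) := by positivity
  calc _ ≤ C₁ * X ^ ε * (Z / X + X ^ (7 / 2 : ℝ)) + C₂ * X ^ ε * X ^ (7 / 2 : ℝ) := add_le_add a1 a2
    _ ≤ (C₁ + C₂) * X ^ ε * (Z / X + X ^ (7 / 2 : ℝ)) := by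
      nlinarith

theorem box_card {Y : ℝ} (hY : 1 ≤ Y) (S : Finset (ℤ × ℤ))
    (h : ∀ e ∈ S, |(e.1 : ℝ)| ≤ Y ^ 2 ∧ |(e.2 : ℝ)| ≤ Y ^ 3) : (S.card : ℝ) ≤ 9 * Y ^ 5 := by
  have hsub : S ⊆ Icc (-⌊Y ^ 2⌋) ⌊Y ^ 2⌋ ×ˢ Icc (-⌊Y ^ 3⌋) ⌊Y ^ 3⌋ := fun e he =>
    mem_product.mpr ⟨mem_box (h e he).1, mem_box (h e he).2⟩
  have h1 := card_le_card hsub
  rw [card_product] at h1
  have c1 := card_box (A := Y ^ 2) (by positivity)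
  have c2 := card_box (A := Y ^ 3) (by positivity)
  have h2 : (1 : ℝ) ≤ Y ^ 2 := one_le_pow₀ hY
  have h3 : (1 : ℝ) ≤ Y ^ 3 := one_le_pow₀ hY
  calc (S.card : ℝ) ≤ ((Icc (-⌊Y ^ 2⌋) ⌊Y ^ 2⌋).card : ℝ) * ((Icc (-⌊Y ^ 3⌋) ⌊Y ^ 3⌋).card : ℝ) := by
        exact_mod_cast h1
    _ ≤ (3 * Y ^ 2) * (3 * Y ^ 3) := by
        gcongr
        · linarith
        · linarith
    _ = 9 * Y ^ 5 := by ring

/-- the dyadic decomposition -/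
theorem dyadic {Y₀ X₀ B : ℝ} (hY : 1 ≤ Y₀) (hB : 0 ≤ B) (P : ℤ × ℤ → Prop)
    (h : ∀ X : ℝ, Y₀ ≤ X → X ≤ X₀ → ∀ T : Finset (ℤ × ℤ), (∀ e ∈ T, P e ∧ |(e.1 : ℝ)| ≤ X ^ 2 ∧
      |(e.2 : ℝ)| ≤ X ^ 3 ∧ (X ^ 6 / 64 < |(e.1 : ℝ)| ^ 3 ∨ X ^ 6 / 64 < (e.2 : ℝ) ^ 2)) →
      (T.card : ℝ) ≤ B) :
    ∀ (n : ℕ) (X : ℝ), 0 ≤ X → X ≤ X₀ → X ≤ 2 ^ n * Y₀ → ∀ S : Finset (ℤ × ℤ),
      (∀ e ∈ S, P e ∧ |(e.1 : ℝ)| ≤ X ^ 2 ∧ |(e.2 : ℝ)| ≤ X ^ 3) →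
      (S.card : ℝ) ≤ 9 * Y₀ ^ 5 + n * B := by
  classical
  intro n
  induction n with
  | zero =>
    intro X hX _ h1 S hS
    rw [pow_zero, one_mul] at h1
    simp only [CharP.cast_eq_zero, zero_mul, add_zero]
    exact box_card hY S fun e he => ⟨(hS e he).2.1.trans (by gcongr), (hS e he).2.2.trans (by gcongr)⟩
  | succ n ih =>
    intro X hX hX₀ h1 S hS
    rcases lt_or_ge X Y₀ with hlt | hge
    · have h2 := box_card hY S fun e he =>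
        ⟨(hS e he).2.1.trans (by gcongr), (hS e he).2.2.trans (by gcongr)⟩
      have : 0 ≤ ((n + 1 : ℕ) : ℝ) * B := by positivity
      linarith
    have hsplit := card_filter_add_card_filter_not (s := S)
      (fun e => |(e.1 : ℝ)| ≤ (X / 2) ^ 2 ∧ |(e.2 : ℝ)| ≤ (X / 2) ^ 3)
    have a1 := ih (X / 2) (by linarith) (by linarith) (by rw [pow_succ] at h1; linarith)
      (S.filter (fun e => |(e.1 : ℝ)| ≤ (X / 2) ^ 2 ∧ |(e.2 : ℝ)| ≤ (X / 2) ^ 3)) (by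
        intro e he
        rw [mem_filter] at he
        exact ⟨(hS e he.1).1, he.2.1, he.2.2⟩)
    have a2 := h X hge hX₀
      (S.filter (fun e => ¬ (|(e.1 : ℝ)| ≤ (X / 2) ^ 2 ∧ |(e.2 : ℝ)| ≤ (X / 2) ^ 3))) (by
        intro e he
        rw [mem_filter] at he
        refine ⟨(hS e he.1).1, (hS e he.1).2.1, (hS e he.1).2.2, ?_⟩
        have h2 := he.2
        rw [not_and_or, not_le, not_le] at h2
        rcases h2 with h2 | h2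
        · left
          calc X ^ 6 / 64 = ((X / 2) ^ 2) ^ 3 := by ring
            _ < |(e.1 : ℝ)| ^ 3 := by gcongr
        · right
          rw [← sq_abs (e.2 : ℝ)]
          calc X ^ 6 / 64 = ((X / 2) ^ 3) ^ 2 := by ring
            _ < |(e.2 : ℝ)| ^ 2 := by gcongr)
    have h3 : (S.card : ℝ) = ((S.filter (fun e => |(e.1 : ℝ)| ≤ (X / 2) ^ 2 ∧
        |(e.2 : ℝ)| ≤ (X / 2) ^ 3)).card : ℝ) + ((S.filter (fun e => ¬ (|(e.1 : ℝ)| ≤ (X / 2) ^ 2 ∧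
        |(e.2 : ℝ)| ≤ (X / 2) ^ 3))).card : ℝ) := by
      exact_mod_cast hsplit.symm
    rw [h3]
    push_cast
    linarith

/-- the number of dyadic steps -/
theorem steps {X : ℝ} (hX : 1 ≤ X) : ∃ n : ℕ, X ≤ 2 ^ n ∧ (n : ℝ) ≤ 2 * (1 + Real.log X) := by
  have hX0 : 0 < X := by linarith
  have hlog0 : 0 ≤ Real.log X := Real.log_nonneg hX
  refine ⟨⌈2 * Real.log X⌉₊, ?_, ?_⟩
  · have h1 : 2 * Real.log X ≤ (⌈2 * Real.log X⌉₊ : ℝ) := Nat.le_ceil _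
    have h2 : (2 / 3 : ℝ) < Real.log 2 := by
      have := Real.log_two_gt_d9
      linarith
    rw [← Real.log_le_log_iff hX0 (by positivity), Real.log_pow]
    nlinarith
  · have := Nat.ceil_lt_add_one (show 0 ≤ 2 * Real.log X by positivity)
    linarith

/-- all points of height at most `X⁶` -/
theorem total_count (ε : ℝ) (hε : 0 < ε) : ∃ C : ℝ, 0 < C ∧ ∀ X Z : ℝ, 1 ≤ X → 1 ≤ Z →
    ∀ S : Finset (ℤ × ℤ), (∀ e ∈ S, (∃ D : ℤ, D ≠ 0 ∧ e.1 ^ 3 - e.2 ^ 2 = 1728 * D ∧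
      IsCoprime e.1 D ∧ (rad D.natAbs : ℝ) ≤ Z) ∧ |(e.1 : ℝ)| ≤ X ^ 2 ∧ |(e.2 : ℝ)| ≤ X ^ 3) →
    (S.card : ℝ) ≤ C * X ^ ε * (Z ^ (5 / 6 : ℝ) + X ^ (7 / 2 : ℝ)) := by
  obtain ⟨C₁, hC₁, h₁⟩ := main_count (ε / 2) (by positivity)
  have hε2 : 0 < ε / 2 := by positivity
  refine ⟨9 + 2 * (1 + 1 / (ε / 2)) * C₁, by positivity, ?_⟩
  intro X Z hX hZ S hS
  have hX0 : 0 < X := by linarith
  have hZ0 : 0 < Z := by linarith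
  set P : ℤ × ℤ → Prop := fun e => ∃ D : ℤ, D ≠ 0 ∧ e.1 ^ 3 - e.2 ^ 2 = 1728 * D ∧
      IsCoprime e.1 D ∧ (rad D.natAbs : ℝ) ≤ Z with hP
  set Y₀ : ℝ := Z ^ (1 / 6 : ℝ) with hY₀
  have hY1 : 1 ≤ Y₀ := Real.one_le_rpow hZ (by norm_num)
  have hY5 : Y₀ ^ 5 = Z ^ (5 / 6 : ℝ) := by
    rw [hY₀, ← Real.rpow_natCast, ← Real.rpow_mul hZ0.le]
    norm_num
  set B : ℝ := C₁ * X ^ (ε / 2) * (Z ^ (5 / 6 : ℝ) + X ^ (7 / 2 : ℝ)) with hB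
  have hB0 : 0 ≤ B := by positivity
  obtain ⟨n, hn1, hn2⟩ := steps hX
  have h2 := dyadic (X₀ := X) hY1 hB0 P (by
    intro X' hX1 hX2 T hT
    have hX'1 : 1 ≤ X' := hY1.trans hX1
    have hX'0 : 0 < X' := by linarith
    have h3 := h₁ X' Z hX'1 hZ0.le T (by
      intro e he
      obtain ⟨⟨D, b1, b2, b3, b4⟩, b5, b6, b7⟩ := hT e he
      exact ⟨D, b1, b2, b3, b4, b5, b6, b7⟩)
    refine h3.trans ?_
    have h4 : Z / X' ≤ Z ^ (5 / 6 : ℝ) := by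
      calc Z / X' ≤ Z / Y₀ := by gcongr
        _ = Z ^ (5 / 6 : ℝ) := by
          rw [hY₀]
          have h5 : Z / Z ^ (1 / 6 : ℝ) = Z ^ (1 : ℝ) / Z ^ (1 / 6 : ℝ) := by rw [Real.rpow_one]
          rw [h5, ← Real.rpow_sub hZ0]
          norm_num
    have h5 : X' ^ (ε / 2) ≤ X ^ (ε / 2) := Real.rpow_le_rpow hX'0.le hX2 hε2.le
    have h6 : X' ^ (7 / 2 : ℝ) ≤ X ^ (7 / 2 : ℝ) := Real.rpow_le_rpow hX'0.le hX2 (by norm_num)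
    rw [hB]
    gcongr) n X hX0.le le_rfl (hn1.trans (by nlinarith [pow_pos (show (0:ℝ) < 2 by norm_num) n])) S hS
  refine h2.trans ?_
  have h3 := one_add_log_le hε2 hX
  have hXε : X ^ (ε / 2) * X ^ (ε / 2) = X ^ ε := by
    rw [← Real.rpow_add hX0, add_halves]
  have h4 : 1 ≤ X ^ ε := Real.one_le_rpow hX hε.le
  rw [hY5]
  have hXp : 0 ≤ X ^ (7 / 2 : ℝ) := by positivity
  have hZp : 0 ≤ Z ^ (5 / 6 : ℝ) := by positivity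
  calc 9 * Z ^ (5 / 6 : ℝ) + n * B ≤ 9 * (X ^ ε * (Z ^ (5 / 6 : ℝ) + X ^ (7 / 2 : ℝ))) +
        (2 * ((1 + 1 / (ε / 2)) * X ^ (ε / 2))) * B := by
        have h5 : (n : ℝ) ≤ 2 * ((1 + 1 / (ε / 2)) * X ^ (ε / 2)) := hn2.trans (by linarith)
        have h6 : Z ^ (5 / 6 : ℝ) ≤ X ^ ε * (Z ^ (5 / 6 : ℝ) + X ^ (7 / 2 : ℝ)) := by
          nlinarith
        have h7 := mul_le_mul_of_nonneg_right h5 hB0
        linarith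
    _ = (9 + 2 * (1 + 1 / (ε / 2)) * C₁) * X ^ ε * (Z ^ (5 / 6 : ℝ) + X ^ (7 / 2 : ℝ)) := by
        rw [hB, ← hXε]
        ring

end Pool.Agent.L0h45.DH
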