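import Mathlib
import Pool.Agent.L0h45.DH.Tot

/-!
# A convergent sum over the integers with their radicals
-/

set_option autoImplicit false

namespace Pool.Agent.L0h45.DH

open Finset
open Pool.Agent.H785R2.ABC (rad)

/-- `∑ d ^ (-a) / rad d` converges -/
theorem sum_rad (a : ℝ) (ha : 0 < a) : ∃ C : ℝ, 0 < C ∧ ∀ F : Finset ℕ, (∀ d ∈ F, 1 ≤ d) →
    ∑ d ∈ F, (d : ℝ) ^ (-a) / rad d ≤ C := by
  classical
  obtain ⟨D, hD, hA⟩ := Pool.Agent.H785R2.ABC.stmtA3_of Pool.Agent.H785R2.ABC.stmtA2 (a / 2)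
    (by positivity)
  set q : ℝ := 2 ^ (-(a / 2)) with hq
  have hq0 : 0 < q := by positivity
  have hq1 : q < 1 := Real.rpow_lt_one_of_one_lt_of_neg (by norm_num) (by linarith)
  refine ⟨D * 2 ^ (a / 2) * (1 - q)⁻¹, by
    have : 0 < 1 - q := by linarith
    positivity, ?_⟩
  intro F hF
  set J : ℕ := F.sup (fun d => Nat.log 2 d) + 1 with hJ
  have hmaps : ∀ d ∈ F, Nat.log 2 d ∈ range J := by
    intro d hd
    rw [mem_range, hJ]
    have := Finset.le_sup (f := fun d => Nat.log 2 d) hd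
    omega
  rw [← sum_fiberwise_of_maps_to hmaps]
  have hfib : ∀ j ∈ range J, ∑ d ∈ F.filter (fun d => Nat.log 2 d = j), (d : ℝ) ^ (-a) / rad d ≤
      D * 2 ^ (a / 2) * q ^ j := by
    intro j _
    have h2j : (0 : ℝ) < 2 ^ j := by positivity
    have h1 : ∀ d ∈ F.filter (fun d => Nat.log 2 d = j), (d : ℝ) ^ (-a) / rad d ≤
        ((2 : ℝ) ^ j) ^ (-a) * (1 / rad d) := by
      intro d hd
      rw [mem_filter] at hd
      have hd1 := hF d hd.1
      have h2 : 2 ^ j ≤ d := by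
        rw [← hd.2]
        exact Nat.pow_log_le_self 2 (by omega)
      have h3 : (2 : ℝ) ^ j ≤ d := by exact_mod_cast h2
      rw [div_eq_mul_one_div]
      have h4 : (0 : ℝ) ≤ 1 / rad d := by positivity
      have h5 : (d : ℝ) ^ (-a) ≤ ((2 : ℝ) ^ j) ^ (-a) :=
        Real.rpow_le_rpow_of_nonpos h2j h3 (by linarith)
      gcongr
    have h2 : ∑ d ∈ F.filter (fun d => Nat.log 2 d = j), (1 : ℝ) / rad d ≤
        D * ((2 : ℝ) ^ (j + 1)) ^ (a / 2) := by
      have h3 := hA (2 ^ (j + 1)) Nat.one_le_two_pow 1 le_rfl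
      simp only [isUnit_one, IsUnit.dvd, Nat.cast_one, div_one] at h3
      rw [filter_true_of_mem (fun _ _ => trivial)] at h3
      refine le_trans ?_ (le_trans h3 (le_of_eq (by push_cast; ring)))
      refine sum_le_sum_of_subset_of_nonneg ?_ fun _ _ _ => by positivity
      intro d hd
      rw [mem_filter] at hd
      rw [mem_Icc]
      refine ⟨hF d hd.1, ?_⟩
      rw [← hd.2]
      exact (Nat.lt_pow_succ_log_self (by norm_num) d).le
    calc ∑ d ∈ F.filter (fun d => Nat.log 2 d = j), (d : ℝ) ^ (-a) / rad d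
        ≤ ∑ d ∈ F.filter (fun d => Nat.log 2 d = j), ((2 : ℝ) ^ j) ^ (-a) * (1 / rad d) :=
          sum_le_sum h1
      _ = ((2 : ℝ) ^ j) ^ (-a) * ∑ d ∈ F.filter (fun d => Nat.log 2 d = j), (1 : ℝ) / rad d := by
          rw [mul_sum]
      _ ≤ ((2 : ℝ) ^ j) ^ (-a) * (D * ((2 : ℝ) ^ (j + 1)) ^ (a / 2)) := by gcongr
      _ = D * 2 ^ (a / 2) * q ^ j := by
          rw [hq, ← Real.rpow_natCast, ← Real.rpow_natCast, ← Real.rpow_mul (by norm_num),
            ← Real.rpow_mul (by norm_num), ← Real.rpow_natCast, ← Real.rpow_mul (by norm_num)]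
          have e1 : (2 : ℝ) ^ ((j : ℝ) * -a) * (D * 2 ^ (((j + 1 : ℕ) : ℝ) * (a / 2))) =
              D * (2 ^ ((j : ℝ) * -a) * 2 ^ (((j + 1 : ℕ) : ℝ) * (a / 2))) := by ring
          have e2 : D * (2 : ℝ) ^ (a / 2) * 2 ^ (-(a / 2) * (j : ℝ)) =
              D * (2 ^ (a / 2) * 2 ^ (-(a / 2) * (j : ℝ))) := by ring
          rw [e1, e2, ← Real.rpow_add (by norm_num), ← Real.rpow_add (by norm_num)]
          congr 2
          push_cast
          ring
  calc _ ≤ ∑ j ∈ range J, D * 2 ^ (a / 2) * q ^ j := sum_le_sum hfib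
    _ = D * 2 ^ (a / 2) * ∑ j ∈ range J, q ^ j := by rw [mul_sum]
    _ ≤ D * 2 ^ (a / 2) * (1 - q)⁻¹ := by
      have h3 : ∑ j ∈ range J, q ^ j ≤ (1 - q)⁻¹ := by
        rw [← tsum_geometric_of_lt_one hq0.le hq1]
        exact (summable_geometric_of_lt_one hq0.le hq1).sum_le_tsum _ fun _ _ => by positivity
      gcongr

end Pool.Agent.L0h45.DH
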