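import Mathlib
import Pool.Agent.L0h45.DH.Tot
import Pool.Agent.R417.LD.Gen

/-!
# Semistable curves by conductor: the final statements
-/

set_option autoImplicit false

namespace Pool.Agent.L0h45.DH

open Finset Filter Topology
open Pool.Agent.H785R2.ABC (rad)
open Pool.Agent.R417.LD (cond Lg lg_finite low_core2)

theorem ev_log (a b δ : ℝ) (hδ : 0 < δ) :
    ∀ᶠ X : ℝ in atTop, a + b * Real.log X ≤ X ^ δ := by
  have h1 : (fun X : ℝ => a) =o[atTop] fun X : ℝ => X ^ δ :=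
    Asymptotics.isLittleO_const_left.2 (Or.inr (by
      have := tendsto_rpow_atTop hδ
      exact tendsto_norm_atTop_atTop.comp this))
  have h2 : (fun X : ℝ => b * Real.log X) =o[atTop] fun X : ℝ => X ^ δ :=
    (isLittleO_log_rpow_atTop hδ).const_mul_left b
  have h3 := (h1.add h2).bound (c := 1) one_pos
  filter_upwards [h3, eventually_ge_atTop 0] with X hX hX0
  have h4 : a + b * Real.log X ≤ ‖a + b * Real.log X‖ := Real.le_norm_self _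
  rw [one_mul, Real.norm_of_nonneg (Real.rpow_nonneg hX0 _)] at hX
  exact h4.trans hX

/-- the lower bound (as in `Pool.Agent.R417.LD.Top`) -/
theorem low_gen (κ : ℝ) (h1 : 1 ≤ κ) (h2 : κ < 2) : ∃ X₀ : ℝ, 0 < X₀ ∧ ∀ X : ℝ, X₀ ≤ X →
    1 / 3000000 * X ^ (1 - κ / 6) ≤ ((Lg (fun _ => True) κ 20000000000 X).ncard : ℝ) := by
  have hδ : 0 < 1 - κ / 2 := by linarith
  have hδ2 : 0 < κ / 3 := by linarith
  have e1 := ev_log (768 * 60000) 0 _ hδ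
  have e2 := ev_log (16 * (1 + Real.log 192) * 60000) (16 * (κ / 3) * 60000) _ hδ
  have e3 := ev_log (16 * (1 + Real.log 192)) (16 * (κ / 3)) _ hδ2
  have key : ∀ᶠ X : ℝ in atTop, 0 < X ∧
      1 / 3000000 * X ^ (1 - κ / 6) ≤ ((Lg (fun _ => True) κ 20000000000 X).ncard : ℝ) := by
    filter_upwards [e1, e2, e3, eventually_ge_atTop 1] with X h1' h3 h4 hX
    have hX0 : 0 < X := by linarith
    refine ⟨hX0, ?_⟩
    have hV2 : (X ^ (κ / 6)) ^ 2 = X ^ (κ / 3) := by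
      rw [← Real.rpow_natCast (X ^ (κ / 6)) 2, ← Real.rpow_mul hX0.le]
      congr 1
      push_cast
      ring
    have hV3 : (X ^ (κ / 6)) ^ 3 = X ^ (κ / 2) := by
      rw [← Real.rpow_natCast (X ^ (κ / 6)) 3, ← Real.rpow_mul hX0.le]
      congr 1
      push_cast
      ring
    have hXe : X = X ^ (1 - κ / 2) * (X ^ (κ / 6)) ^ 3 := by
      rw [hV3, ← Real.rpow_add hX0]
      conv_lhs => rw [← Real.rpow_one X]
      congr 1
      ring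
    have hlog : Real.log (192 * (X ^ (κ / 6)) ^ 2) = Real.log 192 + κ / 3 * Real.log X := by
      rw [hV2, Real.log_mul (by norm_num) (by positivity), Real.log_rpow hX0]
    have hm := low_core2 (V := X ^ (κ / 6)) (S := X ^ (1 - κ / 2)) (X := X) hXe (by linarith)
      (Real.one_le_rpow hX (by positivity)) (by
        rw [hV3]
        exact Real.rpow_le_rpow_of_exponent_le hX (by linarith)) (by
        rw [hlog]
        linarith) (by
        rw [hlog, hV2]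
        linarith) κ (by
        rw [← Real.rpow_natCast (X ^ (κ / 6)) 6, ← Real.rpow_mul hX0.le]
        congr 1
        push_cast
        ring)
    refine le_trans ?_ hm
    rw [hV2, ← Real.rpow_add hX0]
    have e : κ / 3 + (1 - κ / 2) = 1 - κ / 6 := by ring
    rw [e]
    have : 0 ≤ X ^ (1 - κ / 6) := by positivity
    linarith
  obtain ⟨X₀, h⟩ := eventually_atTop.1 key
  exact ⟨max X₀ 1, by positivity, fun X hX => (h X ((le_max_left _ _).trans hX)).2⟩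

/-- an exponent from upper and lower bounds -/
theorem tendsto_exponent' {f : ℝ → ℝ} {L : ℝ}
    (h1 : ∀ ε : ℝ, 0 < ε → ∃ C : ℝ, 0 < C ∧ ∀ X : ℝ, 1 ≤ X → f X ≤ C * X ^ (L + ε))
    (h2 : ∀ ε : ℝ, 0 < ε → ∃ c : ℝ, 0 < c ∧ ∃ X₀ : ℝ, ∀ X : ℝ, X₀ ≤ X → c * X ^ (L - ε) ≤ f X) :
    Tendsto (fun X : ℝ => Real.log (f X) / Real.log X) atTop (𝓝 L) := by
  rw [Metric.tendsto_atTop]
  intro ε hε
  obtain ⟨C, hC, hup⟩ := h1 (ε / 3) (by positivity)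
  obtain ⟨c, hc, X₀, hlo⟩ := h2 (ε / 3) (by positivity)
  have ht : Tendsto (fun X : ℝ => ε / 3 * Real.log X) atTop atTop :=
    Real.tendsto_log_atTop.const_mul_atTop (by positivity)
  have e1 := ht.eventually (eventually_ge_atTop (Real.log C))
  have e2 := ht.eventually (eventually_ge_atTop (-Real.log c))
  obtain ⟨X₁, h⟩ := eventually_atTop.1 ((e1.and e2).and ((eventually_ge_atTop X₀).and
    (eventually_ge_atTop (2 : ℝ))))
  refine ⟨X₁, fun X hX => ?_⟩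
  obtain ⟨⟨h3, h4⟩, h5, h6⟩ := h X hX
  have hX0 : 0 < X := by linarith
  have hlog : 0 < Real.log X := Real.log_pos (by linarith)
  have hl := hlo X h5
  have hu := hup X (by linarith)
  have hf : 0 < f X := lt_of_lt_of_le (by positivity) hl
  have a1 : Real.log (f X) ≤ Real.log C + (L + ε / 3) * Real.log X := by
    have := Real.log_le_log hf hu
    rwa [Real.log_mul hC.ne' (by positivity), Real.log_rpow hX0] at this
  have a2 : Real.log c + (L - ε / 3) * Real.log X ≤ Real.log (f X) := by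
    have := Real.log_le_log (by positivity) hl
    rwa [Real.log_mul hc.ne' (by positivity), Real.log_rpow hX0] at this
  rw [Real.dist_eq, abs_lt]
  constructor
  · rw [lt_sub_iff_add_lt, lt_div_iff₀ hlog]
    nlinarith
  · rw [sub_lt_iff_lt_add, div_lt_iff₀ hlog]
    nlinarith

/-- the data of a semistable curve -/
theorem data_of (W : WeierstrassCurve ℤ) (h0 : W.Δ ≠ 0) (hc : IsCoprime W.c₄ W.Δ) {Z : ℝ}
    (hZ : (cond W : ℝ) ≤ Z) : ∃ D : ℤ, D ≠ 0 ∧ W.c₄ ^ 3 - W.c₆ ^ 2 = 1728 * D ∧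
      IsCoprime W.c₄ D ∧ (rad D.natAbs : ℝ) ≤ Z :=
  ⟨W.Δ, h0, W.c_relation.symm, hc, hZ⟩

/-- the naive height -/
noncomputable def ht (W : WeierstrassCurve ℤ) : ℝ := max (|(W.c₄ : ℝ)| ^ 3) ((W.c₆ : ℝ) ^ 2)

/-- the invariants of the semistable curves with the property `P` -/
def Cv (P : WeierstrassCurve ℤ → Prop) : Set (ℤ × ℤ) :=
  {q | ∃ W : WeierstrassCurve ℤ, (W.Δ ≠ 0 ∧ IsCoprime W.c₄ W.Δ) ∧ P W ∧ q = (W.c₄, W.c₆)}

theorem box_of_ht {W : WeierstrassCurve ℤ} {X : ℝ} (hX : 0 ≤ X) (h : ht W ≤ X ^ 6) :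
    |(W.c₄ : ℝ)| ≤ X ^ 2 ∧ |(W.c₆ : ℝ)| ≤ X ^ 3 := by
  unfold ht at h
  have h1 := (le_max_left _ _).trans h
  have h2 := (le_max_right _ _).trans h
  constructor
  · have h3 : X ^ 6 = (X ^ 2) ^ 3 := by ring
    rw [h3] at h1
    exact (pow_le_pow_iff_left₀ (abs_nonneg _) (by positivity) three_ne_zero).mp h1
  · have h3 : X ^ 6 = (X ^ 3) ^ 2 := by ring
    rw [h3, ← sq_abs] at h2
    exact (pow_le_pow_iff_left₀ (abs_nonneg _) (by positivity) two_ne_zero).mp h2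

theorem rpow_sixth {H : ℝ} (hH : 0 ≤ H) : (H ^ (1 / 6 : ℝ)) ^ 6 = H := by
  rw [← Real.rpow_natCast, ← Real.rpow_mul hH]
  norm_num

theorem cv_finite {P : WeierstrassCurve ℤ → Prop} {H : ℝ} (h : ∀ W, P W → ht W ≤ H) :
    (Cv P).Finite := by
  have hH : 0 ≤ max H 1 := by positivity
  set X : ℝ := (max H 1) ^ (1 / 6 : ℝ) with hX
  have hX1 : 1 ≤ X := Real.one_le_rpow (le_max_right _ _) (by norm_num)
  refine Pool.Agent.R417.LD.box_finite (X ^ 3) _ ?_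
  rintro q ⟨W, -, hP, rfl⟩
  have h1 : ht W ≤ X ^ 6 := by
    rw [hX, rpow_sixth hH]
    exact (h W hP).trans (le_max_left _ _)
  obtain ⟨h2, h3⟩ := box_of_ht (by linarith) h1
  exact ⟨h2.trans (pow_le_pow_right₀ hX1 (by norm_num)), h3⟩

theorem ncard_le_of {S : Set (ℤ × ℤ)} (hS : S.Finite) {B : ℝ}
    (h : ∀ T : Finset (ℤ × ℤ), (∀ e ∈ T, e ∈ S) → (T.card : ℝ) ≤ B) : (S.ncard : ℝ) ≤ B := by
  rw [Set.ncard_eq_toFinset_card S hS]
  exact h _ fun e he => hS.mem_toFinset.mp he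

/-- (1) -/
theorem fin_one (ε : ℝ) (hε : 0 < ε) : ∃ C : ℝ, 0 < C ∧ ∀ H Z : ℝ, 1 ≤ H → 1 ≤ Z →
    (Cv fun W => H / 64 < ht W ∧ ht W ≤ H ∧ (cond W : ℝ) ≤ Z).Finite ∧
    ((Cv fun W => H / 64 < ht W ∧ ht W ≤ H ∧ (cond W : ℝ) ≤ Z).ncard : ℝ) ≤
      C * H ^ ε * (Z / H ^ (1 / 6 : ℝ) + H ^ (7 / 12 : ℝ)) := by
  obtain ⟨C, hC, hm⟩ := main_count ε hε
  refine ⟨C, hC, ?_⟩
  intro H Z hH hZ
  have hH0 : 0 < H := by linarith
  have hfin : (Cv fun W => H / 64 < ht W ∧ ht W ≤ H ∧ (cond W : ℝ) ≤ Z).Finite :=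
    cv_finite (H := H) fun W hW => hW.2.1
  refine ⟨hfin, ncard_le_of hfin ?_⟩
  intro T hT
  set X : ℝ := H ^ (1 / 6 : ℝ) with hX
  have hX1 : 1 ≤ X := Real.one_le_rpow hH (by norm_num)
  have hX6 : X ^ 6 = H := rpow_sixth hH0.le
  have h1 := hm X Z hX1 (by linarith) T (by
    intro e he
    obtain ⟨W, ⟨h0, hc⟩, ⟨a1, a2, a3⟩, rfl⟩ := hT e he
    obtain ⟨D, b1, b2, b3, b4⟩ := data_of W h0 hc a3
    obtain ⟨b5, b6⟩ := box_of_ht (X := X) (by linarith) (by rw [hX6]; exact a2)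
    refine ⟨D, b1, b2, b3, b4, b5, b6, ?_⟩
    rw [hX6]
    exact lt_max_iff.mp a1)
  refine h1.trans ?_
  have h2 : X ^ ε ≤ H ^ ε := by
    refine Real.rpow_le_rpow (by linarith) ?_ hε.le
    rw [hX]
    conv_rhs => rw [← Real.rpow_one H]
    exact Real.rpow_le_rpow_of_exponent_le hH (by norm_num)
  have h3 : X ^ (7 / 2 : ℝ) = H ^ (7 / 12 : ℝ) := by
    rw [hX, ← Real.rpow_mul hH0.le]
    norm_num
  rw [h3]
  gcongr

/-- (2) -/
theorem fin_two (ε : ℝ) (hε : 0 < ε) : ∃ C : ℝ, 0 < C ∧ ∀ H Z : ℝ, 1 ≤ H → 1 ≤ Z →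
    (Cv fun W => ht W ≤ H ∧ (cond W : ℝ) ≤ Z).Finite ∧
    ((Cv fun W => ht W ≤ H ∧ (cond W : ℝ) ≤ Z).ncard : ℝ) ≤
      C * H ^ ε * (Z ^ (5 / 6 : ℝ) + H ^ (7 / 12 : ℝ)) := by
  obtain ⟨C, hC, hm⟩ := total_count ε hε
  refine ⟨C, hC, ?_⟩
  intro H Z hH hZ
  have hH0 : 0 < H := by linarith
  have hfin : (Cv fun W => ht W ≤ H ∧ (cond W : ℝ) ≤ Z).Finite :=
    cv_finite (H := H) fun W hW => hW.1
  refine ⟨hfin, ncard_le_of hfin ?_⟩
  intro T hT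
  set X : ℝ := H ^ (1 / 6 : ℝ) with hX
  have hX1 : 1 ≤ X := Real.one_le_rpow hH (by norm_num)
  have hX6 : X ^ 6 = H := rpow_sixth hH0.le
  have h1 := hm X Z hX1 (by linarith) T (by
    intro e he
    obtain ⟨W, ⟨h0, hc⟩, ⟨a2, a3⟩, rfl⟩ := hT e he
    obtain ⟨D, b1, b2, b3, b4⟩ := data_of W h0 hc a3
    obtain ⟨b5, b6⟩ := box_of_ht (X := X) (by linarith) (by rw [hX6]; exact a2)
    exact ⟨⟨D, b1, b2, b3, b4⟩, b5, b6⟩)
  refine h1.trans ?_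
  have h2 : X ^ ε ≤ H ^ ε := by
    refine Real.rpow_le_rpow (by linarith) ?_ hε.le
    rw [hX]
    conv_rhs => rw [← Real.rpow_one H]
    exact Real.rpow_le_rpow_of_exponent_le hH (by norm_num)
  have h3 : X ^ (7 / 2 : ℝ) = H ^ (7 / 12 : ℝ) := by
    rw [hX, ← Real.rpow_mul hH0.le]
    norm_num
  rw [h3]
  gcongr

theorem disc_le {X : ℝ} {W : WeierstrassCurve ℤ} (h1 : |(W.c₄ : ℝ)| ≤ X ^ 2)
    (h2 : |(W.c₆ : ℝ)| ≤ X ^ 3) : |(W.Δ : ℝ)| ≤ X ^ 6 := by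
  have h3 : (1728 : ℝ) * W.Δ = (W.c₄ : ℝ) ^ 3 - (W.c₆ : ℝ) ^ 2 := by exact_mod_cast W.c_relation
  have h4 : |(1728 : ℝ) * W.Δ| ≤ 2 * X ^ 6 := by
    rw [h3]
    have h7 := abs_sub ((W.c₄ : ℝ) ^ 3) ((W.c₆ : ℝ) ^ 2)
    rw [abs_pow, abs_pow] at h7
    have h8 : |(W.c₄ : ℝ)| ^ 3 ≤ (X ^ 2) ^ 3 := by gcongr
    have h9 : |(W.c₆ : ℝ)| ^ 2 ≤ (X ^ 3) ^ 2 := by gcongr
    have h10 : (X ^ 2) ^ 3 + (X ^ 3) ^ 2 = 2 * X ^ 6 := by ring
    linarith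
  rw [abs_mul, abs_of_pos (by norm_num : (0 : ℝ) < 1728)] at h4
  have : 0 ≤ X ^ 6 := by positivity
  linarith

theorem cond_pos (W : WeierstrassCurve ℤ) : (1 : ℝ) ≤ cond W := by
  exact_mod_cast Pool.Agent.H785R2.ABC.A345_rad_pos W.Δ.natAbs

/-- (3), upper bound -/
theorem three_up (σ C : ℝ) (h1 : 1 ≤ σ) (h2 : σ ≤ 4 / 3) (hC : 0 < C) (ε : ℝ) (hε : 0 < ε) :
    ∃ K : ℝ, 0 < K ∧ ∀ H : ℝ, 1 ≤ H →
    ((Cv fun W => ht W ≤ H ∧ C * (cond W : ℝ) ^ σ ≤ |(W.Δ : ℝ)|).ncard : ℝ) ≤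
      K * H ^ (1 / σ - 1 / 6 + ε) := by
  set δ : ℝ := 3 * ε with hδ
  have hδ0 : 0 < δ := by positivity
  obtain ⟨C₁, hC₁, hm⟩ := main_count δ hδ0
  have hσ0 : 0 < σ := by linarith
  set c₀ : ℝ := (1 / C) ^ (1 / σ) with hc₀
  have hc₀0 : 0 < c₀ := by positivity
  refine ⟨9 + 2 * (1 + 1 / δ) * (C₁ * (c₀ + 1)), by positivity, ?_⟩
  intro H hH
  have hH0 : 0 < H := by linarith
  have hfin : (Cv fun W => ht W ≤ H ∧ C * (cond W : ℝ) ^ σ ≤ |(W.Δ : ℝ)|).Finite :=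
    cv_finite (H := H) fun W hW => hW.1
  refine ncard_le_of hfin ?_
  intro T hT
  set X : ℝ := H ^ (1 / 6 : ℝ) with hX
  have hX1 : 1 ≤ X := Real.one_le_rpow hH (by norm_num)
  have hX0 : 0 < X := by linarith
  have hX6 : X ^ 6 = H := rpow_sixth hH0.le
  set P : ℤ × ℤ → Prop := fun e => ∃ W : WeierstrassCurve ℤ, (W.Δ ≠ 0 ∧ IsCoprime W.c₄ W.Δ) ∧
    C * (cond W : ℝ) ^ σ ≤ |(W.Δ : ℝ)| ∧ e = (W.c₄, W.c₆) with hP
  have hexp : 7 / 2 ≤ 6 / σ - 1 := by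
    have : 9 / 2 ≤ 6 / σ := by
      rw [le_div_iff₀ hσ0]
      linarith
    linarith
  set B : ℝ := C₁ * X ^ δ * ((c₀ + 1) * X ^ (6 / σ - 1)) with hB
  have hB0 : 0 ≤ B := by positivity
  obtain ⟨n, hn1, hn2⟩ := steps hX1
  have hd := dyadic (X₀ := X) (le_refl (1 : ℝ)) hB0 P (by
    intro X' hX1' hX2 T' hT'
    have hX'0 : 0 < X' := by linarith
    have h3 := hm X' (c₀ * X' ^ (6 / σ)) hX1' (by positivity) T' (by
      intro e he
      obtain ⟨⟨W, ⟨b1, b2⟩, b3, rfl⟩, b5, b6, b7⟩ := hT' e he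
      have hdis := disc_le b5 b6
      have hN : (cond W : ℝ) ≤ c₀ * X' ^ (6 / σ) := by
        have hc : (cond W : ℝ) ^ σ ≤ 1 / C * X' ^ 6 := by
          rw [one_div, ← div_eq_inv_mul, le_div_iff₀ hC, mul_comm]
          exact b3.trans hdis
        have h4 : (cond W : ℝ) = ((cond W : ℝ) ^ σ) ^ (1 / σ) := by
          rw [← Real.rpow_mul (by positivity), mul_one_div_cancel hσ0.ne', Real.rpow_one]
        rw [h4]
        calc ((cond W : ℝ) ^ σ) ^ (1 / σ) ≤ (1 / C * X' ^ 6) ^ (1 / σ) :=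
              Real.rpow_le_rpow (by positivity) hc (by positivity)
          _ = c₀ * X' ^ (6 / σ) := by
              rw [Real.mul_rpow (by positivity) (by positivity), ← Real.rpow_natCast,
                ← Real.rpow_mul hX'0.le, hc₀]
              congr 2
              push_cast
              ring
      obtain ⟨D, c1, c2, c3, c4⟩ := data_of W b1 b2 hN
      exact ⟨D, c1, c2, c3, c4, b5, b6, b7⟩)
    refine h3.trans ?_
    have h5 : X' ^ δ ≤ X ^ δ := Real.rpow_le_rpow hX'0.le hX2 hδ0.le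
    have h6 : X' ^ (7 / 2 : ℝ) ≤ X ^ (6 / σ - 1) :=
      (Real.rpow_le_rpow hX'0.le hX2 (by norm_num)).trans
        (Real.rpow_le_rpow_of_exponent_le hX1 hexp)
    have h7 : c₀ * X' ^ (6 / σ) / X' ≤ c₀ * X ^ (6 / σ - 1) := by
      have h8 : c₀ * X' ^ (6 / σ) / X' = c₀ * X' ^ (6 / σ - 1) := by
        rw [Real.rpow_sub_one hX'0.ne']
        ring
      rw [h8]
      have := Real.rpow_le_rpow hX'0.le hX2 (show 0 ≤ 6 / σ - 1 by linarith)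
      gcongr
    have h9 : c₀ * X' ^ (6 / σ) / X' + X' ^ (7 / 2 : ℝ) ≤ (c₀ + 1) * X ^ (6 / σ - 1) := by
      linarith
    rw [hB]
    gcongr) n X hX0.le le_rfl (by rw [mul_one]; exact hn1) T (by
    intro e he
    obtain ⟨W, h0, ⟨a2, a3⟩, rfl⟩ := hT e he
    obtain ⟨b5, b6⟩ := box_of_ht (X := X) hX0.le (by rw [hX6]; exact a2)
    exact ⟨⟨W, h0, a3, rfl⟩, b5, b6⟩)
  refine hd.trans ?_
  have h3 := one_add_log_le hδ0 hX1
  have h4 : (n : ℝ) ≤ 2 * (1 + 1 / δ) * X ^ δ := by linarith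
  have hpow : X ^ δ * X ^ δ * X ^ (6 / σ - 1) = H ^ (1 / σ - 1 / 6 + ε) := by
    rw [← Real.rpow_add hX0, ← Real.rpow_add hX0, hX, ← Real.rpow_mul hH0.le]
    congr 1
    rw [hδ]
    ring
  have h5 : (1 : ℝ) ≤ H ^ (1 / σ - 1 / 6 + ε) := by
    refine Real.one_le_rpow hH ?_
    have h6 : 1 / σ = (6 / σ) / 6 := by ring
    rw [h6]
    linarith
  calc 9 * (1 : ℝ) ^ 5 + n * B ≤ 9 * H ^ (1 / σ - 1 / 6 + ε) + (2 * (1 + 1 / δ) * X ^ δ) * B := by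
        have := mul_le_mul_of_nonneg_right h4 hB0
        linarith
    _ = 9 * H ^ (1 / σ - 1 / 6 + ε) + 2 * (1 + 1 / δ) * (C₁ * (c₀ + 1)) *
        (X ^ δ * X ^ δ * X ^ (6 / σ - 1)) := by rw [hB]; ring
    _ = (9 + 2 * (1 + 1 / δ) * (C₁ * (c₀ + 1))) * H ^ (1 / σ - 1 / 6 + ε) := by rw [hpow]; ring

/-- (3), lower bound -/
theorem three_low (σ C : ℝ) (h1 : 1 ≤ σ) (h2 : σ ≤ 4 / 3) (hC : 0 < C) (ε : ℝ) (hε : 0 < ε) :
    ∃ c : ℝ, 0 < c ∧ ∃ H₀ : ℝ, ∀ H : ℝ, H₀ ≤ H → c * H ^ (1 / σ - 1 / 6 - ε) ≤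
    ((Cv fun W => ht W ≤ H ∧ C * (cond W : ℝ) ^ σ ≤ |(W.Δ : ℝ)|).ncard : ℝ) := by
  set e : ℝ := min ε (1 / 2) with he
  have he0 : 0 < e := by positivity
  have he1 : e ≤ 1 / 2 := min_le_right _ _
  have heε : e ≤ ε := min_le_left _ _
  set κ : ℝ := σ + e with hκ
  have hσ0 : 0 < σ := by linarith
  have hκ0 : 0 < κ := by linarith
  obtain ⟨X₀, hX₀, hlow⟩ := low_gen κ (by linarith) (by linarith)
  set K : ℝ := 20000000000 with hK
  have hK0 : 0 < K := by norm_num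
  refine ⟨1 / 3000000 * (1 / K) ^ (1 / κ - 1 / 6), by positivity, ?_⟩
  have t1 : Tendsto (fun H : ℝ => (H / K) ^ (1 / κ)) atTop atTop :=
    (tendsto_rpow_atTop (by positivity)).comp (tendsto_id.atTop_div_const hK0)
  have e1 := t1.eventually (eventually_ge_atTop X₀)
  have e2 := t1.eventually ((tendsto_rpow_atTop he0).eventually (eventually_ge_atTop C))
  obtain ⟨H₀, hH₀⟩ := eventually_atTop.1 ((e1.and e2).and (eventually_ge_atTop (1 : ℝ)))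
  refine ⟨H₀, fun H hH => ?_⟩
  obtain ⟨⟨a1, a2⟩, a3⟩ := hH₀ H hH
  have hH0 : 0 < H := by linarith
  set Z : ℝ := (H / K) ^ (1 / κ) with hZ
  have hZ0 : 0 < Z := by positivity
  have hZκ : Z ^ κ = H / K := by
    rw [hZ, ← Real.rpow_mul (by positivity), one_div_mul_cancel hκ0.ne', Real.rpow_one]
  have h3 := hlow Z a1
  have hfin : (Cv fun W => ht W ≤ H ∧ C * (cond W : ℝ) ^ σ ≤ |(W.Δ : ℝ)|).Finite :=
    cv_finite (H := H) fun W hW => hW.1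
  have hsub : Lg (fun _ => True) κ K Z ⊆
      (Cv fun W => ht W ≤ H ∧ C * (cond W : ℝ) ^ σ ≤ |(W.Δ : ℝ)|) := by
    rintro q ⟨W, b1, b2, -, b3, b4, b5, b6, b7⟩
    have hKZ : K * Z ^ κ = H := by
      rw [hZκ]
      field_simp
    refine ⟨W, ⟨b1, b2⟩, ⟨?_, ?_⟩, b3⟩
    · rw [hKZ] at b6 b7
      exact max_le b6 b7
    · refine le_trans ?_ b5
      have h4 : (cond W : ℝ) ^ σ ≤ Z ^ σ := Real.rpow_le_rpow (by positivity) b4 hσ0.le
      calc C * (cond W : ℝ) ^ σ ≤ Z ^ e * Z ^ σ := by gcongr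
        _ = Z ^ κ := by
          rw [← Real.rpow_add hZ0, hκ]
          congr 1
          ring
  have h4 : ((Lg (fun _ => True) κ K Z).ncard : ℝ) ≤
      ((Cv fun W => ht W ≤ H ∧ C * (cond W : ℝ) ^ σ ≤ |(W.Δ : ℝ)|).ncard : ℝ) := by
    exact_mod_cast Set.ncard_le_ncard hsub hfin
  refine le_trans ?_ (h3.trans h4)
  have h5 : Z ^ (1 - κ / 6) = (1 / K) ^ (1 / κ - 1 / 6) * H ^ (1 / κ - 1 / 6) := by
    rw [hZ, ← Real.rpow_mul (by positivity), ← Real.mul_rpow (by positivity) hH0.le]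
    congr 1
    · ring
    · field_simp
  rw [h5, ← mul_assoc]
  have h6 : 1 / σ - ε ≤ 1 / κ := by
    have h7 : 1 / σ - 1 / κ ≤ e := by
      rw [hκ, div_sub_div _ _ hσ0.ne' (by linarith), div_le_iff₀ (by positivity)]
      have h8 : 1 ≤ σ * (σ + e) := by nlinarith
      have h9 := mul_le_mul_of_nonneg_left h8 he0.le
      linarith
    linarith
  have h7 : H ^ (1 / σ - 1 / 6 - ε) ≤ H ^ (1 / κ - 1 / 6) :=
    Real.rpow_le_rpow_of_exponent_le a3 (by linarith)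
  gcongr

theorem fin_three (σ C : ℝ) (h1 : 1 ≤ σ) (h2 : σ ≤ 4 / 3) (hC : 0 < C) :
    Tendsto (fun H : ℝ => Real.log ((Cv fun W => ht W ≤ H ∧
      C * (cond W : ℝ) ^ σ ≤ |(W.Δ : ℝ)|).ncard : ℝ) / Real.log H) atTop (𝓝 (1 / σ - 1 / 6)) :=
  tendsto_exponent' (three_up σ C h1 h2 hC) (three_low σ C h1 h2 hC)

theorem fin_four (β : ℝ) (h1 : 1 < β) (h2 : β ≤ 10 / 7) :
    Tendsto (fun Z : ℝ => Real.log ((Cv fun W => ht W ≤ Z ^ β ∧
      (cond W : ℝ) ≤ Z).ncard : ℝ) / Real.log Z) atTop (𝓝 (5 / 6)) := by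
  refine tendsto_exponent' ?_ ?_
  · intro ε hε
    obtain ⟨C, hC, h⟩ := fin_two (ε / 2) (by positivity)
    refine ⟨2 * C, by positivity, ?_⟩
    intro Z hZ
    have hZ0 : 0 < Z := by linarith
    refine (h (Z ^ β) Z (Real.one_le_rpow hZ (by linarith)) hZ).2.trans ?_
    have h3 : (Z ^ β) ^ (7 / 12 : ℝ) ≤ Z ^ (5 / 6 : ℝ) := by
      rw [← Real.rpow_mul hZ0.le]
      exact Real.rpow_le_rpow_of_exponent_le hZ (by linarith)
    have h4 : (Z ^ β) ^ (ε / 2) ≤ Z ^ ε := by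
      rw [← Real.rpow_mul hZ0.le]
      exact Real.rpow_le_rpow_of_exponent_le hZ (by nlinarith)
    calc C * (Z ^ β) ^ (ε / 2) * (Z ^ (5 / 6 : ℝ) + (Z ^ β) ^ (7 / 12 : ℝ))
        ≤ C * Z ^ ε * (Z ^ (5 / 6 : ℝ) + Z ^ (5 / 6 : ℝ)) := by gcongr
      _ = 2 * C * Z ^ (5 / 6 + ε) := by
        rw [Real.rpow_add hZ0]
        ring
  · intro ε hε
    obtain ⟨X₀, hX₀, hlow⟩ := low_gen 1 le_rfl (by norm_num)
    refine ⟨1 / 3000000, by norm_num, ?_⟩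
    have t1 := (tendsto_rpow_atTop (show 0 < β - 1 by linarith)).eventually
      (eventually_ge_atTop (20000000000 : ℝ))
    obtain ⟨Z₀, hZ₀⟩ := eventually_atTop.1 (t1.and ((eventually_ge_atTop X₀).and
      (eventually_ge_atTop (1 : ℝ))))
    refine ⟨Z₀, fun Z hZ => ?_⟩
    obtain ⟨a1, a2, a3⟩ := hZ₀ Z hZ
    have hZ0 : 0 < Z := by linarith
    have h3 := hlow Z a2
    have hfin : (Cv fun W => ht W ≤ Z ^ β ∧ (cond W : ℝ) ≤ Z).Finite :=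
      cv_finite (H := Z ^ β) fun W hW => hW.1
    have hsub : Lg (fun _ => True) 1 20000000000 Z ⊆
        (Cv fun W => ht W ≤ Z ^ β ∧ (cond W : ℝ) ≤ Z) := by
      rintro q ⟨W, b1, b2, -, b3, b4, b5, b6, b7⟩
      rw [Real.rpow_one] at b6 b7
      have h4 : 20000000000 * Z ≤ Z ^ β := by
        calc 20000000000 * Z ≤ Z ^ (β - 1) * Z := by gcongr
          _ = Z ^ β := by
            rw [Real.rpow_sub_one hZ0.ne']
            field_simp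
      exact ⟨W, ⟨b1, b2⟩, ⟨max_le (b6.trans h4) (b7.trans h4), b4⟩, b3⟩
    have h4 : ((Lg (fun _ => True) 1 20000000000 Z).ncard : ℝ) ≤
        ((Cv fun W => ht W ≤ Z ^ β ∧ (cond W : ℝ) ≤ Z).ncard : ℝ) := by
      exact_mod_cast Set.ncard_le_ncard hsub hfin
    refine le_trans ?_ (h3.trans h4)
    have h5 : Z ^ (5 / 6 - ε) ≤ Z ^ (1 - 1 / 6 : ℝ) :=
      Real.rpow_le_rpow_of_exponent_le a3 (by linarith)
    gcongr


/-- (5) -/
theorem fin_five (β δ : ℝ) (h1 : 1 < β) (h2 : β < 10 / 7) (hδ : 0 < δ) :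
    ∃ η : ℝ, 0 < η ∧ ∃ C : ℝ, 0 < C ∧ ∀ Z : ℝ, 1 ≤ Z →
    ((Cv fun W => ht W ≤ Z ^ β ∧ (cond W : ℝ) ≤ Z ∧
      (cond W : ℝ) ^ (1 + δ) < |(W.Δ : ℝ)|).ncard : ℝ) ≤ C * Z ^ (5 / 6 - η) := by
  set δ₁ : ℝ := min δ 1 with hδ₁
  have hδ₁0 : 0 < δ₁ := by positivity
  have hδ₁1 : δ₁ ≤ 1 := min_le_right _ _
  have hδ₁δ : δ₁ ≤ δ := min_le_left _ _
  set η₁ : ℝ := min (δ₁ / 40) (5 / 6 - 7 * β / 12) with hη₁
  have hη₁0 : 0 < η₁ := lt_min (by positivity) (by linarith)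
  have hη₁a : η₁ ≤ δ₁ / 40 := min_le_left _ _
  have hη₁b : η₁ ≤ 5 / 6 - 7 * β / 12 := min_le_right _ _
  set ε : ℝ := η₁ / 4 with hε
  have hε0 : 0 < ε := by positivity
  obtain ⟨C₁, hC₁, hm⟩ := main_count ε hε0
  refine ⟨η₁ / 2, by positivity, 9 + 2 * (1 + 1 / ε) * (2 * C₁), by positivity, ?_⟩
  intro Z hZ
  have hZ0 : 0 < Z := by linarith
  set X : ℝ := Z ^ (β / 6) with hX
  have hX1 : 1 ≤ X := Real.one_le_rpow hZ (by linarith)
  have hX0 : 0 < X := by linarith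
  have hX6 : X ^ 6 = Z ^ β := by
    rw [hX, ← Real.rpow_natCast, ← Real.rpow_mul hZ0.le]
    congr 1
    push_cast
    ring
  have hXZ : X ≤ Z := by
    rw [hX]
    conv_rhs => rw [← Real.rpow_one Z]
    exact Real.rpow_le_rpow_of_exponent_le hZ (by linarith)
  set Y₀ : ℝ := Z ^ (1 / 6 - η₁) with hY₀
  have hY1 : 1 ≤ Y₀ := Real.one_le_rpow hZ (by linarith)
  set B : ℝ := C₁ * X ^ ε * (2 * Z ^ (5 / 6 - η₁)) with hB
  have hB0 : 0 ≤ B := by positivity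
  have hfin : (Cv fun W => ht W ≤ Z ^ β ∧ (cond W : ℝ) ≤ Z ∧
      (cond W : ℝ) ^ (1 + δ) < |(W.Δ : ℝ)|).Finite :=
    cv_finite (H := Z ^ β) fun W hW => hW.1
  refine ncard_le_of hfin ?_
  intro T hT
  set P : ℤ × ℤ → Prop := fun e => ∃ W : WeierstrassCurve ℤ, (W.Δ ≠ 0 ∧ IsCoprime W.c₄ W.Δ) ∧
    (cond W : ℝ) ≤ Z ∧ (cond W : ℝ) ^ (1 + δ) < |(W.Δ : ℝ)| ∧ e = (W.c₄, W.c₆) with hP
  obtain ⟨n, hn1, hn2⟩ := steps hX1
  have hd := dyadic (X₀ := X) hY1 hB0 P (by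
    intro X' hX1' hX2 T' hT'
    have hX'1 : 1 ≤ X' := hY1.trans hX1'
    have hX'0 : 0 < X' := by linarith
    have h5 : X' ^ ε ≤ X ^ ε := Real.rpow_le_rpow hX'0.le hX2 hε0.le
    rcases le_or_gt (Z ^ (1 / 6 + η₁)) X' with hbig | hsmall
    · have h3 := hm X' Z hX'1 hZ0.le T' (by
        intro e he
        obtain ⟨⟨W, ⟨b1, b2⟩, b3, b4, rfl⟩, b5, b6, b7⟩ := hT' e he
        obtain ⟨D, c1, c2, c3, c4⟩ := data_of W b1 b2 b3
        exact ⟨D, c1, c2, c3, c4, b5, b6, b7⟩)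
      refine h3.trans ?_
      have h6 : Z / X' ≤ Z ^ (5 / 6 - η₁) := by
        calc Z / X' ≤ Z / Z ^ (1 / 6 + η₁) := by gcongr
          _ = Z ^ (1 : ℝ) / Z ^ (1 / 6 + η₁) := by rw [Real.rpow_one]
          _ = Z ^ (5 / 6 - η₁) := by
            rw [← Real.rpow_sub hZ0]
            congr 1
            ring
      have h7 : X' ^ (7 / 2 : ℝ) ≤ Z ^ (5 / 6 - η₁) := by
        calc X' ^ (7 / 2 : ℝ) ≤ X ^ (7 / 2 : ℝ) := Real.rpow_le_rpow hX'0.le hX2 (by norm_num)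
          _ = Z ^ (7 * β / 12) := by
            rw [hX, ← Real.rpow_mul hZ0.le]
            congr 1
            ring
          _ ≤ Z ^ (5 / 6 - η₁) := Real.rpow_le_rpow_of_exponent_le hZ (by linarith)
      rw [hB]
      have h8 : Z / X' + X' ^ (7 / 2 : ℝ) ≤ 2 * Z ^ (5 / 6 - η₁) := by linarith
      gcongr
    · set Z₁ : ℝ := Z ^ ((1 + 6 * η₁) / (1 + δ₁)) with hZ₁
      have h3 := hm X' Z₁ hX'1 (by positivity) T' (by
        intro e he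
        obtain ⟨⟨W, ⟨b1, b2⟩, b3, b4, rfl⟩, b5, b6, b7⟩ := hT' e he
        have hdis := disc_le b5 b6
        have hN : (cond W : ℝ) ≤ Z₁ := by
          have h9 : (cond W : ℝ) ^ (1 + δ₁) ≤ Z ^ (1 + 6 * η₁) := by
            calc (cond W : ℝ) ^ (1 + δ₁) ≤ (cond W : ℝ) ^ (1 + δ) :=
                  Real.rpow_le_rpow_of_exponent_le (cond_pos W) (by linarith)
              _ ≤ |(W.Δ : ℝ)| := b4.le
              _ ≤ X' ^ 6 := hdis
              _ ≤ (Z ^ (1 / 6 + η₁)) ^ 6 := by gcongr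
              _ = Z ^ (1 + 6 * η₁) := by
                rw [← Real.rpow_natCast, ← Real.rpow_mul hZ0.le]
                congr 1
                push_cast
                ring
          have h10 : (cond W : ℝ) = ((cond W : ℝ) ^ (1 + δ₁)) ^ (1 / (1 + δ₁)) := by
            rw [← Real.rpow_mul (by positivity), mul_one_div_cancel (by positivity), Real.rpow_one]
          rw [h10]
          calc ((cond W : ℝ) ^ (1 + δ₁)) ^ (1 / (1 + δ₁)) ≤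
                (Z ^ (1 + 6 * η₁)) ^ (1 / (1 + δ₁)) :=
                Real.rpow_le_rpow (by positivity) h9 (by positivity)
            _ = Z₁ := by
              rw [← Real.rpow_mul hZ0.le, hZ₁]
              congr 1
              ring
        obtain ⟨D, c1, c2, c3, c4⟩ := data_of W b1 b2 hN
        exact ⟨D, c1, c2, c3, c4, b5, b6, b7⟩)
      refine h3.trans ?_
      have h6 : Z₁ / X' ≤ Z ^ (5 / 6 - η₁) := by
        calc Z₁ / X' ≤ Z₁ / Y₀ := by gcongr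
          _ = Z ^ ((1 + 6 * η₁) / (1 + δ₁) - (1 / 6 - η₁)) := by
            rw [hZ₁, hY₀, ← Real.rpow_sub hZ0]
          _ ≤ Z ^ (5 / 6 - η₁) := by
            refine Real.rpow_le_rpow_of_exponent_le hZ ?_
            have h9 : (1 + 6 * η₁) / (1 + δ₁) ≤ 1 - 2 * η₁ := by
              rw [div_le_iff₀ (by positivity)]
              nlinarith
            linarith
      have h7 : X' ^ (7 / 2 : ℝ) ≤ Z ^ (5 / 6 - η₁) := by
        calc X' ^ (7 / 2 : ℝ) ≤ (Z ^ (1 / 6 + η₁)) ^ (7 / 2 : ℝ) :=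
              Real.rpow_le_rpow hX'0.le hsmall.le (by norm_num)
          _ = Z ^ ((1 / 6 + η₁) * (7 / 2)) := by rw [← Real.rpow_mul hZ0.le]
          _ ≤ Z ^ (5 / 6 - η₁) := Real.rpow_le_rpow_of_exponent_le hZ (by linarith)
      rw [hB]
      have h8 : Z₁ / X' + X' ^ (7 / 2 : ℝ) ≤ 2 * Z ^ (5 / 6 - η₁) := by linarith
      gcongr) n X hX0.le le_rfl (hn1.trans (by
        nlinarith [pow_pos (show (0 : ℝ) < 2 by norm_num) n])) T (by
    intro e he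
    obtain ⟨W, h0, ⟨a1, a2, a3⟩, rfl⟩ := hT e he
    obtain ⟨b5, b6⟩ := box_of_ht (X := X) hX0.le (by rw [hX6]; exact a1)
    exact ⟨⟨W, h0, a2, a3, rfl⟩, b5, b6⟩)
  refine hd.trans ?_
  have h3 := one_add_log_le hε0 hX1
  have h4 : (n : ℝ) ≤ 2 * (1 + 1 / ε) * X ^ ε := by linarith
  have hpow : X ^ ε * X ^ ε * Z ^ (5 / 6 - η₁) ≤ Z ^ (5 / 6 - η₁ / 2) := by
    have h5 : X ^ ε ≤ Z ^ ε := Real.rpow_le_rpow hX0.le hXZ hε0.le
    calc X ^ ε * X ^ ε * Z ^ (5 / 6 - η₁) ≤ Z ^ ε * Z ^ ε * Z ^ (5 / 6 - η₁) := by gcongr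
      _ = Z ^ (5 / 6 - η₁ / 2) := by
        rw [← Real.rpow_add hZ0, ← Real.rpow_add hZ0]
        congr 1
        rw [hε]
        ring
  have hY5 : Y₀ ^ 5 ≤ Z ^ (5 / 6 - η₁ / 2) := by
    rw [hY₀, ← Real.rpow_natCast, ← Real.rpow_mul hZ0.le]
    refine Real.rpow_le_rpow_of_exponent_le hZ ?_
    push_cast
    linarith
  calc 9 * Y₀ ^ 5 + n * B ≤ 9 * Z ^ (5 / 6 - η₁ / 2) + (2 * (1 + 1 / ε) * X ^ ε) * B := by
        have := mul_le_mul_of_nonneg_right h4 hB0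
        linarith
    _ = 9 * Z ^ (5 / 6 - η₁ / 2) + 2 * (1 + 1 / ε) * (2 * C₁) *
        (X ^ ε * X ^ ε * Z ^ (5 / 6 - η₁)) := by rw [hB]; ring
    _ ≤ 9 * Z ^ (5 / 6 - η₁ / 2) + 2 * (1 + 1 / ε) * (2 * C₁) * Z ^ (5 / 6 - η₁ / 2) := by
        gcongr
    _ = (9 + 2 * (1 + 1 / ε) * (2 * C₁)) * Z ^ (5 / 6 - η₁ / 2) := by ring

end Pool.Agent.L0h45.DH
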