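import Mathlib

/-!
# Points of a periodic set in the regions `|x³ - y²| ≤ a T`, `|x|³, y² ≤ K T`
-/

set_option autoImplicit false

namespace Pool.Agent.L0h45.DH

open Finset MeasureTheory

/-- integers of a class in an interval -/
theorem class_count {Q : ℕ} (hQ : 0 < Q) (v a b : ℤ) (hab : a ≤ b) :
    |(((Ico a b).filter (fun y => y ≡ v [ZMOD Q])).card : ℝ) - ((b : ℝ) - a) / Q| ≤ 1 := by
  have hQ0 : (0 : ℚ) < Q := by exact_mod_cast hQ
  have h1 := Int.Ico_filter_modEq_card a b (show (0 : ℤ) < (Q : ℤ) by exact_mod_cast hQ) v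
  obtain ⟨n, hn⟩ : ∃ n : ℤ, n = ((Ico a b).filter (fun y => y ≡ v [ZMOD Q])).card := ⟨_, rfl⟩
  rw [← hn] at h1
  have hn' : (((Ico a b).filter (fun y => y ≡ v [ZMOD Q])).card : ℝ) = (n : ℝ) := by
    rw [hn]; push_cast; rfl
  rw [hn']
  set u₁ : ℚ := ((b : ℚ) - (v : ℚ)) / ((Q : ℤ) : ℚ) with hu₁
  set u₂ : ℚ := ((a : ℚ) - (v : ℚ)) / ((Q : ℤ) : ℚ) with hu₂
  have h12 : u₂ ≤ u₁ := by
    rw [hu₁, hu₂]
    have : (a : ℚ) ≤ b := by exact_mod_cast hab
    have hQ1 : (0 : ℚ) < ((Q : ℤ) : ℚ) := by exact_mod_cast hQ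
    gcongr
  have hc : ⌈u₂⌉ ≤ ⌈u₁⌉ := Int.ceil_mono h12
  rw [max_eq_left (by omega)] at h1
  have k1 := Int.le_ceil u₁
  have k2 := Int.ceil_lt_add_one u₁
  have k3 := Int.le_ceil u₂
  have k4 := Int.ceil_lt_add_one u₂
  have hq : |(n : ℚ) - (u₁ - u₂)| ≤ 1 := by
    rw [h1]
    push_cast
    rw [abs_le]
    constructor <;> linarith
  have he : u₁ - u₂ = ((b : ℚ) - a) / Q := by
    rw [hu₁, hu₂]
    push_cast
    ring
  rw [he] at hq
  have : |((n : ℚ) : ℝ) - (((((b : ℚ) - a) / Q : ℚ)) : ℝ)| ≤ 1 := by exact_mod_cast hq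
  push_cast at this
  exact this

/-- the density of the admissible `y` for `x` -/
noncomputable def rr (P : ℤ → ℤ → Prop) (Q : ℕ) (x : ℤ) : ℝ :=
  open Classical in (((Ico (0 : ℤ) Q).filter (fun y => P x y)).card : ℝ)

theorem per_class {P : ℤ → Prop} {Q : ℕ} (hP : ∀ y, P (y + Q) ↔ P y) {y v : ℤ}
    (h : y ≡ v [ZMOD Q]) : P y ↔ P v := by
  have h1 : ∀ (k : ℕ) (y : ℤ), P (y + Q * k) ↔ P y := by
    intro k
    induction k with
    | zero => intro y; simp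
    | succ k ih =>
      intro y
      have : y + (Q : ℤ) * ((k + 1 : ℕ) : ℤ) = (y + Q * k) + Q := by push_cast; ring
      rw [this, hP, ih]
  obtain ⟨c, hc⟩ := (Int.modEq_iff_dvd.mp h)
  rcases le_total 0 c with h0 | h0
  · lift c to ℕ using h0
    have : v = y + Q * c := by linarith
    rw [this, h1]
  · obtain ⟨m, rfl⟩ : ∃ m : ℕ, c = -(m : ℤ) := ⟨c.natAbs, by omega⟩
    have : y = v + Q * m := by linarith
    rw [this, h1]

theorem per_count {P : ℤ → Prop} [DecidablePred P] {Q : ℕ} (hQ : 0 < Q)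
    (hP : ∀ y, P (y + Q) ↔ P y) (a b : ℤ) (hab : a ≤ b) :
    |(((Ico a b).filter P).card : ℝ) - (((Ico (0 : ℤ) Q).filter P).card : ℝ) *
      (((b : ℝ) - a) / Q)| ≤ (((Ico (0 : ℤ) Q).filter P).card : ℝ) := by
  set V := (Ico (0 : ℤ) Q).filter P with hV
  have hQ0 : (0 : ℤ) < Q := by exact_mod_cast hQ
  have hmaps : ∀ y ∈ (Ico a b).filter P, y % Q ∈ V := by
    intro y hy
    rw [mem_filter] at hy
    rw [hV, mem_filter, mem_Ico]
    refine ⟨⟨Int.emod_nonneg _ hQ0.ne', Int.emod_lt_of_pos _ hQ0⟩, ?_⟩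
    exact (per_class hP (Int.mod_modEq y Q)).mpr hy.2
  have h1 := card_eq_sum_card_fiberwise hmaps
  have h2 : ∀ v ∈ V, ((Ico a b).filter P).filter (fun y => y % Q = v) =
      (Ico a b).filter (fun y => y ≡ v [ZMOD Q]) := by
    intro v hv
    rw [hV, mem_filter, mem_Ico] at hv
    ext y
    rw [mem_filter, mem_filter, mem_filter]
    constructor
    · rintro ⟨⟨h3, h4⟩, h5⟩
      refine ⟨h3, ?_⟩
      rw [← h5]
      exact (Int.mod_modEq y Q).symm
    · rintro ⟨h3, h4⟩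
      refine ⟨⟨h3, (per_class hP h4).mpr hv.2⟩, ?_⟩
      have h5 : y % Q = v % Q := h4
      rw [h5]
      exact Int.emod_eq_of_lt hv.1.1 hv.1.2
  rw [h1]
  push_cast
  have h3 : ∑ v ∈ V, ((((Ico a b).filter P).filter (fun y => y % Q = v)).card : ℝ) =
      ∑ v ∈ V, (((Ico a b).filter (fun y => y ≡ v [ZMOD Q])).card : ℝ) :=
    sum_congr rfl fun v hv => by rw [h2 v hv]
  rw [h3]
  have h4 : (V.card : ℝ) * (((b : ℝ) - a) / Q) = ∑ v ∈ V, (((b : ℝ) - a) / Q) := by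
    rw [sum_const, nsmul_eq_mul]
  rw [h4, ← sum_sub_distrib]
  refine (abs_sum_le_sum_abs _ _).trans ?_
  calc ∑ v ∈ V, |(((Ico a b).filter (fun y => y ≡ v [ZMOD Q])).card : ℝ) - ((b : ℝ) - a) / Q|
      ≤ ∑ v ∈ V, (1 : ℝ) := sum_le_sum fun v _ => class_count hQ v a b hab
    _ = V.card := by simp

/-- the admissible `y` with `B ≤ |y| ≤ A` -/
theorem slice_count {P : ℤ → Prop} [DecidablePred P] {Q : ℕ} (hQ : 0 < Q)
    (hP : ∀ y, P (y + Q) ↔ P y) {A B : ℝ} (hB : 0 ≤ B) (hBA : B ≤ A) :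
    |((((Icc (-⌊A⌋) ⌊A⌋).filter (fun y : ℤ => P y ∧ B ≤ |(y : ℝ)|)).card : ℝ)) -
      (((Ico (0 : ℤ) Q).filter P).card : ℝ) * (2 * (A - B) / Q)| ≤ 6 * Q := by
  set ρ : ℝ := (((Ico (0 : ℤ) Q).filter P).card : ℝ) with hρ
  have hQ0 : (0 : ℝ) < Q := by exact_mod_cast hQ
  have hρQ : ρ ≤ Q := by
    rw [hρ]
    have h1 := card_filter_le (Ico (0 : ℤ) Q) P
    rw [Int.card_Ico] at h1
    have h2 : ((Q : ℤ) - 0).toNat = Q := by simp
    rw [h2] at h1
    exact_mod_cast h1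
  have hρ0 : 0 ≤ ρ := by positivity
  -- the two counts
  have hfl : 0 ≤ ⌊A⌋ := Int.floor_nonneg.mpr (hB.trans hBA)
  have hce : 0 ≤ ⌈B⌉ := Int.ceil_nonneg hB
  have e1 : Icc (-⌊A⌋) ⌊A⌋ = Ico (-⌊A⌋) (⌊A⌋ + 1) := by
    ext y
    rw [mem_Icc, mem_Ico]
    omega
  have c1 := per_count hQ hP (-⌊A⌋) (⌊A⌋ + 1) (by omega)
  rcases eq_or_ne ⌈B⌉ 0 with h0 | h0
  · -- `B = 0`
    have hB0 : B = 0 := by
      have := Int.le_ceil B
      rw [h0] at this
      push_cast at this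
      linarith
    have e2 : (Icc (-⌊A⌋) ⌊A⌋).filter (fun y : ℤ => P y ∧ B ≤ |(y : ℝ)|) =
        (Ico (-⌊A⌋) (⌊A⌋ + 1)).filter P := by
      rw [e1]
      refine filter_congr fun y _ => ?_
      rw [hB0]
      simp
    rw [e2]
    rw [← hρ] at c1
    have h3 := Int.floor_le A
    have h4 := Int.lt_floor_add_one A
    have h5 : |ρ * ((((⌊A⌋ + 1 : ℤ) : ℝ) - ((-⌊A⌋ : ℤ) : ℝ)) / Q) - ρ * (2 * (A - B) / Q)| ≤ ρ * (1 / Q) := by
      rw [← mul_sub, abs_mul, abs_of_nonneg hρ0, hB0, ← sub_div, abs_div, abs_of_pos hQ0]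
      have h6 : |((⌊A⌋ + 1 : ℤ) : ℝ) - ((-⌊A⌋ : ℤ) : ℝ) - 2 * (A - 0)| ≤ 1 := by
        push_cast
        rw [abs_le]
        constructor <;> linarith
      gcongr
    have h6 : ρ * (1 / Q) ≤ 1 := by
      rw [mul_one_div, div_le_one hQ0]
      exact hρQ
    have h7 : (1 : ℝ) ≤ Q := by exact_mod_cast hQ
    have h8 := abs_sub_le (((((Ico (-⌊A⌋) (⌊A⌋ + 1)).filter P).card : ℕ) : ℝ))
      (ρ * ((((⌊A⌋ + 1 : ℤ) : ℝ) - ((-⌊A⌋ : ℤ) : ℝ)) / Q)) (ρ * (2 * (A - B) / Q))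
    linarith
  · have hce1 : 1 ≤ ⌈B⌉ := by omega
    have c2 := per_count hQ hP (-⌈B⌉ + 1) ⌈B⌉ (by omega)
    have hsub : (Ico (-⌈B⌉ + 1) ⌈B⌉).filter P ⊆ (Ico (-⌊A⌋) (⌊A⌋ + 1)).filter P := by
      intro y hy
      rw [mem_filter, mem_Ico] at hy ⊢
      have h3 : ⌈B⌉ ≤ ⌊A⌋ + 1 := by
        have h4 := Int.ceil_lt_add_one B
        have h5 := Int.lt_floor_add_one A
        have h6 : (⌈B⌉ : ℝ) < (⌊A⌋ + 1 + 1 : ℤ) := by
          push_cast
          linarith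
        have h7 : ⌈B⌉ < ⌊A⌋ + 1 + 1 := by exact_mod_cast h6
        omega
      exact ⟨⟨by omega, by omega⟩, hy.2⟩
    have e2 : (Icc (-⌊A⌋) ⌊A⌋).filter (fun y : ℤ => P y ∧ B ≤ |(y : ℝ)|) =
        (Ico (-⌊A⌋) (⌊A⌋ + 1)).filter P \ (Ico (-⌈B⌉ + 1) ⌈B⌉).filter P := by
      rw [e1]
      ext y
      rw [mem_sdiff, mem_filter, mem_filter, mem_filter]
      have key : B ≤ |(y : ℝ)| ↔ ¬ (-⌈B⌉ + 1 ≤ y ∧ y < ⌈B⌉) := by
        rw [← not_lt, not_iff_not, abs_lt]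
        constructor
        · rintro ⟨h3, h4⟩
          have h5 := Int.le_ceil B
          have h6 : (-(⌈B⌉ : ℝ)) < y := by linarith
          have h7 : (y : ℝ) < ⌈B⌉ := by linarith
          have h8 : -⌈B⌉ < y := by exact_mod_cast h6
          have h9 : y < ⌈B⌉ := by exact_mod_cast h7
          omega
        · rintro ⟨h3, h4⟩
          have h5 := Int.lt_ceil.mp h4
          have h6 : -y < ⌈B⌉ := by omega
          have h7 := Int.lt_ceil.mp h6
          push_cast at h7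
          constructor <;> linarith
      rw [key, mem_Ico]
      constructor
      · rintro ⟨h3, h4, h5⟩
        exact ⟨⟨h3, h4⟩, fun h6 => h5 (mem_Ico.mp h6.1)⟩
      · rintro ⟨⟨h3, h4⟩, h5⟩
        exact ⟨h3, h4, fun h6 => h5 ⟨mem_Ico.mpr h6, h4⟩⟩
    rw [e2, card_sdiff_of_subset hsub, Nat.cast_sub (card_le_card hsub)]
    rw [← hρ] at c1 c2
    have h3 := Int.floor_le A
    have h4 := Int.lt_floor_add_one A
    have h3' := Int.le_ceil B
    have h4' := Int.ceil_lt_add_one B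
    have h5 : |ρ * ((((⌊A⌋ + 1 : ℤ) : ℝ) - ((-⌊A⌋ : ℤ) : ℝ)) / Q) - ρ * (2 * A / Q)| ≤ ρ * (1 / Q) := by
      rw [← mul_sub, abs_mul, abs_of_nonneg hρ0, ← sub_div, abs_div, abs_of_pos hQ0]
      have h6 : |((⌊A⌋ + 1 : ℤ) : ℝ) - ((-⌊A⌋ : ℤ) : ℝ) - 2 * A| ≤ 1 := by
        push_cast
        rw [abs_le]
        constructor <;> linarith
      gcongr
    have h5' : |ρ * ((((⌈B⌉ : ℤ) : ℝ) - ((-⌈B⌉ + 1 : ℤ) : ℝ)) / Q) - ρ * (2 * B / Q)| ≤ ρ * (1 / Q) := by
      rw [← mul_sub, abs_mul, abs_of_nonneg hρ0, ← sub_div, abs_div, abs_of_pos hQ0]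
      have h6 : |((⌈B⌉ : ℤ) : ℝ) - ((-⌈B⌉ + 1 : ℤ) : ℝ) - 2 * B| ≤ 1 := by
        push_cast
        rw [abs_le]
        constructor <;> linarith
      gcongr
    have h6 : ρ * (1 / Q) ≤ 1 := by
      rw [mul_one_div, div_le_one hQ0]
      exact hρQ
    have h7 : (1 : ℝ) ≤ Q := by exact_mod_cast hQ
    have e3 : ρ * (2 * (A - B) / Q) = ρ * (2 * A / Q) - ρ * (2 * B / Q) := by ring
    rw [e3]
    rw [abs_le] at c1 c2 h5 h5' ⊢
    constructor <;> linarith [c1.1, c1.2, c2.1, c2.2, h5.1, h5.2, h5'.1, h5'.2]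

/-- sums of a monotone function against a periodic weight -/
theorem block {f : ℝ → ℝ} (hf : Monotone f) (r : ℤ → ℝ) (hr : ∀ x, 0 ≤ r x) {Q : ℕ} (hQ : 0 < Q)
    (hper : ∀ x, r (x + Q) = r x) (a : ℤ) (n : ℕ) :
    |∑ i ∈ range (Q * n), r (a + i) * f ((a : ℝ) + i) -
      (∑ j ∈ range Q, r (a + j)) / Q * ∫ t in (a : ℝ)..(a : ℝ) + Q * n, f t| ≤
      (∑ j ∈ range Q, r (a + j)) * (f ((a : ℝ) + Q * n) - f a) := by
  set R : ℝ := ∑ j ∈ range Q, r (a + j) with hR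
  have hR0 : 0 ≤ R := sum_nonneg fun _ _ => hr _
  have hQ0 : (0 : ℝ) < Q := by exact_mod_cast hQ
  have hper' : ∀ (k : ℕ) (x : ℤ), r (x + Q * k) = r x := by
    intro k
    induction k with
    | zero => intro x; simp
    | succ k ih =>
      intro x
      have : x + (Q : ℤ) * ((k + 1 : ℕ) : ℤ) = (x + Q * k) + Q := by push_cast; ring
      rw [this, hper, ih]
  induction n with
  | zero => simp
  | succ n ih =>
    have hsum : ∑ i ∈ range (Q * (n + 1)), r (a + i) * f ((a : ℝ) + i) =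
        ∑ i ∈ range (Q * n), r (a + i) * f ((a : ℝ) + i) +
        ∑ j ∈ range Q, r (a + j) * f ((a : ℝ) + Q * n + j) := by
      rw [Nat.mul_succ, sum_range_add]
      congr 1
      refine sum_congr rfl fun j _ => ?_
      have h1 : a + ((Q * n + j : ℕ) : ℤ) = (a + j) + Q * n := by push_cast; ring
      rw [h1, hper']
      congr 2
      push_cast
      ring
    have hint : ∫ t in (a : ℝ)..(a : ℝ) + Q * ((n + 1 : ℕ) : ℝ), f t =
        (∫ t in (a : ℝ)..(a : ℝ) + Q * n, f t) +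
        ∫ t in (a : ℝ) + Q * n..(a : ℝ) + Q * n + Q, f t := by
      rw [intervalIntegral.integral_add_adjacent_intervals hf.intervalIntegrable
        hf.intervalIntegrable]
      congr 1
      push_cast
      ring
    set b : ℝ := (a : ℝ) + Q * n with hb
    have hb' : (a : ℝ) + Q * ((n + 1 : ℕ) : ℝ) = b + Q := by rw [hb]; push_cast; ring
    have hmon : f b ≤ f (b + Q) := hf (by linarith)
    have s1 : R * f b ≤ ∑ j ∈ range Q, r (a + j) * f (b + j) := by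
      rw [hR, sum_mul]
      refine sum_le_sum fun j _ => ?_
      exact mul_le_mul_of_nonneg_left (hf (by linarith [(Nat.cast_nonneg j : (0 : ℝ) ≤ j)])) (hr _)
    have s2 : ∑ j ∈ range Q, r (a + j) * f (b + j) ≤ R * f (b + Q) := by
      rw [hR, sum_mul]
      refine sum_le_sum fun j hj => ?_
      rw [mem_range] at hj
      have : (j : ℝ) ≤ Q := by exact_mod_cast hj.le
      exact mul_le_mul_of_nonneg_left (hf (by linarith)) (hr _)
    have i1 : Q * f b ≤ ∫ t in b..b + Q, f t := by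
      have h1 : ∫ t in b..b + Q, f b ≤ ∫ t in b..b + Q, f t := by
        refine intervalIntegral.integral_mono_on (by linarith) (by simp) hf.intervalIntegrable ?_
        intro x hx
        exact hf hx.1
      rw [intervalIntegral.integral_const, smul_eq_mul] at h1
      calc Q * f b = (b + Q - b) * f b := by ring
        _ ≤ _ := h1
    have i2 : ∫ t in b..b + Q, f t ≤ Q * f (b + Q) := by
      have h1 : ∫ t in b..b + Q, f t ≤ ∫ t in b..b + Q, f (b + Q) := by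
        refine intervalIntegral.integral_mono_on (by linarith) hf.intervalIntegrable (by simp) ?_
        intro x hx
        exact hf hx.2
      rw [intervalIntegral.integral_const, smul_eq_mul] at h1
      calc _ ≤ _ := h1
        _ = Q * f (b + Q) := by ring
    have j1 : R * f b ≤ R / Q * ∫ t in b..b + Q, f t := by
      have h1 := mul_le_mul_of_nonneg_left i1 (show 0 ≤ R / Q by positivity)
      calc R * f b = R / Q * (Q * f b) := by field_simp
        _ ≤ _ := h1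
    have j2 : R / Q * ∫ t in b..b + Q, f t ≤ R * f (b + Q) := by
      have h1 := mul_le_mul_of_nonneg_left i2 (show 0 ≤ R / Q by positivity)
      calc _ ≤ _ := h1
        _ = R * f (b + Q) := by field_simp
    rw [hsum, hint, hb', mul_add]
    rw [abs_le] at ih ⊢
    constructor <;> nlinarith [ih.1, ih.2, s1, s2, j1, j2]

end Pool.Agent.L0h45.DH
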