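import Mathlib
import Pool.Agent.L0h45.DH.Area

/-!
# Points of a periodic set in the regions `|x³ - y²| ≤ a T`, `|x|³, y² ≤ K T`
-/

set_option autoImplicit false

namespace Pool.Agent.L0h45.DH

open Finset MeasureTheory

/-- the upper end of the slice -/
noncomputable def fA (a K T : ℝ) (t : ℝ) : ℝ := √(max (min (t ^ 3 + a * T) (K * T)) 0)

/-- the lower end of the slice -/
noncomputable def fB (a T : ℝ) (t : ℝ) : ℝ := √(max (t ^ 3 - a * T) 0)

theorem cube_mono : Monotone (fun t : ℝ => t ^ 3) :=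
  (Odd.strictMono_pow (by decide : Odd 3)).monotone

theorem fA_mono (a K T : ℝ) : Monotone (fA a K T) := by
  intro s t hst
  have h := cube_mono hst
  simp only at h
  unfold fA
  exact Real.sqrt_le_sqrt (max_le_max (min_le_min (by linarith) le_rfl) le_rfl)

theorem fB_mono (a T : ℝ) : Monotone (fB a T) := by
  intro s t hst
  have h := cube_mono hst
  simp only at h
  unfold fB
  exact Real.sqrt_le_sqrt (max_le_max (by linarith) le_rfl)

theorem fA_nonneg (a K T t : ℝ) : 0 ≤ fA a K T t := Real.sqrt_nonneg _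
theorem fB_nonneg (a T t : ℝ) : 0 ≤ fB a T t := Real.sqrt_nonneg _

theorem fA_le {a K T : ℝ} (hK : 0 ≤ K * T) (t : ℝ) : fA a K T t ≤ √(K * T) :=
  Real.sqrt_le_sqrt (max_le (min_le_right _ _) hK)

theorem fB_le_fA {a K T t : ℝ} (ha : 0 ≤ a * T) (h : t ^ 3 ≤ K * T) : fB a T t ≤ fA a K T t := by
  unfold fA fB
  refine Real.sqrt_le_sqrt (max_le_max (le_min ?_ ?_) le_rfl) <;> linarith

/-- the area of the region for `T = 1` -/
noncomputable def vol (a K : ℝ) : ℝ :=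
  2 * ∫ t in (-(K ^ (1 / 3 : ℝ)))..(K ^ (1 / 3 : ℝ)), (fA a K 1 t - fB a 1 t)

/-- the density of the periodic set -/
noncomputable def dens (P : ℤ → ℤ → Prop) (Q : ℕ) : ℝ :=
  (∑ j ∈ range Q, rr P Q (j : ℤ)) / (Q : ℝ) ^ 2

theorem fA_scale {a K T : ℝ} (hT : 0 < T) (u : ℝ) :
    fA a K T (T ^ (1 / 3 : ℝ) * u) = √T * fA a K 1 u := by
  unfold fA
  have h1 : (T ^ (1 / 3 : ℝ) * u) ^ 3 = T * u ^ 3 := by
    rw [mul_pow, ← Real.rpow_natCast, ← Real.rpow_mul hT.le]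
    norm_num
  rw [h1, ← Real.sqrt_mul hT.le]
  congr 1
  have h2 : T * u ^ 3 + a * T = T * (u ^ 3 + a * 1) := by ring
  have h3 : K * T = T * (K * 1) := by ring
  rw [h2, h3, ← mul_min_of_nonneg _ _ hT.le]
  conv_lhs => rw [show (0 : ℝ) = T * 0 by ring]
  rw [← mul_max_of_nonneg _ _ hT.le]

theorem fB_scale {a T : ℝ} (hT : 0 < T) (u : ℝ) :
    fB a T (T ^ (1 / 3 : ℝ) * u) = √T * fB a 1 u := by
  unfold fB
  have h1 : (T ^ (1 / 3 : ℝ) * u) ^ 3 = T * u ^ 3 := by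
    rw [mul_pow, ← Real.rpow_natCast, ← Real.rpow_mul hT.le]
    norm_num
  rw [h1, ← Real.sqrt_mul hT.le]
  congr 1
  have h2 : T * u ^ 3 - a * T = T * (u ^ 3 - a * 1) := by ring
  rw [h2]
  conv_lhs => rw [show (0 : ℝ) = T * 0 by ring]
  rw [← mul_max_of_nonneg _ _ hT.le]

theorem int_scale {a K T : ℝ} (hK : 0 ≤ K) (hT : 0 < T) :
    ∫ t in (-((K * T) ^ (1 / 3 : ℝ)))..((K * T) ^ (1 / 3 : ℝ)), (fA a K T t - fB a T t) =
      T ^ (5 / 6 : ℝ) * (vol a K / 2) := by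
  set c : ℝ := T ^ (1 / 3 : ℝ) with hc
  have hc0 : 0 < c := by positivity
  have h1 : (K * T) ^ (1 / 3 : ℝ) = c * K ^ (1 / 3 : ℝ) := by
    rw [Real.mul_rpow hK hT.le, hc, mul_comm]
  have h2 := intervalIntegral.integral_comp_mul_left (a := -(K ^ (1 / 3 : ℝ)))
    (b := K ^ (1 / 3 : ℝ)) (fun t => fA a K T t - fB a T t) hc0.ne'
  rw [h1]
  have h3 : c * -(K ^ (1 / 3 : ℝ)) = -(c * K ^ (1 / 3 : ℝ)) := by ring
  rw [h3] at h2
  have h4 : ∀ u : ℝ, fA a K T (c * u) - fB a T (c * u) = √T * (fA a K 1 u - fB a 1 u) := by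
    intro u
    rw [hc, fA_scale hT, fB_scale hT]
    ring
  simp only [h4] at h2
  rw [intervalIntegral.integral_const_mul, smul_eq_mul] at h2
  have h5 : ∫ t in (-(c * K ^ (1 / 3 : ℝ)))..(c * K ^ (1 / 3 : ℝ)), (fA a K T t - fB a T t) =
      c * (√T * ∫ u in (-(K ^ (1 / 3 : ℝ)))..(K ^ (1 / 3 : ℝ)), (fA a K 1 u - fB a 1 u)) := by
    rw [h2]
    field_simp
  rw [h5]
  have h6 : c * √T = T ^ (5 / 6 : ℝ) := by
    rw [hc, Real.sqrt_eq_rpow, ← Real.rpow_add hT]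
    norm_num
  unfold vol
  rw [← mul_assoc, h6]
  ring

/-- the points of the periodic set with given `x` -/
theorem x_slice {P : ℤ → ℤ → Prop} {Q : ℕ} (hQ : 0 < Q) (hP2 : ∀ x y, P x (y + Q) ↔ P x y)
    {a K T : ℝ} (ha : 0 ≤ a) (hK : 0 ≤ K) (hT : 0 < T) (x : ℤ) (hx : |(x : ℝ)| ^ 3 ≤ K * T)
    (F : Finset ℤ) (hF : ∀ y, y ∈ F ↔ P x y ∧ |(x : ℝ) ^ 3 - (y : ℝ) ^ 2| ≤ a * T ∧
      (y : ℝ) ^ 2 ≤ K * T) :
    |(F.card : ℝ) - rr P Q x * (2 * (fA a K T x - fB a T x) / Q)| ≤ 6 * Q + 1 := by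
  classical
  have haT : 0 ≤ a * T := by positivity
  have hKT : 0 ≤ K * T := by positivity
  have hx3 : (x : ℝ) ^ 3 ≤ K * T := by
    refine le_trans ?_ hx
    rw [← abs_pow]
    exact le_abs_self _
  have hBA := fB_le_fA (a := a) haT hx3
  have h1 := slice_count (P := fun y => P x y) hQ (fun y => hP2 x y) (fB_nonneg a T x) hBA
  have h2 : rr P Q x = (((Ico (0 : ℤ) Q).filter (fun y => P x y)).card : ℝ) := by
    unfold rr
    congr!
  rw [h2]
  set G := (Icc (-⌊fA a K T x⌋) ⌊fA a K T x⌋).filter (fun y : ℤ => P x y ∧ fB a T x ≤ |(y : ℝ)|)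
    with hG
  have hmemB : ∀ y : ℤ, fB a T x ≤ |(y : ℝ)| ↔ (x : ℝ) ^ 3 - a * T ≤ (y : ℝ) ^ 2 := by
    intro y
    unfold fB
    rw [Real.sqrt_le_left (abs_nonneg _), sq_abs, max_le_iff]
    constructor
    · exact fun h => h.1
    · exact fun h => ⟨h, sq_nonneg _⟩
  have hmemA : ∀ y : ℤ, y ∈ Icc (-⌊fA a K T x⌋) ⌊fA a K T x⌋ ↔ |(y : ℝ)| ≤ fA a K T x := by
    intro y
    rw [mem_Icc, abs_le]
    constructor
    · rintro ⟨h3, h4⟩
      have h5 : -y ≤ ⌊fA a K T x⌋ := by omega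
      have h6 := Int.le_floor.mp h5
      have h7 := Int.le_floor.mp h4
      push_cast at h6
      constructor <;> linarith
    · rintro ⟨h3, h4⟩
      have h5 : -y ≤ ⌊fA a K T x⌋ := Int.le_floor.mpr (by push_cast; linarith)
      have h6 : y ≤ ⌊fA a K T x⌋ := Int.le_floor.mpr h4
      constructor <;> omega
  have hmemA' : ∀ y : ℤ, |(y : ℝ)| ≤ fA a K T x ↔
      (y : ℝ) ^ 2 ≤ max (min ((x : ℝ) ^ 3 + a * T) (K * T)) 0 := by
    intro y
    unfold fA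
    rw [Real.le_sqrt (abs_nonneg _), sq_abs]
    exact le_max_right _ _
  have hFG : |(F.card : ℝ) - G.card| ≤ 1 := by
    rcases le_or_gt 0 ((x : ℝ) ^ 3 + a * T) with h0 | h0
    · have : F = G := by
        ext y
        rw [hF, hG, mem_filter, hmemA, hmemA', hmemB, max_eq_left (le_min h0 hKT), le_min_iff,
          abs_le]
        constructor
        · rintro ⟨b1, ⟨b2, b3⟩, b4⟩
          exact ⟨⟨by linarith, b4⟩, b1, by linarith⟩
        · rintro ⟨⟨b1, b2⟩, b3, b4⟩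
          exact ⟨b3, ⟨by linarith, by linarith⟩, b2⟩
      rw [this]
      simp
    · have hF0 : F = ∅ := by
        rw [Finset.eq_empty_iff_forall_notMem]
        intro y hy
        rw [hF, abs_le] at hy
        have := sq_nonneg (y : ℝ)
        linarith [hy.2.1.1]
      have hG1 : G.card ≤ 1 := by
        refine card_le_one.mpr ?_
        have h3 : ∀ y ∈ G, y = 0 := by
          intro y hy
          rw [hG, mem_filter, hmemA, hmemA', max_eq_right ((min_le_left _ _).trans h0.le)] at hy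
          have h4 : (y : ℝ) = 0 := by nlinarith [hy.1, sq_nonneg (y : ℝ)]
          exact_mod_cast h4
        intro u hu v hv
        rw [h3 u hu, h3 v hv]
      rw [hF0, card_empty]
      push_cast
      rw [zero_sub, abs_neg, abs_of_nonneg (by positivity)]
      exact_mod_cast hG1
  have h3 := abs_sub_le (F.card : ℝ) (G.card : ℝ)
    ((((Ico (0 : ℤ) Q).filter (fun y => P x y)).card : ℝ) * (2 * (fA a K T x - fB a T x) / Q))
  linarith

theorem per_sum {r : ℤ → ℝ} {Q : ℕ} (hper : ∀ x, r (x + Q) = r x) (m : ℕ) :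
    ∑ j ∈ range Q, r (-((Q * m : ℕ) : ℤ) + j) = ∑ j ∈ range Q, r j := by
  refine sum_congr rfl fun j _ => ?_
  have h : ∀ (k : ℕ) (x : ℤ), r (x + Q * k) = r x := by
    intro k
    induction k with
    | zero => intro x; simp
    | succ k ih =>
      intro x
      have : x + (Q : ℤ) * ((k + 1 : ℕ) : ℤ) = (x + Q * k) + Q := by push_cast; ring
      rw [this, hper, ih]
  have h1 := h m (-((Q * m : ℕ) : ℤ) + j)
  rw [← h1]
  congr 1
  push_cast
  ring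

theorem rr_nonneg (P : ℤ → ℤ → Prop) (Q : ℕ) (x : ℤ) : 0 ≤ rr P Q x := by
  unfold rr
  positivity

theorem rr_le (P : ℤ → ℤ → Prop) (Q : ℕ) (x : ℤ) : rr P Q x ≤ Q := by
  classical
  unfold rr
  have h1 := card_filter_le (Ico (0 : ℤ) Q) (fun y => P x y)
  rw [Int.card_Ico] at h1
  have h2 : ((Q : ℤ) - 0).toNat = Q := by simp
  rw [h2] at h1
  exact_mod_cast h1

theorem rr_per {P : ℤ → ℤ → Prop} {Q : ℕ} (hP1 : ∀ x y, P (x + Q) y ↔ P x y) (x : ℤ) :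
    rr P Q (x + Q) = rr P Q x := by
  have h : P (x + Q) = P x := funext fun y => propext (hP1 x y)
  unfold rr
  rw [h]

theorem cube_le {K T : ℝ} (hKT : 0 ≤ K * T) (x : ℝ) :
    |x| ^ 3 ≤ K * T ↔ |x| ≤ (K * T) ^ (1 / 3 : ℝ) := by
  have hL0 : 0 ≤ (K * T) ^ (1 / 3 : ℝ) := by positivity
  have hL3 : ((K * T) ^ (1 / 3 : ℝ)) ^ 3 = K * T := by
    rw [← Real.rpow_natCast, ← Real.rpow_mul hKT]
    norm_num
  conv_lhs => rw [← hL3]
  exact pow_le_pow_iff_left₀ (abs_nonneg _) hL0 three_ne_zero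

/-- the term for `x` -/
noncomputable def FF (P : ℤ → ℤ → Prop) (Q : ℕ) (a K T : ℝ) (x : ℤ) : ℝ :=
  rr P Q x * (2 * (fA a K T x - fB a T x) / Q)

theorem part_one {P : ℤ → ℤ → Prop} {Q : ℕ} (hQ : 0 < Q)
    (hP2 : ∀ x y, P x (y + Q) ↔ P x y) {a K : ℝ} (ha : 0 ≤ a) (hK : 0 ≤ K)
    (T : ℝ) (hT : 1 ≤ T) (S : Finset (ℤ × ℤ))
    (hS : ∀ e, e ∈ S ↔ P e.1 e.2 ∧ |(e.1 : ℝ) ^ 3 - (e.2 : ℝ) ^ 2| ≤ a * T ∧
      |(e.1 : ℝ)| ^ 3 ≤ K * T ∧ (e.2 : ℝ) ^ 2 ≤ K * T) (m : ℕ)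
    (hm1 : (m : ℝ) * Q ≤ (K * T) ^ (1 / 3 : ℝ)) (hm2 : (K * T) ^ (1 / 3 : ℝ) < (m + 1) * Q) :
    |(S.card : ℝ) - ∑ x ∈ Ico (-((Q * m : ℕ) : ℤ)) ((Q * m : ℕ) : ℤ), FF P Q a K T x| ≤
      2 * Q * (2 * √(K * T) + 1) + (6 * Q + 1) * (2 * (K * T) ^ (1 / 3 : ℝ)) := by
  classical
  have hQ0 : (0 : ℝ) < Q := by exact_mod_cast hQ
  have hT0 : 0 < T := by linarith
  have hKT : 0 ≤ K * T := by positivity
  obtain ⟨w, hw⟩ : ∃ w : ℝ, w = √(K * T) := ⟨_, rfl⟩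
  have hw0 : 0 ≤ w := by rw [hw]; positivity
  have hcube := cube_le hKT
  obtain ⟨L, hL⟩ : ∃ L : ℝ, L = (K * T) ^ (1 / 3 : ℝ) := ⟨_, rfl⟩
  rw [← hL] at hm1 hm2 ⊢
  rw [← hw]
  simp only [← hL] at hcube
  have hL0 : 0 ≤ L := by rw [hL]; positivity
  -- fibres
  have hfib : ∀ x : ℤ, (S.filter (fun e => e.1 = x)).card =
      ((S.filter (fun e => e.1 = x)).image Prod.snd).card := by
    intro x
    rw [card_image_of_injOn]
    intro e he e' he' hee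
    simp only [coe_filter, Set.mem_ofPred_eq] at he he'
    exact Prod.ext (by rw [he.2, he'.2]) hee
  have hg1 : ∀ x : ℤ, |(x : ℝ)| ≤ L →
      |((S.filter (fun e => e.1 = x)).card : ℝ) - FF P Q a K T x| ≤ 6 * Q + 1 := by
    intro x hx
    rw [hfib x]
    refine x_slice hQ hP2 ha hK hT0 x ((hcube _).mpr hx) _ ?_
    intro y
    rw [mem_image]
    constructor
    · rintro ⟨e, he, rfl⟩
      rw [mem_filter, hS] at he
      obtain ⟨⟨b1, b2, b3, b4⟩, b5⟩ := he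
      rw [b5] at b1 b2
      exact ⟨b1, b2, b4⟩
    · rintro ⟨b1, b2, b4⟩
      refine ⟨(x, y), ?_, rfl⟩
      rw [mem_filter, hS]
      exact ⟨⟨b1, b2, (hcube _).mpr hx, b4⟩, rfl⟩
  have hg2 : ∀ x : ℤ, ((S.filter (fun e => e.1 = x)).card : ℝ) ≤ 2 * w + 1 := by
    intro x
    rw [hfib x]
    have hsub : (S.filter (fun e => e.1 = x)).image Prod.snd ⊆ Icc (-⌊w⌋) ⌊w⌋ := by
      intro y hy
      rw [mem_image] at hy
      obtain ⟨e, he, rfl⟩ := hy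
      rw [mem_filter, hS] at he
      have h4 := he.1.2.2.2
      have h5 : |(e.2 : ℝ)| ≤ w := by
        rw [hw]
        refine Real.le_sqrt_of_sq_le ?_
        rw [sq_abs]
        exact h4
      rw [mem_Icc]
      rw [abs_le] at h5
      have h6 : -e.2 ≤ ⌊w⌋ := Int.le_floor.mpr (by push_cast; linarith)
      have h7 : e.2 ≤ ⌊w⌋ := Int.le_floor.mpr h5.2
      constructor <;> omega
    have h1 := card_le_card hsub
    rw [Int.card_Icc] at h1
    have h2 : 0 ≤ ⌊w⌋ := Int.floor_nonneg.mpr hw0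
    have h3 : ((⌊w⌋ + 1 - -⌊w⌋).toNat : ℤ) = 2 * ⌊w⌋ + 1 := by
      rw [Int.toNat_of_nonneg (by omega)]
      ring
    have h4 : ((⌊w⌋ + 1 - -⌊w⌋).toNat : ℝ) = 2 * (⌊w⌋ : ℝ) + 1 := by exact_mod_cast h3
    have h5 := Int.floor_le w
    calc _ ≤ ((⌊w⌋ + 1 - -⌊w⌋).toNat : ℝ) := by exact_mod_cast h1
      _ ≤ _ := by rw [h4]; linarith
  -- splitting of the sum
  obtain ⟨M, hM⟩ : ∃ M : ℤ, M = ⌊L⌋ := ⟨_, rfl⟩
  have hM1 : (M : ℝ) ≤ L := by rw [hM]; exact Int.floor_le L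
  have hM0 : 0 ≤ M := by rw [hM]; exact Int.floor_nonneg.mpr hL0
  have hmaps : ∀ e ∈ S, e.1 ∈ Icc (-M) M := by
    intro e he
    rw [hS] at he
    have h5 := (hcube _).mp he.2.2.1
    rw [abs_le] at h5
    rw [mem_Icc, hM]
    have h6 : -e.1 ≤ ⌊L⌋ := Int.le_floor.mpr (by push_cast; linarith)
    have h7 : e.1 ≤ ⌊L⌋ := Int.le_floor.mpr h5.2
    constructor <;> omega
  have hcard : (S.card : ℝ) = ∑ x ∈ Icc (-M) M, ((S.filter (fun e => e.1 = x)).card : ℝ) := by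
    have h1 := card_eq_sum_card_fiberwise hmaps
    exact_mod_cast h1
  have hQm : ((Q * m : ℕ) : ℝ) ≤ L := by push_cast; linarith
  have hQmM : ((Q * m : ℕ) : ℤ) ≤ M := by
    rw [hM]
    exact Int.le_floor.mpr (by exact_mod_cast hQm)
  have hMQm : M < ((Q * m : ℕ) : ℤ) + Q := by
    have h1 : (M : ℝ) < ((Q * m : ℕ) : ℝ) + Q := by push_cast; linarith
    exact_mod_cast h1
  obtain ⟨I, hI⟩ : ∃ I : Finset ℤ, I = Ico (-((Q * m : ℕ) : ℤ)) ((Q * m : ℕ) : ℤ) := ⟨_, rfl⟩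
  rw [← hI]
  have hIsub : I ⊆ Icc (-M) M := by
    intro x hx
    rw [hI, mem_Ico] at hx
    rw [mem_Icc]
    constructor <;> omega
  have hsd : ((Icc (-M) M \ I).card : ℝ) ≤ 2 * Q := by
    have h1 : Icc (-M) M \ I ⊆ Ico (-M) (-((Q * m : ℕ) : ℤ)) ∪ Icc ((Q * m : ℕ) : ℤ) M := by
      intro x hx
      rw [mem_sdiff, hI, mem_Icc, mem_Ico] at hx
      rw [mem_union, mem_Ico, mem_Icc]
      by_cases h : x < -((Q * m : ℕ) : ℤ)
      · left; constructor <;> omega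
      · right
        push Not at h
        have := hx.2
        rw [not_and] at this
        have := this h
        constructor <;> omega
    have h2 := (card_le_card h1).trans (card_union_le _ _)
    rw [Int.card_Ico, Int.card_Icc] at h2
    have h3 : (-((Q * m : ℕ) : ℤ) - -M).toNat + (M + 1 - ((Q * m : ℕ) : ℤ)).toNat ≤ 2 * Q := by
      omega
    calc ((Icc (-M) M \ I).card : ℝ) ≤ ((2 * Q : ℕ) : ℝ) := by exact_mod_cast h2.trans h3
      _ = 2 * Q := by push_cast; ring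
  have hsplit : ∑ x ∈ Icc (-M) M, ((S.filter (fun e => e.1 = x)).card : ℝ) =
      ∑ x ∈ I, ((S.filter (fun e => e.1 = x)).card : ℝ) +
      ∑ x ∈ Icc (-M) M \ I, ((S.filter (fun e => e.1 = x)).card : ℝ) := by
    rw [add_comm, sum_sdiff hIsub]
  have hrest0 : 0 ≤ ∑ x ∈ Icc (-M) M \ I, ((S.filter (fun e => e.1 = x)).card : ℝ) :=
    sum_nonneg fun x _ => by positivity
  have hrest : ∑ x ∈ Icc (-M) M \ I, ((S.filter (fun e => e.1 = x)).card : ℝ) ≤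
      2 * Q * (2 * w + 1) := by
    calc _ ≤ ∑ x ∈ Icc (-M) M \ I, (2 * w + 1) := sum_le_sum fun x _ => hg2 x
      _ = ((Icc (-M) M \ I).card : ℝ) * (2 * w + 1) := by rw [sum_const, nsmul_eq_mul]
      _ ≤ _ := by gcongr
  have hIcard : (I.card : ℝ) ≤ 2 * L := by
    rw [hI, Int.card_Ico]
    have h1 : (((Q * m : ℕ) : ℤ) - -((Q * m : ℕ) : ℤ)).toNat = 2 * (Q * m) := by omega
    rw [h1]
    push_cast
    push_cast at hQm
    linarith
  have hIabs : ∀ x ∈ I, |(x : ℝ)| ≤ L := by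
    intro x hx
    rw [hI, mem_Ico] at hx
    rw [abs_le]
    have h1 : (-((Q * m : ℕ) : ℝ)) ≤ x := by exact_mod_cast hx.1
    have h2 : (x : ℝ) ≤ ((Q * m : ℕ) : ℝ) := by exact_mod_cast hx.2.le
    constructor <;> linarith
  have hmain : |∑ x ∈ I, ((S.filter (fun e => e.1 = x)).card : ℝ) - ∑ x ∈ I, FF P Q a K T x| ≤
      (6 * Q + 1) * (2 * L) := by
    rw [← sum_sub_distrib]
    refine (abs_sum_le_sum_abs _ _).trans ?_
    calc _ ≤ ∑ x ∈ I, (6 * (Q : ℝ) + 1) := sum_le_sum fun x hx => hg1 x (hIabs x hx)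
      _ = (I.card : ℝ) * (6 * Q + 1) := by rw [sum_const, nsmul_eq_mul]
      _ ≤ (2 * L) * (6 * Q + 1) := by gcongr
      _ = _ := by ring
  rw [hcard, hsplit]
  have t1 := abs_le.mp hmain
  rw [abs_le]
  constructor <;> linarith [t1.1, t1.2]

theorem part_two {P : ℤ → ℤ → Prop} {Q : ℕ} (hQ : 0 < Q) (hP1 : ∀ x y, P (x + Q) y ↔ P x y)
    {a K : ℝ} (ha : 0 ≤ a) (hK : 0 ≤ K) (T : ℝ) (hT : 1 ≤ T) (m : ℕ)
    (hm1 : (m : ℝ) * Q ≤ (K * T) ^ (1 / 3 : ℝ)) :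
    |∑ x ∈ Ico (-((Q * m : ℕ) : ℤ)) ((Q * m : ℕ) : ℤ), FF P Q a K T x -
      2 * dens P Q * ∫ t in (-((m : ℝ) * Q))..((m : ℝ) * Q), (fA a K T t - fB a T t)| ≤
      4 * Q * √(K * T) := by
  classical
  have hQ0 : (0 : ℝ) < Q := by exact_mod_cast hQ
  have hT0 : 0 < T := by linarith
  have hKT : 0 ≤ K * T := by positivity
  have haT : 0 ≤ a * T := by positivity
  obtain ⟨w, hw⟩ : ∃ w : ℝ, w = √(K * T) := ⟨_, rfl⟩
  have hw0 : 0 ≤ w := by rw [hw]; positivity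
  have hL3 : ((K * T) ^ (1 / 3 : ℝ)) ^ 3 = K * T := by
    rw [← Real.rpow_natCast, ← Real.rpow_mul hKT]
    norm_num
  rw [← hw]
  -- as a sum over a range
  have hrange : ∀ h : ℤ → ℝ, ∑ x ∈ Ico (-((Q * m : ℕ) : ℤ)) ((Q * m : ℕ) : ℤ), h x =
      ∑ i ∈ range (Q * (2 * m)), h (-((Q * m : ℕ) : ℤ) + i) := by
    intro h
    refine (sum_nbij' (fun i : ℕ => -((Q * m : ℕ) : ℤ) + (i : ℤ))
      (fun x : ℤ => (x + ((Q * m : ℕ) : ℤ)).toNat) ?_ ?_ ?_ ?_ ?_).symm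
    · intro i hi
      rw [mem_range] at hi
      rw [mem_Ico]
      have h1 : Q * (2 * m) = 2 * (Q * m) := by ring
      rw [h1] at hi
      constructor <;> omega
    · intro x hx
      rw [mem_Ico] at hx
      rw [mem_range]
      have h1 : Q * (2 * m) = 2 * (Q * m) := by ring
      rw [h1]
      omega
    · intro i hi
      simp
    · intro x hx
      rw [mem_Ico] at hx
      beta_reduce
      rw [Int.toNat_of_nonneg (by omega)]
      ring
    · intro i hi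
      rfl
  have hRdef : ∑ j ∈ range Q, rr P Q (-((Q * m : ℕ) : ℤ) + j) = dens P Q * (Q : ℝ) ^ 2 := by
    rw [per_sum (rr_per hP1) m]
    unfold dens
    field_simp
  obtain ⟨R, hR⟩ : ∃ R : ℝ, R = dens P Q * (Q : ℝ) ^ 2 := ⟨_, rfl⟩
  rw [← hR] at hRdef
  have hR0 : 0 ≤ R := by
    rw [← hRdef]
    exact sum_nonneg fun _ _ => rr_nonneg P Q _
  have hRQ : R ≤ (Q : ℝ) ^ 2 := by
    rw [← hRdef]
    calc _ ≤ ∑ j ∈ range Q, (Q : ℝ) := sum_le_sum fun _ _ => rr_le P Q _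
      _ = (Q : ℝ) ^ 2 := by rw [sum_const, card_range, nsmul_eq_mul]; ring
  have bA := block (fA_mono a K T) (rr P Q) (rr_nonneg P Q) hQ (rr_per hP1)
    (-((Q * m : ℕ) : ℤ)) (2 * m)
  have bB := block (fB_mono a T) (rr P Q) (rr_nonneg P Q) hQ (rr_per hP1)
    (-((Q * m : ℕ) : ℤ)) (2 * m)
  rw [hRdef] at bA bB
  obtain ⟨c₀, hc₀⟩ : ∃ c₀ : ℝ, c₀ = ((-((Q * m : ℕ) : ℤ) : ℤ) : ℝ) := ⟨_, rfl⟩
  rw [← hc₀] at bA bB
  have hc₀e : c₀ = -((m : ℝ) * Q) := by rw [hc₀]; push_cast; ring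
  have hc₁ : c₀ + Q * ((2 * m : ℕ) : ℝ) = (m : ℝ) * Q := by rw [hc₀e]; push_cast; ring
  rw [hc₁] at bA bB
  have hFsum : ∑ x ∈ Ico (-((Q * m : ℕ) : ℤ)) ((Q * m : ℕ) : ℤ), FF P Q a K T x =
      (2 / Q) * (∑ i ∈ range (Q * (2 * m)),
      rr P Q (-((Q * m : ℕ) : ℤ) + i) * fA a K T (c₀ + i) - ∑ i ∈ range (Q * (2 * m)),
      rr P Q (-((Q * m : ℕ) : ℤ) + i) * fB a T (c₀ + i)) := by
    rw [hrange, ← sum_sub_distrib, mul_sum]
    refine sum_congr rfl fun i _ => ?_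
    unfold FF
    have e1 : ((-((Q * m : ℕ) : ℤ) + (i : ℤ) : ℤ) : ℝ) = c₀ + i := by rw [hc₀]; push_cast; ring
    rw [e1]
    ring
  have hmQ0 : 0 ≤ (m : ℝ) * Q := by positivity
  have hle1 : fA a K T (m * Q) ≤ w := by
    rw [hw]
    exact fA_le hKT _
  have hle2 : fB a T (m * Q) ≤ w := by
    refine (fB_le_fA (K := K) haT ?_).trans hle1
    rw [← hL3]
    gcongr
  have hgA : R * (fA a K T (m * Q) - fA a K T c₀) ≤ (Q : ℝ) ^ 2 * w := by
    have h1 := fA_nonneg a K T c₀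
    have h2 : fA a K T (m * Q) - fA a K T c₀ ≤ w := by linarith
    have h3 : 0 ≤ fA a K T (m * Q) - fA a K T c₀ := by
      have := fA_mono a K T (show c₀ ≤ m * Q by rw [hc₀e]; linarith)
      linarith
    gcongr
  have hgB : R * (fB a T (m * Q) - fB a T c₀) ≤ (Q : ℝ) ^ 2 * w := by
    have h1 := fB_nonneg a T c₀
    have h2 : fB a T (m * Q) - fB a T c₀ ≤ w := by linarith
    have h3 : 0 ≤ fB a T (m * Q) - fB a T c₀ := by
      have := fB_mono a T (show c₀ ≤ m * Q by rw [hc₀e]; linarith)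
      linarith
    gcongr
  have hint : ∫ t in (-((m : ℝ) * Q))..((m : ℝ) * Q), (fA a K T t - fB a T t) =
      (∫ t in c₀..(m * Q : ℝ), fA a K T t) - ∫ t in c₀..(m * Q : ℝ), fB a T t := by
    rw [← hc₀e, intervalIntegral.integral_sub (fA_mono a K T).intervalIntegrable
      (fB_mono a T).intervalIntegrable]
  rw [hint, hFsum]
  generalize (∫ t in c₀..(m * Q : ℝ), fA a K T t) = JA at bA ⊢
  generalize (∫ t in c₀..(m * Q : ℝ), fB a T t) = JB at bB ⊢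
  generalize (∑ i ∈ range (Q * (2 * m)),
      rr P Q (-((Q * m : ℕ) : ℤ) + i) * fA a K T (c₀ + i)) = SA at bA ⊢
  generalize (∑ i ∈ range (Q * (2 * m)),
      rr P Q (-((Q * m : ℕ) : ℤ) + i) * fB a T (c₀ + i)) = SB at bB ⊢
  have e1 : 2 / Q * (SA - SB) - 2 * dens P Q * (JA - JB) = (2 / Q) *
      ((SA - R / Q * JA) - (SB - R / Q * JB)) := by
    rw [hR]
    field_simp
    ring
  rw [e1, abs_mul, abs_of_pos (by positivity : (0 : ℝ) < 2 / Q)]
  have h1 := abs_sub (SA - R / Q * JA) (SB - R / Q * JB)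
  calc _ ≤ 2 / Q * ((Q : ℝ) ^ 2 * w + (Q : ℝ) ^ 2 * w) := by
        gcongr
        linarith
    _ = 4 * Q * w := by
        field_simp
        ring

/-- **The number of the points of a periodic set in the region.** -/
theorem region_count {P : ℤ → ℤ → Prop} {Q : ℕ} (hQ : 0 < Q) (hP1 : ∀ x y, P (x + Q) y ↔ P x y)
    (hP2 : ∀ x y, P x (y + Q) ↔ P x y) {a K : ℝ} (ha : 0 ≤ a) (hK : 0 ≤ K) :
    ∃ C : ℝ, 0 < C ∧ ∀ T : ℝ, 1 ≤ T → ∀ S : Finset (ℤ × ℤ),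
    (∀ e, e ∈ S ↔ P e.1 e.2 ∧ |(e.1 : ℝ) ^ 3 - (e.2 : ℝ) ^ 2| ≤ a * T ∧ |(e.1 : ℝ)| ^ 3 ≤ K * T ∧
      (e.2 : ℝ) ^ 2 ≤ K * T) →
    |(S.card : ℝ) - dens P Q * vol a K * T ^ (5 / 6 : ℝ)| ≤ C * T ^ (1 / 2 : ℝ) := by
  classical
  have hQ0 : (0 : ℝ) < Q := by exact_mod_cast hQ
  have hQ1 : (1 : ℝ) ≤ Q := by exact_mod_cast hQ
  set k : ℝ := √K with hk
  set l : ℝ := K ^ (1 / 3 : ℝ) with hl
  have hk0 : 0 ≤ k := Real.sqrt_nonneg _
  have hl0 : 0 ≤ l := by positivity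
  refine ⟨2 * Q * (2 * k + 1) + (6 * Q + 1) * (2 * l) + 4 * Q * k + 4 * Q * k + 1,
    by positivity, ?_⟩
  intro T hT S hS
  have hT0 : 0 < T := by linarith
  have hKT : 0 ≤ K * T := by positivity
  have haT : 0 ≤ a * T := by positivity
  obtain ⟨s, hs⟩ : ∃ s : ℝ, s = √T := ⟨_, rfl⟩
  have hs1 : 1 ≤ s := by rw [hs]; exact Real.one_le_sqrt.mpr hT
  have hsT : T ^ (1 / 2 : ℝ) = s := by rw [hs, Real.sqrt_eq_rpow]
  have hkT : √(K * T) = k * s := by rw [hs]; exact Real.sqrt_mul hK T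
  obtain ⟨L, hL⟩ : ∃ L : ℝ, L = (K * T) ^ (1 / 3 : ℝ) := ⟨_, rfl⟩
  have hL0 : 0 ≤ L := by rw [hL]; positivity
  have hL3 : L ^ 3 = K * T := by
    rw [hL, ← Real.rpow_natCast, ← Real.rpow_mul hKT]
    norm_num
  have hLs : L ≤ l * s := by
    rw [hL, Real.mul_rpow hK hT0.le, hs, Real.sqrt_eq_rpow]
    have : T ^ (1 / 3 : ℝ) ≤ T ^ (1 / 2 : ℝ) := Real.rpow_le_rpow_of_exponent_le hT (by norm_num)
    gcongr
  obtain ⟨m, hm⟩ : ∃ m : ℕ, m = ⌊L / Q⌋₊ := ⟨_, rfl⟩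
  have hm1 : (m : ℝ) ≤ L / Q := by rw [hm]; exact Nat.floor_le (by positivity)
  have hm2 : L / Q < m + 1 := by rw [hm]; exact Nat.lt_floor_add_one _
  rw [le_div_iff₀ hQ0] at hm1
  rw [div_lt_iff₀ hQ0] at hm2
  have p1 := part_one hQ hP2 ha hK T hT S hS m (by rw [← hL]; exact hm1) (by rw [← hL]; exact hm2)
  have p2 := part_two hQ hP1 ha hK T hT m (by rw [← hL]; exact hm1)
  have hint := int_scale (a := a) hK hT0
  rw [← hL] at hint p1
  rw [hkT] at p1 p2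
  have hiG : ∀ u v : ℝ, IntervalIntegrable (fun t => fA a K T t - fB a T t) volume u v :=
    fun u v => ((fA_mono a K T).intervalIntegrable).sub ((fB_mono a T).intervalIntegrable)
  have hGb : ∀ t : ℝ, -L ≤ t → t ≤ L → 0 ≤ fA a K T t - fB a T t ∧
      fA a K T t - fB a T t ≤ k * s := by
    intro t ht1 ht2
    have h1 : t ^ 3 ≤ K * T := by
      rw [← hL3]
      exact cube_mono ht2
    refine ⟨?_, ?_⟩
    · have := fB_le_fA (K := K) haT h1
      linarith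
    · have h2 := fA_le (a := a) hKT t
      have h3 := fB_nonneg a T t
      rw [hkT] at h2
      linarith
  have hmQ0 : 0 ≤ (m : ℝ) * Q := by positivity
  have hparts : ∫ t in (-L)..L, (fA a K T t - fB a T t) =
      (∫ t in (-L)..(-((m : ℝ) * Q)), (fA a K T t - fB a T t)) +
      (∫ t in (-((m : ℝ) * Q))..((m : ℝ) * Q), (fA a K T t - fB a T t)) +
      ∫ t in ((m : ℝ) * Q)..L, (fA a K T t - fB a T t) := by
    rw [intervalIntegral.integral_add_adjacent_intervals (hiG _ _) (hiG _ _),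
      intervalIntegral.integral_add_adjacent_intervals (hiG _ _) (hiG _ _)]
  have hseg : ∀ u v : ℝ, -L ≤ u → u ≤ v → v ≤ L → v - u ≤ Q →
      0 ≤ ∫ t in u..v, (fA a K T t - fB a T t) ∧
      ∫ t in u..v, (fA a K T t - fB a T t) ≤ Q * (k * s) := by
    intro u v h1 h2 h3 h4
    constructor
    · exact intervalIntegral.integral_nonneg h2 fun t ht => (hGb t (by linarith [ht.1])
        (by linarith [ht.2])).1
    · have h5 : ∫ t in u..v, (fA a K T t - fB a T t) ≤ ∫ t in u..v, (k * s) := by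
        refine intervalIntegral.integral_mono_on h2 (hiG _ _) (by simp) ?_
        intro t ht
        exact (hGb t (by linarith [ht.1]) (by linarith [ht.2])).2
      rw [intervalIntegral.integral_const, smul_eq_mul] at h5
      refine h5.trans ?_
      gcongr
  have hs1' := hseg (-L) (-((m : ℝ) * Q)) le_rfl (by linarith) (by linarith) (by linarith)
  have hs2' := hseg ((m : ℝ) * Q) L (by linarith) hm1 le_rfl (by linarith)
  have hd0 : 0 ≤ dens P Q := by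
    unfold dens
    have : 0 ≤ ∑ j ∈ range Q, rr P Q (j : ℤ) := sum_nonneg fun _ _ => rr_nonneg P Q _
    positivity
  have hd1 : dens P Q ≤ 1 := by
    unfold dens
    rw [div_le_one (by positivity)]
    calc _ ≤ ∑ j ∈ range Q, (Q : ℝ) := sum_le_sum fun _ _ => rr_le P Q _
      _ = (Q : ℝ) ^ 2 := by rw [sum_const, card_range, nsmul_eq_mul]; ring
  have e1 : dens P Q * vol a K * T ^ (5 / 6 : ℝ) =
      2 * dens P Q * ∫ t in (-L)..L, (fA a K T t - fB a T t) := by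
    rw [hint]
    ring
  rw [e1, hsT]
  generalize (∫ t in (-L)..L, (fA a K T t - fB a T t)) = J at hparts ⊢
  generalize (∫ t in (-((m : ℝ) * Q))..((m : ℝ) * Q), (fA a K T t - fB a T t)) = J₀ at hparts p2
  generalize (∫ t in (-L)..(-((m : ℝ) * Q)), (fA a K T t - fB a T t)) = J₁ at hparts hs1'
  generalize (∫ t in ((m : ℝ) * Q)..L, (fA a K T t - fB a T t)) = J₂ at hparts hs2'
  have hdiff : |2 * dens P Q * J₀ - 2 * dens P Q * J| ≤ 4 * Q * (k * s) := by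
    rw [← mul_sub, abs_mul, abs_of_nonneg (by positivity : 0 ≤ 2 * dens P Q)]
    have h2 : |J₀ - J| ≤ 2 * (Q * (k * s)) := by
      rw [hparts, abs_le]
      constructor <;> linarith [hs1'.1, hs1'.2, hs2'.1, hs2'.2]
    calc _ ≤ 2 * (2 * (Q * (k * s))) := mul_le_mul (by linarith) h2 (abs_nonneg _) (by norm_num)
      _ = _ := by ring
  have t1 := abs_le.mp p1
  have t2 := abs_le.mp p2
  have t3 := abs_le.mp hdiff
  have t4 : (6 * (Q : ℝ) + 1) * (2 * L) ≤ (6 * Q + 1) * (2 * l) * s := by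
    calc (6 * (Q : ℝ) + 1) * (2 * L) ≤ (6 * Q + 1) * (2 * (l * s)) := by gcongr
      _ = _ := by ring
  have t5 : 2 * Q * (2 * (k * s) + 1) ≤ 2 * Q * (2 * k + 1) * s := by
    have h0 : 0 ≤ 2 * (Q : ℝ) := by positivity
    have h1 : 2 * (k * s) + 1 ≤ (2 * k + 1) * s := by nlinarith
    calc 2 * (Q : ℝ) * (2 * (k * s) + 1) ≤ 2 * Q * ((2 * k + 1) * s) := by gcongr
      _ = _ := by ring
  have e2 : (2 * Q * (2 * k + 1) + (6 * Q + 1) * (2 * l) + 4 * Q * k + 4 * Q * k + 1) * s =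
      2 * Q * (2 * k + 1) * s + (6 * Q + 1) * (2 * l) * s + 4 * Q * (k * s) + 4 * Q * (k * s) + s := by
    ring
  rw [e2, abs_le]
  constructor <;> linarith [t1.1, t1.2, t2.1, t2.2, t3.1, t3.2]

end Pool.Agent.L0h45.DH
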