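import Mathlib
import Pool.Agent.L0h45.DH.Rk

/-!
# Points with a large squarefull part of the discriminant or a large height
-/

set_option autoImplicit false

namespace Pool.Agent.L0h45.DH

open Finset
open Pool.Agent.H785R2.ABC (rad)

/-- `d` is the squarefull part of `D` -/
def Dec (D : ℤ) (s d : ℕ) : Prop := 1 ≤ s ∧ 1 ≤ d ∧ s * d = D.natAbs ∧
  s * rad d = rad D.natAbs ∧ rad d ^ 2 ∣ d

theorem exists_dec {D : ℤ} (hD : D ≠ 0) : ∃ s d : ℕ, Dec D s d := dec _ (Int.natAbs_pos.mpr hD)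

theorem natAbs_real (D : ℤ) : ((D.natAbs : ℕ) : ℝ) = |(D : ℝ)| := by
  rw [← Int.cast_abs, Int.abs_eq_natAbs]
  simp

theorem Dec.abs {D : ℤ} {s d : ℕ} (h : Dec D s d) : |(D : ℝ)| = s * d := by
  rw [← natAbs_real, ← h.2.2.1]
  push_cast
  ring

theorem Dec.dvd {D : ℤ} {s d : ℕ} (h : Dec D s d) : (d : ℤ) ∣ D :=
  Int.natCast_dvd.mpr ⟨s, by rw [← h.2.2.1, mul_comm]⟩

theorem Dec.radsq {D : ℤ} {s d : ℕ} (h : Dec D s d) : (rad d : ℝ) ^ 2 ≤ d := by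
  have h1 : rad d ^ 2 ≤ d := Nat.le_of_dvd h.2.1 h.2.2.2.2
  exact_mod_cast h1

theorem abs_D_le {X : ℝ} {e : ℤ × ℤ} {D : ℤ} (hD : e.1 ^ 3 - e.2 ^ 2 = 1728 * D)
    (h1 : |(e.1 : ℝ)| ≤ X ^ 2) (h2 : |(e.2 : ℝ)| ≤ X ^ 3) : 864 * |(D : ℝ)| ≤ X ^ 6 := by
  have hreal : (e.1 : ℝ) ^ 3 - (e.2 : ℝ) ^ 2 = 1728 * (D : ℝ) := by exact_mod_cast hD
  have h6 : |1728 * (D : ℝ)| ≤ 2 * X ^ 6 := by
    rw [← hreal]
    have h7 := abs_sub ((e.1 : ℝ) ^ 3) ((e.2 : ℝ) ^ 2)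
    rw [abs_pow, abs_pow] at h7
    have h8 : |(e.1 : ℝ)| ^ 3 ≤ (X ^ 2) ^ 3 := by gcongr
    have h9 : |(e.2 : ℝ)| ^ 2 ≤ (X ^ 3) ^ 2 := by gcongr
    have h10 : (X ^ 2) ^ 3 + (X ^ 3) ^ 2 = 2 * X ^ 6 := by ring
    linarith
  rw [abs_mul, abs_of_pos (by norm_num : (0 : ℝ) < 1728)] at h6
  linarith

/-- the points with a small squarefull part -/
theorem fiber_sum (δ : ℝ) (hδ : 0 < δ) (hδ1 : δ ≤ 1) : ∃ C : ℝ, 0 < C ∧ ∀ X : ℝ, 1 ≤ X →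
    ∀ g : ℕ → ℝ, (∀ d, 0 ≤ g d) → ∀ (S : Finset (ℤ × ℤ)) (dd : ℤ × ℤ → ℕ),
    (∀ e ∈ S, 1 ≤ dd e ∧ (dd e : ℝ) ≤ X ∧ (dd e : ℤ) ∣ e.1 ^ 3 - e.2 ^ 2 ∧
      IsCoprime (dd e : ℤ) e.1 ∧
      |(e.1 : ℝ) ^ 3 - (e.2 : ℝ) ^ 2| ≤ X ^ 6 * dd e * g (dd e) ∧ |(e.1 : ℝ)| ≤ X ^ 2 ∧
      (X ^ 6 / 64 < |(e.1 : ℝ)| ^ 3 ∨ X ^ 6 / 64 < (e.2 : ℝ) ^ 2)) →
    (S.card : ℝ) ≤ C * (X ^ 5 * ∑ d ∈ S.image dd, (d : ℝ) ^ δ * g d + X ^ 4) := by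
  classical
  obtain ⟨C₁, hC₁, hmod⟩ := mod_count δ hδ
  refine ⟨C₁, hC₁, ?_⟩
  intro X hX g hg S dd hS
  have hX0 : 0 < X := by linarith
  have hmaps : ∀ e ∈ S, dd e ∈ S.image dd := fun e he => mem_image_of_mem dd he
  have hI : ∀ d ∈ S.image dd, 1 ≤ d ∧ (d : ℝ) ≤ X := by
    intro d hd
    obtain ⟨e, he, rfl⟩ := mem_image.mp hd
    exact ⟨(hS e he).1, (hS e he).2.1⟩
  have hfib : ∀ d ∈ S.image dd, ((S.filter (fun e => dd e = d)).card : ℝ) ≤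
      C₁ * (X ^ 5 * ((d : ℝ) ^ δ * g d)) + C₁ * (X * X ^ 2) := by
    intro d hd
    obtain ⟨hd1, hdX⟩ := hI d hd
    have hd0 : (0 : ℝ) < d := by exact_mod_cast hd1
    have h1 := hmod X (X ^ 6 * d * g d) d hX (mul_nonneg (by positivity) (hg d)) hd1
      (S.filter (fun e => dd e = d)) ?_
    · refine h1.trans ?_
      have h2 : X ^ 6 * d * g d / (X * d) = X ^ 5 * g d := by field_simp
      rw [h2]
      have h3 : (d : ℝ) ^ δ ≤ X := by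
        calc (d : ℝ) ^ δ ≤ (d : ℝ) ^ (1 : ℝ) :=
              Real.rpow_le_rpow_of_exponent_le (by exact_mod_cast hd1) hδ1
          _ ≤ X := by rw [Real.rpow_one]; exact hdX
      have h4 : (d : ℝ) ^ δ * X ^ 2 ≤ X * X ^ 2 := by gcongr
      have h5 := mul_le_mul_of_nonneg_left h4 hC₁.le
      calc C₁ * (d : ℝ) ^ δ * (X ^ 5 * g d + X ^ 2) =
          C₁ * (X ^ 5 * ((d : ℝ) ^ δ * g d)) + C₁ * ((d : ℝ) ^ δ * X ^ 2) := by ring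
        _ ≤ _ := by linarith
    · intro e he
      rw [mem_filter] at he
      obtain ⟨he1, he2⟩ := he
      obtain ⟨a1, a2, a3, a4, a5, a6, a7⟩ := hS e he1
      rw [he2] at a1 a2 a3 a4 a5
      exact ⟨a6, a7, a5, a4, a3⟩
  have hc : ((S.image dd).card : ℝ) ≤ X := by
    have h1 : S.image dd ⊆ Icc 1 ⌊X⌋₊ := by
      intro d hd
      obtain ⟨hd1, hdX⟩ := hI d hd
      rw [mem_Icc]
      exact ⟨hd1, Nat.le_floor hdX⟩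
    have h2 := card_le_card h1
    rw [Nat.card_Icc, Nat.add_sub_cancel] at h2
    calc ((S.image dd).card : ℝ) ≤ (⌊X⌋₊ : ℝ) := by exact_mod_cast h2
      _ ≤ X := Nat.floor_le hX0.le
  have h1 := card_eq_sum_card_fiberwise hmaps
  calc (S.card : ℝ) = ∑ d ∈ S.image dd, ((S.filter (fun e => dd e = d)).card : ℝ) := by
        exact_mod_cast h1
    _ ≤ ∑ d ∈ S.image dd, (C₁ * (X ^ 5 * ((d : ℝ) ^ δ * g d)) + C₁ * (X * X ^ 2)) :=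
        sum_le_sum hfib
    _ = C₁ * (X ^ 5 * ∑ d ∈ S.image dd, (d : ℝ) ^ δ * g d) +
        (S.image dd).card * (C₁ * (X * X ^ 2)) := by
        rw [sum_add_distrib, ← mul_sum, ← mul_sum, sum_const, nsmul_eq_mul]
    _ ≤ C₁ * (X ^ 5 * ∑ d ∈ S.image dd, (d : ℝ) ^ δ * g d) + X * (C₁ * (X * X ^ 2)) := by
        gcongr
    _ = _ := by ring

/-- the points with a large squarefull part -/
theorem large_part : ∃ C : ℝ, 0 < C ∧ ∀ X : ℝ, 1 ≤ X → ∀ S : Finset (ℤ × ℤ),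
    (∀ e ∈ S, ∃ D : ℤ, D ≠ 0 ∧ e.1 ^ 3 - e.2 ^ 2 = 1728 * D ∧ IsCoprime e.1 D ∧
      (∃ s d : ℕ, Dec D s d ∧ X < d) ∧ |(e.1 : ℝ)| ≤ X ^ 2 ∧ |(e.2 : ℝ)| ≤ X ^ 3 ∧
      (X ^ 6 / 64 < |(e.1 : ℝ)| ^ 3 ∨ X ^ 6 / 64 < (e.2 : ℝ) ^ 2)) →
    (S.card : ℝ) ≤ C * X ^ (19 / 4 : ℝ) := by
  obtain ⟨C, hC, hm⟩ := main_count (1 / 4) (by norm_num)
  refine ⟨2 * C, by positivity, ?_⟩
  intro X hX S hS
  have hX0 : 0 < X := by linarith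
  have h1 := hm X (X ^ (11 / 2 : ℝ)) hX (by positivity) S (by
    intro e he
    obtain ⟨D, hD0, hD, hcop, ⟨s, d, hdec, hXd⟩, h1, h2, h3⟩ := hS e he
    refine ⟨D, hD0, hD, hcop, ?_, h1, h2, h3⟩
    have habs := abs_D_le hD h1 h2
    rw [hdec.abs] at habs
    have hr := hdec.radsq
    have hd0 : (0 : ℝ) < d := by exact_mod_cast hdec.2.1
    have hs0 : (0 : ℝ) ≤ s := by positivity
    have hrad : ((rad D.natAbs : ℕ) : ℝ) = s * rad d := by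
      rw [← hdec.2.2.2.1]
      push_cast
      ring
    rw [hrad]
    have hr2 : (rad d : ℝ) ≤ √d := by
      rw [← Real.sqrt_sq (show (0 : ℝ) ≤ rad d by positivity)]
      exact Real.sqrt_le_sqrt hr
    have hsd : (0 : ℝ) < √d := Real.sqrt_pos.mpr hd0
    have hsX : X ^ (1 / 2 : ℝ) ≤ √d := by
      rw [← Real.sqrt_eq_rpow]
      exact Real.sqrt_le_sqrt hXd.le
    have h4 : (s : ℝ) * √d * √d ≤ X ^ 6 := by
      rw [mul_assoc, Real.mul_self_sqrt hd0.le]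
      nlinarith [show (0 : ℝ) ≤ s * d by positivity]
    have h5 : (s : ℝ) * √d * X ^ (1 / 2 : ℝ) ≤ X ^ 6 := by
      refine le_trans ?_ h4
      gcongr
    have h6 : X ^ 6 = X ^ (11 / 2 : ℝ) * X ^ (1 / 2 : ℝ) := by
      rw [← Real.rpow_natCast, ← Real.rpow_add hX0]
      norm_num
    rw [h6] at h5
    have h7 : 0 < X ^ (1 / 2 : ℝ) := by positivity
    have h8 := le_of_mul_le_mul_right h5 h7
    refine le_trans ?_ h8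
    gcongr)
  refine h1.trans ?_
  have h2 : X ^ (11 / 2 : ℝ) / X = X ^ (9 / 2 : ℝ) := by
    rw [← Real.rpow_sub_one hX0.ne']
    norm_num
  have h3 : X ^ (7 / 2 : ℝ) ≤ X ^ (9 / 2 : ℝ) := Real.rpow_le_rpow_of_exponent_le hX (by norm_num)
  have h4 : X ^ (1 / 4 : ℝ) * X ^ (9 / 2 : ℝ) = X ^ (19 / 4 : ℝ) := by
    rw [← Real.rpow_add hX0]
    norm_num
  rw [h2]
  calc C * X ^ (1 / 4 : ℝ) * (X ^ (9 / 2 : ℝ) + X ^ (7 / 2 : ℝ)) ≤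
        C * X ^ (1 / 4 : ℝ) * (X ^ (9 / 2 : ℝ) + X ^ (9 / 2 : ℝ)) := by gcongr
    _ = 2 * C * (X ^ (1 / 4 : ℝ) * X ^ (9 / 2 : ℝ)) := by ring
    _ = 2 * C * X ^ (19 / 4 : ℝ) := by rw [h4]

/-- the points of the annulus with squarefull part `> D₀` -/
theorem ann_index (ε : ℝ) (hε : 0 < ε) (hε1 : ε ≤ 1 / 2) : ∃ C : ℝ, 0 < C ∧ ∀ X D₀ : ℝ, 1 ≤ X →
    1 ≤ D₀ → ∀ S : Finset (ℤ × ℤ),
    (∀ e ∈ S, ∃ D : ℤ, D ≠ 0 ∧ e.1 ^ 3 - e.2 ^ 2 = 1728 * D ∧ IsCoprime e.1 D ∧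
      (∃ s d : ℕ, Dec D s d ∧ D₀ < d) ∧ |(e.1 : ℝ)| ≤ X ^ 2 ∧ |(e.2 : ℝ)| ≤ X ^ 3 ∧
      (X ^ 6 / 64 < |(e.1 : ℝ)| ^ 3 ∨ X ^ 6 / 64 < (e.2 : ℝ) ^ 2)) →
    (S.card : ℝ) ≤ C * (X ^ 5 * D₀ ^ (-(1 / 2) + ε) + X ^ (19 / 4 : ℝ)) := by
  classical
  set δ : ℝ := ε / 2 with hδ
  have hδ0 : 0 < δ := by positivity
  obtain ⟨C₁, hC₁, hf⟩ := fiber_sum δ hδ0 (by linarith)
  obtain ⟨C₂, hC₂, hl⟩ := large_part
  obtain ⟨C₃, hC₃, hr⟩ := sum_rad δ hδ0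
  refine ⟨C₁ * (2 * C₃) + (C₁ + C₂), by positivity, ?_⟩
  intro X D₀ hX hD₀ S hS
  have hX0 : 0 < X := by linarith
  have hD0' : 0 < D₀ := by linarith
  have hch : ∀ e : ℤ × ℤ, ∃ d : ℕ, e ∈ S → D₀ < d ∧ ∃ (D : ℤ) (s : ℕ), D ≠ 0 ∧
      e.1 ^ 3 - e.2 ^ 2 = 1728 * D ∧ IsCoprime e.1 D ∧ Dec D s d ∧ |(e.1 : ℝ)| ≤ X ^ 2 ∧
      |(e.2 : ℝ)| ≤ X ^ 3 ∧
      (X ^ 6 / 64 < |(e.1 : ℝ)| ^ 3 ∨ X ^ 6 / 64 < (e.2 : ℝ) ^ 2) := by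
    intro e
    by_cases he : e ∈ S
    · obtain ⟨D, hD0, hD, hcop, ⟨s, d, hdec, hd⟩, h1, h2, h3⟩ := hS e he
      exact ⟨d, fun _ => ⟨hd, D, s, hD0, hD, hcop, hdec, h1, h2, h3⟩⟩
    · exact ⟨0, fun h => absurd h he⟩
  choose dd hdd using hch
  set S₁ := S.filter (fun e => (dd e : ℝ) ≤ X) with hS₁
  set S₂ := S.filter (fun e => ¬ (dd e : ℝ) ≤ X) with hS₂
  have a2 := hl X hX S₂ (by
    intro e he
    rw [hS₂, mem_filter] at he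
    obtain ⟨h1, D, s, h2, h3, h4, h5, h6⟩ := hdd e he.1
    exact ⟨D, h2, h3, h4, ⟨s, dd e, h5, lt_of_not_ge he.2⟩, h6⟩)
  have a1 := hf X hX (fun d => 2 / (d : ℝ)) (fun d => by positivity) S₁ dd (by
    intro e he
    rw [hS₁, mem_filter] at he
    obtain ⟨h1, D, s, h2, h3, h4, h5, h6, h7, h8⟩ := hdd e he.1
    have hd1 : 1 ≤ dd e := h5.2.1
    have hd0 : (0 : ℝ) < dd e := by exact_mod_cast hd1
    refine ⟨hd1, he.2, ?_, (h4.of_isCoprime_of_dvd_right h5.dvd).symm, ?_, h6, h8⟩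
    · rw [h3]
      exact h5.dvd.mul_left _
    · have hreal : (e.1 : ℝ) ^ 3 - (e.2 : ℝ) ^ 2 = 1728 * (D : ℝ) := by exact_mod_cast h3
      have := abs_D_le h3 h6 h7
      rw [hreal, abs_mul, abs_of_pos (by norm_num : (0 : ℝ) < 1728)]
      have h9 : X ^ 6 * (dd e : ℝ) * (2 / (dd e : ℝ)) = 2 * X ^ 6 := by field_simp
      rw [h9]
      linarith)
  have hsum : ∑ d ∈ S₁.image dd, (d : ℝ) ^ δ * (2 / (d : ℝ)) ≤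
      2 * C₃ * D₀ ^ (-(1 / 2) + ε) := by
    have h1 : ∀ d ∈ S₁.image dd, (d : ℝ) ^ δ * (2 / (d : ℝ)) ≤
        2 * D₀ ^ (-(1 / 2) + ε) * ((d : ℝ) ^ (-δ) / rad d) := by
      intro d hd
      obtain ⟨e, he, rfl⟩ := mem_image.mp hd
      rw [hS₁, mem_filter] at he
      obtain ⟨h1, D, s, h2, h3, h4, h5, h6, h7, h8⟩ := hdd e he.1
      have hd1 : 1 ≤ dd e := h5.2.1
      have hd0 : (0 : ℝ) < dd e := by exact_mod_cast hd1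
      have hr0 : (0 : ℝ) < rad (dd e) := by
        exact_mod_cast Pool.Agent.H785R2.ABC.A345_rad_pos _
      have hr2 : (rad (dd e) : ℝ) ≤ (dd e : ℝ) ^ (1 / 2 : ℝ) := by
        rw [← Real.sqrt_eq_rpow, ← Real.sqrt_sq hr0.le]
        exact Real.sqrt_le_sqrt h5.radsq
      have e1 : (dd e : ℝ) ^ δ * (2 / (dd e : ℝ)) =
          2 * ((dd e : ℝ) ^ (-(1 / 2) + ε) * ((dd e : ℝ) ^ (-δ) / (dd e : ℝ) ^ (1 / 2 : ℝ))) := by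
        have e2 : (dd e : ℝ) ^ (-(1 / 2) + ε) * ((dd e : ℝ) ^ (-δ) / (dd e : ℝ) ^ (1 / 2 : ℝ)) =
            (dd e : ℝ) ^ (δ - 1) := by
          rw [← Real.rpow_sub hd0, ← Real.rpow_add hd0]
          congr 1
          rw [hδ]
          ring
        rw [e2, Real.rpow_sub_one hd0.ne']
        ring
      rw [e1]
      have h9 : (dd e : ℝ) ^ (-(1 / 2) + ε) ≤ D₀ ^ (-(1 / 2) + ε) :=
        Real.rpow_le_rpow_of_nonpos hD0' h1.le (by linarith)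
      have h10 : (dd e : ℝ) ^ (-δ) / (dd e : ℝ) ^ (1 / 2 : ℝ) ≤ (dd e : ℝ) ^ (-δ) / rad (dd e) := by
        gcongr
      calc 2 * ((dd e : ℝ) ^ (-(1 / 2) + ε) * ((dd e : ℝ) ^ (-δ) / (dd e : ℝ) ^ (1 / 2 : ℝ)))
          ≤ 2 * (D₀ ^ (-(1 / 2) + ε) * ((dd e : ℝ) ^ (-δ) / rad (dd e))) := by gcongr
        _ = _ := by ring
    calc _ ≤ ∑ d ∈ S₁.image dd, 2 * D₀ ^ (-(1 / 2) + ε) * ((d : ℝ) ^ (-δ) / rad d) :=
          sum_le_sum h1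
      _ = 2 * D₀ ^ (-(1 / 2) + ε) * ∑ d ∈ S₁.image dd, (d : ℝ) ^ (-δ) / rad d := by
          rw [mul_sum]
      _ ≤ 2 * D₀ ^ (-(1 / 2) + ε) * C₃ := by
          have := hr (S₁.image dd) (by
            intro d hd
            obtain ⟨e, he, rfl⟩ := mem_image.mp hd
            rw [hS₁, mem_filter] at he
            obtain ⟨h1, D, s, h2, h3, h4, h5, h6⟩ := hdd e he.1
            exact h5.2.1)
          gcongr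
      _ = _ := by ring
  have hsplit := card_filter_add_card_filter_not (s := S) (fun e => (dd e : ℝ) ≤ X)
  have h3 : (S.card : ℝ) = (S₁.card : ℝ) + (S₂.card : ℝ) := by exact_mod_cast hsplit.symm
  rw [h3]
  have hX4 : X ^ 4 ≤ X ^ (19 / 4 : ℝ) := by
    rw [← Real.rpow_natCast]
    exact Real.rpow_le_rpow_of_exponent_le hX (by norm_num)
  have hp : 0 ≤ X ^ (19 / 4 : ℝ) := by positivity
  have hq : 0 ≤ X ^ 5 * D₀ ^ (-(1 / 2) + ε) := by positivity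
  have a1' : (S₁.card : ℝ) ≤ C₁ * (X ^ 5 * (2 * C₃ * D₀ ^ (-(1 / 2) + ε)) + X ^ (19 / 4 : ℝ)) := by
    refine a1.trans ?_
    gcongr
  calc (S₁.card : ℝ) + (S₂.card : ℝ) ≤
        C₁ * (X ^ 5 * (2 * C₃ * D₀ ^ (-(1 / 2) + ε)) + X ^ (19 / 4 : ℝ)) +
        C₂ * X ^ (19 / 4 : ℝ) := add_le_add a1' a2
    _ = C₁ * (2 * C₃) * (X ^ 5 * D₀ ^ (-(1 / 2) + ε)) + (C₁ + C₂) * X ^ (19 / 4 : ℝ) := by ring
    _ ≤ (C₁ * (2 * C₃) + (C₁ + C₂)) * (X ^ 5 * D₀ ^ (-(1 / 2) + ε) + X ^ (19 / 4 : ℝ)) := by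
        have b1 : 0 ≤ C₁ * (2 * C₃) * X ^ (19 / 4 : ℝ) := by positivity
        have b2 : 0 ≤ (C₁ + C₂) * (X ^ 5 * D₀ ^ (-(1 / 2) + ε)) := by positivity
        linarith [b1, b2, (by ring : (C₁ * (2 * C₃) + (C₁ + C₂)) *
          (X ^ 5 * D₀ ^ (-(1 / 2) + ε) + X ^ (19 / 4 : ℝ)) =
          C₁ * (2 * C₃) * (X ^ 5 * D₀ ^ (-(1 / 2) + ε)) + C₁ * (2 * C₃) * X ^ (19 / 4 : ℝ) +
          (C₁ + C₂) * (X ^ 5 * D₀ ^ (-(1 / 2) + ε)) + (C₁ + C₂) * X ^ (19 / 4 : ℝ))]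

end Pool.Agent.L0h45.DH
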