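import Mathlib
import Pool.Agent.L0h45.DH.Tail

/-!
# Points with a large height and a small conductor, without `ε` in the height
-/

set_option autoImplicit false

namespace Pool.Agent.L0h45.DH

open Finset
open Pool.Agent.H785R2.ABC (rad)

theorem min_geom {a b u θ : ℝ} (ha : 0 < a) (hb : 0 < b) (hu : 0 ≤ u) (h1 : u ≤ a) (h2 : u ≤ b)
    (hθ : 0 ≤ θ) (hθ1 : θ ≤ 1) : u ≤ a ^ θ * b ^ (1 - θ) := by
  rcases hu.eq_or_lt with h0 | h0
  · rw [← h0]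
    positivity
  · calc u = u ^ θ * u ^ (1 - θ) := by
          rw [← Real.rpow_add h0, add_sub_cancel, Real.rpow_one]
      _ ≤ a ^ θ * b ^ (1 - θ) := by
          have := Real.rpow_le_rpow hu h1 hθ
          have h3 := Real.rpow_le_rpow hu h2 (show 0 ≤ 1 - θ by linarith)
          gcongr

/-- the points of the annulus with a small conductor -/
theorem ann_height (ε : ℝ) (hε : 0 < ε) (hε1 : ε ≤ 1) : ∃ C : ℝ, 0 < C ∧ ∀ X Z : ℝ, 1 ≤ X →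
    0 < Z → ∀ S : Finset (ℤ × ℤ), (∀ e ∈ S, Good X Z e) →
    (S.card : ℝ) ≤ C * (X ^ 5 * (Z / X ^ 6) ^ (1 - ε) + X ^ (19 / 4 : ℝ)) := by
  classical
  set δ : ℝ := ε / 4 with hδ
  have hδ0 : 0 < δ := by positivity
  obtain ⟨C₁, hC₁, hf⟩ := fiber_sum δ hδ0 (by linarith)
  obtain ⟨C₂, hC₂, hl⟩ := large_part
  obtain ⟨C₃, hC₃, hr⟩ := sum_rad δ hδ0
  refine ⟨C₁ * (1728 * C₃) + (C₁ + C₂), by positivity, ?_⟩
  intro X Z hX hZ S hS
  have hX0 : 0 < X := by linarith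
  set k : ℝ := Z / X ^ 6 with hk
  have hk0 : 0 < k := by positivity
  have hch : ∀ e : ℤ × ℤ, ∃ d : ℕ, e ∈ S → ∃ (D : ℤ) (s : ℕ), D ≠ 0 ∧
      e.1 ^ 3 - e.2 ^ 2 = 1728 * D ∧ IsCoprime e.1 D ∧ Dec D s d ∧ (rad D.natAbs : ℝ) ≤ Z ∧
      |(e.1 : ℝ)| ≤ X ^ 2 ∧ |(e.2 : ℝ)| ≤ X ^ 3 ∧
      (X ^ 6 / 64 < |(e.1 : ℝ)| ^ 3 ∨ X ^ 6 / 64 < (e.2 : ℝ) ^ 2) := by
    intro e
    by_cases he : e ∈ S
    · obtain ⟨D, hD0, hD, hcop, hZ', h1, h2, h3⟩ := hS e he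
      obtain ⟨s, d, hdec⟩ := exists_dec hD0
      exact ⟨d, fun _ => ⟨D, s, hD0, hD, hcop, hdec, hZ', h1, h2, h3⟩⟩
    · exact ⟨0, fun h => absurd h he⟩
  choose dd hdd using hch
  set S₁ := S.filter (fun e => (dd e : ℝ) ≤ X) with hS₁
  set S₂ := S.filter (fun e => ¬ (dd e : ℝ) ≤ X) with hS₂
  have a2 := hl X hX S₂ (by
    intro e he
    rw [hS₂, mem_filter] at he
    obtain ⟨D, s, h2, h3, h4, h5, -, h6⟩ := hdd e he.1
    exact ⟨D, h2, h3, h4, ⟨s, dd e, h5, lt_of_not_ge he.2⟩, h6⟩)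
  set g : ℕ → ℝ := fun d => 1728 * ((1 / (d : ℝ)) ^ ε * (k / rad d) ^ (1 - ε)) with hg
  have a1 := hf X hX g (fun d => by rw [hg]; positivity) S₁ dd (by
    intro e he
    rw [hS₁, mem_filter] at he
    obtain ⟨D, s, h2, h3, h4, h5, hZ', h6, h7, h8⟩ := hdd e he.1
    have hd1 : 1 ≤ dd e := h5.2.1
    have hd0 : (0 : ℝ) < dd e := by exact_mod_cast hd1
    have hr0 : (0 : ℝ) < rad (dd e) := by
      exact_mod_cast Pool.Agent.H785R2.ABC.A345_rad_pos _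
    refine ⟨hd1, he.2, ?_, (h4.of_isCoprime_of_dvd_right h5.dvd).symm, ?_, h6, h8⟩
    · rw [h3]
      exact h5.dvd.mul_left _
    · have hreal : (e.1 : ℝ) ^ 3 - (e.2 : ℝ) ^ 2 = 1728 * (D : ℝ) := by exact_mod_cast h3
      have habs := abs_D_le h3 h6 h7
      rw [hreal, abs_mul, abs_of_pos (by norm_num : (0 : ℝ) < 1728), hg]
      have hrad : ((rad D.natAbs : ℕ) : ℝ) = s * rad (dd e) := by
        rw [← h5.2.2.2.1]
        push_cast
        ring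
      rw [hrad] at hZ'
      have hu : |(D : ℝ)| / (X ^ 6 * dd e) ≤ (1 / (dd e : ℝ)) ^ ε * (k / rad (dd e)) ^ (1 - ε) := by
        refine min_geom (by positivity) (by positivity) (by positivity) ?_ ?_ hε.le hε1
        · rw [div_le_div_iff₀ (by positivity) hd0]
          have : |(D : ℝ)| ≤ X ^ 6 := by
            have := abs_nonneg (D : ℝ)
            linarith
          nlinarith
        · rw [hk, h5.abs, div_div, div_le_div_iff₀ (by positivity) (by positivity)]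
          calc (s : ℝ) * (dd e : ℝ) * (X ^ 6 * (rad (dd e) : ℝ)) =
              ((s : ℝ) * rad (dd e)) * (X ^ 6 * (dd e : ℝ)) := by ring
            _ ≤ Z * (X ^ 6 * (dd e : ℝ)) := by gcongr
      rw [div_le_iff₀ (by positivity)] at hu
      calc 1728 * |(D : ℝ)| ≤ 1728 * ((1 / (dd e : ℝ)) ^ ε * (k / rad (dd e)) ^ (1 - ε) *
            (X ^ 6 * (dd e : ℝ))) := by gcongr
        _ = _ := by ring)
  have hsum : ∑ d ∈ S₁.image dd, (d : ℝ) ^ δ * g d ≤ 1728 * C₃ * k ^ (1 - ε) := by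
    have h1 : ∀ d ∈ S₁.image dd, (d : ℝ) ^ δ * g d ≤
        1728 * k ^ (1 - ε) * ((d : ℝ) ^ (-δ) / rad d) := by
      intro d hd
      obtain ⟨e, he, rfl⟩ := mem_image.mp hd
      rw [hS₁, mem_filter] at he
      obtain ⟨D, s, h2, h3, h4, h5, -⟩ := hdd e he.1
      have hd1 : 1 ≤ dd e := h5.2.1
      have hd0 : (0 : ℝ) < dd e := by exact_mod_cast hd1
      have hr0 : (0 : ℝ) < rad (dd e) := by
        exact_mod_cast Pool.Agent.H785R2.ABC.A345_rad_pos _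
      have hr2 : (rad (dd e) : ℝ) ^ ε ≤ (dd e : ℝ) ^ (ε / 2) := by
        have h6 : (rad (dd e) : ℝ) ≤ (dd e : ℝ) ^ (1 / 2 : ℝ) := by
          rw [← Real.sqrt_eq_rpow, ← Real.sqrt_sq hr0.le]
          exact Real.sqrt_le_sqrt h5.radsq
        calc (rad (dd e) : ℝ) ^ ε ≤ ((dd e : ℝ) ^ (1 / 2 : ℝ)) ^ ε :=
              Real.rpow_le_rpow hr0.le h6 hε.le
          _ = _ := by
            rw [← Real.rpow_mul hd0.le]
            congr 1
            ring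
      rw [hg]
      simp only
      rw [Real.div_rpow hk0.le hr0.le, Real.div_rpow zero_le_one hd0.le, Real.one_rpow,
        Real.rpow_sub hr0, Real.rpow_one]
      have e1 : (dd e : ℝ) ^ (-δ) = (dd e : ℝ) ^ δ * (dd e : ℝ) ^ (ε / 2) / (dd e : ℝ) ^ ε := by
        rw [← Real.rpow_add hd0, ← Real.rpow_sub hd0]
        congr 1
        rw [hδ]
        ring
      rw [e1]
      have hdε : 0 < (dd e : ℝ) ^ ε := by positivity
      have hdδ : 0 < (dd e : ℝ) ^ δ := by positivity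
      have hkε : 0 < k ^ (1 - ε) := by positivity
      calc (dd e : ℝ) ^ δ * (1728 * (1 / (dd e : ℝ) ^ ε * (k ^ (1 - ε) /
            ((rad (dd e) : ℝ) / (rad (dd e) : ℝ) ^ ε)))) =
            1728 * k ^ (1 - ε) * ((dd e : ℝ) ^ δ * (rad (dd e) : ℝ) ^ ε / (dd e : ℝ) ^ ε /
              rad (dd e)) := by
            field_simp
        _ ≤ 1728 * k ^ (1 - ε) * ((dd e : ℝ) ^ δ * (dd e : ℝ) ^ (ε / 2) / (dd e : ℝ) ^ ε /
              rad (dd e)) := by gcongr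
    calc _ ≤ ∑ d ∈ S₁.image dd, 1728 * k ^ (1 - ε) * ((d : ℝ) ^ (-δ) / rad d) := sum_le_sum h1
      _ = 1728 * k ^ (1 - ε) * ∑ d ∈ S₁.image dd, (d : ℝ) ^ (-δ) / rad d := by
          rw [mul_sum]
      _ ≤ 1728 * k ^ (1 - ε) * C₃ := by
          have := hr (S₁.image dd) (by
            intro d hd
            obtain ⟨e, he, rfl⟩ := mem_image.mp hd
            rw [hS₁, mem_filter] at he
            obtain ⟨D, s, h2, h3, h4, h5, -⟩ := hdd e he.1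
            exact h5.2.1)
          gcongr
      _ = _ := by ring
  have hsplit := card_filter_add_card_filter_not (s := S) (fun e => (dd e : ℝ) ≤ X)
  have h3 : (S.card : ℝ) = (S₁.card : ℝ) + (S₂.card : ℝ) := by exact_mod_cast hsplit.symm
  rw [h3]
  have hX4 : X ^ 4 ≤ X ^ (19 / 4 : ℝ) := by
    rw [← Real.rpow_natCast]
    exact Real.rpow_le_rpow_of_exponent_le hX (by norm_num)
  have hp : 0 ≤ X ^ (19 / 4 : ℝ) := by positivity
  have hq : 0 ≤ X ^ 5 * k ^ (1 - ε) := by positivity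
  have a1' : (S₁.card : ℝ) ≤ C₁ * (X ^ 5 * (1728 * C₃ * k ^ (1 - ε)) + X ^ (19 / 4 : ℝ)) := by
    refine a1.trans ?_
    gcongr
  calc (S₁.card : ℝ) + (S₂.card : ℝ) ≤
        C₁ * (X ^ 5 * (1728 * C₃ * k ^ (1 - ε)) + X ^ (19 / 4 : ℝ)) +
        C₂ * X ^ (19 / 4 : ℝ) := add_le_add a1' a2
    _ = C₁ * (1728 * C₃) * (X ^ 5 * k ^ (1 - ε)) + (C₁ + C₂) * X ^ (19 / 4 : ℝ) := by ring
    _ ≤ (C₁ * (1728 * C₃) + (C₁ + C₂)) * (X ^ 5 * k ^ (1 - ε) + X ^ (19 / 4 : ℝ)) := by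
        have b1 : 0 ≤ C₁ * (1728 * C₃) * X ^ (19 / 4 : ℝ) := by positivity
        have b2 : 0 ≤ (C₁ + C₂) * (X ^ 5 * k ^ (1 - ε)) := by positivity
        linarith [b1, b2, (by ring : (C₁ * (1728 * C₃) + (C₁ + C₂)) *
          (X ^ 5 * k ^ (1 - ε) + X ^ (19 / 4 : ℝ)) =
          C₁ * (1728 * C₃) * (X ^ 5 * k ^ (1 - ε)) + C₁ * (1728 * C₃) * X ^ (19 / 4 : ℝ) +
          (C₁ + C₂) * (X ^ 5 * k ^ (1 - ε)) + (C₁ + C₂) * X ^ (19 / 4 : ℝ))]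

/-- all points of the box with squarefull part `> D₀` -/
theorem box_index (ε : ℝ) (hε : 0 < ε) (hε1 : ε ≤ 1 / 2) : ∃ C : ℝ, 0 < C ∧ ∀ X D₀ : ℝ, 1 ≤ X →
    1 ≤ D₀ → ∀ S : Finset (ℤ × ℤ),
    (∀ e ∈ S, ∃ D : ℤ, D ≠ 0 ∧ e.1 ^ 3 - e.2 ^ 2 = 1728 * D ∧ IsCoprime e.1 D ∧
      (∃ s d : ℕ, Dec D s d ∧ D₀ < d) ∧ |(e.1 : ℝ)| ≤ X ^ 2 ∧ |(e.2 : ℝ)| ≤ X ^ 3) →
    (S.card : ℝ) ≤ C * (X ^ 5 * D₀ ^ (-(1 / 2) + ε) + X ^ (19 / 4 : ℝ)) := by
  classical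
  obtain ⟨C, hC, h⟩ := ann_index ε hε hε1
  refine ⟨9 + 2 * C, by positivity, ?_⟩
  intro X D₀ hX hD₀
  set w : ℝ := D₀ ^ (-(1 / 2) + ε) with hw
  have hw0 : 0 < w := by positivity
  have key : ∀ (n : ℕ) (Y : ℝ), 0 < Y → Y ≤ 2 ^ n → ∀ S : Finset (ℤ × ℤ),
      (∀ e ∈ S, ∃ D : ℤ, D ≠ 0 ∧ e.1 ^ 3 - e.2 ^ 2 = 1728 * D ∧ IsCoprime e.1 D ∧
        (∃ s d : ℕ, Dec D s d ∧ D₀ < d) ∧ |(e.1 : ℝ)| ≤ Y ^ 2 ∧ |(e.2 : ℝ)| ≤ Y ^ 3) →
      (S.card : ℝ) ≤ 9 + 2 * (C * (Y ^ 5 * w + Y ^ (19 / 4 : ℝ))) := by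
    intro n
    induction n with
    | zero =>
      intro Y hY hY1 S hS
      rw [pow_zero] at hY1
      have h1 := box_card (le_refl (1 : ℝ)) S fun e he => by
        obtain ⟨D, -, -, -, -, h5, h6⟩ := hS e he
        exact ⟨h5.trans (by gcongr), h6.trans (by gcongr)⟩
      have h2 : 0 ≤ 2 * (C * (Y ^ 5 * w + Y ^ (19 / 4 : ℝ))) := by positivity
      linarith
    | succ n ih =>
      intro Y hY hYn S hS
      rcases lt_or_ge Y 1 with hlt | hge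
      · have h1 := box_card (le_refl (1 : ℝ)) S fun e he => by
          obtain ⟨D, -, -, -, -, h5, h6⟩ := hS e he
          exact ⟨h5.trans (by gcongr), h6.trans (by gcongr)⟩
        have h2 : 0 ≤ 2 * (C * (Y ^ 5 * w + Y ^ (19 / 4 : ℝ))) := by positivity
        linarith
      have hsplit := card_filter_add_card_filter_not (s := S)
        (fun e => |(e.1 : ℝ)| ≤ (Y / 2) ^ 2 ∧ |(e.2 : ℝ)| ≤ (Y / 2) ^ 3)
      have a1 := ih (Y / 2) (by linarith) (by rw [pow_succ] at hYn; linarith)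
        (S.filter (fun e => |(e.1 : ℝ)| ≤ (Y / 2) ^ 2 ∧ |(e.2 : ℝ)| ≤ (Y / 2) ^ 3)) (by
          intro e he
          rw [mem_filter] at he
          obtain ⟨D, h1, h2, h3, h4, h5, h6⟩ := hS e he.1
          exact ⟨D, h1, h2, h3, h4, he.2.1, he.2.2⟩)
      have a2 := h Y D₀ hge hD₀
        (S.filter (fun e => ¬ (|(e.1 : ℝ)| ≤ (Y / 2) ^ 2 ∧ |(e.2 : ℝ)| ≤ (Y / 2) ^ 3))) (by
          intro e he
          rw [mem_filter] at he
          obtain ⟨D, h1, h2, h3, h4, h5, h6⟩ := hS e he.1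
          refine ⟨D, h1, h2, h3, h4, h5, h6, ?_⟩
          have h2 := he.2
          rw [not_and_or, not_le, not_le] at h2
          rcases h2 with h2 | h2
          · left
            calc Y ^ 6 / 64 = ((Y / 2) ^ 2) ^ 3 := by ring
              _ < |(e.1 : ℝ)| ^ 3 := by gcongr
          · right
            rw [← sq_abs (e.2 : ℝ)]
            calc Y ^ 6 / 64 = ((Y / 2) ^ 3) ^ 2 := by ring
              _ < |(e.2 : ℝ)| ^ 2 := by gcongr)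
      have h3 : (S.card : ℝ) = ((S.filter (fun e => |(e.1 : ℝ)| ≤ (Y / 2) ^ 2 ∧
          |(e.2 : ℝ)| ≤ (Y / 2) ^ 3)).card : ℝ) + ((S.filter (fun e => ¬ (|(e.1 : ℝ)| ≤ (Y / 2) ^ 2 ∧
          |(e.2 : ℝ)| ≤ (Y / 2) ^ 3))).card : ℝ) := by
        exact_mod_cast hsplit.symm
      rw [h3]
      have b1 : 2 * ((Y / 2) ^ 5 * w) ≤ Y ^ 5 * w := by
        have : 0 ≤ Y ^ 5 * w := by positivity
        have e1 : 2 * ((Y / 2) ^ 5 * w) = Y ^ 5 * w / 16 := by ring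
        rw [e1]
        linarith
      have b2 : 2 * (Y / 2) ^ (19 / 4 : ℝ) ≤ Y ^ (19 / 4 : ℝ) := by
        rw [Real.div_rpow hY.le (by norm_num)]
        have h5 : (2 : ℝ) ≤ 2 ^ (19 / 4 : ℝ) := by
          calc (2 : ℝ) = 2 ^ (1 : ℝ) := by rw [Real.rpow_one]
            _ ≤ 2 ^ (19 / 4 : ℝ) := Real.rpow_le_rpow_of_exponent_le (by norm_num) (by norm_num)
        rw [mul_div_assoc', div_le_iff₀ (by positivity)]
        have : 0 ≤ Y ^ (19 / 4 : ℝ) := by positivity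
        nlinarith
      have b3 : 2 * (C * ((Y / 2) ^ 5 * w + (Y / 2) ^ (19 / 4 : ℝ))) ≤
          C * (Y ^ 5 * w + Y ^ (19 / 4 : ℝ)) := by
        calc 2 * (C * ((Y / 2) ^ 5 * w + (Y / 2) ^ (19 / 4 : ℝ))) =
            C * (2 * ((Y / 2) ^ 5 * w) + 2 * (Y / 2) ^ (19 / 4 : ℝ)) := by ring
          _ ≤ _ := by gcongr
      linarith
  intro S hS
  obtain ⟨n, hn, -⟩ := steps hX
  refine (key n X (by linarith) hn S hS).trans ?_
  have h1 : (1 : ℝ) ≤ X ^ (19 / 4 : ℝ) := Real.one_le_rpow hX (by norm_num)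
  have h2 : 0 ≤ X ^ 5 * w := by positivity
  nlinarith

end Pool.Agent.L0h45.DH
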