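import Mathlib
import Pool.Agent.L0h45.DH.Tail2

/-!
# The tail of the height
-/

set_option autoImplicit false

namespace Pool.Agent.L0h45.DH

open Finset
open Pool.Agent.H785R2.ABC (rad)

/-- the dyadic decomposition from below -/
theorem dyadic_sum {Y₀ : ℝ} (hY : 0 < Y₀) (P : ℤ × ℤ → Prop) (b : ℕ → ℝ)
    (h : ∀ j : ℕ, ∀ T : Finset (ℤ × ℤ), (∀ e ∈ T, P e ∧ |(e.1 : ℝ)| ≤ (2 ^ (j + 1) * Y₀) ^ 2 ∧
      |(e.2 : ℝ)| ≤ (2 ^ (j + 1) * Y₀) ^ 3 ∧ ((2 ^ (j + 1) * Y₀) ^ 6 / 64 < |(e.1 : ℝ)| ^ 3 ∨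
        (2 ^ (j + 1) * Y₀) ^ 6 / 64 < (e.2 : ℝ) ^ 2)) → (T.card : ℝ) ≤ b j) :
    ∀ (n : ℕ) (S : Finset (ℤ × ℤ)),
      (∀ e ∈ S, P e ∧ |(e.1 : ℝ)| ≤ (2 ^ n * Y₀) ^ 2 ∧ |(e.2 : ℝ)| ≤ (2 ^ n * Y₀) ^ 3 ∧
        ¬ (|(e.1 : ℝ)| ≤ Y₀ ^ 2 ∧ |(e.2 : ℝ)| ≤ Y₀ ^ 3)) →
      (S.card : ℝ) ≤ ∑ j ∈ range n, b j := by
  classical
  intro n
  induction n with
  | zero =>
    intro S hS
    have : S = ∅ := by
      rw [Finset.eq_empty_iff_forall_notMem]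
      intro e he
      obtain ⟨-, h1, h2, h3⟩ := hS e he
      rw [pow_zero, one_mul] at h1 h2
      exact h3 ⟨h1, h2⟩
    rw [this]
    simp
  | succ n ih =>
    intro S hS
    have hsplit := card_filter_add_card_filter_not (s := S)
      (fun e => |(e.1 : ℝ)| ≤ (2 ^ n * Y₀) ^ 2 ∧ |(e.2 : ℝ)| ≤ (2 ^ n * Y₀) ^ 3)
    have a1 := ih (S.filter (fun e => |(e.1 : ℝ)| ≤ (2 ^ n * Y₀) ^ 2 ∧
        |(e.2 : ℝ)| ≤ (2 ^ n * Y₀) ^ 3)) (by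
      intro e he
      rw [mem_filter] at he
      obtain ⟨h1, h2, h3, h4⟩ := hS e he.1
      exact ⟨h1, he.2.1, he.2.2, h4⟩)
    have a2 := h n (S.filter (fun e => ¬ (|(e.1 : ℝ)| ≤ (2 ^ n * Y₀) ^ 2 ∧
        |(e.2 : ℝ)| ≤ (2 ^ n * Y₀) ^ 3))) (by
      intro e he
      rw [mem_filter] at he
      obtain ⟨h1, h2, h3, h4⟩ := hS e he.1
      refine ⟨h1, h2, h3, ?_⟩
      have h5 := he.2
      rw [not_and_or, not_le, not_le] at h5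
      have h6 : (0 : ℝ) < 2 ^ n * Y₀ := by positivity
      rcases h5 with h5 | h5
      · left
        calc (2 ^ (n + 1) * Y₀) ^ 6 / 64 = ((2 ^ n * Y₀) ^ 2) ^ 3 := by rw [pow_succ]; ring
          _ < |(e.1 : ℝ)| ^ 3 := by gcongr
      · right
        rw [← sq_abs (e.2 : ℝ)]
        calc (2 ^ (n + 1) * Y₀) ^ 6 / 64 = ((2 ^ n * Y₀) ^ 3) ^ 2 := by rw [pow_succ]; ring
          _ < |(e.2 : ℝ)| ^ 2 := by gcongr)
    have h3 : (S.card : ℝ) = ((S.filter (fun e => |(e.1 : ℝ)| ≤ (2 ^ n * Y₀) ^ 2 ∧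
        |(e.2 : ℝ)| ≤ (2 ^ n * Y₀) ^ 3)).card : ℝ) + ((S.filter (fun e =>
        ¬ (|(e.1 : ℝ)| ≤ (2 ^ n * Y₀) ^ 2 ∧ |(e.2 : ℝ)| ≤ (2 ^ n * Y₀) ^ 3))).card : ℝ) := by
      exact_mod_cast hsplit.symm
    rw [h3, sum_range_succ]
    linarith

theorem pw {Z Y : ℝ} (hZ : 0 < Z) (hY : 0 < Y) (ε : ℝ) (j : ℕ) :
    (2 ^ (j + 1) * Y) ^ 5 * (Z / (2 ^ (j + 1) * Y) ^ 6) ^ (1 - ε) =
      Z ^ (1 - ε) * Y ^ (-(1 - 6 * ε)) * (2 ^ (-(1 - 6 * ε))) ^ (j + 1) := by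
  obtain ⟨u, hu⟩ : ∃ u : ℝ, u = 2 ^ (j + 1) * Y := ⟨_, rfl⟩
  have hu0 : 0 < u := by rw [hu]; positivity
  rw [← hu]
  have e1 : u ^ 5 * (Z / u ^ 6) ^ (1 - ε) = Z ^ (1 - ε) * u ^ (-(1 - 6 * ε)) := by
    rw [Real.div_rpow hZ.le (by positivity)]
    have e2 : (u ^ 6) ^ (1 - ε) = u ^ (6 * (1 - ε)) := by
      rw [← Real.rpow_natCast u 6, ← Real.rpow_mul hu0.le]
      norm_num
    have e3 : u ^ (-(1 - 6 * ε)) = u ^ 5 / u ^ (6 * (1 - ε)) := by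
      rw [← Real.rpow_natCast u 5, ← Real.rpow_sub hu0]
      congr 1
      push_cast
      ring
    rw [e2, e3]
    ring
  have e4 : u ^ (-(1 - 6 * ε)) = (2 ^ (-(1 - 6 * ε))) ^ (j + 1) * Y ^ (-(1 - 6 * ε)) := by
    rw [hu, Real.mul_rpow (by positivity) hY.le, ← Real.rpow_natCast (2 : ℝ) (j + 1),
      ← Real.rpow_mul (by norm_num), ← Real.rpow_natCast ((2 : ℝ) ^ (-(1 - 6 * ε))) (j + 1),
      ← Real.rpow_mul (by norm_num)]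
    ring_nf
  rw [e1, e4]
  ring

/-- the curves of conductor at most `Z` and height between `K Z` and `Z ^ β` -/
theorem tail_height (β σ : ℝ) (hβ1 : 1 ≤ β) (hβ : β < 10 / 7) (hσ : 0 < σ) (hσ6 : σ < 1 / 6) :
    ∃ η : ℝ, 0 < η ∧ ∃ C : ℝ, 0 < C ∧ ∀ Z K : ℝ, 1 ≤ Z → 1 ≤ K → ∀ S : Finset (ℤ × ℤ),
    (∀ e ∈ S, (∃ D : ℤ, D ≠ 0 ∧ e.1 ^ 3 - e.2 ^ 2 = 1728 * D ∧
      IsCoprime e.1 D ∧ (rad D.natAbs : ℝ) ≤ Z) ∧
      |(e.1 : ℝ)| ≤ (Z ^ (β / 6)) ^ 2 ∧ |(e.2 : ℝ)| ≤ (Z ^ (β / 6)) ^ 3 ∧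
      ¬ (|(e.1 : ℝ)| ≤ ((K * Z) ^ (1 / 6 : ℝ)) ^ 2 ∧ |(e.2 : ℝ)| ≤ ((K * Z) ^ (1 / 6 : ℝ)) ^ 3)) →
    (S.card : ℝ) ≤ C * (K ^ (-σ) * Z ^ (5 / 6 : ℝ) + Z ^ (5 / 6 - η)) := by
  set ε : ℝ := 1 / 6 - σ with hε
  have hε0 : 0 < ε := by linarith
  obtain ⟨C₁, hC₁, h₁⟩ := ann_height ε hε0 (by linarith)
  set η₀ : ℝ := min (1 / 200) (5 / 6 - 7 * β / 12) with hη₀
  have hη₀0 : 0 < η₀ := lt_min (by norm_num) (by linarith)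
  have hη₀a : η₀ ≤ 1 / 200 := min_le_left _ _
  have hη₀b : η₀ ≤ 5 / 6 - 7 * β / 12 := min_le_right _ _
  obtain ⟨C₂, hC₂, h₂⟩ := main_count η₀ hη₀0
  set c : ℝ := 1 - 6 * ε with hc
  have hc0 : 0 < c := by rw [hc, hε]; linarith
  set q : ℝ := 2 ^ (-c) with hq
  have hq0 : 0 < q := by positivity
  have hq1 : q < 1 := Real.rpow_lt_one_of_one_lt_of_neg (by norm_num) (by linarith)
  have hq1' : 0 < 1 - q := by linarith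
  set ε₃ : ℝ := η₀ / 4 with hε₃
  have hε₃0 : 0 < ε₃ := by positivity
  set C' : ℝ := C₁ + 26 * C₂ with hC'
  have hC'0 : 0 < C' := by positivity
  refine ⟨η₀ / 4, by positivity, C₁ * (1 - q)⁻¹ + 2 * (1 + 1 / ε₃) * C', by positivity, ?_⟩
  intro Z K hZ hK S hS
  have hZ0 : 0 < Z := by linarith
  have hK0 : 0 < K := by linarith
  have hKZ : 0 < K * Z := by positivity
  set Y₀ : ℝ := (K * Z) ^ (1 / 6 : ℝ) with hY₀
  have hY1 : 1 ≤ Y₀ := Real.one_le_rpow (by nlinarith) (by norm_num)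
  have hY0 : 0 < Y₀ := by linarith
  set X : ℝ := Z ^ (β / 6) with hX
  have hX1 : 1 ≤ X := Real.one_le_rpow hZ (by linarith)
  have hX0 : 0 < X := by linarith
  have hXZ : X ≤ Z := by
    rw [hX]
    conv_rhs => rw [← Real.rpow_one Z]
    exact Real.rpow_le_rpow_of_exponent_le hZ (by linarith)
  obtain ⟨n, hn1, hn2⟩ := steps hX1
  set W : ℝ := Z ^ (5 / 6 - η₀ / 2) with hW
  have hW0 : 0 < W := by positivity
  have hkey := dyadic_sum hY0 (fun e => (∃ D : ℤ, D ≠ 0 ∧ e.1 ^ 3 - e.2 ^ 2 = 1728 * D ∧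
      IsCoprime e.1 D ∧ (rad D.natAbs : ℝ) ≤ Z) ∧ |(e.1 : ℝ)| ≤ X ^ 2 ∧ |(e.2 : ℝ)| ≤ X ^ 3)
    (fun j => C₁ * (Z ^ (1 - ε) * Y₀ ^ (-c)) * q ^ (j + 1) + C' * W) (by
    intro j T hT
    set Xj : ℝ := 2 ^ (j + 1) * Y₀ with hXj
    have h2j : (1 : ℝ) ≤ 2 ^ (j + 1) := one_le_pow₀ (by norm_num)
    have hXj1 : 1 ≤ Xj := by nlinarith
    have hXj0 : 0 < Xj := by linarith
    have hpos : 0 ≤ C₁ * (Z ^ (1 - ε) * Y₀ ^ (-c)) * q ^ (j + 1) := by positivity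
    rcases T.eq_empty_or_nonempty with h0 | ⟨e₀, he₀⟩
    · rw [h0]
      simp only [card_empty, Nat.cast_zero]
      positivity
    have hXjX : Xj ≤ 2 * X := by
      by_contra hcon
      push Not at hcon
      obtain ⟨⟨-, h3, h4⟩, -, -, h5⟩ := hT e₀ he₀
      have h6 : X ^ 6 ≤ Xj ^ 6 / 64 := by
        have : (2 * X) ^ 6 ≤ Xj ^ 6 := by gcongr
        have e1 : (2 * X) ^ 6 = 64 * X ^ 6 := by ring
        linarith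
      rcases h5 with h5 | h5
      · have h7 : |(e₀.1 : ℝ)| ^ 3 ≤ (X ^ 2) ^ 3 := by gcongr
        have e2 : (X ^ 2) ^ 3 = X ^ 6 := by ring
        linarith
      · have h7 : |(e₀.2 : ℝ)| ^ 2 ≤ (X ^ 3) ^ 2 := by gcongr
        rw [sq_abs] at h7
        have e2 : (X ^ 3) ^ 2 = X ^ 6 := by ring
        linarith
    have hgood : ∀ e ∈ T, Good Xj Z e := by
      intro e he
      obtain ⟨⟨⟨D, h3, h4, h5, h6⟩, -, -⟩, h7, h8, h9⟩ := hT e he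
      exact ⟨D, h3, h4, h5, h6, h7, h8, h9⟩
    rcases le_or_gt Xj (Z ^ (1 / 6 + 1 / 200 : ℝ)) with hsm | hbig
    · have h3 := h₁ Xj Z hXj1 hZ0 T hgood
      have e1 : Xj ^ 5 * (Z / Xj ^ 6) ^ (1 - ε) = Z ^ (1 - ε) * Y₀ ^ (-c) * q ^ (j + 1) :=
        pw hZ0 hY0 ε j
      have h4 : Xj ^ (19 / 4 : ℝ) ≤ W := by
        calc Xj ^ (19 / 4 : ℝ) ≤ (Z ^ (1 / 6 + 1 / 200 : ℝ)) ^ (19 / 4 : ℝ) :=
              Real.rpow_le_rpow hXj0.le hsm (by norm_num)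
          _ = Z ^ ((1 / 6 + 1 / 200 : ℝ) * (19 / 4)) := by rw [← Real.rpow_mul hZ0.le]
          _ ≤ W := Real.rpow_le_rpow_of_exponent_le hZ (by linarith)
      rw [e1] at h3
      have h5 : C₁ * W ≤ C' * W := by
        rw [hC']
        nlinarith
      have h6 : C₁ * Xj ^ (19 / 4 : ℝ) ≤ C₁ * W := by gcongr
      calc (T.card : ℝ) ≤ C₁ * (Z ^ (1 - ε) * Y₀ ^ (-c) * q ^ (j + 1) + Xj ^ (19 / 4 : ℝ)) := h3
        _ = C₁ * (Z ^ (1 - ε) * Y₀ ^ (-c)) * q ^ (j + 1) + C₁ * Xj ^ (19 / 4 : ℝ) := by ring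
        _ ≤ _ := by linarith
    · have h3 := h₂ Xj Z hXj1 hZ0.le T hgood
      have h4 : Z / Xj ≤ Z ^ (5 / 6 - η₀) := by
        calc Z / Xj ≤ Z / Z ^ (1 / 6 + 1 / 200 : ℝ) := by gcongr
          _ = Z ^ (1 : ℝ) / Z ^ (1 / 6 + 1 / 200 : ℝ) := by rw [Real.rpow_one]
          _ = Z ^ (1 - (1 / 6 + 1 / 200) : ℝ) := by rw [← Real.rpow_sub hZ0]
          _ ≤ Z ^ (5 / 6 - η₀) := Real.rpow_le_rpow_of_exponent_le hZ (by linarith)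
      have h5 : Xj ^ (7 / 2 : ℝ) ≤ 12 * Z ^ (5 / 6 - η₀) := by
        calc Xj ^ (7 / 2 : ℝ) ≤ (2 * X) ^ (7 / 2 : ℝ) :=
              Real.rpow_le_rpow hXj0.le hXjX (by norm_num)
          _ = 2 ^ (7 / 2 : ℝ) * X ^ (7 / 2 : ℝ) := Real.mul_rpow (by norm_num) hX0.le
          _ = 2 ^ (7 / 2 : ℝ) * Z ^ (7 * β / 12) := by
              rw [hX, ← Real.rpow_mul hZ0.le]
              congr 2
              ring
          _ ≤ 12 * Z ^ (5 / 6 - η₀) := by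
              have h6 : (2 : ℝ) ^ (7 / 2 : ℝ) ≤ 12 := by
                have h7 : ((2 : ℝ) ^ (7 / 2 : ℝ)) ^ 2 = 128 := by
                  rw [← Real.rpow_natCast, ← Real.rpow_mul (by norm_num)]
                  norm_num
                have h8 : 0 ≤ (2 : ℝ) ^ (7 / 2 : ℝ) := by positivity
                nlinarith
              have h7 : Z ^ (7 * β / 12) ≤ Z ^ (5 / 6 - η₀) :=
                Real.rpow_le_rpow_of_exponent_le hZ (by linarith)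
              gcongr
      have h6 : Xj ^ η₀ ≤ 2 * Z ^ (η₀ / 2) := by
        calc Xj ^ η₀ ≤ (2 * X) ^ η₀ := Real.rpow_le_rpow hXj0.le hXjX hη₀0.le
          _ = 2 ^ η₀ * X ^ η₀ := Real.mul_rpow (by norm_num) hX0.le
          _ ≤ 2 * Z ^ (η₀ / 2) := by
              have h7 : (2 : ℝ) ^ η₀ ≤ 2 := by
                calc (2 : ℝ) ^ η₀ ≤ 2 ^ (1 : ℝ) :=
                      Real.rpow_le_rpow_of_exponent_le (by norm_num) (by linarith)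
                  _ = 2 := Real.rpow_one _
              have h8 : X ^ η₀ ≤ Z ^ (η₀ / 2) := by
                rw [hX, ← Real.rpow_mul hZ0.le]
                exact Real.rpow_le_rpow_of_exponent_le hZ (by nlinarith)
              gcongr
      calc (T.card : ℝ) ≤ C₂ * Xj ^ η₀ * (Z / Xj + Xj ^ (7 / 2 : ℝ)) := h3
        _ ≤ C₂ * (2 * Z ^ (η₀ / 2)) * (Z ^ (5 / 6 - η₀) + 12 * Z ^ (5 / 6 - η₀)) := by gcongr
        _ = 26 * C₂ * (Z ^ (η₀ / 2) * Z ^ (5 / 6 - η₀)) := by ring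
        _ = 26 * C₂ * W := by
            rw [← Real.rpow_add hZ0, hW]
            congr 2
            ring
        _ ≤ C' * W := by
            rw [hC']
            nlinarith
        _ ≤ _ := by linarith) n S (by
    intro e he
    obtain ⟨h3, h4, h5, h6⟩ := hS e he
    have h7 : X ≤ 2 ^ n * Y₀ := by
      calc X ≤ 2 ^ n := hn1
        _ ≤ 2 ^ n * Y₀ := le_mul_of_one_le_right (by positivity) hY1
    exact ⟨⟨h3, h4, h5⟩, h4.trans (by gcongr), h5.trans (by gcongr), h6⟩)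
  refine hkey.trans ?_
  rw [sum_add_distrib, sum_const, card_range, nsmul_eq_mul, ← mul_sum]
  have hgeo : ∑ j ∈ range n, q ^ (j + 1) ≤ (1 - q)⁻¹ := by
    have h3 : ∑ j ∈ range n, q ^ (j + 1) ≤ ∑ j ∈ range n, q ^ j := by
      refine sum_le_sum fun j _ => ?_
      exact pow_le_pow_of_le_one hq0.le hq1.le (by omega)
    refine h3.trans ?_
    rw [← tsum_geometric_of_lt_one hq0.le hq1]
    exact (summable_geometric_of_lt_one hq0.le hq1).sum_le_tsum _ fun _ _ => by positivity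
  have hY : Z ^ (1 - ε) * Y₀ ^ (-c) = K ^ (-σ) * Z ^ (5 / 6 : ℝ) := by
    rw [hY₀, ← Real.rpow_mul hKZ.le, Real.mul_rpow hK0.le hZ0.le]
    have e1 : 1 / 6 * -c = -σ := by rw [hc, hε]; ring
    rw [e1]
    calc Z ^ (1 - ε) * (K ^ (-σ) * Z ^ (-σ)) = K ^ (-σ) * (Z ^ (1 - ε) * Z ^ (-σ)) := by ring
      _ = _ := by
        rw [← Real.rpow_add hZ0]
        congr 2
        rw [hε]
        ring
  rw [hY]
  have h3 := one_add_log_le hε₃0 hX1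
  have h4 : (n : ℝ) ≤ 2 * (1 + 1 / ε₃) * Z ^ ε₃ := by
    have h5 : X ^ ε₃ ≤ Z ^ ε₃ := Real.rpow_le_rpow hX0.le hXZ hε₃0.le
    have h6 : 0 < 1 + 1 / ε₃ := by positivity
    nlinarith
  have h5 : Z ^ ε₃ * W = Z ^ (5 / 6 - η₀ / 4) := by
    rw [hW, ← Real.rpow_add hZ0]
    congr 1
    rw [hε₃]
    ring
  have hKs : 0 ≤ K ^ (-σ) * Z ^ (5 / 6 : ℝ) := by positivity
  have hWs : 0 ≤ Z ^ (5 / 6 - η₀ / 4) := by positivity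
  calc C₁ * (K ^ (-σ) * Z ^ (5 / 6 : ℝ)) * ∑ j ∈ range n, q ^ (j + 1) + n * (C' * W)
      ≤ C₁ * (K ^ (-σ) * Z ^ (5 / 6 : ℝ)) * (1 - q)⁻¹ + (2 * (1 + 1 / ε₃) * Z ^ ε₃) * (C' * W) := by
        gcongr
    _ = C₁ * (1 - q)⁻¹ * (K ^ (-σ) * Z ^ (5 / 6 : ℝ)) +
        2 * (1 + 1 / ε₃) * C' * (Z ^ ε₃ * W) := by ring
    _ = C₁ * (1 - q)⁻¹ * (K ^ (-σ) * Z ^ (5 / 6 : ℝ)) +
        2 * (1 + 1 / ε₃) * C' * Z ^ (5 / 6 - η₀ / 4) := by rw [h5]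
    _ ≤ (C₁ * (1 - q)⁻¹ + 2 * (1 + 1 / ε₃) * C') *
        (K ^ (-σ) * Z ^ (5 / 6 : ℝ) + Z ^ (5 / 6 - η₀ / 4)) := by
        have b1 : 0 ≤ C₁ * (1 - q)⁻¹ * Z ^ (5 / 6 - η₀ / 4) := by positivity
        have b2 : 0 ≤ 2 * (1 + 1 / ε₃) * C' * (K ^ (-σ) * Z ^ (5 / 6 : ℝ)) := by positivity
        linarith [b1, b2, (by ring : (C₁ * (1 - q)⁻¹ + 2 * (1 + 1 / ε₃) * C') *
          (K ^ (-σ) * Z ^ (5 / 6 : ℝ) + Z ^ (5 / 6 - η₀ / 4)) =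
          C₁ * (1 - q)⁻¹ * (K ^ (-σ) * Z ^ (5 / 6 : ℝ)) + C₁ * (1 - q)⁻¹ * Z ^ (5 / 6 - η₀ / 4) +
          2 * (1 + 1 / ε₃) * C' * (K ^ (-σ) * Z ^ (5 / 6 : ℝ)) +
          2 * (1 + 1 / ε₃) * C' * Z ^ (5 / 6 - η₀ / 4))]

end Pool.Agent.L0h45.DH
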