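import Mathlib
import Pool.Agent.L0h45.DH.Tail3

/-!
# Local conditions for the index `|Δ| / N`
-/

set_option autoImplicit false

namespace Pool.Agent.L0h45.DH

open Finset
open Pool.Agent.H785R2.ABC (rad)

/-- the pairs `(c₄, c₆)` of integral Weierstrass equations -/
def Wz (x y : ℤ) : Prop := ∃ W : WeierstrassCurve ℤ, W.c₄ = x ∧ W.c₆ = y

theorem Wz_shift (x y k l : ℤ) (h : Wz x y) : Wz (x + 576 * k) (y + 864 * l) := by
  obtain ⟨W, rfl, rfl⟩ := h
  refine ⟨⟨W.a₁, W.a₂, W.a₃, W.a₄ - 12 * k, W.a₆ - W.b₂ * k - l⟩, ?_, ?_⟩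
  · simp only [WeierstrassCurve.c₄, WeierstrassCurve.b₂, WeierstrassCurve.b₄]
    ring
  · simp only [WeierstrassCurve.c₆, WeierstrassCurve.b₂, WeierstrassCurve.b₄,
      WeierstrassCurve.b₆]
    ring

theorem Wz_per {Q : ℕ} (hQ : 1728 ∣ Q) (x y : ℤ) :
    (Wz (x + Q) y ↔ Wz x y) ∧ (Wz x (y + Q) ↔ Wz x y) := by
  obtain ⟨q, rfl⟩ := hQ
  refine ⟨⟨fun h => ?_, fun h => ?_⟩, ⟨fun h => ?_, fun h => ?_⟩⟩
  · have := Wz_shift _ _ (-(3 * q)) 0 h
    convert this using 1 <;> push_cast <;> ring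
  · have := Wz_shift _ _ (3 * q) 0 h
    convert this using 1 <;> push_cast <;> ring
  · have := Wz_shift _ _ 0 (-(2 * q)) h
    convert this using 1 <;> push_cast <;> ring
  · have := Wz_shift _ _ 0 (2 * q) h
    convert this using 1 <;> push_cast <;> ring

theorem Wz_disc {x y : ℤ} (h : Wz x y) : ∃ D : ℤ, x ^ 3 - y ^ 2 = 1728 * D := by
  obtain ⟨W, rfl, rfl⟩ := h
  exact ⟨W.Δ, W.c_relation.symm⟩

/-- the local condition at `p` for the index `m` -/
def Cp (m p : ℕ) (x y : ℤ) : Prop :=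
  (p ∣ m → ¬ (p : ℤ) ∣ x ∧ (1728 * (p : ℤ) ^ (m.factorization p + 1)) ∣ x ^ 3 - y ^ 2 ∧
    ¬ (1728 * (p : ℤ) ^ (m.factorization p + 2)) ∣ x ^ 3 - y ^ 2) ∧
  (¬ p ∣ m → ¬ (1728 * (p : ℤ) ^ 2) ∣ x ^ 3 - y ^ 2 ∧
    ¬ ((p : ℤ) ∣ x ∧ (1728 * (p : ℤ)) ∣ x ^ 3 - y ^ 2))

/-- the conditions at the primes up to `M` -/
def Am (m M : ℕ) (x y : ℤ) : Prop := Wz x y ∧ ∀ p : ℕ, p.Prime → p ≤ M → Cp m p x y

/-- the semistable curves with `|Δ| = m N` -/
def Bm (m : ℕ) (x y : ℤ) : Prop := Wz x y ∧ ∃ D : ℤ, D ≠ 0 ∧ x ^ 3 - y ^ 2 = 1728 * D ∧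
  IsCoprime x D ∧ D.natAbs = m * rad D.natAbs

/-- the period -/
def QQ (m M : ℕ) : ℕ := 1728 * (M.factorial) ^ (m + 2)

theorem QQ_pos (m M : ℕ) : 0 < QQ m M := by
  unfold QQ
  have := M.factorial_pos
  positivity

theorem dvd_per {t Q : ℤ} (h : t ∣ Q) (x y : ℤ) :
    (t ∣ (x + Q) ^ 3 - y ^ 2 ↔ t ∣ x ^ 3 - y ^ 2) ∧
    (t ∣ x ^ 3 - (y + Q) ^ 2 ↔ t ∣ x ^ 3 - y ^ 2) ∧ (t ∣ x + Q ↔ t ∣ x) := by
  refine ⟨?_, ?_, (dvd_add_left h)⟩
  · have h1 : (x + Q) ^ 3 - y ^ 2 = (x ^ 3 - y ^ 2) + Q * (3 * x ^ 2 + 3 * x * Q + Q ^ 2) := by ring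
    rw [h1]
    exact dvd_add_left (h.mul_right _)
  · have h1 : x ^ 3 - (y + Q) ^ 2 = (x ^ 3 - y ^ 2) + Q * (-(2 * y) - Q) := by ring
    rw [h1]
    exact dvd_add_left (h.mul_right _)

theorem fac_le (m p : ℕ) : m.factorization p ≤ m := by
  rcases Nat.eq_zero_or_pos m with h | h
  · simp [h]
  · exact (Nat.factorization_lt p h.ne').le

theorem pow_dvd_QQ {m M p : ℕ} (hp : p.Prime) (hM : p ≤ M) {k : ℕ} (hk : k ≤ m + 2) :
    (1728 * (p : ℤ) ^ k) ∣ ((QQ m M : ℕ) : ℤ) := by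
  unfold QQ
  push_cast
  refine mul_dvd_mul dvd_rfl ?_
  have h1 : p ∣ M.factorial := Nat.dvd_factorial hp.pos hM
  have h2 : p ^ k ∣ M.factorial ^ (m + 2) := (pow_dvd_pow p hk).trans (pow_dvd_pow_of_dvd h1 _)
  exact_mod_cast h2

theorem Am_per (m M : ℕ) (x y : ℤ) :
    (Am m M (x + (QQ m M : ℕ)) y ↔ Am m M x y) ∧ (Am m M x (y + (QQ m M : ℕ)) ↔ Am m M x y) := by
  have h1728 : 1728 ∣ QQ m M := Dvd.intro _ rfl
  have hk : ∀ p : ℕ, m.factorization p + 2 ≤ m + 2 := fun p => by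
    have := fac_le m p
    omega
  have hpQ : ∀ p : ℕ, p.Prime → p ≤ M → (p : ℤ) ∣ ((QQ m M : ℕ) : ℤ) := by
    intro p hp hM
    have h := pow_dvd_QQ (m := m) hp hM (k := 1) (by omega)
    rw [pow_one] at h
    exact (dvd_mul_left _ _).trans h
  have key : ∀ p : ℕ, p.Prime → p ≤ M → (Cp m p (x + (QQ m M : ℕ)) y ↔ Cp m p x y) ∧
      (Cp m p x (y + (QQ m M : ℕ)) ↔ Cp m p x y) := by
    intro p hp hM
    have d1 := dvd_per (pow_dvd_QQ (m := m) hp hM (k := m.factorization p + 1)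
      (by have := hk p; omega)) x y
    have d2 := dvd_per (pow_dvd_QQ (m := m) hp hM (hk p)) x y
    have d3 := dvd_per (pow_dvd_QQ (m := m) hp hM (k := 2) (by omega)) x y
    have d4 := dvd_per (pow_dvd_QQ (m := m) hp hM (k := 1) (by omega)) x y
    have d5 := dvd_per (hpQ p hp hM) x y
    rw [pow_one] at d4
    unfold Cp
    rw [d1.1, d1.2.1, d2.1, d2.2.1, d3.1, d3.2.1, d4.1, d4.2.1, d5.2.2]
    exact ⟨Iff.rfl, Iff.rfl⟩
  unfold Am
  rw [(Wz_per h1728 x y).1, (Wz_per h1728 x y).2]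
  constructor
  · refine and_congr_right fun _ => ?_
    exact ⟨fun h p hp hM => (key p hp hM).1.mp (h p hp hM),
      fun h p hp hM => (key p hp hM).1.mpr (h p hp hM)⟩
  · refine and_congr_right fun _ => ?_
    exact ⟨fun h p hp hM => (key p hp hM).2.mp (h p hp hM),
      fun h p hp hM => (key p hp hM).2.mpr (h p hp hM)⟩

theorem rad_fac (n : ℕ) {q : ℕ} (hq : q.Prime) (hn : n ≠ 0) :
    (rad n).factorization q = if q ∣ n then 1 else 0 := by
  classical
  unfold Pool.Agent.H785R2.ABC.rad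
  rw [Nat.factorization_prod (fun p hp => (Nat.prime_of_mem_primeFactors hp).ne_zero),
    Finsupp.finsetSum_apply]
  have h1 : ∀ p ∈ n.primeFactors, (p.factorization) q = if p = q then 1 else 0 := by
    intro p hp
    rw [(Nat.prime_of_mem_primeFactors hp).factorization, Finsupp.single_apply]
  rw [sum_congr rfl h1, sum_ite_eq']
  simp only [Nat.mem_primeFactors]
  by_cases h : q ∣ n
  · rw [if_pos ⟨hq, h, hn⟩, if_pos h]
  · rw [if_neg (fun h' => h h'.2.1), if_neg h]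

theorem rad_ne (n : ℕ) : rad n ≠ 0 := by
  have := Pool.Agent.H785R2.ABC.A345_rad_pos n
  omega

theorem dvd1728 {D : ℤ} {x y : ℤ} (h : x ^ 3 - y ^ 2 = 1728 * D) (t : ℤ) :
    1728 * t ∣ x ^ 3 - y ^ 2 ↔ t ∣ D := by
  rw [h]
  exact mul_dvd_mul_iff_left (by norm_num)

theorem pow_dvd_iff {D : ℤ} (hD : D ≠ 0) {p : ℕ} (hp : p.Prime) (k : ℕ) :
    (p : ℤ) ^ k ∣ D ↔ k ≤ D.natAbs.factorization p := by
  rw [← hp.pow_dvd_iff_le_factorization (Int.natAbs_ne_zero.mpr hD)]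
  rw [← Int.natCast_dvd]
  push_cast
  rfl

theorem Bm_Am {m M : ℕ} {x y : ℤ} (h : Bm m x y) : Am m M x y := by
  obtain ⟨hW, D, hD0, hD, hcop, hidx⟩ := h
  have hn0 : D.natAbs ≠ 0 := Int.natAbs_ne_zero.mpr hD0
  have hm0 : m ≠ 0 := by
    rintro rfl
    rw [zero_mul] at hidx
    exact hn0 hidx
  refine ⟨hW, fun p hp _ => ?_⟩
  have hfac : D.natAbs.factorization p = m.factorization p + if p ∣ D.natAbs then 1 else 0 := by
    conv_lhs => rw [hidx]
    rw [Nat.factorization_mul hm0 (rad_ne _), Finsupp.add_apply, rad_fac _ hp hn0]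
  have hndx : ∀ {q : ℕ}, q.Prime → (q : ℤ) ∣ D → ¬ (q : ℤ) ∣ x := by
    intro q hq h1 h2
    have h3 := hcop.isUnit_of_dvd' h2 h1
    have h4 : (q : ℤ).natAbs = 1 := Int.isUnit_iff_natAbs_eq.mp h3
    rw [Int.natAbs_natCast] at h4
    exact hq.one_lt.ne' h4
  constructor
  · intro hpm
    have hpn : p ∣ D.natAbs := by
      rw [hidx]
      exact hpm.mul_right _
    rw [if_pos hpn] at hfac
    refine ⟨hndx hp (Int.natCast_dvd.mpr hpn), ?_, ?_⟩
    · rw [dvd1728 hD, pow_dvd_iff hD0 hp]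
      omega
    · rw [dvd1728 hD, pow_dvd_iff hD0 hp]
      omega
  · intro hpm
    have h0 : m.factorization p = 0 := Nat.factorization_eq_zero_of_not_dvd hpm
    constructor
    · rw [dvd1728 hD, pow_dvd_iff hD0 hp]
      split_ifs at hfac <;> omega
    · rintro ⟨h1, h2⟩
      rw [dvd1728 hD] at h2
      exact hndx hp h2 h1

theorem Am_diff {m M : ℕ} (hm : 1 ≤ m) (hM : m ≤ M) {x y : ℤ} (h : Am m M x y)
    (hB : ¬ Bm m x y) : (∃ p : ℕ, p.Prime ∧ M < p ∧ (p : ℤ) ∣ x ∧ (p : ℤ) ∣ y) ∨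
    (∃ D : ℤ, D ≠ 0 ∧ x ^ 3 - y ^ 2 = 1728 * D ∧ IsCoprime x D ∧
      ∃ s d : ℕ, Dec D s d ∧ (M : ℝ) < d) ∨ x ^ 3 = y ^ 2 := by
  obtain ⟨hW, hloc⟩ := h
  obtain ⟨D, hD⟩ := Wz_disc hW
  by_cases hD0 : D = 0
  · right; right
    rw [hD0, mul_zero] at hD
    exact sub_eq_zero.mp hD
  have hn0 : D.natAbs ≠ 0 := Int.natAbs_ne_zero.mpr hD0
  by_cases hcop : IsCoprime x D
  · right; left
    refine ⟨D, hD0, hD, hcop, ?_⟩
    obtain ⟨s, d, hdec⟩ := exists_dec hD0
    refine ⟨s, d, hdec, ?_⟩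
    by_contra hcon
    push Not at hcon
    have hdM : d ≤ M := by exact_mod_cast hcon
    apply hB
    refine ⟨hW, D, hD0, hD, hcop, ?_⟩
    have hm0 : m ≠ 0 := by omega
    refine Nat.eq_of_factorization_eq hn0 (mul_ne_zero hm0 (rad_ne _)) fun p => ?_
    by_cases hp : p.Prime
    · rw [Nat.factorization_mul hm0 (rad_ne _), Finsupp.add_apply, rad_fac _ hp hn0]
      by_cases hpM : p ≤ M
      · obtain ⟨c1, c2⟩ := hloc p hp hpM
        by_cases hpm : p ∣ m
        · obtain ⟨-, k2, k3⟩ := c1 hpm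
          rw [dvd1728 hD, pow_dvd_iff hD0 hp] at k2 k3
          have hpn : p ∣ D.natAbs := by
            refine Nat.dvd_of_factorization_pos ?_
            omega
          rw [if_pos hpn]
          omega
        · obtain ⟨k1, -⟩ := c2 hpm
          rw [dvd1728 hD, pow_dvd_iff hD0 hp] at k1
          rw [Nat.factorization_eq_zero_of_not_dvd hpm, zero_add]
          split_ifs with hpn
          · have := hp.factorization_pos_of_dvd hn0 hpn
            omega
          · exact Nat.factorization_eq_zero_of_not_dvd hpn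
      · push Not at hpM
        have hpm : ¬ p ∣ m := fun h => by
          have := Nat.le_of_dvd hm h
          omega
        rw [Nat.factorization_eq_zero_of_not_dvd hpm, zero_add]
        split_ifs with hpn
        · have h1 := hp.factorization_pos_of_dvd hn0 hpn
          by_contra h2
          have h3 : 2 ≤ D.natAbs.factorization p := by omega
          -- `p² ∣ D`, so `p ∣ d`
          obtain ⟨hs1, hd1, hsd, hsr, hrd⟩ := hdec
          have hs0 : s ≠ 0 := by omega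
          have hd0 : d ≠ 0 := by omega
          have e1 : D.natAbs.factorization p = s.factorization p + d.factorization p := by
            rw [← hsd, Nat.factorization_mul hs0 hd0, Finsupp.add_apply]
          have e2 : s.factorization p + (if p ∣ d then 1 else 0) = 1 := by
            have := congrArg (fun n => n.factorization p) hsr
            rw [Nat.factorization_mul hs0 (rad_ne _), Finsupp.add_apply, rad_fac _ hp hd0,
              rad_fac _ hp hn0, if_pos hpn] at this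
            exact this
          by_cases hpd : p ∣ d
          · have := Nat.le_of_dvd hd1 hpd
            omega
          · rw [if_neg hpd] at e2
            rw [Nat.factorization_eq_zero_of_not_dvd hpd] at e1
            omega
        · exact Nat.factorization_eq_zero_of_not_dvd hpn
    · rw [Nat.factorization_eq_zero_of_not_prime _ hp, Nat.factorization_eq_zero_of_not_prime _ hp]
  · left
    have h1 : ¬ Nat.Coprime x.natAbs D.natAbs := fun h => hcop (Int.isCoprime_iff_nat_coprime.mpr h)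
    obtain ⟨p, hp, hpx, hpD⟩ := Nat.Prime.not_coprime_iff_dvd.mp h1
    have hpx' : (p : ℤ) ∣ x := Int.natCast_dvd.mpr hpx
    have hpD' : (p : ℤ) ∣ D := Int.natCast_dvd.mpr hpD
    refine ⟨p, hp, ?_, hpx', ?_⟩
    · by_contra hcon
      push Not at hcon
      obtain ⟨c1, c2⟩ := hloc p hp hcon
      by_cases hpm : p ∣ m
      · exact (c1 hpm).1 hpx'
      · refine (c2 hpm).2 ⟨hpx', ?_⟩
        rw [dvd1728 hD]
        exact hpD'
    · have h2 : (p : ℤ) ∣ y ^ 2 := by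
        have h3 : y ^ 2 = x ^ 3 - 1728 * D := by linarith
        rw [h3]
        exact dvd_sub (hpx'.trans (dvd_pow_self x three_ne_zero)) (hpD'.mul_left _)
      exact (Nat.prime_iff_prime_int.mp hp).dvd_of_dvd_pow h2

end Pool.Agent.L0h45.DH
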