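import Mathlib
import Pool.Agent.L0h45.DH.Loc

/-!
# The points which satisfy the conditions up to `M` only
-/

set_option autoImplicit false

namespace Pool.Agent.L0h45.DH

open Finset
open Pool.Agent.H785R2.ABC (rad)

/-- points with a common large prime -/
theorem common_prime {X : ℝ} (hX : 1 ≤ X) {M : ℕ} (hM : 1 ≤ M) (S : Finset (ℤ × ℤ))
    (hS : ∀ e ∈ S, |(e.1 : ℝ)| ≤ X ^ 2 ∧ |(e.2 : ℝ)| ≤ X ^ 3 ∧
      ∃ p : ℕ, p.Prime ∧ M < p ∧ (p : ℤ) ∣ e.1 ∧ (p : ℤ) ∣ e.2) :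
    (S.card : ℝ) ≤ 9 * X ^ 5 / M + 3 * X ^ 3 := by
  classical
  have hX0 : 0 < X := by linarith
  have hM0 : (0 : ℝ) < M := by exact_mod_cast hM
  have hsplit := card_filter_add_card_filter_not (s := S) (fun e => e.1 = 0)
  -- `x = 0`
  have a1 : ((S.filter (fun e => e.1 = 0)).card : ℝ) ≤ 3 * X ^ 3 := by
    have hinj : Set.InjOn (fun e : ℤ × ℤ => e.2) (S.filter (fun e => e.1 = 0)) := by
      intro e he e' he' hee
      simp only [coe_filter, Set.mem_ofPred_eq] at he he'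
      exact Prod.ext (by rw [he.2, he'.2]) hee
    rw [← card_image_of_injOn hinj]
    have hsub : (S.filter (fun e => e.1 = 0)).image (fun e : ℤ × ℤ => e.2) ⊆
        Icc (-⌊X ^ 3⌋) ⌊X ^ 3⌋ := by
      intro y hy
      rw [mem_image] at hy
      obtain ⟨e, he, rfl⟩ := hy
      rw [mem_filter] at he
      exact mem_box (hS e he.1).2.1
    have h1 := card_le_card hsub
    have h2 := card_box (A := X ^ 3) (by positivity)
    have h3 : (1 : ℝ) ≤ X ^ 3 := one_le_pow₀ hX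
    calc _ ≤ ((Icc (-⌊X ^ 3⌋) ⌊X ^ 3⌋).card : ℝ) := by exact_mod_cast h1
      _ ≤ _ := by linarith
  -- `x ≠ 0`
  set S' := S.filter (fun e => ¬ e.1 = 0) with hS'
  have hch : ∀ e : ℤ × ℤ, ∃ p : ℕ, e ∈ S' → p.Prime ∧ M < p ∧ (p : ℤ) ∣ e.1 ∧ (p : ℤ) ∣ e.2 := by
    intro e
    by_cases he : e ∈ S'
    · rw [hS', mem_filter] at he
      obtain ⟨-, -, p, hp⟩ := hS e he.1
      exact ⟨p, fun _ => hp⟩
    · exact ⟨0, fun h => absurd h he⟩
  choose pp hpp using hch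
  have hpX : ∀ e ∈ S', (pp e : ℝ) ≤ X ^ 2 := by
    intro e he
    obtain ⟨h1, h2, h3, h4⟩ := hpp e he
    rw [hS', mem_filter] at he
    have h5 := Int.le_of_dvd (abs_pos.mpr he.2) ((dvd_abs _ _).mpr h3)
    have h6 : ((pp e : ℤ) : ℝ) ≤ ((|e.1| : ℤ) : ℝ) := by exact_mod_cast h5
    push_cast at h6
    exact h6.trans (hS e he.1).1
  have hmaps : ∀ e ∈ S', pp e ∈ Ioc M (max M ⌊X ^ 2⌋₊) := by
    intro e he
    obtain ⟨h1, h2, h3, h4⟩ := hpp e he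
    rw [mem_Ioc]
    exact ⟨h2, (Nat.le_floor (hpX e he)).trans (le_max_right _ _)⟩
  have hfib : ∀ p ∈ Ioc M (max M ⌊X ^ 2⌋₊), ((S'.filter (fun e => pp e = p)).card : ℝ) ≤
      9 * X ^ 5 * ((p : ℝ) ^ 2)⁻¹ := by
    intro p hp
    rw [mem_Ioc] at hp
    have hp0 : (0 : ℝ) < p := by
      have : 0 < p := by omega
      exact_mod_cast this
    rcases (S'.filter (fun e => pp e = p)).eq_empty_or_nonempty with h0 | ⟨e₀, he₀⟩
    · rw [h0]
      simp only [card_empty, Nat.cast_zero]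
      positivity
    have hpX2 : (p : ℝ) ≤ X ^ 2 := by
      rw [mem_filter] at he₀
      rw [← he₀.2]
      exact hpX _ he₀.1
    have hpX3 : (p : ℝ) ≤ X ^ 3 := hpX2.trans (pow_le_pow_right₀ hX (by norm_num))
    have hdv : ∀ e ∈ S'.filter (fun e => pp e = p), e.1 = p * (e.1 / p) ∧ e.2 = p * (e.2 / p) := by
      intro e he
      rw [mem_filter] at he
      obtain ⟨h1, h2, h3, h4⟩ := hpp e he.1
      rw [he.2] at h3 h4
      exact ⟨(Int.mul_ediv_cancel' h3).symm, (Int.mul_ediv_cancel' h4).symm⟩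
    have hinj : Set.InjOn (fun e : ℤ × ℤ => (e.1 / (p : ℤ), e.2 / (p : ℤ)))
        (S'.filter (fun e => pp e = p)) := by
      intro e he e' he' hee
      have h1 := hdv e (by exact_mod_cast he)
      have h2 := hdv e' (by exact_mod_cast he')
      simp only [Prod.mk.injEq] at hee
      refine Prod.ext ?_ ?_
      · rw [h1.1, h2.1, hee.1]
      · rw [h1.2, h2.2, hee.2]
    rw [← card_image_of_injOn hinj]
    have hsub : (S'.filter (fun e => pp e = p)).image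
        (fun e : ℤ × ℤ => (e.1 / (p : ℤ), e.2 / (p : ℤ))) ⊆
        Icc (-⌊X ^ 2 / p⌋) ⌊X ^ 2 / p⌋ ×ˢ Icc (-⌊X ^ 3 / p⌋) ⌊X ^ 3 / p⌋ := by
      intro u hu
      rw [mem_image] at hu
      obtain ⟨e, he, rfl⟩ := hu
      obtain ⟨h1, h2⟩ := hdv e he
      rw [mem_filter, hS', mem_filter] at he
      obtain ⟨h3, h4, -⟩ := hS e he.1.1
      rw [mem_product]
      refine ⟨mem_box ?_, mem_box ?_⟩
      · rw [le_div_iff₀ hp0]
        have h5 : (e.1 : ℝ) = p * ((e.1 / (p : ℤ) : ℤ) : ℝ) := by exact_mod_cast h1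
        rw [h5, abs_mul, abs_of_pos hp0] at h3
        linarith
      · rw [le_div_iff₀ hp0]
        have h5 : (e.2 : ℝ) = p * ((e.2 / (p : ℤ) : ℤ) : ℝ) := by exact_mod_cast h2
        rw [h5, abs_mul, abs_of_pos hp0] at h4
        linarith
    have h1 := card_le_card hsub
    rw [card_product] at h1
    have c1 := card_box (A := X ^ 2 / p) (by positivity)
    have c2 := card_box (A := X ^ 3 / p) (by positivity)
    have d1 : 1 ≤ X ^ 2 / p := by rw [le_div_iff₀ hp0]; linarith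
    have d2 : 1 ≤ X ^ 3 / p := by rw [le_div_iff₀ hp0]; linarith
    calc _ ≤ ((Icc (-⌊X ^ 2 / p⌋) ⌊X ^ 2 / p⌋).card : ℝ) *
          ((Icc (-⌊X ^ 3 / p⌋) ⌊X ^ 3 / p⌋).card : ℝ) := by exact_mod_cast h1
      _ ≤ (3 * (X ^ 2 / p)) * (3 * (X ^ 3 / p)) := by
          gcongr
          · linarith
          · linarith
      _ = 9 * X ^ 5 * ((p : ℝ) ^ 2)⁻¹ := by
          field_simp
          ring
  have a2 : (S'.card : ℝ) ≤ 9 * X ^ 5 / M := by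
    have h1 := card_eq_sum_card_fiberwise hmaps
    have h2 := sum_Ioc_inv_sq_le_sub (α := ℝ) (k := M) (n := max M ⌊X ^ 2⌋₊) (by omega)
      (le_max_left _ _)
    calc (S'.card : ℝ) = ∑ p ∈ Ioc M (max M ⌊X ^ 2⌋₊),
          ((S'.filter (fun e => pp e = p)).card : ℝ) := by exact_mod_cast h1
      _ ≤ ∑ p ∈ Ioc M (max M ⌊X ^ 2⌋₊), 9 * X ^ 5 * ((p : ℝ) ^ 2)⁻¹ := sum_le_sum hfib
      _ = 9 * X ^ 5 * ∑ p ∈ Ioc M (max M ⌊X ^ 2⌋₊), ((p : ℝ) ^ 2)⁻¹ := by rw [mul_sum]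
      _ ≤ 9 * X ^ 5 * (M : ℝ)⁻¹ := by
          have h3 : (0 : ℝ) ≤ ((max M ⌊X ^ 2⌋₊ : ℕ) : ℝ)⁻¹ := by positivity
          gcongr
          linarith
      _ = 9 * X ^ 5 / M := by rw [div_eq_mul_inv]
  have h3 : (S.card : ℝ) = ((S.filter (fun e => e.1 = 0)).card : ℝ) + (S'.card : ℝ) := by
    exact_mod_cast hsplit.symm
  rw [h3]
  linarith

/-- points on the cuspidal curve -/
theorem cusp_count {X : ℝ} (hX : 1 ≤ X) (S : Finset (ℤ × ℤ))
    (hS : ∀ e ∈ S, |(e.1 : ℝ)| ≤ X ^ 2 ∧ |(e.2 : ℝ)| ≤ X ^ 3 ∧ e.1 ^ 3 = e.2 ^ 2) :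
    (S.card : ℝ) ≤ 3 * X ^ 3 := by
  classical
  have hinj : Set.InjOn (fun e : ℤ × ℤ => e.2) S := by
    intro e he e' he' hee
    have h1 := (hS e he).2.2
    have h2 := (hS e' he').2.2
    have h3 : e.2 = e'.2 := hee
    rw [h3, ← h2] at h1
    exact Prod.ext ((Odd.strictMono_pow (by decide : Odd 3)).injective h1) h3
  rw [← card_image_of_injOn hinj]
  have hsub : S.image (fun e : ℤ × ℤ => e.2) ⊆ Icc (-⌊X ^ 3⌋) ⌊X ^ 3⌋ := by
    intro y hy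
    rw [mem_image] at hy
    obtain ⟨e, he, rfl⟩ := hy
    exact mem_box (hS e he).2.1
  have h1 := card_le_card hsub
  have h2 := card_box (A := X ^ 3) (by positivity)
  have h3 : (1 : ℝ) ≤ X ^ 3 := one_le_pow₀ hX
  calc _ ≤ ((Icc (-⌊X ^ 3⌋) ⌊X ^ 3⌋).card : ℝ) := by exact_mod_cast h1
    _ ≤ _ := by linarith

/-- the points of the box which satisfy the conditions for the primes up to `M` only -/
theorem box_bad : ∃ C : ℝ, 0 < C ∧ ∀ (X : ℝ) (m M : ℕ), 1 ≤ X → 1 ≤ m → m ≤ M →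
    ∀ S : Finset (ℤ × ℤ), (∀ e ∈ S, |(e.1 : ℝ)| ≤ X ^ 2 ∧ |(e.2 : ℝ)| ≤ X ^ 3 ∧
      Am m M e.1 e.2 ∧ ¬ Bm m e.1 e.2) →
    (S.card : ℝ) ≤ C * (X ^ 5 * (M : ℝ) ^ (-(1 / 4) : ℝ) + X ^ (19 / 4 : ℝ)) := by
  classical
  obtain ⟨C, hC, hb⟩ := box_index (1 / 4) (by norm_num) (by norm_num)
  refine ⟨C + 15, by positivity, ?_⟩
  intro X m M hX hm hM S hS
  have hX0 : 0 < X := by linarith
  have hM1 : (1 : ℝ) ≤ M := by exact_mod_cast hm.trans hM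
  have hM0 : (0 : ℝ) < M := by linarith
  set S₁ := S.filter (fun e => ∃ p : ℕ, p.Prime ∧ M < p ∧ (p : ℤ) ∣ e.1 ∧ (p : ℤ) ∣ e.2) with hS₁
  set S₂ := S.filter (fun e => ∃ D : ℤ, D ≠ 0 ∧ e.1 ^ 3 - e.2 ^ 2 = 1728 * D ∧ IsCoprime e.1 D ∧
      ∃ s d : ℕ, Dec D s d ∧ (M : ℝ) < d) with hS₂
  set S₃ := S.filter (fun e => e.1 ^ 3 = e.2 ^ 2) with hS₃
  have hsub : S ⊆ S₁ ∪ S₂ ∪ S₃ := by
    intro e he
    rw [mem_union, mem_union, hS₁, hS₂, hS₃, mem_filter, mem_filter, mem_filter]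
    obtain ⟨-, -, h3, h4⟩ := hS e he
    rcases Am_diff hm hM h3 h4 with h | h | h
    · exact Or.inl (Or.inl ⟨he, h⟩)
    · exact Or.inl (Or.inr ⟨he, h⟩)
    · exact Or.inr ⟨he, h⟩
  have b1 := common_prime hX (hm.trans hM) S₁ (by
    intro e he
    rw [hS₁, mem_filter] at he
    exact ⟨(hS e he.1).1, (hS e he.1).2.1, he.2⟩)
  have b2 := hb X M hX hM1 S₂ (by
    intro e he
    rw [hS₂, mem_filter] at he
    obtain ⟨he1, D, h1, h2, h3, h4⟩ := he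
    exact ⟨D, h1, h2, h3, h4, (hS e he1).1, (hS e he1).2.1⟩)
  have b3 := cusp_count hX S₃ (by
    intro e he
    rw [hS₃, mem_filter] at he
    exact ⟨(hS e he.1).1, (hS e he.1).2.1, he.2⟩)
  have h1 := (card_le_card hsub).trans ((card_union_le _ _).trans
    (Nat.add_le_add_right (card_union_le _ _) _))
  have h2 : (S.card : ℝ) ≤ S₁.card + S₂.card + S₃.card := by exact_mod_cast h1
  have e1 : (-(1 / 2) + 1 / 4 : ℝ) = -(1 / 4) := by norm_num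
  rw [e1] at b2
  have h3 : (1 : ℝ) / M ≤ (M : ℝ) ^ (-(1 / 4) : ℝ) := by
    rw [one_div, ← Real.rpow_neg_one]
    exact Real.rpow_le_rpow_of_exponent_le hM1 (by norm_num)
  have h4 : X ^ 3 ≤ X ^ (19 / 4 : ℝ) := by
    rw [← Real.rpow_natCast]
    exact Real.rpow_le_rpow_of_exponent_le hX (by norm_num)
  have h5 : 9 * X ^ 5 / M ≤ 9 * (X ^ 5 * (M : ℝ) ^ (-(1 / 4) : ℝ)) := by
    calc 9 * X ^ 5 / M = 9 * (X ^ 5 * (1 / M)) := by ring
      _ ≤ _ := by gcongr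
  have h6 : 0 ≤ X ^ 5 * (M : ℝ) ^ (-(1 / 4) : ℝ) := by positivity
  have h7 : 0 ≤ X ^ (19 / 4 : ℝ) := by positivity
  nlinarith

end Pool.Agent.L0h45.DH
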