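import Mathlib
import Pool.Agent.L0h45.DH.Bad
import Pool.Agent.L0h45.DH.Area2

/-!
# The number of the curves with a given index
-/

set_option autoImplicit false

namespace Pool.Agent.L0h45.DH

open Finset Filter Topology
open Pool.Agent.H785R2.ABC (rad)

theorem ht_box {H : ℝ} (hH : 0 ≤ H) (x y : ℝ) : (|x| ^ 3 ≤ H ∧ y ^ 2 ≤ H) ↔
    (|x| ≤ (H ^ (1 / 6 : ℝ)) ^ 2 ∧ |y| ≤ (H ^ (1 / 6 : ℝ)) ^ 3) := by
  set X : ℝ := H ^ (1 / 6 : ℝ) with hX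
  have hX0 : 0 ≤ X := by positivity
  have hX6 : X ^ 6 = H := by
    rw [hX, ← Real.rpow_natCast, ← Real.rpow_mul hH]
    norm_num
  have e1 : H = (X ^ 2) ^ 3 := by rw [← hX6]; ring
  have e2 : H = (X ^ 3) ^ 2 := by rw [← hX6]; ring
  constructor
  · rintro ⟨h1, h2⟩
    constructor
    · rw [e1] at h1
      exact (pow_le_pow_iff_left₀ (abs_nonneg _) (by positivity) three_ne_zero).mp h1
    · rw [e2, ← sq_abs] at h2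
      exact (pow_le_pow_iff_left₀ (abs_nonneg _) (by positivity) two_ne_zero).mp h2
  · rintro ⟨h1, h2⟩
    constructor
    · rw [e1]
      gcongr
    · rw [e2, ← sq_abs]
      gcongr

theorem box_fin (X : ℝ) {A : Set (ℤ × ℤ)} (h : ∀ e ∈ A, |(e.1 : ℝ)| ≤ X ^ 2 ∧ |(e.2 : ℝ)| ≤ X ^ 3) :
    A.Finite := by
  refine Set.Finite.subset (Finset.finite_toSet
    (Icc (-⌊X ^ 2⌋) ⌊X ^ 2⌋ ×ˢ Icc (-⌊X ^ 3⌋) ⌊X ^ 3⌋)) ?_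
  intro e he
  rw [Finset.mem_coe, mem_product]
  exact ⟨mem_box (h e he).1, mem_box (h e he).2⟩

/-- the semistable curves with index `m`, conductor at most `Z` and height at most `Z ^ β` -/
def EE (m : ℕ) (β Z : ℝ) : Set (ℤ × ℤ) :=
  {e | Bm m e.1 e.2 ∧ |(e.1 : ℝ) ^ 3 - (e.2 : ℝ) ^ 2| ≤ 1728 * m * Z ∧ |(e.1 : ℝ)| ^ 3 ≤ Z ^ β ∧
    (e.2 : ℝ) ^ 2 ≤ Z ^ β}

theorem EE_fin (m : ℕ) (β : ℝ) {Z : ℝ} (hZ : 0 ≤ Z) : (EE m β Z).Finite := by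
  refine box_fin ((Z ^ β) ^ (1 / 6 : ℝ)) ?_
  rintro e ⟨-, -, h1, h2⟩
  exact (ht_box (by positivity) _ _).mp ⟨h1, h2⟩

theorem Bm_data {m : ℕ} (hm : 1 ≤ m) {x y : ℤ} (h : Bm m x y) {Z : ℝ}
    (hZ : |(x : ℝ) ^ 3 - (y : ℝ) ^ 2| ≤ 1728 * m * Z) : ∃ D : ℤ, D ≠ 0 ∧
    x ^ 3 - y ^ 2 = 1728 * D ∧ IsCoprime x D ∧ (rad D.natAbs : ℝ) ≤ Z := by
  obtain ⟨-, D, h1, h2, h3, h4⟩ := h
  refine ⟨D, h1, h2, h3, ?_⟩
  have hreal : (x : ℝ) ^ 3 - (y : ℝ) ^ 2 = 1728 * (D : ℝ) := by exact_mod_cast h2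
  rw [hreal, abs_mul, abs_of_pos (by norm_num : (0 : ℝ) < 1728), ← natAbs_real] at hZ
  have h5 : ((D.natAbs : ℕ) : ℝ) = m * (rad D.natAbs : ℝ) := by exact_mod_cast h4
  rw [h5] at hZ
  have hm0 : (0 : ℝ) < m := by exact_mod_cast hm
  by_contra hcon
  push Not at hcon
  have : (m : ℝ) * Z < m * (rad D.natAbs : ℝ) := by gcongr
  nlinarith

theorem rpow_six (Z β : ℝ) (hZ : 0 ≤ Z) : Z ^ (β / 6) = (Z ^ β) ^ (1 / 6 : ℝ) := by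
  rw [← Real.rpow_mul hZ]
  congr 1
  ring

/-- the difference of the two counts -/
theorem approx_diff (m : ℕ) (hm : 1 ≤ m) (β : ℝ) (hβ1 : 1 < β) (hβ : β < 10 / 7) :
    ∃ η : ℝ, 0 < η ∧ ∃ C : ℝ, 0 < C ∧ ∀ (K Z : ℝ) (M : ℕ), 1 ≤ K → m ≤ M → 1 ≤ Z →
    K * Z ≤ Z ^ β → ∀ S : Finset (ℤ × ℤ),
    (∀ e, e ∈ S ↔ Am m M e.1 e.2 ∧ |(e.1 : ℝ) ^ 3 - (e.2 : ℝ) ^ 2| ≤ 1728 * m * Z ∧
      |(e.1 : ℝ)| ^ 3 ≤ K * Z ∧ (e.2 : ℝ) ^ 2 ≤ K * Z) →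
    |((EE m β Z).ncard : ℝ) - S.card| ≤ C * (K ^ (-(1 / 12) : ℝ) * Z ^ (5 / 6 : ℝ) +
      Z ^ (5 / 6 - η) + (K ^ (5 / 6 : ℝ) * (M : ℝ) ^ (-(1 / 4) : ℝ) * Z ^ (5 / 6 : ℝ) +
      (K * Z) ^ (19 / 24 : ℝ))) := by
  classical
  obtain ⟨η, hη, C₁, hC₁, ht⟩ := tail_height β (1 / 12) hβ1.le hβ (by norm_num) (by norm_num)
  obtain ⟨C₂, hC₂, hb⟩ := box_bad
  refine ⟨η, hη, C₁ + C₂, by positivity, ?_⟩
  intro K Z M hK hM hZ hKZβ S hS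
  have hZ0 : 0 < Z := by linarith
  have hK0 : 0 < K := by linarith
  have hKZ0 : 0 < K * Z := by positivity
  have hKZ1 : 1 ≤ K * Z := by nlinarith
  have hfin := EE_fin m β hZ0.le
  set T : Finset (ℤ × ℤ) := hfin.toFinset with hT
  have hTm : ∀ e, e ∈ T ↔ e ∈ EE m β Z := fun e => hfin.mem_toFinset
  rw [Set.ncard_eq_toFinset_card _ hfin]
  set X : ℝ := (K * Z) ^ (1 / 6 : ℝ) with hX
  have hX1 : 1 ≤ X := Real.one_le_rpow hKZ1 (by norm_num)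
  have hX0 : 0 < X := by linarith
  have a1 := ht Z K hZ hK (T \ S) (by
    intro e he
    rw [Finset.mem_sdiff, hTm] at he
    obtain ⟨⟨h1, h2, h3, h4⟩, h5⟩ := he
    refine ⟨Bm_data hm h1 h2, ?_⟩
    obtain ⟨b1, b2⟩ := (ht_box (by positivity) _ _).mp ⟨h3, h4⟩
    rw [rpow_six Z β hZ0.le]
    refine ⟨b1, b2, ?_⟩
    intro h6
    apply h5
    rw [hS]
    obtain ⟨b3, b4⟩ := (ht_box hKZ0.le _ _).mpr h6
    exact ⟨Bm_Am h1, h2, b3, b4⟩)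
  have a2 := hb X m M hX1 hm hM (S \ T) (by
    intro e he
    rw [Finset.mem_sdiff, hTm, hS] at he
    obtain ⟨⟨h1, h2, h3, h4⟩, h5⟩ := he
    obtain ⟨b1, b2⟩ := (ht_box hKZ0.le _ _).mp ⟨h3, h4⟩
    refine ⟨b1, b2, h1, ?_⟩
    intro h6
    exact h5 ⟨h6, h2, h3.trans hKZβ, h4.trans hKZβ⟩)
  have hX5 : X ^ 5 = K ^ (5 / 6 : ℝ) * Z ^ (5 / 6 : ℝ) := by
    rw [hX, ← Real.rpow_natCast, ← Real.rpow_mul hKZ0.le, Real.mul_rpow hK0.le hZ0.le]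
    norm_num
  have hX19 : X ^ (19 / 4 : ℝ) = (K * Z) ^ (19 / 24 : ℝ) := by
    rw [hX, ← Real.rpow_mul hKZ0.le]
    norm_num
  rw [hX5, hX19] at a2
  have h1 : (T.card : ℝ) - S.card = ((T \ S).card : ℝ) - ((S \ T).card : ℝ) := by
    have e1 := card_sdiff_add_card_inter T S
    have e2 := card_sdiff_add_card_inter S T
    rw [inter_comm] at e2
    have e3 : ((T \ S).card : ℝ) + ((T ∩ S).card : ℝ) = T.card := by exact_mod_cast e1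
    have e4 : ((S \ T).card : ℝ) + ((T ∩ S).card : ℝ) = S.card := by exact_mod_cast e2
    linarith
  rw [h1]
  have p1 : 0 ≤ K ^ (-(1 / 12) : ℝ) * Z ^ (5 / 6 : ℝ) + Z ^ (5 / 6 - η) := by positivity
  have p2 : 0 ≤ K ^ (5 / 6 : ℝ) * (M : ℝ) ^ (-(1 / 4) : ℝ) * Z ^ (5 / 6 : ℝ) +
      (K * Z) ^ (19 / 24 : ℝ) := by positivity
  have e5 : K ^ (5 / 6 : ℝ) * Z ^ (5 / 6 : ℝ) * (M : ℝ) ^ (-(1 / 4) : ℝ) =
      K ^ (5 / 6 : ℝ) * (M : ℝ) ^ (-(1 / 4) : ℝ) * Z ^ (5 / 6 : ℝ) := by ring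
  rw [e5] at a2
  have q1 : (0 : ℝ) ≤ ((T \ S).card : ℝ) := by positivity
  have q2 : (0 : ℝ) ≤ ((S \ T).card : ℝ) := by positivity
  have r1 := mul_nonneg hC₁.le p2
  have r2 := mul_nonneg hC₂.le p1
  rw [abs_le]
  constructor <;> nlinarith

/-- **The number of the curves with index `m`, up to a small error.** -/
theorem approx_m (m : ℕ) (hm : 1 ≤ m) (β : ℝ) (hβ1 : 1 < β) (hβ : β < 10 / 7) :
    ∃ C : ℝ, 0 < C ∧ ∀ (K : ℝ) (M : ℕ), 1 ≤ K → m ≤ M → ∀ᶠ Z : ℝ in atTop,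
    |((EE m β Z).ncard : ℝ) / Z ^ (5 / 6 : ℝ) - dens (Am m M) (QQ m M) * vol (1728 * m) K| ≤
      C * (K ^ (-(1 / 12) : ℝ) + K ^ (5 / 6 : ℝ) * (M : ℝ) ^ (-(1 / 4) : ℝ)) := by
  classical
  obtain ⟨η, hη, C, hC, h⟩ := approx_diff m hm β hβ1 hβ
  refine ⟨C + 1, by positivity, ?_⟩
  intro K M hK hM
  have hK0 : 0 < K := by linarith
  obtain ⟨C₃, hC₃, hr⟩ := region_count (P := Am m M) (Q := QQ m M) (QQ_pos m M)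
    (fun x y => (Am_per m M x y).1) (fun x y => (Am_per m M x y).2) (a := 1728 * m) (K := K)
    (by positivity) hK0.le
  -- the error terms
  have t1 : Tendsto (fun Z : ℝ => C * Z ^ (-η) + C * K ^ (19 / 24 : ℝ) * Z ^ (-(1 / 24) : ℝ) +
      C₃ * Z ^ (-(1 / 3) : ℝ)) atTop (𝓝 (C * 0 + C * K ^ (19 / 24 : ℝ) * 0 + C₃ * 0)) :=
    (((tendsto_rpow_neg_atTop hη).const_mul _).add
      ((tendsto_rpow_neg_atTop (by norm_num)).const_mul _)).add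
      ((tendsto_rpow_neg_atTop (by norm_num)).const_mul _)
  rw [mul_zero, mul_zero, mul_zero, add_zero, add_zero] at t1
  have hKpos : 0 < K ^ (-(1 / 12) : ℝ) := by positivity
  have e1 := t1.eventually (gt_mem_nhds hKpos)
  have t2 := (tendsto_rpow_atTop (show 0 < β - 1 by linarith)).eventually (eventually_ge_atTop K)
  filter_upwards [e1, t2, eventually_ge_atTop (1 : ℝ)] with Z h1 h2 hZ
  have hZ0 : 0 < Z := by linarith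
  have hKZ0 : 0 < K * Z := by positivity
  have hKZβ : K * Z ≤ Z ^ β := by
    calc K * Z ≤ Z ^ (β - 1) * Z := by gcongr
      _ = Z ^ β := by
        rw [Real.rpow_sub_one hZ0.ne']
        field_simp
  have hfinS : {e : ℤ × ℤ | Am m M e.1 e.2 ∧ |(e.1 : ℝ) ^ 3 - (e.2 : ℝ) ^ 2| ≤ 1728 * m * Z ∧
      |(e.1 : ℝ)| ^ 3 ≤ K * Z ∧ (e.2 : ℝ) ^ 2 ≤ K * Z}.Finite := by
    refine box_fin ((K * Z) ^ (1 / 6 : ℝ)) ?_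
    rintro e ⟨-, -, h3, h4⟩
    exact (ht_box hKZ0.le _ _).mp ⟨h3, h4⟩
  set S : Finset (ℤ × ℤ) := hfinS.toFinset with hS
  have hSm : ∀ e, e ∈ S ↔ Am m M e.1 e.2 ∧ |(e.1 : ℝ) ^ 3 - (e.2 : ℝ) ^ 2| ≤ 1728 * m * Z ∧
      |(e.1 : ℝ)| ^ 3 ≤ K * Z ∧ (e.2 : ℝ) ^ 2 ≤ K * Z := fun e => hfinS.mem_toFinset
  have a1 := h K Z M hK hM hZ hKZβ S hSm
  have a2 := hr Z hZ S hSm
  set V : ℝ := dens (Am m M) (QQ m M) * vol (1728 * m) K with hV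
  have hW : 0 < Z ^ (5 / 6 : ℝ) := by positivity
  have a3 : |((EE m β Z).ncard : ℝ) - V * Z ^ (5 / 6 : ℝ)| ≤
      C * (K ^ (-(1 / 12) : ℝ) * Z ^ (5 / 6 : ℝ) +
      Z ^ (5 / 6 - η) + (K ^ (5 / 6 : ℝ) * (M : ℝ) ^ (-(1 / 4) : ℝ) * Z ^ (5 / 6 : ℝ) +
      (K * Z) ^ (19 / 24 : ℝ))) + C₃ * Z ^ (1 / 2 : ℝ) := by
    have := abs_sub_le ((EE m β Z).ncard : ℝ) (S.card : ℝ) (V * Z ^ (5 / 6 : ℝ))
    linarith
  have e2 : ((EE m β Z).ncard : ℝ) / Z ^ (5 / 6 : ℝ) - V =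
      (((EE m β Z).ncard : ℝ) - V * Z ^ (5 / 6 : ℝ)) / Z ^ (5 / 6 : ℝ) := by
    field_simp
  rw [e2, abs_div, abs_of_pos hW, div_le_iff₀ hW]
  refine a3.trans ?_
  have f1 : Z ^ (5 / 6 - η) = Z ^ (-η) * Z ^ (5 / 6 : ℝ) := by
    rw [← Real.rpow_add hZ0]
    congr 1
    ring
  have f2 : (K * Z) ^ (19 / 24 : ℝ) = K ^ (19 / 24 : ℝ) * Z ^ (-(1 / 24) : ℝ) * Z ^ (5 / 6 : ℝ) := by
    rw [Real.mul_rpow hK0.le hZ0.le, mul_assoc, ← Real.rpow_add hZ0]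
    norm_num
  have f3 : Z ^ (1 / 2 : ℝ) = Z ^ (-(1 / 3) : ℝ) * Z ^ (5 / 6 : ℝ) := by
    rw [← Real.rpow_add hZ0]
    norm_num
  rw [f1, f2, f3]
  have h3 := mul_le_mul_of_nonneg_right h1.le hW.le
  have h4 : 0 ≤ K ^ (5 / 6 : ℝ) * (M : ℝ) ^ (-(1 / 4) : ℝ) * Z ^ (5 / 6 : ℝ) := by positivity
  have e3 : (C + 1) * (K ^ (-(1 / 12) : ℝ) + K ^ (5 / 6 : ℝ) * (M : ℝ) ^ (-(1 / 4) : ℝ)) *
      Z ^ (5 / 6 : ℝ) = C * (K ^ (-(1 / 12) : ℝ) * Z ^ (5 / 6 : ℝ)) +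
      C * (K ^ (5 / 6 : ℝ) * (M : ℝ) ^ (-(1 / 4) : ℝ) * Z ^ (5 / 6 : ℝ)) +
      K ^ (-(1 / 12) : ℝ) * Z ^ (5 / 6 : ℝ) +
      K ^ (5 / 6 : ℝ) * (M : ℝ) ^ (-(1 / 4) : ℝ) * Z ^ (5 / 6 : ℝ) := by ring
  rw [e3]
  linarith

end Pool.Agent.L0h45.DH
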