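import Mathlib
import Pool.Agent.L0h45.DH.Area2

/-!
# Limits
-/

set_option autoImplicit false

namespace Pool.Agent.L0h45.DH

open Finset Filter Topology MeasureTheory

theorem lim_of_approx {f : ℝ → ℝ} (h : ∀ δ : ℝ, 0 < δ → ∃ c : ℝ, ∀ᶠ Z in atTop, |f Z - c| ≤ δ) :
    ∃ κ : ℝ, Tendsto f atTop (𝓝 κ) := by
  have h1 : CauchySeq f := by
    rw [Metric.cauchySeq_iff']
    intro ε hε
    obtain ⟨c, hc⟩ := h (ε / 3) (by positivity)
    obtain ⟨N, hN⟩ := eventually_atTop.1 hc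
    refine ⟨N, fun n hn => ?_⟩
    rw [Real.dist_eq]
    have a1 := hN n hn
    have a2 := hN N le_rfl
    rw [abs_sub_comm] at a2
    have := abs_sub_le (f n) c (f N)
    linarith
  exact cauchySeq_tendsto_of_complete h1

/-- sums over the index -/
theorem lim_sum {f : ℝ → ℝ} {g : ℕ → ℝ → ℝ} {κ : ℕ → ℝ} (hκ : ∀ m, 0 ≤ κ m)
    (hg : ∀ m, Tendsto (g m) atTop (𝓝 (κ m)))
    (h : ∀ δ : ℝ, 0 < δ → ∃ D₀ : ℕ, ∀ D ≥ D₀, ∀ᶠ Z in atTop,
      |f Z - ∑ m ∈ range D, g m Z| ≤ δ) :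
    Summable κ ∧ Tendsto f atTop (𝓝 (∑' m, κ m)) := by
  have hs : ∀ D, Tendsto (fun Z => ∑ m ∈ range D, g m Z) atTop (𝓝 (∑ m ∈ range D, κ m)) :=
    fun D => tendsto_finsetSum _ fun m _ => hg m
  -- `f` is within `2 δ` of the partial sums
  have h2 : ∀ δ : ℝ, 0 < δ → ∃ D₀ : ℕ, ∀ D ≥ D₀, ∀ᶠ Z in atTop,
      |f Z - ∑ m ∈ range D, κ m| ≤ 2 * δ := by
    intro δ hδ
    obtain ⟨D₀, hD₀⟩ := h δ hδ
    refine ⟨D₀, fun D hD => ?_⟩
    have h3 := (Metric.tendsto_nhds.mp (hs D)) δ hδ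
    filter_upwards [hD₀ D hD, h3] with Z a1 a2
    rw [Real.dist_eq] at a2
    have := abs_sub_le (f Z) (∑ m ∈ range D, g m Z) (∑ m ∈ range D, κ m)
    linarith
  obtain ⟨L, hL⟩ : ∃ L, Tendsto f atTop (𝓝 L) := lim_of_approx fun δ hδ => by
    obtain ⟨D₀, hD₀⟩ := h2 (δ / 2) (by positivity)
    refine ⟨∑ m ∈ range D₀, κ m, ?_⟩
    filter_upwards [hD₀ D₀ le_rfl] with Z hZ
    linarith
  have h4 : Tendsto (fun D => ∑ m ∈ range D, κ m) atTop (𝓝 L) := by
    rw [Metric.tendsto_atTop]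
    intro ε hε
    obtain ⟨D₀, hD₀⟩ := h2 (ε / 4) (by positivity)
    refine ⟨D₀, fun D hD => ?_⟩
    have h5 : |L - ∑ m ∈ range D, κ m| ≤ 2 * (ε / 4) := by
      have h6 : Tendsto (fun Z => |f Z - ∑ m ∈ range D, κ m|) atTop
          (𝓝 |L - ∑ m ∈ range D, κ m|) := (hL.sub_const _).abs
      exact le_of_tendsto h6 (hD₀ D hD)
    rw [Real.dist_eq, abs_sub_comm]
    linarith
  have h5 : HasSum κ L := (hasSum_iff_tendsto_nat_of_nonneg hκ L).mpr h4
  refine ⟨h5.summable, ?_⟩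
  rw [h5.tsum_eq]
  exact hL

/-- the length of the slice at `t` of the region `|t³ - y²| ≤ a`, halved -/
noncomputable def ff (a t : ℝ) : ℝ := √(max (t ^ 3 + a) 0) - √(max (t ^ 3 - a) 0)

theorem ff_nonneg {a : ℝ} (ha : 0 ≤ a) (t : ℝ) : 0 ≤ ff a t := by
  unfold ff
  have : √(max (t ^ 3 - a) 0) ≤ √(max (t ^ 3 + a) 0) :=
    Real.sqrt_le_sqrt (max_le_max (by linarith) le_rfl)
  linarith

theorem ff_cont (a : ℝ) : Continuous (ff a) := by
  unfold ff
  fun_prop

theorem ff_neg {a t : ℝ} (ha : 0 ≤ a) (ht : t ^ 3 ≤ -a) : ff a t = 0 := by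
  unfold ff
  rw [max_eq_right (by linarith), max_eq_right (by linarith)]
  simp

theorem ff_large {a t : ℝ} (ha : 0 ≤ a) (ht : 0 < t) (h : a ≤ t ^ 3) :
    ff a t ≤ 2 * a * t ^ (-(3 / 2) : ℝ) := by
  have ht3 : 0 < t ^ 3 := by positivity
  unfold ff
  rw [max_eq_left (by linarith), max_eq_left (by linarith)]
  have h1 : 0 < √(t ^ 3 + a) := Real.sqrt_pos.mpr (by linarith)
  have h2 : 0 ≤ √(t ^ 3 - a) := Real.sqrt_nonneg _
  have h3 : √(t ^ 3) ≤ √(t ^ 3 + a) := Real.sqrt_le_sqrt (by linarith)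
  have h4 : 0 < √(t ^ 3) := Real.sqrt_pos.mpr ht3
  have h5 : (√(t ^ 3 + a) - √(t ^ 3 - a)) * (√(t ^ 3 + a) + √(t ^ 3 - a)) = 2 * a := by
    have e1 := Real.mul_self_sqrt (show 0 ≤ t ^ 3 + a by linarith)
    have e2 := Real.mul_self_sqrt (show 0 ≤ t ^ 3 - a by linarith)
    linear_combination e1 - e2
  have h6 : t ^ (-(3 / 2) : ℝ) = 1 / √(t ^ 3) := by
    rw [Real.sqrt_eq_rpow, ← Real.rpow_natCast, ← Real.rpow_mul ht.le, Real.rpow_neg ht.le, one_div]
    norm_num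
  rw [h6, mul_one_div, le_div_iff₀ h4]
  have h7 : 0 ≤ √(t ^ 3 + a) - √(t ^ 3 - a) := by
    have := Real.sqrt_le_sqrt (show t ^ 3 - a ≤ t ^ 3 + a by linarith)
    linarith
  calc (√(t ^ 3 + a) - √(t ^ 3 - a)) * √(t ^ 3) ≤
        (√(t ^ 3 + a) - √(t ^ 3 - a)) * (√(t ^ 3 + a) + √(t ^ 3 - a)) := by
        gcongr
        linarith
    _ = 2 * a := h5

theorem ff_int {a : ℝ} (ha : 0 ≤ a) : Integrable (ff a) := by
  set b : ℝ := 1 + a with hb
  have hb1 : 1 ≤ b := by linarith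
  have hb3 : a ≤ b ^ 3 := by
    have : b ≤ b ^ 3 := le_self_pow₀ hb1 (by norm_num)
    linarith
  have h1 : IntegrableOn (ff a) (Set.Iic (-b)) := by
    refine (integrableOn_zero : IntegrableOn (fun _ : ℝ => (0 : ℝ)) (Set.Iic (-b))
      volume).congr_fun ?_ measurableSet_Iic
    intro t ht
    have ht' : t ≤ -b := ht
    symm
    refine ff_neg ha ?_
    have h2 : t ^ 3 ≤ (-b) ^ 3 := cube_mono ht'
    have h3 : (-b) ^ 3 = -b ^ 3 := by ring
    linarith
  have h2 : IntegrableOn (ff a) (Set.Ioc (-b) b) :=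
    ((ff_cont a).integrableOn_Icc).mono_set Set.Ioc_subset_Icc_self
  have h3 : IntegrableOn (ff a) (Set.Ioi b) := by
    have h4 : IntegrableOn (fun t : ℝ => 2 * a * t ^ (-(3 / 2) : ℝ)) (Set.Ioi b) :=
      (integrableOn_Ioi_rpow_of_lt (by norm_num) (by linarith)).const_mul _
    refine h4.mono' (ff_cont a).aestronglyMeasurable ?_
    refine (ae_restrict_mem measurableSet_Ioi).mono fun t ht => ?_
    have ht' : b < t := ht
    rw [Real.norm_of_nonneg (ff_nonneg ha t)]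
    refine ff_large ha (by linarith) (hb3.trans ?_)
    exact cube_mono ht'.le
  have h4 : (Set.univ : Set ℝ) = Set.Iic (-b) ∪ Set.Ioc (-b) b ∪ Set.Ioi b := by
    rw [Set.Iic_union_Ioc_eq_Iic (by linarith), Set.Iic_union_Ioi]
  rw [← integrableOn_univ, h4]
  exact (h1.union h2).union h3

/-- the area of the region `|x³ - y²| ≤ a` -/
noncomputable def VV (a : ℝ) : ℝ := 2 * ∫ t, ff a t

theorem VV_scale {a : ℝ} (ha : 0 < a) : VV a = a ^ (5 / 6 : ℝ) * VV 1 := by
  set c : ℝ := a ^ (1 / 3 : ℝ) with hc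
  have hc0 : 0 < c := by positivity
  have h1 := Measure.integral_comp_mul_left (fun t => ff a t) c
  have h2 : ∀ u : ℝ, ff a (c * u) = √a * ff 1 u := by
    intro u
    unfold ff
    have h1 : (c * u) ^ 3 = a * u ^ 3 := by
      rw [mul_pow, hc, ← Real.rpow_natCast, ← Real.rpow_mul ha.le]
      norm_num
    rw [h1, mul_sub, ← Real.sqrt_mul ha.le, ← Real.sqrt_mul ha.le]
    congr 2
    · have e1 : a * u ^ 3 + a = a * (u ^ 3 + 1) := by ring
      rw [e1]
      conv_lhs => rw [show (0 : ℝ) = a * 0 by ring]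
      rw [← mul_max_of_nonneg _ _ ha.le]
    · have e1 : a * u ^ 3 - a = a * (u ^ 3 - 1) := by ring
      rw [e1]
      conv_lhs => rw [show (0 : ℝ) = a * 0 by ring]
      rw [← mul_max_of_nonneg _ _ ha.le]
  simp only [h2] at h1
  rw [integral_const_mul, smul_eq_mul, abs_of_pos (by positivity : 0 < c⁻¹)] at h1
  unfold VV
  have h3 : ∫ t, ff a t = c * (√a * ∫ t, ff 1 t) := by
    rw [h1]
    field_simp
  rw [h3]
  have h6 : a ^ (5 / 6 : ℝ) = c * √a := by
    rw [hc, Real.sqrt_eq_rpow, ← Real.rpow_add ha]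
    norm_num
  rw [h6]
  ring

/-- the areas of the truncated regions converge -/
theorem vol_lim {a : ℝ} (ha : 0 ≤ a) : Tendsto (fun K : ℝ => vol a K) atTop (𝓝 (VV a)) := by
  unfold vol VV
  refine Tendsto.const_mul _ ?_
  have h1 : ∀ K : ℝ, 0 ≤ K → ∫ t in (-(K ^ (1 / 3 : ℝ)))..(K ^ (1 / 3 : ℝ)), (fA a K 1 t - fB a 1 t) =
      ∫ t, (Set.Ioc (-(K ^ (1 / 3 : ℝ))) (K ^ (1 / 3 : ℝ))).indicator
        (fun t => fA a K 1 t - fB a 1 t) t := by
    intro K hK
    have h0 : 0 ≤ K ^ (1 / 3 : ℝ) := by positivity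
    rw [intervalIntegral.integral_of_le (by linarith), integral_indicator measurableSet_Ioc]
  have h2 : Tendsto (fun K : ℝ => ∫ t, (Set.Ioc (-(K ^ (1 / 3 : ℝ))) (K ^ (1 / 3 : ℝ))).indicator
        (fun t => fA a K 1 t - fB a 1 t) t) atTop (𝓝 (∫ t, ff a t)) := by
    refine tendsto_integral_filter_of_dominated_convergence (ff a) ?_ ?_ (ff_int ha) ?_
    · refine Eventually.of_forall fun K => ?_
      refine AEStronglyMeasurable.indicator ?_ measurableSet_Ioc
      exact ((fA_mono a K 1).measurable.sub (fB_mono a 1).measurable).aestronglyMeasurable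
    · filter_upwards [eventually_ge_atTop (0 : ℝ)] with K hK
      refine Eventually.of_forall fun t => ?_
      rw [Set.indicator_apply]
      split_ifs with ht
      · have h3 : t ^ 3 ≤ K * 1 := by
          have h4 : t ^ 3 ≤ (K ^ (1 / 3 : ℝ)) ^ 3 := cube_mono ht.2
          rw [← Real.rpow_natCast (K ^ (1 / 3 : ℝ)), ← Real.rpow_mul hK] at h4
          norm_num at h4
          linarith
        have h4 := fB_le_fA (a := a) (T := 1) (by linarith) h3
        rw [Real.norm_of_nonneg (by linarith)]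
        unfold fA fB ff
        rw [mul_one]
        have h5 : √(max (min (t ^ 3 + a) (K * 1)) 0) ≤ √(max (t ^ 3 + a) 0) :=
          Real.sqrt_le_sqrt (max_le_max (min_le_left _ _) le_rfl)
        linarith
      · rw [norm_zero]
        exact ff_nonneg ha t
    · refine Eventually.of_forall fun t => ?_
      refine tendsto_nhds_of_eventually_eq ?_
      have t1 : Tendsto (fun K : ℝ => K ^ (1 / 3 : ℝ)) atTop atTop :=
        tendsto_rpow_atTop (by norm_num)
      filter_upwards [t1.eventually (eventually_gt_atTop |t|), eventually_ge_atTop (t ^ 3 + a)]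
        with K hK1 hK2
      rw [abs_lt] at hK1
      have hmem : t ∈ Set.Ioc (-(K ^ (1 / 3 : ℝ))) (K ^ (1 / 3 : ℝ)) :=
        Set.mem_Ioc.mpr ⟨by linarith [hK1.1], by linarith [hK1.2]⟩
      rw [Set.indicator_of_mem hmem]
      unfold fA fB ff
      rw [mul_one, mul_one, min_eq_left hK2]
  refine (h2.congr' ?_)
  filter_upwards [eventually_ge_atTop (0 : ℝ)] with K hK
  exact (h1 K hK).symm

theorem VV_pos {a : ℝ} (ha : 0 < a) : 0 < VV a := by
  have h1 : 0 < ∫ t, ff a t := by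
    refine integral_pos_of_integrable_nonneg_nonzero (ff_cont a) (ff_int ha.le)
      (fun t => ff_nonneg ha.le t) (x := 0) ?_
    unfold ff
    rw [max_eq_left (by norm_num; linarith), max_eq_right (by norm_num; linarith)]
    simp only [ne_eq, OfNat.ofNat_ne_zero, not_false_eq_true, zero_pow, zero_add, Real.sqrt_zero,
      sub_zero]
    exact (Real.sqrt_pos.mpr ha).ne'
  unfold VV
  linarith

/-- the truncated region is the whole box for `a = 2`, `K = 1` -/
theorem vol_box : vol 2 1 = 4 := by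
  unfold vol
  rw [Real.one_rpow]
  have h1 : ∫ t in (-1 : ℝ)..1, (fA 2 1 1 t - fB 2 1 t) = ∫ t in (-1 : ℝ)..1, (1 : ℝ) := by
    refine intervalIntegral.integral_congr fun t ht => ?_
    rw [Set.uIcc_of_le (by norm_num)] at ht
    have h2 : t ^ 3 ≤ 1 := by
      have := cube_mono ht.2
      simpa using this
    have h3 : -1 ≤ t ^ 3 := by
      have h4 : (-1 : ℝ) ^ 3 ≤ t ^ 3 := cube_mono ht.1
      norm_num at h4
      exact h4
    unfold fA fB
    rw [min_eq_right (by linarith), max_eq_left (by norm_num), max_eq_right (by linarith)]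
    simp
  rw [h1, intervalIntegral.integral_const]
  norm_num

end Pool.Agent.L0h45.DH
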