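import Mathlib
import Pool.Agent.L0h45.DH.Asy
import Pool.Agent.L0h45.DH.Lim

/-!
# The law of the index
-/

set_option autoImplicit false

namespace Pool.Agent.L0h45.DH

open Finset Filter Topology
open Pool.Agent.H785R2.ABC (rad)

/-- the semistable curves of index `m` in the box -/
def NB (m : ℕ) (X : ℝ) : Set (ℤ × ℤ) :=
  {e | Bm m e.1 e.2 ∧ |(e.1 : ℝ)| ≤ X ^ 2 ∧ |(e.2 : ℝ)| ≤ X ^ 3}

theorem dens_nonneg (P : ℤ → ℤ → Prop) (Q : ℕ) : 0 ≤ dens P Q := by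
  unfold dens
  have : 0 ≤ ∑ j ∈ range Q, rr P Q (j : ℤ) := sum_nonneg fun _ _ => rr_nonneg P Q _
  positivity

theorem dens_le_one (P : ℤ → ℤ → Prop) {Q : ℕ} (hQ : 0 < Q) : dens P Q ≤ 1 := by
  have hQ0 : (0 : ℝ) < Q := by exact_mod_cast hQ
  unfold dens
  rw [div_le_one (by positivity)]
  calc _ ≤ ∑ j ∈ range Q, (Q : ℝ) := sum_le_sum fun _ _ => rr_le P Q _
    _ = (Q : ℝ) ^ 2 := by rw [sum_const, card_range, nsmul_eq_mul]; ring

/-- the count in the box, up to a small error -/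
theorem box_approx (m : ℕ) (hm : 1 ≤ m) : ∃ C : ℝ, 0 < C ∧ ∀ M : ℕ, m ≤ M →
    ∀ᶠ X : ℝ in atTop, |((NB m X).ncard : ℝ) / (4 * X ^ 5) - dens (Am m M) (QQ m M)| ≤
      C * (M : ℝ) ^ (-(1 / 4) : ℝ) := by
  classical
  obtain ⟨C₂, hC₂, hb⟩ := box_bad
  refine ⟨C₂, hC₂, ?_⟩
  intro M hM
  have hM0 : (0 : ℝ) < M := by exact_mod_cast (show 0 < M by omega)
  obtain ⟨C₃, hC₃, hr⟩ := region_count (P := Am m M) (Q := QQ m M) (QQ_pos m M)
    (fun x y => (Am_per m M x y).1) (fun x y => (Am_per m M x y).2) (a := 2) (K := 1)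
    (by norm_num) (by norm_num)
  have t1 : Tendsto (fun X : ℝ => C₂ * X ^ (-(1 / 4) : ℝ) + C₃ * X ^ (-2 : ℝ)) atTop
      (𝓝 (C₂ * 0 + C₃ * 0)) :=
    ((tendsto_rpow_neg_atTop (by norm_num)).const_mul _).add
      ((tendsto_rpow_neg_atTop (by norm_num)).const_mul _)
  rw [mul_zero, mul_zero, add_zero] at t1
  have hpos : 0 < C₂ * (M : ℝ) ^ (-(1 / 4) : ℝ) := by positivity
  filter_upwards [t1.eventually (gt_mem_nhds hpos), eventually_ge_atTop (1 : ℝ)] with X h1 hX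
  have hX0 : 0 < X := by linarith
  have hfinN : (NB m X).Finite := box_fin X fun e he => he.2
  have hconv : ∀ x y : ℝ, (|x| ^ 3 ≤ 1 * X ^ 6 ∧ y ^ 2 ≤ 1 * X ^ 6) ↔ (|x| ≤ X ^ 2 ∧ |y| ≤ X ^ 3) := by
    intro x y
    have h := ht_box (H := 1 * X ^ 6) (by positivity) x y
    have e1 : (1 * X ^ 6) ^ (1 / 6 : ℝ) = X := by
      rw [one_mul, ← Real.rpow_natCast, ← Real.rpow_mul hX0.le]
      norm_num
    rw [e1] at h
    exact h
  have hfinS : {e : ℤ × ℤ | Am m M e.1 e.2 ∧ |(e.1 : ℝ) ^ 3 - (e.2 : ℝ) ^ 2| ≤ 2 * X ^ 6 ∧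
      |(e.1 : ℝ)| ^ 3 ≤ 1 * X ^ 6 ∧ (e.2 : ℝ) ^ 2 ≤ 1 * X ^ 6}.Finite := by
    refine box_fin X ?_
    rintro e ⟨-, -, h3, h4⟩
    exact (hconv _ _).mp ⟨h3, h4⟩
  set S : Finset (ℤ × ℤ) := hfinS.toFinset with hS
  have hSm : ∀ e, e ∈ S ↔ Am m M e.1 e.2 ∧ |(e.1 : ℝ) ^ 3 - (e.2 : ℝ) ^ 2| ≤ 2 * X ^ 6 ∧
      |(e.1 : ℝ)| ^ 3 ≤ 1 * X ^ 6 ∧ (e.2 : ℝ) ^ 2 ≤ 1 * X ^ 6 := fun e => hfinS.mem_toFinset
  have a2 := hr (X ^ 6) (one_le_pow₀ hX) S hSm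
  have e1 : (X ^ 6) ^ (5 / 6 : ℝ) = X ^ 5 := by
    rw [← Real.rpow_natCast, ← Real.rpow_mul hX0.le, ← Real.rpow_natCast]
    norm_num
  have e2 : (X ^ 6) ^ (1 / 2 : ℝ) = X ^ 3 := by
    rw [← Real.rpow_natCast, ← Real.rpow_mul hX0.le, ← Real.rpow_natCast]
    norm_num
  rw [e1, e2, vol_box] at a2
  set T : Finset (ℤ × ℤ) := hfinN.toFinset with hT
  have hTm : ∀ e, e ∈ T ↔ e ∈ NB m X := fun e => hfinN.mem_toFinset
  rw [Set.ncard_eq_toFinset_card _ hfinN]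
  have hTS : T ⊆ S := by
    intro e he
    rw [hTm] at he
    obtain ⟨h3, h4, h5⟩ := he
    rw [hSm]
    obtain ⟨h6, h7⟩ := (hconv _ _).mpr ⟨h4, h5⟩
    refine ⟨Bm_Am h3, ?_, h6, h7⟩
    have h8 := abs_sub ((e.1 : ℝ) ^ 3) ((e.2 : ℝ) ^ 2)
    rw [abs_pow, abs_pow, sq_abs] at h8
    linarith
  have a3 := hb X m M hX hm hM (S \ T) (by
    intro e he
    rw [Finset.mem_sdiff, hTm, hSm] at he
    obtain ⟨⟨h1, h2, h3, h4⟩, h5⟩ := he
    obtain ⟨b1, b2⟩ := (hconv _ _).mp ⟨h3, h4⟩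
    exact ⟨b1, b2, h1, fun h6 => h5 ⟨h6, b1, b2⟩⟩)
  rw [card_sdiff_of_subset hTS, Nat.cast_sub (card_le_card hTS)] at a3
  have hcT : (T.card : ℝ) ≤ S.card := by exact_mod_cast card_le_card hTS
  have hX5 : 0 < 4 * X ^ 5 := by positivity
  have e3 : (T.card : ℝ) / (4 * X ^ 5) - dens (Am m M) (QQ m M) =
      ((T.card : ℝ) - dens (Am m M) (QQ m M) * 4 * X ^ 5) / (4 * X ^ 5) := by
    field_simp
  change |(T.card : ℝ) / (4 * X ^ 5) - dens (Am m M) (QQ m M)| ≤ _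
  rw [e3, abs_div, abs_of_pos hX5, div_le_iff₀ hX5]
  have f1 : X ^ (19 / 4 : ℝ) = X ^ (-(1 / 4) : ℝ) * X ^ 5 := by
    rw [← Real.rpow_natCast, ← Real.rpow_add hX0]
    norm_num
  have f2 : X ^ 3 = X ^ (-2 : ℝ) * X ^ 5 := by
    rw [← Real.rpow_natCast, ← Real.rpow_natCast, ← Real.rpow_add hX0]
    norm_num
  rw [f1] at a3
  rw [f2] at a2
  have hX5' : 0 < X ^ 5 := by positivity
  have h2 := mul_le_mul_of_nonneg_right h1.le hX5'.le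
  have h3 : 0 ≤ C₂ * (M : ℝ) ^ (-(1 / 4) : ℝ) * X ^ 5 := by positivity
  rw [abs_le] at a2 ⊢
  constructor <;> nlinarith [a2.1, a2.2, a3, hcT]

theorem small_M (C : ℝ) (hC : 0 ≤ C) {ε : ℝ} (hε : 0 < ε) :
    ∀ᶠ M : ℕ in atTop, C * (M : ℝ) ^ (-(1 / 4) : ℝ) < ε := by
  have t1 : Tendsto (fun M : ℕ => C * (M : ℝ) ^ (-(1 / 4) : ℝ)) atTop (𝓝 (C * 0)) :=
    ((tendsto_rpow_neg_atTop (by norm_num)).comp tendsto_natCast_atTop_atTop).const_mul _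
  rw [mul_zero] at t1
  exact t1.eventually (gt_mem_nhds hε)

/-- the natural density of the curves with index `m` -/
theorem exists_density (m : ℕ) (hm : 1 ≤ m) : ∃ δ : ℝ,
    Tendsto (fun X : ℝ => ((NB m X).ncard : ℝ) / (4 * X ^ 5)) atTop (𝓝 δ) ∧
    Tendsto (fun M : ℕ => dens (Am m M) (QQ m M)) atTop (𝓝 δ) := by
  obtain ⟨C, hC, h⟩ := box_approx m hm
  obtain ⟨δ, hδ⟩ := lim_of_approx (f := fun X : ℝ => ((NB m X).ncard : ℝ) / (4 * X ^ 5))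
    (fun ε hε => by
      obtain ⟨M, hM⟩ := ((small_M C hC.le hε).and (eventually_ge_atTop m)).exists
      refine ⟨dens (Am m M) (QQ m M), ?_⟩
      filter_upwards [h M hM.2] with X hX
      exact hX.trans hM.1.le)
  refine ⟨δ, hδ, ?_⟩
  rw [Metric.tendsto_nhds]
  intro ε hε
  filter_upwards [small_M C hC.le hε, eventually_ge_atTop m] with M h1 h2
  have h3 : Tendsto (fun X : ℝ => |((NB m X).ncard : ℝ) / (4 * X ^ 5) - dens (Am m M) (QQ m M)|)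
      atTop (𝓝 |δ - dens (Am m M) (QQ m M)|) := (hδ.sub_const _).abs
  have h4 := le_of_tendsto h3 (h M h2)
  rw [Real.dist_eq, abs_sub_comm]
  linarith

/-- **The number of the curves with index `m`.** -/
theorem lim_m (m : ℕ) (hm : 1 ≤ m) (β : ℝ) (hβ1 : 1 < β) (hβ : β < 10 / 7) {δ : ℝ}
    (hδ : Tendsto (fun M : ℕ => dens (Am m M) (QQ m M)) atTop (𝓝 δ)) :
    Tendsto (fun Z : ℝ => ((EE m β Z).ncard : ℝ) / Z ^ (5 / 6 : ℝ)) atTop
      (𝓝 (δ * VV (1728 * m))) := by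
  obtain ⟨C, hC, h⟩ := approx_m m hm β hβ1 hβ
  have hm0 : (0 : ℝ) < m := by exact_mod_cast hm
  have hV : 0 < VV (1728 * m) := VV_pos (by positivity)
  rw [Metric.tendsto_nhds]
  intro ε hε
  -- choose `K`
  have k1 : Tendsto (fun K : ℝ => C * K ^ (-(1 / 12) : ℝ)) atTop (𝓝 (C * 0)) :=
    (tendsto_rpow_neg_atTop (by norm_num)).const_mul _
  rw [mul_zero] at k1
  have k2 := Metric.tendsto_nhds.mp (vol_lim (a := 1728 * (m : ℝ)) (by positivity)) (ε / 4)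
    (by positivity)
  obtain ⟨K, ⟨hK1, hK2⟩, hK3⟩ := ((k1.eventually (gt_mem_nhds (show 0 < ε / 4 by positivity))).and
    k2 |>.and (eventually_ge_atTop (1 : ℝ))).exists
  have hK0 : 0 < K := by linarith
  -- choose `M`
  have m1 := small_M (C * K ^ (5 / 6 : ℝ)) (by positivity) (show 0 < ε / 4 by positivity)
  have m2 := Metric.tendsto_nhds.mp hδ (ε / (4 * VV (1728 * m))) (by positivity)
  obtain ⟨M, ⟨hM1, hM2⟩, hM3⟩ := ((m1.and m2).and (eventually_ge_atTop m)).exists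
  rw [Real.dist_eq] at hK2 hM2
  rw [lt_div_iff₀ (by positivity)] at hM2
  filter_upwards [h K M hK3 hM3] with Z hZ
  rw [Real.dist_eq]
  have d0 := dens_nonneg (Am m M) (QQ m M)
  have d1 := dens_le_one (Am m M) (QQ_pos m M)
  set d : ℝ := dens (Am m M) (QQ m M) with hd
  have e1 : |d * vol (1728 * m) K - δ * VV (1728 * m)| ≤
      |vol (1728 * m) K - VV (1728 * m)| + |d - δ| * VV (1728 * m) := by
    have e2 : d * vol (1728 * m) K - δ * VV (1728 * m) =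
        d * (vol (1728 * m) K - VV (1728 * m)) + (d - δ) * VV (1728 * m) := by ring
    rw [e2]
    refine (abs_add_le _ _).trans ?_
    rw [abs_mul, abs_mul, abs_of_nonneg d0, abs_of_pos hV]
    have := abs_nonneg (vol (1728 * m) K - VV (1728 * m))
    nlinarith
  have e3 := abs_sub_le (((EE m β Z).ncard : ℝ) / Z ^ (5 / 6 : ℝ)) (d * vol (1728 * m) K)
    (δ * VV (1728 * m))
  have e4 : C * (K ^ (-(1 / 12) : ℝ) + K ^ (5 / 6 : ℝ) * (M : ℝ) ^ (-(1 / 4) : ℝ)) =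
      C * K ^ (-(1 / 12) : ℝ) + C * K ^ (5 / 6 : ℝ) * (M : ℝ) ^ (-(1 / 4) : ℝ) := by ring
  rw [e4] at hZ
  have e5 : |d - δ| * (4 * VV (1728 * m)) = 4 * (|d - δ| * VV (1728 * m)) := by ring
  rw [e5] at hM2
  linarith

end Pool.Agent.L0h45.DH
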