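import Mathlib
import Pool.Agent.L0h45.DH.Law
import Pool.Agent.L0h45.DH.Fin

/-!
# The law of the index: all indices
-/

set_option autoImplicit false

namespace Pool.Agent.L0h45.DH

open Finset Filter Topology
open Pool.Agent.H785R2.ABC (rad)

/-- the semistable curves with index in `S`, conductor at most `Z` and height at most `Z ^ β` -/
def FS (S : Set ℕ) (β Z : ℝ) : Set (ℤ × ℤ) := {e | ∃ m ∈ S, 1 ≤ m ∧ e ∈ EE m β Z}

theorem FS_fin (S : Set ℕ) (β : ℝ) {Z : ℝ} (hZ : 0 ≤ Z) : (FS S β Z).Finite := by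
  refine box_fin ((Z ^ β) ^ (1 / 6 : ℝ)) ?_
  rintro e ⟨m, -, -, -, -, h1, h2⟩
  exact (ht_box (by positivity) _ _).mp ⟨h1, h2⟩

theorem Bm_inj {m m' : ℕ} {x y : ℤ} (h : Bm m x y) (h' : Bm m' x y) : m = m' := by
  obtain ⟨-, D, h1, h2, h3, h4⟩ := h
  obtain ⟨-, D', h1', h2', h3', h4'⟩ := h'
  have e : D = D' := by
    have := h2.symm.trans h2'
    omega
  rw [← e] at h4'
  have h5 := h4.symm.trans h4'
  exact Nat.eq_of_mul_eq_mul_right (Pool.Agent.H785R2.ABC.A345_rad_pos _) h5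

/-- few curves have a large index -/
theorem idx_tail (β : ℝ) (hβ1 : 1 < β) (hβ : β < 10 / 7) : ∃ C : ℝ, 0 < C ∧
    ∀ (K : ℝ) (D : ℕ), 1 ≤ K → 1 ≤ D → ∀ᶠ Z : ℝ in atTop, ∀ T : Finset (ℤ × ℤ),
    (∀ e ∈ T, ∃ m : ℕ, D < m ∧ e ∈ EE m β Z) →
    (T.card : ℝ) / Z ^ (5 / 6 : ℝ) ≤
      C * (K ^ (-(1 / 12) : ℝ) + K ^ (5 / 6 : ℝ) * (D : ℝ) ^ (-(1 / 4) : ℝ)) := by
  classical
  obtain ⟨η, hη, C₁, hC₁, ht⟩ := tail_height β (1 / 12) hβ1.le hβ (by norm_num) (by norm_num)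
  obtain ⟨C₂, hC₂, hb⟩ := box_index (1 / 4) (by norm_num) (by norm_num)
  refine ⟨C₁ + C₂ + 1, by positivity, ?_⟩
  intro K D hK hD
  have hK0 : 0 < K := by linarith
  have hD1 : (1 : ℝ) ≤ D := by exact_mod_cast hD
  have t1 : Tendsto (fun Z : ℝ => C₁ * Z ^ (-η) + C₂ * K ^ (19 / 24 : ℝ) * Z ^ (-(1 / 24) : ℝ))
      atTop (𝓝 (C₁ * 0 + C₂ * K ^ (19 / 24 : ℝ) * 0)) :=
    ((tendsto_rpow_neg_atTop hη).const_mul _).add
      ((tendsto_rpow_neg_atTop (by norm_num)).const_mul _)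
  rw [mul_zero, mul_zero, add_zero] at t1
  have hKpos : 0 < K ^ (-(1 / 12) : ℝ) := by positivity
  filter_upwards [t1.eventually (gt_mem_nhds hKpos), eventually_ge_atTop (1 : ℝ)] with Z h1 hZ
  intro T hT
  have hZ0 : 0 < Z := by linarith
  have hKZ0 : 0 < K * Z := by positivity
  have hKZ1 : 1 ≤ K * Z := by nlinarith
  set X : ℝ := (K * Z) ^ (1 / 6 : ℝ) with hX
  have hX1 : 1 ≤ X := Real.one_le_rpow hKZ1 (by norm_num)
  have hX0 : 0 < X := by linarith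
  set p : ℤ × ℤ → Prop := fun e => |(e.1 : ℝ)| ≤ X ^ 2 ∧ |(e.2 : ℝ)| ≤ X ^ 3 with hp
  have hsplit := card_filter_add_card_filter_not (s := T) p
  have a1 := ht Z K hZ hK (T.filter (fun e => ¬ p e)) (by
    intro e he
    rw [mem_filter] at he
    obtain ⟨m, h3, h4, h5, h6, h7⟩ := hT e he.1
    refine ⟨Bm_data (by omega) h4 h5, ?_⟩
    obtain ⟨b1, b2⟩ := (ht_box (by positivity) _ _).mp ⟨h6, h7⟩
    rw [rpow_six Z β hZ0.le]
    exact ⟨b1, b2, he.2⟩)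
  have a2 := hb X D hX1 hD1 (T.filter p) (by
    intro e he
    rw [mem_filter] at he
    obtain ⟨m, h3, ⟨-, D', h4, h5, h6, h7⟩, -⟩ := hT e he.1
    refine ⟨D', h4, h5, h6, ?_, he.2⟩
    obtain ⟨s, d, hdec⟩ := exists_dec h4
    refine ⟨s, d, hdec, ?_⟩
    obtain ⟨hs1, hd1, hsd, hsr, -⟩ := hdec
    have h8 : s * d = s * (m * rad d) := by
      rw [hsd, h7, ← hsr]
      ring
    have h9 : d = m * rad d := Nat.eq_of_mul_eq_mul_left (by omega) h8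
    have h10 := Pool.Agent.H785R2.ABC.A345_rad_pos d
    have h11 : m ≤ d := by
      calc m = m * 1 := by ring
        _ ≤ m * rad d := Nat.mul_le_mul_left _ h10
        _ = d := h9.symm
    exact_mod_cast lt_of_lt_of_le h3 h11)
  have e1 : (-(1 / 2) + 1 / 4 : ℝ) = -(1 / 4) := by norm_num
  rw [e1] at a2
  have hX5 : X ^ 5 = K ^ (5 / 6 : ℝ) * Z ^ (5 / 6 : ℝ) := by
    rw [hX, ← Real.rpow_natCast, ← Real.rpow_mul hKZ0.le, Real.mul_rpow hK0.le hZ0.le]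
    norm_num
  have hX19 : X ^ (19 / 4 : ℝ) = K ^ (19 / 24 : ℝ) * Z ^ (-(1 / 24) : ℝ) * Z ^ (5 / 6 : ℝ) := by
    rw [hX, ← Real.rpow_mul hKZ0.le, Real.mul_rpow hK0.le hZ0.le, mul_assoc,
      ← Real.rpow_add hZ0]
    norm_num
  have f1 : Z ^ (5 / 6 - η) = Z ^ (-η) * Z ^ (5 / 6 : ℝ) := by
    rw [← Real.rpow_add hZ0]
    congr 1
    ring
  rw [hX5, hX19] at a2
  rw [f1] at a1
  have hW : 0 < Z ^ (5 / 6 : ℝ) := by positivity
  rw [div_le_iff₀ hW]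
  have h3 : (T.card : ℝ) = ((T.filter p).card : ℝ) + ((T.filter (fun e => ¬ p e)).card : ℝ) := by
    exact_mod_cast hsplit.symm
  rw [h3]
  have h4 := mul_le_mul_of_nonneg_right h1.le hW.le
  have q1 : 0 ≤ K ^ (-(1 / 12) : ℝ) * Z ^ (5 / 6 : ℝ) := by positivity
  have q2 : 0 ≤ K ^ (5 / 6 : ℝ) * (D : ℝ) ^ (-(1 / 4) : ℝ) * Z ^ (5 / 6 : ℝ) := by positivity
  have r1 := mul_nonneg hC₁.le q2
  have r2 := mul_nonneg hC₂.le q1
  have e3 : (C₁ + C₂ + 1) * (K ^ (-(1 / 12) : ℝ) + K ^ (5 / 6 : ℝ) * (D : ℝ) ^ (-(1 / 4) : ℝ)) *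
      Z ^ (5 / 6 : ℝ) = C₁ * (K ^ (-(1 / 12) : ℝ) * Z ^ (5 / 6 : ℝ)) +
      C₂ * (K ^ (-(1 / 12) : ℝ) * Z ^ (5 / 6 : ℝ)) +
      C₁ * (K ^ (5 / 6 : ℝ) * (D : ℝ) ^ (-(1 / 4) : ℝ) * Z ^ (5 / 6 : ℝ)) +
      C₂ * (K ^ (5 / 6 : ℝ) * (D : ℝ) ^ (-(1 / 4) : ℝ) * Z ^ (5 / 6 : ℝ)) +
      K ^ (-(1 / 12) : ℝ) * Z ^ (5 / 6 : ℝ) +
      K ^ (5 / 6 : ℝ) * (D : ℝ) ^ (-(1 / 4) : ℝ) * Z ^ (5 / 6 : ℝ) := by ring
  rw [e3]
  have e4 : C₂ * (K ^ (5 / 6 : ℝ) * Z ^ (5 / 6 : ℝ) * (D : ℝ) ^ (-(1 / 4) : ℝ) +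
      K ^ (19 / 24 : ℝ) * Z ^ (-(1 / 24) : ℝ) * Z ^ (5 / 6 : ℝ)) =
      C₂ * (K ^ (5 / 6 : ℝ) * (D : ℝ) ^ (-(1 / 4) : ℝ) * Z ^ (5 / 6 : ℝ)) +
      C₂ * K ^ (19 / 24 : ℝ) * Z ^ (-(1 / 24) : ℝ) * Z ^ (5 / 6 : ℝ) := by ring
  rw [e4] at a2
  have e5 : (C₁ * Z ^ (-η) + C₂ * K ^ (19 / 24 : ℝ) * Z ^ (-(1 / 24) : ℝ)) * Z ^ (5 / 6 : ℝ) =
      C₁ * (Z ^ (-η) * Z ^ (5 / 6 : ℝ)) +
      C₂ * K ^ (19 / 24 : ℝ) * Z ^ (-(1 / 24) : ℝ) * Z ^ (5 / 6 : ℝ) := by ring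
  rw [e5] at h4
  have e6 : C₁ * (K ^ (-(1 / 12) : ℝ) * Z ^ (5 / 6 : ℝ) + Z ^ (-η) * Z ^ (5 / 6 : ℝ)) =
      C₁ * (K ^ (-(1 / 12) : ℝ) * Z ^ (5 / 6 : ℝ)) + C₁ * (Z ^ (-η) * Z ^ (5 / 6 : ℝ)) := by ring
  rw [e6] at a1
  linarith

/-- the densities -/
noncomputable def dlt (m : ℕ) : ℝ :=
  if h : 1 ≤ m then (exists_density m h).choose else 0

theorem dlt_box (m : ℕ) (hm : 1 ≤ m) :
    Tendsto (fun X : ℝ => ((NB m X).ncard : ℝ) / (4 * X ^ 5)) atTop (𝓝 (dlt m)) := by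
  unfold dlt
  rw [dif_pos hm]
  exact (exists_density m hm).choose_spec.1

theorem dlt_dens (m : ℕ) (hm : 1 ≤ m) :
    Tendsto (fun M : ℕ => dens (Am m M) (QQ m M)) atTop (𝓝 (dlt m)) := by
  unfold dlt
  rw [dif_pos hm]
  exact (exists_density m hm).choose_spec.2

theorem dlt_nonneg (m : ℕ) : 0 ≤ dlt m := by
  by_cases hm : 1 ≤ m
  · exact ge_of_tendsto' (dlt_dens m hm) fun M => dens_nonneg _ _
  · unfold dlt
    rw [dif_neg hm]

/-- the weights -/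
noncomputable def kap (m : ℕ) : ℝ := dlt m * VV (1728 * m)

theorem VV_nonneg {a : ℝ} (ha : 0 ≤ a) : 0 ≤ VV a := by
  unfold VV
  have : 0 ≤ ∫ t, ff a t := MeasureTheory.integral_nonneg fun t => ff_nonneg ha t
  linarith

theorem kap_nonneg (m : ℕ) : 0 ≤ kap m :=
  mul_nonneg (dlt_nonneg m) (VV_nonneg (by positivity))

/-- **The law of the index.** -/
theorem law_S (β : ℝ) (hβ1 : 1 < β) (hβ : β < 10 / 7) (S : Set ℕ) :
    Summable (S.indicator kap) ∧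
    Tendsto (fun Z : ℝ => ((FS S β Z).ncard : ℝ) / Z ^ (5 / 6 : ℝ)) atTop
      (𝓝 (∑' m, S.indicator kap m)) := by
  classical
  obtain ⟨C, hC, h⟩ := idx_tail β hβ1 hβ
  refine lim_sum (g := fun m Z => if m ∈ S ∧ 1 ≤ m then
    ((EE m β Z).ncard : ℝ) / Z ^ (5 / 6 : ℝ) else 0) ?_ ?_ ?_
  · intro m
    exact Set.indicator_nonneg (fun m _ => kap_nonneg m) m
  · intro m
    by_cases hm : 1 ≤ m
    · by_cases hS : m ∈ S
      · simp only [hm, hS, and_self, if_true]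
        rw [Set.indicator_of_mem hS]
        exact lim_m m hm β hβ1 hβ (dlt_dens m hm)
      · simp only [hS, false_and, if_false]
        rw [Set.indicator_of_notMem hS]
        exact tendsto_const_nhds
    · simp only [hm, and_false, if_false]
      have : S.indicator kap m = 0 := by
        rw [Set.indicator_apply]
        split_ifs
        · unfold kap dlt
          rw [dif_neg hm, zero_mul]
        · rfl
      rw [this]
      exact tendsto_const_nhds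
  · intro δ hδ
    -- choose `K`, then `D`
    have k1 : Tendsto (fun K : ℝ => C * K ^ (-(1 / 12) : ℝ)) atTop (𝓝 (C * 0)) :=
      (tendsto_rpow_neg_atTop (by norm_num)).const_mul _
    rw [mul_zero] at k1
    obtain ⟨K, hK1, hK3⟩ := ((k1.eventually (gt_mem_nhds (show 0 < δ / 2 by positivity))).and
      (eventually_ge_atTop (1 : ℝ))).exists
    have hK0 : 0 < K := by linarith
    obtain ⟨D₀, hD₀⟩ := eventually_atTop.1 (small_M (C * K ^ (5 / 6 : ℝ)) (by positivity)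
      (show 0 < δ / 2 by positivity))
    refine ⟨max D₀ 1 + 1, fun D hD => ?_⟩
    have hD1 : 1 ≤ D - 1 := by omega
    have hDD : D₀ ≤ D - 1 := by omega
    have h2 := hD₀ (D - 1) hDD
    filter_upwards [h K (D - 1) hK3 hD1, eventually_ge_atTop (1 : ℝ)] with Z hZ hZ1
    have hZ0 : 0 < Z := by linarith
    have hW : 0 < Z ^ (5 / 6 : ℝ) := by positivity
    set F : Finset (ℤ × ℤ) := (FS_fin S β hZ0.le).toFinset with hF
    set E : ℕ → Finset (ℤ × ℤ) := fun m => (EE_fin m β hZ0.le).toFinset with hE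
    have hFm : ∀ e, e ∈ F ↔ e ∈ FS S β Z := fun e => (FS_fin S β hZ0.le).mem_toFinset
    have hEm : ∀ m e, e ∈ E m ↔ e ∈ EE m β Z := fun m e => (EE_fin m β hZ0.le).mem_toFinset
    set I : Finset ℕ := (range D).filter (fun m => m ∈ S ∧ 1 ≤ m) with hI
    have hdisj : (I : Set ℕ).PairwiseDisjoint E := by
      intro m _ m' _ hmm
      rw [Function.onFun, Finset.disjoint_left]
      intro e he he'
      rw [hEm] at he he'
      exact hmm (Bm_inj he.1 he'.1)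
    have hsum : ∑ m ∈ range D, (if m ∈ S ∧ 1 ≤ m then
        ((EE m β Z).ncard : ℝ) / Z ^ (5 / 6 : ℝ) else 0) =
        ((I.biUnion E).card : ℝ) / Z ^ (5 / 6 : ℝ) := by
      rw [card_biUnion hdisj, Nat.cast_sum, sum_div, hI, sum_filter]
      refine sum_congr rfl fun m _ => ?_
      split_ifs
      · rw [Set.ncard_eq_toFinset_card _ (EE_fin m β hZ0.le)]
      · rfl
    rw [hsum, Set.ncard_eq_toFinset_card _ (FS_fin S β hZ0.le)]
    have hsub : I.biUnion E ⊆ F := by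
      intro e he
      rw [mem_biUnion] at he
      obtain ⟨m, hm, he⟩ := he
      rw [hI, mem_filter] at hm
      rw [hFm]
      exact ⟨m, hm.2.1, hm.2.2, (hEm m e).mp he⟩
    have h3 := hZ (F \ I.biUnion E) (by
      intro e he
      rw [Finset.mem_sdiff, hFm] at he
      obtain ⟨⟨m, hmS, hm1, hme⟩, h4⟩ := he
      refine ⟨m, ?_, hme⟩
      by_contra hcon
      apply h4
      rw [mem_biUnion]
      refine ⟨m, ?_, (hEm m e).mpr hme⟩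
      rw [hI, mem_filter, mem_range]
      exact ⟨by omega, hmS, hm1⟩)
    rw [card_sdiff_of_subset hsub, Nat.cast_sub (card_le_card hsub), sub_div] at h3
    have h4 : ((I.biUnion E).card : ℝ) / Z ^ (5 / 6 : ℝ) ≤ (F.card : ℝ) / Z ^ (5 / 6 : ℝ) := by
      have : ((I.biUnion E).card : ℝ) ≤ F.card := by exact_mod_cast card_le_card hsub
      gcongr
    have e4 : C * (K ^ (-(1 / 12) : ℝ) + K ^ (5 / 6 : ℝ) * ((D - 1 : ℕ) : ℝ) ^ (-(1 / 4) : ℝ)) =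
        C * K ^ (-(1 / 12) : ℝ) + C * K ^ (5 / 6 : ℝ) * ((D - 1 : ℕ) : ℝ) ^ (-(1 / 4) : ℝ) := by
      ring
    rw [e4] at h3
    change |(F.card : ℝ) / Z ^ (5 / 6 : ℝ) - ((I.biUnion E).card : ℝ) / Z ^ (5 / 6 : ℝ)| ≤ δ
    rw [abs_of_nonneg (by linarith)]
    linarith

end Pool.Agent.L0h45.DH
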