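import Mathlib
import Pool.Agent.L0h45.DH.Law2

/-!
# The height of almost all curves
-/

set_option autoImplicit false

namespace Pool.Agent.L0h45.DH

open Finset Filter Topology
open Pool.Agent.H785R2.ABC (rad)

/-- the data of a curve -/
def Dat (e : ℤ × ℤ) (D : ℤ) : Prop := Wz e.1 e.2 ∧ D ≠ 0 ∧ e.1 ^ 3 - e.2 ^ 2 = 1728 * D ∧
  IsCoprime e.1 D

theorem rad_dvd' (n : ℕ) : rad n ∣ n := by
  unfold Pool.Agent.H785R2.ABC.rad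
  exact Nat.prod_primeFactors_dvd n

theorem mem_FS_univ {β Z : ℝ} {e : ℤ × ℤ} : e ∈ FS Set.univ β Z ↔
    ∃ D, Dat e D ∧ (rad D.natAbs : ℝ) ≤ Z ∧ |(e.1 : ℝ)| ^ 3 ≤ Z ^ β ∧ (e.2 : ℝ) ^ 2 ≤ Z ^ β := by
  constructor
  · rintro ⟨m, -, hm, ⟨hW, D, h1, h2, h3, h4⟩, h5, h6, h7⟩
    refine ⟨D, ⟨hW, h1, h2, h3⟩, ?_, h6, h7⟩
    obtain ⟨D', b1, b2, b3, b4⟩ := Bm_data hm ⟨hW, D, h1, h2, h3, h4⟩ h5
    have : D' = D := by
      have := b2.symm.trans h2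
      omega
    rw [this] at b4
    exact b4
  · rintro ⟨D, ⟨hW, h1, h2, h3⟩, h4, h5, h6⟩
    obtain ⟨m, hm⟩ := rad_dvd' D.natAbs
    have hm' : D.natAbs = m * rad D.natAbs := by rw [mul_comm]; exact hm
    have hn0 : D.natAbs ≠ 0 := Int.natAbs_ne_zero.mpr h1
    have hm0 : m ≠ 0 := by
      rintro rfl
      rw [mul_zero] at hm
      exact hn0 hm
    refine ⟨m, Set.mem_univ _, by omega, ⟨hW, D, h1, h2, h3, hm'⟩, ?_, h5, h6⟩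
    have hreal : (e.1 : ℝ) ^ 3 - (e.2 : ℝ) ^ 2 = 1728 * (D : ℝ) := by exact_mod_cast h2
    rw [hreal, abs_mul, abs_of_pos (by norm_num : (0 : ℝ) < 1728), ← natAbs_real]
    have h7 : ((D.natAbs : ℕ) : ℝ) = m * (rad D.natAbs : ℝ) := by exact_mod_cast hm'
    rw [h7, mul_assoc]
    gcongr

/-- the number of all curves -/
theorem all_lim (β : ℝ) (hβ1 : 1 < β) (hβ : β < 10 / 7) : Summable kap ∧
    Tendsto (fun Z : ℝ => ((FS Set.univ β Z).ncard : ℝ) / Z ^ (5 / 6 : ℝ)) atTop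
      (𝓝 (∑' m, kap m)) := by
  have h := law_S β hβ1 hβ Set.univ
  rw [Set.indicator_univ] at h
  exact h

theorem kap_pos : 0 < ∑' m, kap m := by
  obtain ⟨X₀, hX₀, hlow⟩ := low_gen 1 le_rfl (by norm_num)
  have h1 := (all_lim (6 / 5) (by norm_num) (by norm_num)).2
  have h2 : ∀ᶠ Z : ℝ in atTop, (1 / 3000000 : ℝ) ≤
      ((FS Set.univ (6 / 5) Z).ncard : ℝ) / Z ^ (5 / 6 : ℝ) := by
    have t1 := (tendsto_rpow_atTop (show (0 : ℝ) < 6 / 5 - 1 by norm_num)).eventually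
      (eventually_ge_atTop (20000000000 : ℝ))
    filter_upwards [t1, eventually_ge_atTop X₀, eventually_ge_atTop (1 : ℝ)] with Z a1 a2 a3
    have hZ0 : 0 < Z := by linarith
    rw [le_div_iff₀ (by positivity)]
    have h3 := hlow Z a2
    have e1 : (1 - 1 / 6 : ℝ) = 5 / 6 := by norm_num
    rw [e1] at h3
    refine h3.trans ?_
    have hsub : Pool.Agent.R417.LD.Lg (fun _ => True) 1 20000000000 Z ⊆
        FS Set.univ (6 / 5) Z := by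
      rintro q ⟨W, b1, b2, -, b3, b4, b5, b6, b7⟩
      rw [Real.rpow_one] at b6 b7
      have h4 : 20000000000 * Z ≤ Z ^ (6 / 5 : ℝ) := by
        calc 20000000000 * Z ≤ Z ^ ((6 : ℝ) / 5 - 1) * Z := by gcongr
          _ = Z ^ (6 / 5 : ℝ) := by
            rw [Real.rpow_sub_one hZ0.ne']
            field_simp
      rw [mem_FS_univ, b3]
      exact ⟨W.Δ, ⟨⟨W, rfl, rfl⟩, b1, W.c_relation.symm, b2⟩, b4, b6.trans h4, b7.trans h4⟩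
    exact_mod_cast Set.ncard_le_ncard hsub (FS_fin _ _ hZ0.le)
  have h3 := ge_of_tendsto h1 h2
  linarith

/-- the curves with height more than `K N` -/
def TK (β K Z : ℝ) : Set (ℤ × ℤ) := {e | ∃ D, Dat e D ∧ (rad D.natAbs : ℝ) ≤ Z ∧
  |(e.1 : ℝ)| ^ 3 ≤ Z ^ β ∧ (e.2 : ℝ) ^ 2 ≤ Z ^ β ∧
  K * rad D.natAbs < max (|(e.1 : ℝ)| ^ 3) ((e.2 : ℝ) ^ 2)}

theorem TK_sub (β K Z : ℝ) : TK β K Z ⊆ FS Set.univ β Z := by
  rintro e ⟨D, h1, h2, h3, h4, -⟩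
  exact mem_FS_univ.mpr ⟨D, h1, h2, h3, h4⟩

/-- **The height of almost all curves**, first form. -/
theorem tail_KN (β σ : ℝ) (hβ1 : 1 < β) (hβ : β < 10 / 7) (hσ : 0 < σ) (hσ6 : σ < 1 / 6) :
    ∃ C : ℝ, 0 < C ∧ ∀ K : ℝ, 1 ≤ K → ∀ᶠ Z : ℝ in atTop,
    ((TK β K Z).ncard : ℝ) ≤ C * K ^ (-σ) * Z ^ (5 / 6 : ℝ) := by
  classical
  set β' : ℝ := (β + 10 / 7) / 2 with hβ'
  have hββ : β < β' := by linarith
  have hβ'7 : β' < 10 / 7 := by linarith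
  obtain ⟨η₀, hη₀, C₁, hC₁, ht₀⟩ := tail_height β' σ (by linarith) hβ'7 hσ hσ6
  set η : ℝ := min η₀ (1 / 2) with hηdef
  have hη : 0 < η := lt_min hη₀ (by norm_num)
  have hη2 : η ≤ 1 / 2 := min_le_right _ _
  have ht : ∀ Z K : ℝ, 1 ≤ Z → 1 ≤ K → ∀ S : Finset (ℤ × ℤ),
      (∀ e ∈ S, (∃ D : ℤ, D ≠ 0 ∧ e.1 ^ 3 - e.2 ^ 2 = 1728 * D ∧
        IsCoprime e.1 D ∧ (rad D.natAbs : ℝ) ≤ Z) ∧
        |(e.1 : ℝ)| ≤ (Z ^ (β' / 6)) ^ 2 ∧ |(e.2 : ℝ)| ≤ (Z ^ (β' / 6)) ^ 3 ∧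
        ¬ (|(e.1 : ℝ)| ≤ ((K * Z) ^ (1 / 6 : ℝ)) ^ 2 ∧
          |(e.2 : ℝ)| ≤ ((K * Z) ^ (1 / 6 : ℝ)) ^ 3)) →
      (S.card : ℝ) ≤ C₁ * (K ^ (-σ) * Z ^ (5 / 6 : ℝ) + Z ^ (5 / 6 - η)) := by
    intro Z K hZ hK S hS
    refine (ht₀ Z K hZ hK S hS).trans ?_
    have : Z ^ (5 / 6 - η₀) ≤ Z ^ (5 / 6 - η) :=
      Real.rpow_le_rpow_of_exponent_le hZ (by linarith [min_le_left η₀ (1 / 2)])
    gcongr
  set κ : ℝ := ∑' m, kap m with hκ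
  have hκ0 : 0 < κ := kap_pos
  have hall := fun b (h1 : 1 < b) (h2 : b < 10 / 7) => (all_lim b h1 h2).2.eventually
    (gt_mem_nhds (show κ < κ + 1 by linarith))
  set q : ℝ := 2 ^ (-(5 / 6) : ℝ) with hq
  have hq0 : 0 < q := by positivity
  have hq1 : q < 1 := Real.rpow_lt_one_of_one_lt_of_neg (by norm_num) (by norm_num)
  have hq1' : 0 < 1 - q := by linarith
  refine ⟨2 * C₁ * (1 - q)⁻¹ + 2 * (κ + 1) + 1, by positivity, ?_⟩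
  intro K hK
  have hK0 : 0 < K := by linarith
  have hKs : 0 < K ^ (-σ) := by positivity
  rcases lt_or_ge K 2 with hK2 | hK2
  · filter_upwards [hall β hβ1 hβ, eventually_ge_atTop (1 : ℝ)] with Z h1 hZ
    have hZ0 : 0 < Z := by linarith
    have hW : 0 < Z ^ (5 / 6 : ℝ) := by positivity
    rw [div_lt_iff₀ hW] at h1
    have h2 : ((TK β K Z).ncard : ℝ) ≤ ((FS Set.univ β Z).ncard : ℝ) := by
      exact_mod_cast Set.ncard_le_ncard (TK_sub β K Z) (FS_fin _ _ hZ0.le)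
    have h3 : (1 / 2 : ℝ) ≤ K ^ (-σ) := by
      calc (1 / 2 : ℝ) = 2 ^ (-1 : ℝ) := by rw [Real.rpow_neg_one]; norm_num
        _ ≤ 2 ^ (-σ) := Real.rpow_le_rpow_of_exponent_le (by norm_num) (by linarith)
        _ ≤ K ^ (-σ) := Real.rpow_le_rpow_of_nonpos hK0 hK2.le (by linarith)
    have h4 : 0 ≤ 2 * C₁ * (1 - q)⁻¹ + 1 := by positivity
    have h5 : (κ + 1) * Z ^ (5 / 6 : ℝ) ≤ 2 * (κ + 1) * K ^ (-σ) * Z ^ (5 / 6 : ℝ) := by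
      have : (κ + 1) * 1 ≤ (κ + 1) * (2 * K ^ (-σ)) := by
        gcongr
        linarith
      calc (κ + 1) * Z ^ (5 / 6 : ℝ) = (κ + 1) * 1 * Z ^ (5 / 6 : ℝ) := by ring
        _ ≤ (κ + 1) * (2 * K ^ (-σ)) * Z ^ (5 / 6 : ℝ) := by gcongr
        _ = _ := by ring
    have h6 : 0 ≤ (2 * C₁ * (1 - q)⁻¹ + 1) * (K ^ (-σ) * Z ^ (5 / 6 : ℝ)) := by positivity
    have e1 : (2 * C₁ * (1 - q)⁻¹ + 2 * (κ + 1) + 1) * K ^ (-σ) * Z ^ (5 / 6 : ℝ) =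
        2 * (κ + 1) * K ^ (-σ) * Z ^ (5 / 6 : ℝ) +
        (2 * C₁ * (1 - q)⁻¹ + 1) * (K ^ (-σ) * Z ^ (5 / 6 : ℝ)) := by ring
    rw [e1]
    linarith
  -- `K ≥ 2`
  obtain ⟨J, hJ⟩ := pow_unbounded_of_one_lt K (show (1 : ℝ) < 2 by norm_num)
  have h2J : (0 : ℝ) < 2 ^ J := by positivity
  have t1 : Tendsto (fun Z : ℝ => C₁ * J * Z ^ (-η)) atTop (𝓝 (C₁ * J * 0)) :=
    (tendsto_rpow_neg_atTop hη).const_mul _
  rw [mul_zero] at t1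
  have t2 : Tendsto (fun Z : ℝ => Z / 2 ^ J) atTop atTop :=
    tendsto_id.atTop_div_const h2J
  have t3 := t2.eventually (hall β' (by linarith) hβ'7)
  have t4 := (tendsto_rpow_atTop (show 0 < β' - β by linarith)).eventually
    (eventually_ge_atTop (((2 : ℝ) ^ J) ^ β'))
  filter_upwards [t1.eventually (gt_mem_nhds hKs), t3, t4, t2.eventually
    (eventually_ge_atTop (1 : ℝ))] with Z h1 h3 h4 h5
  have hZJ : 2 ^ J ≤ Z := by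
    rw [le_div_iff₀ h2J, one_mul] at h5
    exact h5
  have h2J1 : (1 : ℝ) ≤ 2 ^ J := one_le_pow₀ (by norm_num)
  have hZ0 : 0 < Z := by linarith
  have hZ1 : 1 ≤ Z := by linarith
  have hW : 0 < Z ^ (5 / 6 : ℝ) := by positivity
  -- heights
  have hpow : ∀ j : ℕ, j ≤ J → Z ^ β ≤ (Z / 2 ^ j) ^ β' := by
    intro j hj
    have h2j : (0 : ℝ) < 2 ^ j := by positivity
    rw [Real.div_rpow hZ0.le h2j.le, le_div_iff₀ (by positivity)]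
    have h6 : ((2 : ℝ) ^ j) ^ β' ≤ ((2 : ℝ) ^ J) ^ β' := by
      refine Real.rpow_le_rpow h2j.le ?_ (by linarith)
      exact pow_le_pow_right₀ (by norm_num) hj
    calc Z ^ β * ((2 : ℝ) ^ j) ^ β' ≤ Z ^ β * Z ^ (β' - β) := by
          gcongr
          exact h6.trans h4
      _ = Z ^ β' := by
          rw [← Real.rpow_add hZ0]
          congr 1
          ring
  have hTfin : (TK β K Z).Finite := (FS_fin Set.univ β hZ0.le).subset (TK_sub β K Z)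
  set T : Finset (ℤ × ℤ) := hTfin.toFinset with hT
  have hTm : ∀ e, e ∈ T ↔ e ∈ TK β K Z := fun e => hTfin.mem_toFinset
  rw [Set.ncard_eq_toFinset_card _ hTfin]
  change (T.card : ℝ) ≤ _
  -- the pieces
  set A : ℕ → Finset (ℤ × ℤ) := fun j => T.filter (fun e => ∃ D, Dat e D ∧
    (rad D.natAbs : ℝ) ≤ Z / 2 ^ j ∧ Z / 2 ^ (j + 1) < rad D.natAbs) with hA
  set R : Finset (ℤ × ℤ) := T.filter (fun e => ∃ D, Dat e D ∧ (rad D.natAbs : ℝ) ≤ Z / 2 ^ J)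
    with hR
  have hcov : T ⊆ (range J).biUnion A ∪ R := by
    intro e he
    rw [mem_union, mem_biUnion]
    obtain ⟨D, b1, b2, b3, b4, b5⟩ := (hTm e).mp he
    by_cases hle : (rad D.natAbs : ℝ) ≤ Z / 2 ^ J
    · right
      rw [hR, mem_filter]
      exact ⟨he, D, b1, hle⟩
    · left
      have hex : ∃ j : ℕ, ¬ (rad D.natAbs : ℝ) ≤ Z / 2 ^ j := ⟨J, hle⟩
      obtain ⟨hj1, hj2⟩ := (⟨Nat.find_spec hex, fun k hk => Nat.find_min hex hk⟩ :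
        (¬ (rad D.natAbs : ℝ) ≤ Z / 2 ^ (Nat.find hex)) ∧
        ∀ k, k < Nat.find hex → ¬ ¬ (rad D.natAbs : ℝ) ≤ Z / 2 ^ k)
      have hjJ : Nat.find hex ≤ J := Nat.find_min' hex hle
      have hj0 : Nat.find hex ≠ 0 := by
        intro h0
        rw [h0, pow_zero, div_one] at hj1
        exact hj1 b2
      obtain ⟨i, hi⟩ : ∃ i, Nat.find hex = i + 1 := ⟨Nat.find hex - 1, by omega⟩
      refine ⟨i, mem_range.mpr (by omega), ?_⟩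
      rw [hA]
      simp only [mem_filter]
      refine ⟨he, D, b1, ?_, ?_⟩
      · have := hj2 i (by omega)
        rwa [not_not] at this
      · rw [hi, not_le] at hj1
        exact hj1
  have hDuniq : ∀ {e : ℤ × ℤ} {D D' : ℤ}, Dat e D → Dat e D' → D = D' := by
    intro e D D' h h'
    have := h.2.2.1.symm.trans h'.2.2.1
    omega
  have hAcard : ∀ j ∈ range J, ((A j).card : ℝ) ≤
      C₁ * (K / 2) ^ (-σ) * Z ^ (5 / 6 : ℝ) * q ^ j + C₁ * Z ^ (5 / 6 - η) := by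
    intro j hj
    rw [mem_range] at hj
    have h2j : (1 : ℝ) ≤ 2 ^ j := one_le_pow₀ (by norm_num)
    have h2j0 : (0 : ℝ) < 2 ^ j := by positivity
    have h2jJ : (2 : ℝ) ^ j ≤ 2 ^ J := pow_le_pow_right₀ (by norm_num) hj.le
    have hZj1 : 1 ≤ Z / 2 ^ j := by
      rw [le_div_iff₀ h2j0]
      linarith
    have hZj0 : 0 < Z / 2 ^ j := by linarith
    have hK2' : 1 ≤ K / 2 := by linarith
    have h6 := ht (Z / 2 ^ j) (K / 2) hZj1 hK2' (A j) (by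
      intro e he
      rw [hA] at he
      simp only [mem_filter] at he
      obtain ⟨he1, D, hD, hD1, hD2⟩ := he
      obtain ⟨D', b1, b2, b3, b4, b5⟩ := (hTm e).mp he1
      have hDD := hDuniq b1 hD
      rw [hDD] at b5
      refine ⟨⟨D, hD.2.1, hD.2.2.1, hD.2.2.2, hD1⟩, ?_⟩
      obtain ⟨c1, c2⟩ := (ht_box (by positivity) _ _).mp
        ⟨b3.trans (hpow j hj.le), b4.trans (hpow j hj.le)⟩
      rw [rpow_six _ β' hZj0.le]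
      refine ⟨c1, c2, ?_⟩
      intro h7
      have h8 := (ht_box (by positivity) _ _).mpr h7
      have h9 : max (|(e.1 : ℝ)| ^ 3) ((e.2 : ℝ) ^ 2) ≤ K / 2 * (Z / 2 ^ j) := max_le h8.1 h8.2
      have h10 : K / 2 * (Z / 2 ^ j) = K * (Z / 2 ^ (j + 1)) := by
        rw [pow_succ]
        field_simp
      have h11 : K * (Z / 2 ^ (j + 1)) < K * rad D.natAbs := by gcongr
      linarith)
    refine h6.trans ?_
    have e1 : (Z / 2 ^ j) ^ (5 / 6 : ℝ) = Z ^ (5 / 6 : ℝ) * q ^ j := by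
      rw [Real.div_rpow hZ0.le h2j0.le, hq, ← Real.rpow_natCast, ← Real.rpow_natCast,
        ← Real.rpow_mul (by norm_num), ← Real.rpow_mul (by norm_num), div_eq_mul_inv,
        ← Real.rpow_neg (by norm_num)]
      congr 2
      ring
    have e2 : (Z / 2 ^ j) ^ (5 / 6 - η) ≤ Z ^ (5 / 6 - η) :=
      Real.rpow_le_rpow hZj0.le (div_le_self hZ0.le h2j) (by linarith)
    rw [e1]
    calc C₁ * ((K / 2) ^ (-σ) * (Z ^ (5 / 6 : ℝ) * q ^ j) + (Z / 2 ^ j) ^ (5 / 6 - η)) ≤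
          C₁ * ((K / 2) ^ (-σ) * (Z ^ (5 / 6 : ℝ) * q ^ j) + Z ^ (5 / 6 - η)) := by gcongr
      _ = _ := by ring
  -- the rest
  have hZJ0 : 0 < Z / 2 ^ J := by positivity
  have hRcard : (R.card : ℝ) ≤ (κ + 1) * (K ^ (-σ) * Z ^ (5 / 6 : ℝ)) := by
    have h6 : (R : Set (ℤ × ℤ)) ⊆ FS Set.univ β' (Z / 2 ^ J) := by
      intro e he
      rw [mem_coe, hR, mem_filter] at he
      obtain ⟨he1, D, hD, hD1⟩ := he
      obtain ⟨D', b1, b2, b3, b4, b5⟩ := (hTm e).mp he1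
      exact mem_FS_univ.mpr ⟨D, hD, hD1, b3.trans (hpow J le_rfl), b4.trans (hpow J le_rfl)⟩
    have h7 : (R.card : ℝ) ≤ ((FS Set.univ β' (Z / 2 ^ J)).ncard : ℝ) := by
      have := Set.ncard_le_ncard h6 (FS_fin _ _ hZJ0.le)
      rw [Set.ncard_coe_finset] at this
      exact_mod_cast this
    have h8 : ((FS Set.univ β' (Z / 2 ^ J)).ncard : ℝ) ≤ (κ + 1) * (Z / 2 ^ J) ^ (5 / 6 : ℝ) := by
      have h9 : (0 : ℝ) < (Z / 2 ^ J) ^ (5 / 6 : ℝ) := by positivity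
      rw [div_lt_iff₀ h9] at h3
      exact h3.le
    have h10 : (Z / 2 ^ J) ^ (5 / 6 : ℝ) ≤ K ^ (-σ) * Z ^ (5 / 6 : ℝ) := by
      rw [Real.div_rpow hZ0.le h2J.le, div_eq_mul_inv, mul_comm, ← Real.rpow_neg h2J.le]
      have h11 : ((2 : ℝ) ^ J) ^ (-(5 / 6) : ℝ) ≤ K ^ (-σ) := by
        calc ((2 : ℝ) ^ J) ^ (-(5 / 6) : ℝ) ≤ K ^ (-(5 / 6) : ℝ) :=
              Real.rpow_le_rpow_of_nonpos hK0 hJ.le (by norm_num)
          _ ≤ K ^ (-σ) := Real.rpow_le_rpow_of_exponent_le hK (by linarith)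
      gcongr
    calc (R.card : ℝ) ≤ (κ + 1) * (Z / 2 ^ J) ^ (5 / 6 : ℝ) := h7.trans h8
      _ ≤ (κ + 1) * (K ^ (-σ) * Z ^ (5 / 6 : ℝ)) := by gcongr
  have hK2 : (K / 2) ^ (-σ) ≤ 2 * K ^ (-σ) := by
    rw [Real.div_rpow hK0.le (by norm_num), div_eq_mul_inv, ← Real.rpow_neg (by norm_num),
      neg_neg, mul_comm]
    have : (2 : ℝ) ^ σ ≤ 2 := by
      calc (2 : ℝ) ^ σ ≤ 2 ^ (1 : ℝ) :=
            Real.rpow_le_rpow_of_exponent_le (by norm_num) (by linarith)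
        _ = 2 := Real.rpow_one 2
    gcongr
  have hgeo : ∑ j ∈ range J, q ^ j ≤ (1 - q)⁻¹ := by
    have hs := hasSum_geometric_of_lt_one hq0.le hq1
    rw [← hs.tsum_eq]
    exact hs.summable.sum_le_tsum _ (fun i _ => by positivity)
  have hJterm : (J : ℝ) * (C₁ * Z ^ (5 / 6 - η)) ≤ K ^ (-σ) * Z ^ (5 / 6 : ℝ) := by
    have h6 : Z ^ (5 / 6 - η) = Z ^ (-η) * Z ^ (5 / 6 : ℝ) := by
      rw [← Real.rpow_add hZ0]
      congr 1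
      ring
    calc (J : ℝ) * (C₁ * Z ^ (5 / 6 - η)) = (C₁ * J * Z ^ (-η)) * Z ^ (5 / 6 : ℝ) := by
          rw [h6]; ring
      _ ≤ K ^ (-σ) * Z ^ (5 / 6 : ℝ) := by gcongr
  have hsum : (T.card : ℝ) ≤ ∑ j ∈ range J, ((A j).card : ℝ) + (R.card : ℝ) := by
    have h6 : T.card ≤ ∑ j ∈ range J, (A j).card + R.card :=
      (card_le_card hcov).trans ((card_union_le _ _).trans
        (Nat.add_le_add_right card_biUnion_le _))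
    exact_mod_cast h6
  have hC₁' : 0 ≤ C₁ * (2 * K ^ (-σ)) * Z ^ (5 / 6 : ℝ) := by positivity
  calc (T.card : ℝ) ≤ ∑ j ∈ range J, ((A j).card : ℝ) + (R.card : ℝ) := hsum
    _ ≤ ∑ j ∈ range J, (C₁ * (K / 2) ^ (-σ) * Z ^ (5 / 6 : ℝ) * q ^ j + C₁ * Z ^ (5 / 6 - η)) +
        (κ + 1) * (K ^ (-σ) * Z ^ (5 / 6 : ℝ)) := add_le_add (sum_le_sum hAcard) hRcard
    _ = C₁ * (K / 2) ^ (-σ) * Z ^ (5 / 6 : ℝ) * ∑ j ∈ range J, q ^ j +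
        (J : ℝ) * (C₁ * Z ^ (5 / 6 - η)) + (κ + 1) * (K ^ (-σ) * Z ^ (5 / 6 : ℝ)) := by
        rw [sum_add_distrib, ← mul_sum, sum_const, card_range, nsmul_eq_mul]
    _ ≤ C₁ * (2 * K ^ (-σ)) * Z ^ (5 / 6 : ℝ) * (1 - q)⁻¹ +
        K ^ (-σ) * Z ^ (5 / 6 : ℝ) + (κ + 1) * (K ^ (-σ) * Z ^ (5 / 6 : ℝ)) := by gcongr
    _ = (2 * C₁ * (1 - q)⁻¹ + (κ + 1) + 1) * K ^ (-σ) * Z ^ (5 / 6 : ℝ) := by ring
    _ ≤ (2 * C₁ * (1 - q)⁻¹ + 2 * (κ + 1) + 1) * K ^ (-σ) * Z ^ (5 / 6 : ℝ) := by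
        gcongr
        linarith

/-- **The height of almost all curves**, second form. -/
theorem tail_psi (β : ℝ) (hβ1 : 1 < β) (hβ : β < 10 / 7) (ψ : ℕ → ℝ)
    (hψ : Tendsto ψ atTop atTop) :
    Tendsto (fun Z : ℝ => (({e : ℤ × ℤ | ∃ D, Dat e D ∧ (rad D.natAbs : ℝ) ≤ Z ∧
      |(e.1 : ℝ)| ^ 3 ≤ Z ^ β ∧ (e.2 : ℝ) ^ 2 ≤ Z ^ β ∧
      ψ (rad D.natAbs) * rad D.natAbs < max (|(e.1 : ℝ)| ^ 3) ((e.2 : ℝ) ^ 2)}).ncard : ℝ) /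
      Z ^ (5 / 6 : ℝ)) atTop (𝓝 0) := by
  classical
  obtain ⟨C, hC, hT⟩ := tail_KN β (1 / 12) hβ1 hβ (by norm_num) (by norm_num)
  set ε₀ : ℝ := 1 / 100 with hε₀
  set ε₁ : ℝ := (5 / 6 - 7 * β / 12) / 2 with hε₁
  have hε₁0 : 0 < ε₁ := by rw [hε₁]; linarith
  obtain ⟨C', hC', htot⟩ := total_count ε₁ hε₁0
  rw [Metric.tendsto_nhds]
  intro ε hε
  -- choose `K`
  have hK : ∃ K : ℝ, 1 ≤ K ∧ C * K ^ (-(1 / 12) : ℝ) < ε / 2 := by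
    have t1 : Tendsto (fun K : ℝ => C * K ^ (-(1 / 12) : ℝ)) atTop (𝓝 (C * 0)) :=
      (tendsto_rpow_neg_atTop (by norm_num)).const_mul _
    rw [mul_zero] at t1
    obtain ⟨K, h1, h2⟩ := ((t1.eventually (gt_mem_nhds (half_pos hε))).and
      (eventually_ge_atTop (1 : ℝ))).exists
    exact ⟨K, h2, h1⟩
  obtain ⟨K, hK1, hK2⟩ := hK
  obtain ⟨N₀, hN₀⟩ := eventually_atTop.mp (hψ.eventually (eventually_ge_atTop K))
  have hN₀' : (1 : ℝ) ≤ (N₀ : ℝ) + 1 := by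
    have : (0 : ℝ) ≤ N₀ := Nat.cast_nonneg _
    linarith
  -- the curves of small conductor
  have e1 : β / 6 * ε₁ < 5 / 6 := by
    have : ε₁ ≤ 5 / 12 := by rw [hε₁]; linarith
    nlinarith
  have e2 : β / 6 * ε₁ + β / 6 * (7 / 2) < 5 / 6 := by
    have : β / 6 * ε₁ ≤ ε₁ := by nlinarith
    have : ε₁ = (5 / 6 - 7 * β / 12) / 2 := hε₁
    linarith
  have t2 : Tendsto (fun Z : ℝ => C' * ((N₀ : ℝ) + 1) ^ (5 / 6 : ℝ) *
      Z ^ (-(5 / 6 - β / 6 * ε₁)) + C' * Z ^ (-(5 / 6 - (β / 6 * ε₁ + β / 6 * (7 / 2))))) atTop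
      (𝓝 (C' * ((N₀ : ℝ) + 1) ^ (5 / 6 : ℝ) * 0 + C' * 0)) :=
    ((tendsto_rpow_neg_atTop (by linarith)).const_mul _).add
      ((tendsto_rpow_neg_atTop (by linarith)).const_mul _)
  rw [mul_zero, mul_zero, add_zero] at t2
  filter_upwards [hT K hK1, t2.eventually (gt_mem_nhds (half_pos hε)),
    eventually_ge_atTop (1 : ℝ)] with Z h1 h2 hZ
  have hZ0 : 0 < Z := by linarith
  have hW : 0 < Z ^ (5 / 6 : ℝ) := by positivity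
  rw [Real.dist_eq, sub_zero, abs_of_nonneg (by positivity), div_lt_iff₀ hW]
  set A : Set (ℤ × ℤ) := {e : ℤ × ℤ | ∃ D, Dat e D ∧ (rad D.natAbs : ℝ) ≤ Z ∧
      |(e.1 : ℝ)| ^ 3 ≤ Z ^ β ∧ (e.2 : ℝ) ^ 2 ≤ Z ^ β ∧
      ψ (rad D.natAbs) * rad D.natAbs < max (|(e.1 : ℝ)| ^ 3) ((e.2 : ℝ) ^ 2)} with hA
  have hAfin : A.Finite := by
    refine (FS_fin Set.univ β hZ0.le).subset ?_
    rintro e ⟨D, b1, b2, b3, b4, -⟩
    exact mem_FS_univ.mpr ⟨D, b1, b2, b3, b4⟩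
  set B : Set (ℤ × ℤ) := {e : ℤ × ℤ | ∃ D, Dat e D ∧ (rad D.natAbs : ℝ) ≤ (N₀ : ℝ) + 1 ∧
      |(e.1 : ℝ)| ^ 3 ≤ Z ^ β ∧ (e.2 : ℝ) ^ 2 ≤ Z ^ β} with hB
  have hBfin : B.Finite := by
    refine box_fin ((Z ^ β) ^ (1 / 6 : ℝ)) ?_
    rintro e ⟨D, -, -, h3, h4⟩
    exact (ht_box (by positivity) _ _).mp ⟨h3, h4⟩
  have hTfin : (TK β K Z).Finite := (FS_fin Set.univ β hZ0.le).subset (TK_sub β K Z)
  have hsub : A ⊆ TK β K Z ∪ B := by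
    rintro e ⟨D, b1, b2, b3, b4, b5⟩
    rcases lt_or_ge (rad D.natAbs) N₀ with h | h
    · right
      refine ⟨D, b1, ?_, b3, b4⟩
      have : ((rad D.natAbs : ℕ) : ℝ) ≤ N₀ := by exact_mod_cast h.le
      linarith
    · left
      refine ⟨D, b1, b2, b3, b4, lt_of_le_of_lt ?_ b5⟩
      have := hN₀ _ h
      gcongr
  have h3 : (A.ncard : ℝ) ≤ ((TK β K Z).ncard : ℝ) + (B.ncard : ℝ) := by
    have h4 := (Set.ncard_le_ncard hsub (hTfin.union hBfin)).trans (Set.ncard_union_le _ _)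
    exact_mod_cast h4
  have hZb : 1 ≤ Z ^ (β / 6) := Real.one_le_rpow hZ (by linarith)
  have h4 : (B.ncard : ℝ) ≤ C' * (Z ^ (β / 6)) ^ ε₁ * (((N₀ : ℝ) + 1) ^ (5 / 6 : ℝ) +
      (Z ^ (β / 6)) ^ (7 / 2 : ℝ)) := by
    rw [Set.ncard_eq_toFinset_card _ hBfin]
    refine htot (Z ^ (β / 6)) ((N₀ : ℝ) + 1) hZb hN₀' hBfin.toFinset ?_
    intro e he
    obtain ⟨D, ⟨-, b1, b2, b3⟩, b4, b5, b6⟩ := hBfin.mem_toFinset.mp he
    refine ⟨⟨D, b1, b2, b3, b4⟩, ?_⟩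
    rw [rpow_six Z β hZ0.le]
    exact (ht_box (by positivity) _ _).mp ⟨b5, b6⟩
  have h5 : C' * (Z ^ (β / 6)) ^ ε₁ * (((N₀ : ℝ) + 1) ^ (5 / 6 : ℝ) +
      (Z ^ (β / 6)) ^ (7 / 2 : ℝ)) = (C' * ((N₀ : ℝ) + 1) ^ (5 / 6 : ℝ) *
      Z ^ (-(5 / 6 - β / 6 * ε₁)) + C' * Z ^ (-(5 / 6 - (β / 6 * ε₁ + β / 6 * (7 / 2))))) *
      Z ^ (5 / 6 : ℝ) := by
    rw [← Real.rpow_mul hZ0.le, ← Real.rpow_mul hZ0.le, add_mul, mul_assoc _ _ (Z ^ (5 / 6 : ℝ)),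
      mul_assoc _ _ (Z ^ (5 / 6 : ℝ)), ← Real.rpow_add hZ0, ← Real.rpow_add hZ0, mul_add,
      mul_assoc C' _ (Z ^ (β / 6 * (7 / 2))), ← Real.rpow_add hZ0]
    have a1 : -(5 / 6 - β / 6 * ε₁) + 5 / 6 = β / 6 * ε₁ := by ring
    have a2 : -(5 / 6 - (β / 6 * ε₁ + β / 6 * (7 / 2))) + 5 / 6 =
        β / 6 * ε₁ + β / 6 * (7 / 2) := by ring
    rw [a1, a2]
    ring
  calc (A.ncard : ℝ) ≤ ((TK β K Z).ncard : ℝ) + (B.ncard : ℝ) := h3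
    _ ≤ C * K ^ (-(1 / 12) : ℝ) * Z ^ (5 / 6 : ℝ) + (C' * ((N₀ : ℝ) + 1) ^ (5 / 6 : ℝ) *
      Z ^ (-(5 / 6 - β / 6 * ε₁)) + C' * Z ^ (-(5 / 6 - (β / 6 * ε₁ + β / 6 * (7 / 2))))) *
      Z ^ (5 / 6 : ℝ) := add_le_add h1 (h4.trans_eq h5)
    _ < ε / 2 * Z ^ (5 / 6 : ℝ) + ε / 2 * Z ^ (5 / 6 : ℝ) := by gcongr
    _ = ε * Z ^ (5 / 6 : ℝ) := by ring

end Pool.Agent.L0h45.DH
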