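import Mathlib
import Pool.Agent.L0h45.DH.Law3

/-!
# The law of the index: final statements
-/

set_option autoImplicit false

namespace Pool.Agent.L0h45.DH

open Finset Filter Topology
open Pool.Agent.H785R2.ABC (rad)
open Pool.Agent.R417.LD (cond)

theorem cv_NB (m : ℕ) (X : ℝ) : (Cv fun W => |(W.c₄ : ℝ)| ≤ X ^ 2 ∧ |(W.c₆ : ℝ)| ≤ X ^ 3 ∧
    W.Δ.natAbs = m * cond W) = NB m X := by
  ext e
  constructor
  · rintro ⟨W, ⟨h1, h2⟩, ⟨h3, h4, h5⟩, rfl⟩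
    exact ⟨⟨⟨W, rfl, rfl⟩, W.Δ, h1, W.c_relation.symm, h2, h5⟩, h3, h4⟩
  · rintro ⟨⟨⟨W, b1, b2⟩, D, c1, c2, c3, c4⟩, h2, h3⟩
    have hD : W.Δ = D := by
      have := W.c_relation
      rw [b1, b2, c2] at this
      omega
    refine ⟨W, ⟨by rw [hD]; exact c1, by rw [hD, b1]; exact c3⟩, ⟨?_, ?_, ?_⟩, ?_⟩
    · rw [b1]; exact h2
    · rw [b2]; exact h3
    · unfold Pool.Agent.R417.LD.cond
      rw [hD]
      exact c4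
    · rw [b1, b2]

theorem cv_FS (S : Set ℕ) (β Z : ℝ) : (Cv fun W => (cond W : ℝ) ≤ Z ∧ ht W ≤ Z ^ β ∧
    ∃ m ∈ S, W.Δ.natAbs = m * cond W) = FS S β Z := by
  ext e
  constructor
  · rintro ⟨W, ⟨h1, h2⟩, ⟨h3, h4, m, hm, h5⟩, rfl⟩
    have hm1 : 1 ≤ m := by
      rcases Nat.eq_zero_or_pos m with h | h
      · rw [h, zero_mul] at h5
        exact absurd (Int.natAbs_eq_zero.mp h5) h1
      · exact h
    refine ⟨m, hm, hm1, ⟨⟨W, rfl, rfl⟩, W.Δ, h1, W.c_relation.symm, h2, h5⟩, ?_,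
      (le_max_left _ _).trans h4, (le_max_right _ _).trans h4⟩
    have hreal : (W.c₄ : ℝ) ^ 3 - (W.c₆ : ℝ) ^ 2 = 1728 * (W.Δ : ℝ) := by
      exact_mod_cast W.c_relation.symm
    rw [hreal, abs_mul, abs_of_pos (by norm_num : (0 : ℝ) < 1728), ← natAbs_real]
    have h7 : ((W.Δ.natAbs : ℕ) : ℝ) = m * (cond W : ℝ) := by exact_mod_cast h5
    rw [h7, mul_assoc]
    gcongr
  · rintro ⟨m, hm, hm1, hB, h5, h6, h7⟩
    obtain ⟨D', d1, d2, d3, d4⟩ := Bm_data hm1 hB h5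
    obtain ⟨⟨W, b1, b2⟩, D, c1, c2, c3, c4⟩ := hB
    have hD : W.Δ = D := by
      have := W.c_relation
      rw [b1, b2, c2] at this
      omega
    have hD' : D' = D := by
      have := d2.symm.trans c2
      omega
    refine ⟨W, ⟨by rw [hD]; exact c1, by rw [hD, b1]; exact c3⟩, ⟨?_, ?_, m, hm, ?_⟩, ?_⟩
    · unfold Pool.Agent.R417.LD.cond
      rw [hD, ← hD']
      exact d4
    · unfold ht
      rw [b1, b2]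
      exact max_le h6 h7
    · unfold Pool.Agent.R417.LD.cond
      rw [hD]
      exact c4
    · rw [b1, b2]

theorem kap_eq (m : ℕ) (hm : 1 ≤ m) : kap m = dlt m * (1728 * m) ^ (5 / 6 : ℝ) * VV 1 := by
  have h : (0 : ℝ) < 1728 * m := by
    have : (1 : ℝ) ≤ m := by exact_mod_cast hm
    linarith
  unfold kap
  rw [VV_scale h]
  ring

theorem kap_zero : kap 0 = 0 := by
  unfold kap dlt
  rw [dif_neg (by norm_num), zero_mul]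

/-- the index law -/
theorem fin_law : ∃ δ κ : ℕ → ℝ,
    (∀ m : ℕ, 1 ≤ m → Tendsto (fun X : ℝ => ((Cv fun W => |(W.c₄ : ℝ)| ≤ X ^ 2 ∧
      |(W.c₆ : ℝ)| ≤ X ^ 3 ∧ W.Δ.natAbs = m * cond W).ncard : ℝ) / (4 * X ^ 5)) atTop
      (𝓝 (δ m))) ∧
    (∀ m : ℕ, 1 ≤ m → κ m = δ m * (1728 * m) ^ (5 / 6 : ℝ) *
      (2 * ∫ t : ℝ, (√(max (t ^ 3 + 1) 0) - √(max (t ^ 3 - 1) 0)))) ∧
    κ 0 = 0 ∧ Summable κ ∧ 0 < ∑' m, κ m ∧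
    ∀ β : ℝ, 1 < β → β < 10 / 7 → ∀ S : Set ℕ,
      Tendsto (fun Z : ℝ => ((Cv fun W => (cond W : ℝ) ≤ Z ∧ ht W ≤ Z ^ β ∧
        ∃ m ∈ S, W.Δ.natAbs = m * cond W).ncard : ℝ) / Z ^ (5 / 6 : ℝ)) atTop
        (𝓝 (∑' m, S.indicator κ m)) := by
  refine ⟨dlt, kap, ?_, kap_eq, kap_zero, (all_lim (6 / 5) (by norm_num) (by norm_num)).1,
    kap_pos, ?_⟩
  · intro m hm
    simp only [cv_NB]
    exact dlt_box m hm
  · intro β h1 h2 S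
    simp only [cv_FS]
    exact (law_S β h1 h2 S).2

/-- the number of all curves -/
theorem fin_all (β : ℝ) (h1 : 1 < β) (h2 : β < 10 / 7) :
    Tendsto (fun Z : ℝ => ((Cv fun W => (cond W : ℝ) ≤ Z ∧ ht W ≤ Z ^ β).ncard : ℝ) /
      Z ^ (5 / 6 : ℝ)) atTop (𝓝 (∑' m, kap m)) := by
  have h := (all_lim β h1 h2).2
  refine h.congr fun Z => ?_
  rw [← cv_FS]
  congr 3
  unfold Cv
  congr 1
  ext q
  constructor
  · rintro ⟨W, h1, ⟨h2, h3, -⟩, h4⟩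
    exact ⟨W, h1, ⟨h2, h3⟩, h4⟩
  · rintro ⟨W, h1, ⟨h2, h3⟩, h4⟩
    obtain ⟨m, hm⟩ := rad_dvd' W.Δ.natAbs
    refine ⟨W, h1, ⟨h2, h3, m, Set.mem_univ _, ?_⟩, h4⟩
    rw [hm, mul_comm]
    rfl

theorem cv_TK (β K Z : ℝ) : (Cv fun W => (cond W : ℝ) ≤ Z ∧ ht W ≤ Z ^ β ∧
    K * (cond W : ℝ) < ht W) ⊆ TK β K Z := by
  rintro e ⟨W, ⟨h1, h2⟩, ⟨h3, h4, h5⟩, rfl⟩
  exact ⟨W.Δ, ⟨⟨W, rfl, rfl⟩, h1, W.c_relation.symm, h2⟩, h3, (le_max_left _ _).trans h4,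
    (le_max_right _ _).trans h4, h5⟩

theorem fin_tail_K (β σ : ℝ) (hβ1 : 1 < β) (hβ : β < 10 / 7) (hσ : 0 < σ) (hσ6 : σ < 1 / 6) :
    ∃ C : ℝ, 0 < C ∧ ∀ K : ℝ, 1 ≤ K → ∀ᶠ Z : ℝ in atTop,
    ((Cv fun W => (cond W : ℝ) ≤ Z ∧ ht W ≤ Z ^ β ∧ K * (cond W : ℝ) < ht W).ncard : ℝ) ≤
      C * K ^ (-σ) * Z ^ (5 / 6 : ℝ) := by
  obtain ⟨C, hC, h⟩ := tail_KN β σ hβ1 hβ hσ hσ6
  refine ⟨C, hC, ?_⟩
  intro K hK
  filter_upwards [h K hK, eventually_ge_atTop (1 : ℝ)] with Z hZ hZ1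
  refine le_trans ?_ hZ
  have hfin : (TK β K Z).Finite := (FS_fin Set.univ β (by linarith)).subset (TK_sub β K Z)
  exact_mod_cast Set.ncard_le_ncard (cv_TK β K Z) hfin

theorem fin_tail_psi (β : ℝ) (hβ1 : 1 < β) (hβ : β < 10 / 7) (ψ : ℕ → ℝ)
    (hψ : Tendsto ψ atTop atTop) :
    Tendsto (fun Z : ℝ => ((Cv fun W => (cond W : ℝ) ≤ Z ∧ ht W ≤ Z ^ β ∧
      ψ (cond W) * (cond W : ℝ) < ht W).ncard : ℝ) / Z ^ (5 / 6 : ℝ)) atTop (𝓝 0) := by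
  refine squeeze_zero' (Eventually.of_forall fun Z => ?_) ?_ (tail_psi β hβ1 hβ ψ hψ)
  · rcases le_or_gt 0 Z with h | h
    · positivity
    · have : (Cv fun W => (cond W : ℝ) ≤ Z ∧ ht W ≤ Z ^ β ∧
          ψ (cond W) * (cond W : ℝ) < ht W) = ∅ := by
        rw [Set.eq_empty_iff_forall_notMem]
        rintro e ⟨W, -, ⟨h1, -⟩, -⟩
        have : (0 : ℝ) ≤ (cond W : ℝ) := Nat.cast_nonneg _
        linarith
      rw [this, Set.ncard_empty]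
      simp
  · filter_upwards [eventually_ge_atTop (1 : ℝ)] with Z hZ
    have hZ0 : 0 < Z := by linarith
    have hfin : {e : ℤ × ℤ | ∃ D, Dat e D ∧ (rad D.natAbs : ℝ) ≤ Z ∧
        |(e.1 : ℝ)| ^ 3 ≤ Z ^ β ∧ (e.2 : ℝ) ^ 2 ≤ Z ^ β ∧
        ψ (rad D.natAbs) * rad D.natAbs < max (|(e.1 : ℝ)| ^ 3) ((e.2 : ℝ) ^ 2)}.Finite := by
      refine (FS_fin Set.univ β hZ0.le).subset ?_
      rintro e ⟨D, b1, b2, b3, b4, -⟩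
      exact mem_FS_univ.mpr ⟨D, b1, b2, b3, b4⟩
    have hsub : (Cv fun W => (cond W : ℝ) ≤ Z ∧ ht W ≤ Z ^ β ∧
        ψ (cond W) * (cond W : ℝ) < ht W) ⊆ {e : ℤ × ℤ | ∃ D, Dat e D ∧
        (rad D.natAbs : ℝ) ≤ Z ∧ |(e.1 : ℝ)| ^ 3 ≤ Z ^ β ∧ (e.2 : ℝ) ^ 2 ≤ Z ^ β ∧
        ψ (rad D.natAbs) * rad D.natAbs < max (|(e.1 : ℝ)| ^ 3) ((e.2 : ℝ) ^ 2)} := by
      rintro e ⟨W, ⟨h1, h2⟩, ⟨h3, h4, h5⟩, rfl⟩
      exact ⟨W.Δ, ⟨⟨W, rfl, rfl⟩, h1, W.c_relation.symm, h2⟩, h3, (le_max_left _ _).trans h4,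
        (le_max_right _ _).trans h4, h5⟩
    have := Set.ncard_le_ncard hsub hfin
    gcongr

end Pool.Agent.L0h45.DH
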